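import Pool.Agent.H1.PF.TreeA

set_option autoImplicit false

/-!
# PF Tree: left multiplication and prefixes (helper1)

Useful: `Pool.Agent.H1.PP.Word` (`PPos.toWord_lt_mul`, `PPos.toWord_cons`, `PPos.toWord_mul_of_isReduced`, ..), `FreeGroup.toWord_mul_sublist`; the analogue of `toWord_lt_mul` for right multiplication by a letter (take inverses).

* `step`: `tk h (t+1) = tk h t * lt a` with the letter `a = h.toWord[t]`, so `y * tk h (t+1) = (y * tk h t) * lt a`: multiplication by one letter on the right adds the letter at the end of the reduced
  word, or removes the last letter (if it is the inverse letter). `letter_up`, `letter_down`: which letter was added or removed.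
* `nopeak`: if the step `t → t+1` adds the letter `a` and the step `t+1 → t+2` removes the last letter, then the letter `h.toWord[t+1]` is the inverse of `a`; but `h.toWord` is reduced.
* `pre_mul`: by `step` and `nopeak` the length of `y * tk t k`, `k = 0, ..., len t`, first decreases and then increases (`h = tk t (len h)`). If `k = len h` is in the decreasing part then `y * h` is a prefix of `y`, and if it is in the
  increasing part it is a prefix of `y * t` (induction on the number of steps).
-/

namespace PF

variable {n : ℕ}

private theorem tree_red_append {A B : List (Fin n × Bool)} (hA : FreeGroup.IsReduced A)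
    (hB : FreeGroup.IsReduced B)
    (h : ∀ x ∈ A.getLast?, ∀ z ∈ B.head?, x.1 = z.1 → x.2 = z.2) : FreeGroup.IsReduced (A ++ B) := by
  unfold FreeGroup.IsReduced at *
  rw [List.isChain_append]
  exact ⟨hA, hB, h⟩

/-- right multiplication by a letter -/
private theorem tree_mul_lt (g : F n) (a : Fin n × Bool) :
    (g * PPos.lt a).toWord = g.toWord ++ [a] ∨
      g.toWord = (g * PPos.lt a).toWord ++ [(a.1, !a.2)] := by
  rcases List.eq_nil_or_concat g.toWord with h0 | ⟨w, b, hw⟩
  · left
    rw [PPos.toWord_mul_of_isReduced, PPos.toWord_lt]
    rw [h0, PPos.toWord_lt]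
    exact FreeGroup.IsReduced.singleton
  · rw [List.concat_eq_append] at hw
    have hr : FreeGroup.IsReduced (w ++ [b]) := hw ▸ FreeGroup.isReduced_toWord
    by_cases hb : b = (a.1, !a.2)
    · right
      have hwr : FreeGroup.IsReduced w := PPos.red_of_sub hr ⟨[], [b], by simp⟩
      have h1 : g = FreeGroup.mk w * PPos.lt b := by
        rw [PPos.lt, FreeGroup.mul_mk, ← hw, FreeGroup.mk_toWord]
      have h2 : PPos.lt b = (PPos.lt a)⁻¹ := by
        rw [← PPos.lt_bar]
        rw [hb]
        rfl
      have h3 : g * PPos.lt a = FreeGroup.mk w := by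
        rw [h1, h2, inv_mul_cancel_right]
      rw [h3, PPos.toWord_mk_of_isReduced hwr, hw, hb]
    · left
      have hr2 : FreeGroup.IsReduced (g.toWord ++ [a]) := by
        rw [hw]
        refine tree_red_append hr FreeGroup.IsReduced.singleton ?_
        intro x hx z hz hxz
        rw [List.getLast?_append] at hx
        simp at hx hz
        subst hx hz
        by_contra hne
        apply hb
        refine Prod.ext hxz ?_
        show b.2 = !a.2
        revert hne
        cases b.2 <;> cases a.2 <;> simp
      have := PPos.toWord_mul_of_isReduced (g := g) (h := PPos.lt a) (by rw [PPos.toWord_lt]; exact hr2)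
      rw [this, PPos.toWord_lt]

private theorem tree_tk_succ {h : F n} {t : ℕ} {a : Fin n × Bool} (ha : h.toWord[t]? = some a) :
    tk h (t + 1) = tk h t * PPos.lt a := by
  unfold tk PPos.lt
  rw [FreeGroup.mul_mk]
  congr 1
  rw [List.take_add_one, ha]
  rfl

private theorem tree_step {y h : F n} {t : ℕ} {a : Fin n × Bool} (ha : h.toWord[t]? = some a) :
    (y * tk h (t + 1)).toWord = (y * tk h t).toWord ++ [a] ∨
      (y * tk h t).toWord = (y * tk h (t + 1)).toWord ++ [(a.1, !a.2)] := by
  rw [tree_tk_succ ha, ← mul_assoc]
  exact tree_mul_lt _ a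

theorem step (y h : F n) (t : ℕ) (ht : t < len h) :
    (len (y * tk h (t + 1)) = len (y * tk h t) + 1 ∧ pre (y * tk h t) (y * tk h (t + 1))) ∨
    (len (y * tk h t) = len (y * tk h (t + 1)) + 1 ∧ pre (y * tk h (t + 1)) (y * tk h t)) := by
  have ha : h.toWord[t]? = some (h.toWord[t]'ht) := List.getElem?_eq_getElem ht
  unfold len pre
  rcases tree_step (y := y) ha with h1 | h1
  · left
    rw [h1]
    exact ⟨by rw [List.length_append]; rfl, List.prefix_append _ _⟩
  · right
    rw [h1]
    exact ⟨by rw [List.length_append]; rfl, List.prefix_append _ _⟩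

theorem nopeak (y h : F n) (t : ℕ) (ht : t + 2 ≤ len h) :
    ¬ (len (y * tk h t) < len (y * tk h (t + 1)) ∧ len (y * tk h (t + 2)) < len (y * tk h (t + 1))) := by
  rintro ⟨h1, h2⟩
  unfold len at h1 h2 ht
  have ha : h.toWord[t]? = some (h.toWord[t]'(by omega)) := List.getElem?_eq_getElem (by omega)
  have hb : h.toWord[t + 1]? = some (h.toWord[t + 1]'(by omega)) := List.getElem?_eq_getElem (by omega)
  have hred : FreeGroup.IsReduced h.toWord := FreeGroup.isReduced_toWord
  have hab := List.isChain_iff_getElem.mp hred t (by omega)
  rcases tree_step (y := y) ha with e1 | e1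
  · rcases tree_step (y := y) hb with e2 | e2
    · have e3 := congrArg List.length e2
      rw [List.length_append] at e3
      have e4 : t + 1 + 1 = t + 2 := rfl
      rw [e4, List.length_singleton] at e3
      omega
    · rw [e1] at e2
      have e3 := congrArg List.getLast? e2
      rw [List.getLast?_append, List.getLast?_append] at e3
      simp only [List.getLast?_singleton, Option.some_or, Option.some.injEq] at e3
      have e5 : (h.toWord[t]'(by omega)).1 = (h.toWord[t + 1]'(by omega)).1 := by rw [e3]
      have e6 : (h.toWord[t]'(by omega)).2 = !(h.toWord[t + 1]'(by omega)).2 := by rw [e3]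
      have e7 := hab e5
      rw [e7] at e6
      revert e6
      cases (h.toWord[t + 1]'(by omega)).2 <;> simp
  · have e3 := congrArg List.length e1
    rw [List.length_append, List.length_singleton] at e3
    omega

theorem letter_up (y h : F n) (t : ℕ) (a : Fin n × Bool) (ha : h.toWord[t]? = some a)
    (hu : len (y * tk h t) < len (y * tk h (t + 1))) : (y * tk h (t + 1)).toWord[len (y * tk h t)]? = some a := by
  unfold len at *
  rcases tree_step (y := y) ha with e1 | e1
  · rw [e1, List.getElem?_append_right le_rfl, Nat.sub_self]
    rfl
  · have e3 := congrArg List.length e1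
    rw [List.length_append, List.length_singleton] at e3
    omega

theorem letter_down (y h : F n) (t : ℕ) (a : Fin n × Bool) (ha : h.toWord[t]? = some a)
    (hu : len (y * tk h (t + 1)) < len (y * tk h t)) : (y * tk h t).toWord[len (y * tk h (t + 1))]? = some (a.1, !a.2) := by
  unfold len at *
  rcases tree_step (y := y) ha with e1 | e1
  · have e3 := congrArg List.length e1
    rw [List.length_append, List.length_singleton] at e3
    omega
  · rw [e1, List.getElem?_append_right le_rfl, Nat.sub_self]
    rfl

/-- `g` is a prefix of `g * k` or there is a cancellation -/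
private theorem tree_pre_or (g k : F n) :
    pre g (g * k) ∨ ∃ x, g.toWord.getLast? = some x ∧ k.toWord.head? = some (x.1, !x.2) := by
  by_cases h : ∃ x, g.toWord.getLast? = some x ∧ k.toWord.head? = some (x.1, !x.2)
  · exact Or.inr h
  · left
    have hr : FreeGroup.IsReduced (g.toWord ++ k.toWord) := by
      refine tree_red_append FreeGroup.isReduced_toWord FreeGroup.isReduced_toWord ?_
      intro x hx z hz hxz
      rw [Option.mem_def] at hx hz
      by_contra hne
      apply h
      refine ⟨x, hx, ?_⟩
      rw [hz]
      congr 1
      refine Prod.ext hxz.symm ?_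
      show z.2 = !x.2
      revert hne
      cases x.2 <;> cases z.2 <;> simp
    unfold pre
    rw [PPos.toWord_mul_of_isReduced hr]
    exact List.prefix_append _ _

theorem pre_mul (y : F n) {h t : F n} (hp : pre h t) : pre (y * h) y ∨ pre (y * h) (y * t) := by
  obtain ⟨r, hr⟩ := hp
  have htr : FreeGroup.IsReduced (h.toWord ++ r) := hr ▸ FreeGroup.isReduced_toWord
  have hrr : FreeGroup.IsReduced r := PPos.red_of_sub htr ⟨h.toWord, [], by simp⟩
  have ht : t = h * FreeGroup.mk r := by
    have h1 : FreeGroup.mk t.toWord = t := FreeGroup.mk_toWord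
    rw [← hr, ← FreeGroup.mul_mk, FreeGroup.mk_toWord] at h1
    exact h1.symm
  rcases tree_pre_or (y * h) h⁻¹ with h1 | ⟨x, hx, hx'⟩
  · left
    rwa [mul_inv_cancel_right] at h1
  · rcases tree_pre_or (y * h) (FreeGroup.mk r) with h2 | ⟨z, hz, hz'⟩
    · right
      rw [ht, ← mul_assoc]
      exact h2
    · exfalso
      rw [hx] at hz
      obtain rfl : x = z := Option.some.inj hz
      rw [PPos.toWord_mk_of_isReduced hrr] at hz'
      rw [FreeGroup.toWord_inv] at hx'
      have h3 : h.toWord.getLast? = some x := by
        unfold FreeGroup.invRev at hx'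
        rw [List.head?_reverse, List.getLast?_map] at hx'
        rcases h4 : h.toWord.getLast? with _ | b
        · rw [h4] at hx'
          simp at hx'
        · rw [h4] at hx'
          simp only [Option.map_some, Option.some.injEq, Prod.mk.injEq] at hx'
          congr 1
          refine Prod.ext hx'.1 ?_
          have h5 := hx'.2
          revert h5
          cases b.2 <;> cases x.2 <;> simp
      unfold FreeGroup.IsReduced at htr
      rw [List.isChain_append] at htr
      have h6 := htr.2.2 x h3 (x.1, !x.2) hz' rfl
      simp at h6

end PF
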