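import Pool.Agent.H1.PF.Blocks
import Pool.Agent.H1.PF.Tree

set_option autoImplicit false

/-!
# PF Bands: the partial isometries of the hull (helper1)

`B i` = prefixes `h` of some `t ∈ S` with `y i * t ∈ S`; by `pre_mul` `y i * h` is a prefix of `y i ∈ S` or of `y i * t ∈ S`. `1 ∈ B i` (with `t = 1`).
`M1_branch`: `v = tk c t ∈ B i` and by `branch` (for the two different successors) `v ∈ M0`.
`pt_spec`: `Nat.findGreatest_spec` (with `t = 0`: `tk c 0 = 1 ∈ M1 i`, `0 < len c`), `Nat.findGreatest_is_greatest`.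
`unit_unique`: every `h ∈ B i`, `h ≠ 1`, is in the segment of at most one `c`: let `c ≠ c'` be in `M1 i`, `pt i c < len h`, `pt i c' < len h`, `h` a prefix of both. If `c` is a prefix of `c'` then `t = len c` satisfies
`len h ≤ t < len c'`, `tk c' t = c ∈ M1 i`, contradiction to `pt_spec`. In the same way for `c'`. Otherwise let `t` be the length of the longest common prefix: `len h ≤ t < len c`, `tk c t = tk c' t ∈ M1 i` by `M1_branch`; contradiction.
-/

namespace PF

namespace Dat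

variable {n : ℕ} {d : Dat n}

theorem mem_B {i : Fin n} {h : F n} : h ∈ d.B i ↔ ∃ t ∈ d.S, d.y i * t ∈ d.S ∧ pre h t := by
  classical
  unfold B
  rw [Finset.mem_filter]
  constructor
  · rintro ⟨_, h2⟩
    exact h2
  · rintro ⟨t, ht, hyt, hp⟩
    exact ⟨mem_PreF.mpr ⟨t, ht, hp⟩, t, ht, hyt, hp⟩

theorem B_pre {i : Fin n} {h : F n} (h' : h ∈ d.B i) : d.PreS h ∧ d.PreS (d.y i * h) := by
  obtain ⟨t, ht, hyt, hp⟩ := mem_B.mp h'
  refine ⟨⟨t, ht, hp⟩, ?_⟩
  rcases pre_mul (d.y i) hp with h1 | h1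
  · exact ⟨d.y i, y_mem_S d i, h1⟩
  · exact ⟨d.y i * t, hyt, h1⟩

theorem B_tk {i : Fin n} {h : F n} (h' : h ∈ d.B i) (t : ℕ) : tk h t ∈ d.B i := by
  obtain ⟨s, hs, hys, hp⟩ := mem_B.mp h'
  exact mem_B.mpr ⟨s, hs, hys, pre_trans (pre_tk h t) hp⟩

theorem one_mem_M1 (i : Fin n) : (1 : F n) ∈ d.M1 i := by
  unfold M1
  rw [Finset.mem_filter]
  refine ⟨mem_B.mpr ⟨1, one_mem_S d, ?_, pre_rfl 1⟩, Or.inl (S_M0 (one_mem_S d))⟩
  rw [mul_one]
  exact y_mem_S d i

theorem M1_B {i : Fin n} {h : F n} (h' : h ∈ d.M1 i) : h ∈ d.B i := by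
  unfold M1 at h'
  exact (Finset.mem_filter.mp h').1

theorem not_M1 {i : Fin n} {h : F n} (h' : h ∈ d.B i) (h0 : h ∉ d.M1 i) : h ∉ d.M0 ∧ d.y i * h ∉ d.M0 := by
  unfold M1 at h0
  rw [Finset.mem_filter] at h0
  push Not at h0
  exact h0 h'

/-- if `s` and `y i * s` are in `S` then `s ∈ M1 i` -/
theorem S_M1 {i : Fin n} {s : F n} (h : s ∈ d.S) (h' : d.y i * s ∈ d.S) : s ∈ d.M1 i := by
  unfold M1
  rw [Finset.mem_filter]
  exact ⟨mem_B.mpr ⟨s, h, h', pre_rfl s⟩, Or.inl (S_M0 h)⟩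

theorem M1_MM {i : Fin n} {h : F n} (h' : h ∈ d.M1 i) : h ∈ d.MM ∧ d.y i * h ∈ d.MM := by
  unfold MM
  constructor
  · rw [Finset.mem_union, Finset.mem_biUnion]
    exact Or.inr ⟨i, Finset.mem_univ i, Finset.mem_union_left _ h'⟩
  · rw [Finset.mem_union, Finset.mem_biUnion]
    exact Or.inr ⟨i, Finset.mem_univ i, Finset.mem_union_right _ (Finset.mem_image.mpr ⟨h, h', rfl⟩)⟩

theorem M0_MM {h : F n} (h' : h ∈ d.M0) : h ∈ d.MM := by
  unfold MM
  exact Finset.mem_union_left _ h'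

theorem MM_preS {h : F n} (h' : h ∈ d.MM) : d.PreS h := by
  unfold MM at h'
  rw [Finset.mem_union, Finset.mem_biUnion] at h'
  rcases h' with h1 | ⟨i, _, h2⟩
  · exact M0_preS h1
  · rw [Finset.mem_union, Finset.mem_image] at h2
    rcases h2 with h3 | ⟨g, hg, rfl⟩
    · exact (B_pre (M1_B h3)).1
    · exact (B_pre (M1_B hg)).2

theorem M1_branch {i : Fin n} {c c' : F n} (h : c ∈ d.M1 i) (h' : c' ∈ d.M1 i) {t : ℕ} (ht : t < len c) (ht' : t < len c')
    (he : tk c t = tk c' t) (hne : tk c (t + 1) ≠ tk c' (t + 1)) : tk c t ∈ d.M1 i := by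
  have hb := B_tk (M1_B h) t
  have e1 : tk (tk c (t + 1)) t = tk c t := by
    rw [tk_tk, min_eq_left (Nat.le_succ t)]
  have e2 : tk (tk c' (t + 1)) t = tk c' t := by
    rw [tk_tk, min_eq_left (Nat.le_succ t)]
  have h1 : tk (tk c (t + 1)) t ∈ d.M0 := by
    refine branch (preS_tk (B_pre (M1_B h)).1 (t + 1)) (preS_tk (B_pre (M1_B h')).1 (t + 1)) hne
      (by rw [len_tk]; omega) (by rw [len_tk]; omega) ?_
    rw [e1, e2, he]
  rw [e1] at h1
  unfold M1
  rw [Finset.mem_filter]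
  exact ⟨hb, Or.inl h1⟩

theorem pt_spec {i : Fin n} {c : F n} (h : c ∈ d.M1 i) (h1 : c ≠ 1) :
    d.pt i c < len c ∧ tk c (d.pt i c) ∈ d.M1 i ∧ ∀ t, d.pt i c < t → t < len c → tk c t ∉ d.M1 i := by
  classical
  have hl : 0 < len c := by
    rcases Nat.eq_zero_or_pos (len c) with h2 | h2
    · exact absurd ((len_eq_zero c).mp h2) h1
    · exact h2
  have h0 : 0 < len c ∧ tk c 0 ∈ d.M1 i := by
    refine ⟨hl, ?_⟩
    rw [tk_zero]
    exact one_mem_M1 i
  have hs := Nat.findGreatest_spec (P := fun t => t < len c ∧ tk c t ∈ d.M1 i) (Nat.zero_le (len c)) h0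
  have hp : d.pt i c = Nat.findGreatest (fun t => t < len c ∧ tk c t ∈ d.M1 i) (len c) := by
    unfold pt
    congr
  rw [hp]
  refine ⟨hs.1, hs.2, fun t h2 h3 h4 => ?_⟩
  exact Nat.findGreatest_is_greatest h2 h3.le ⟨h3, h4⟩

theorem unit_unique {i : Fin n} {c c' h : F n} (hc : c ∈ d.M1 i) (hc' : c' ∈ d.M1 i) (h1 : c ≠ 1) (h1' : c' ≠ 1)
    (hp : pre h c) (hp' : pre h c') (ht : d.pt i c < len h) (ht' : d.pt i c' < len h) : c = c' := by
  classical
  by_contra hne
  obtain ⟨_, _, hs⟩ := pt_spec hc h1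
  obtain ⟨_, _, hs'⟩ := pt_spec hc' h1'
  by_cases p1 : pre c c'
  · have hl : len c < len c' := by
      rcases Nat.lt_or_ge (len c) (len c') with h2 | h2
      · exact h2
      · exact absurd (pre_eq p1 (pre_rfl c') (le_antisymm (pre_len p1) h2)) hne
    apply hs' (len c) (lt_of_lt_of_le ht' (pre_len hp)) hl
    rw [(pre_iff c c').mp p1]
    exact hc
  by_cases p2 : pre c' c
  · have hl : len c' < len c := by
      rcases Nat.lt_or_ge (len c') (len c) with h2 | h2
      · exact h2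
      · exact absurd (pre_eq p2 (pre_rfl c) (le_antisymm (pre_len p2) h2)) (Ne.symm hne)
    apply hs (len c') (lt_of_lt_of_le ht (pre_len hp')) hl
    rw [(pre_iff c' c).mp p2]
    exact hc'
  have hex : ∃ m, tk c m ≠ tk c' m := by
    refine ⟨max (len c) (len c'), ?_⟩
    rw [tk_self (le_max_left _ _), tk_self (le_max_right _ _)]
    exact hne
  obtain ⟨t, hm, hmin⟩ : ∃ t, tk c (t + 1) ≠ tk c' (t + 1) ∧ tk c t = tk c' t := by
    have h2 := Nat.find_spec hex
    have h3 : Nat.find hex ≠ 0 := by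
      intro h4
      rw [h4, tk_zero, tk_zero] at h2
      exact h2 rfl
    obtain ⟨t, h5⟩ := Nat.exists_eq_succ_of_ne_zero h3
    refine ⟨t, by rw [h5] at h2; exact h2, ?_⟩
    have h6 := Nat.find_min hex (m := t) (by omega)
    push Not at h6
    exact h6
  have l1 : t < len c := by
    rcases Nat.lt_or_ge t (len c) with h2 | h2
    · exact h2
    · exfalso
      apply p1
      rw [tk_self h2] at hmin
      rw [hmin]
      exact pre_tk c' t
  have l2 : t < len c' := by
    rcases Nat.lt_or_ge t (len c') with h2 | h2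
    · exact h2
    · exfalso
      apply p2
      rw [tk_self h2] at hmin
      rw [← hmin]
      exact pre_tk c t
  have hM := M1_branch hc hc' l1 l2 hmin hm
  have hh : len h ≤ t := by
    by_contra hcon
    have h2 : t + 1 ≤ len h := by omega
    apply hm
    have e1 : tk c (t + 1) = tk h (t + 1) := by
      conv_rhs => rw [← (pre_iff h c).mp hp, tk_tk, min_eq_left h2]
    have e2 : tk c' (t + 1) = tk h (t + 1) := by
      conv_rhs => rw [← (pre_iff h c').mp hp', tk_tk, min_eq_left h2]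
    rw [e1, e2]
  exact hs t (by omega) l1 hM

theorem card_M1 (i : Fin n) : (d.M1 i).card ≤ 2 * d.M0.card := by
  classical
  have h1 : d.M1 i ⊆ d.M0 ∪ d.M0.image (fun g => (d.y i)⁻¹ * g) := by
    intro h hh
    unfold M1 at hh
    rw [Finset.mem_filter] at hh
    rw [Finset.mem_union]
    rcases hh.2 with h2 | h2
    · exact Or.inl h2
    · right
      rw [Finset.mem_image]
      exact ⟨_, h2, by rw [inv_mul_cancel_left]⟩
  calc (d.M1 i).card ≤ (d.M0 ∪ d.M0.image (fun g => (d.y i)⁻¹ * g)).card := Finset.card_le_card h1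
    _ ≤ d.M0.card + (d.M0.image (fun g => (d.y i)⁻¹ * g)).card := Finset.card_union_le _ _
    _ ≤ d.M0.card + d.M0.card := Nat.add_le_add_left Finset.card_image_le _
    _ = 2 * d.M0.card := by ring

end Dat

end PF
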