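import Pool.Agent.H1.PF.Defs

set_option autoImplicit false

/-!
# PF Basic: values of words and lists of pairs (helper1)

All statements are short (`simp`, `List.prod_append`, `List.prod_reverse_noncomm` or induction on the list, `FreeGroup.lift`, `FreeGroup.mul_mk`,
`FreeGroup.inv_mk`, `map_inv`).
-/

namespace PF

variable {A G : Type} [Group G]

theorem val_nil (m : A → G) : val m [] = 1 := rfl

theorem val_singleton (m : A → G) (e : A × A) : val m [e] = (m e.1)⁻¹ * m e.2 := by
  unfold val
  rw [List.map_singleton, List.prod_singleton]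

theorem val_append (m : A → G) (L L' : List (A × A)) : val m (L ++ L') = val m L * val m L' := by
  unfold val
  rw [List.map_append, List.prod_append]

/-- the reversed list of the reversed pairs has the inverse value -/
theorem val_rev (m : A → G) (L : List (A × A)) : val m (L.map Prod.swap).reverse = (val m L)⁻¹ := by
  induction L with
  | nil => rw [List.map_nil, List.reverse_nil, val_nil, inv_one]
  | cons e L ih =>
    rw [List.map_cons, List.reverse_cons, val_append, ih, val_singleton,
      show e :: L = [e] ++ L from rfl, val_append, val_singleton]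
    simp only [Prod.fst_swap, Prod.snd_swap]
    group

theorem val_flatMap {C : Type} (m : A → G) (m' : C → G) (T : A × A → List (C × C)) (L : List (A × A))
    (h : ∀ e ∈ L, (m e.1)⁻¹ * m e.2 = val m' (T e)) : val m L = val m' (L.flatMap T) := by
  induction L with
  | nil => rfl
  | cons e L ih =>
    rw [List.flatMap_cons, val_append, show e :: L = [e] ++ L from rfl, val_append, val_singleton,
      h e List.mem_cons_self, ih fun e' he' => h e' (List.mem_cons_of_mem _ he')]

theorem ev_nil {n : ℕ} (h : Fin n → G) : ev h [] = 1 := by
  unfold ev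
  exact map_one _

theorem ev_append {n : ℕ} (h : Fin n → G) (w w' : List (Fin n × Bool)) : ev h (w ++ w') = ev h w * ev h w' := by
  unfold ev
  rw [← FreeGroup.mul_mk, map_mul]

theorem ev_invRev {n : ℕ} (h : Fin n → G) (w : List (Fin n × Bool)) : ev h (FreeGroup.invRev w) = (ev h w)⁻¹ := by
  unfold ev
  rw [← FreeGroup.inv_mk, map_inv]

theorem ev_single {n : ℕ} (h : Fin n → G) (i : Fin n) : ev h [(i, true)] = h i := by
  unfold ev
  exact FreeGroup.lift_apply_of

theorem ev_flatMap {n : ℕ} {C : Type} (h : Fin n → G) (F : C → List (Fin n × Bool)) (L : List C) :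
    ev h (L.flatMap F) = (L.map fun e => ev h (F e)).prod := by
  induction L with
  | nil => exact ev_nil h
  | cons e L ih => rw [List.flatMap_cons, ev_append, ih, List.map_cons, List.prod_cons]

/-- compatibility with homomorphisms -/
theorem map_ev {n : ℕ} {H : Type} [Group H] (φ : G →* H) (h : Fin n → G) (w : List (Fin n × Bool)) :
    φ (ev h w) = ev (fun i => φ (h i)) w := by
  have e : φ.comp (FreeGroup.lift h) = FreeGroup.lift fun i => φ (h i) := by
    ext i
    rw [MonoidHom.comp_apply, FreeGroup.lift_apply_of, FreeGroup.lift_apply_of]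
  exact DFunLike.congr_fun e (FreeGroup.mk w)

/-- certificates are monotone in the bound -/
theorem Cert.mono {f : FS A} {n B B' : ℕ} {w : List (Fin n × Bool)} (h : B ≤ B') (hC : Cert f n B w) : Cert f n B' w := by
  obtain ⟨W, ⟨h1, h2, lam, h3, h4⟩, h5⟩ := hC
  exact ⟨W, ⟨fun i => (h1 i).trans h, h2, lam, fun x y => (h3 x y).trans h, h4⟩, h5⟩

end PF
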