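import Pool.Agent.H1.PF.BlocksA

set_option autoImplicit false

/-!
# PF Blocks: units and blocks of the hull (helper1)

* `1 ∈ S` (the word `[]`), `y i ∈ S` (the word `[(i, true)]`, length `1 ≤ N + 1`; `PPos.mem_wordsLE`). `len s ≤` the maximum, so `len h + 2 ≤ Lam` for prefixes `h` of members of `S`.
* `blk h` is the first index `j` with `pre h S[j]` (`List.findIdx_lt_length`, `List.findIdx_getElem`, `List.not_of_lt_findIdx`).
* `P h = blk h * Lam + len h`, `len h < Lam`: division with remainder. For `h ≠ 1` also for `P h - 1` (`len h ≥ 1`).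
* `D_name`: for `x ∈ D` put `h = tk (el x) (x % Lam + 1)`; `blk h = x / Lam`, `len h = x % Lam + 1` (as `x % Lam < len (el x)`), `x + 1` has the same quotient (`x % Lam + 1 < Lam`).
* `blk_pred`: if `blk (tk h (len h - 1)) ≠ blk h` or `tk h (len h - 1) = 1`, then the unit `x = P h - 1` has no left neighbour in `D`: a left neighbour `u`, `u + 1 = x`, would be in the same block (if `x % Lam > 0`; its name is
  `tk h (len h - 1)`, whose `blk` is wrong), or, if `x % Lam = 0`, `u % Lam = Lam - 1 ≥ len (el u)`. So `mZ x = tk h (len h - 1) ∈ M0` by definition of `M0`.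
* `branch`: `c1 ≠ c2` with the same predecessor `v = tk c1 t`. If `v ∉ M0` then `blk c1 = blk v = blk c2` by `blk_pred`, so `c1, c2` are prefixes of the same `S[j]` of the same length, hence equal.
* `bdR`: let `j = x / Lam`, `h = mZ (x+1)`, `blk h = j`. If `x % Lam + 1 < len (el x)` then `h' = tk (el x) (x % Lam + 2)` is a prefix of `S[j]`, so `blk h' ≤ j`, and `blk h' ≥ blk h = j` because `h` is a prefix of `h'`. So `x + 1 ∈ D`. Contradiction;
  so `x % Lam + 1 = len (el x)` and `mZ (x+1) = el x ∈ S`.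
* `card_M0`: at most one left boundary per block: if `x < x'` are left boundaries in the same block then all units between `x` and `x'` are in `D` (as in `bdR`), contradiction. So `x ↦ x / Lam < |S|` is injective on left boundaries.
-/

namespace PF

namespace Dat

variable {n : ℕ} {d : Dat n}

private theorem Blocks_mem {x : ℕ} : x ∈ d.D ↔ x < d.S.length * d.Lam ∧ x % d.Lam < len (d.el x) ∧
    d.blk (tk (d.el x) (x % d.Lam + 1)) = x / d.Lam := by
  unfold D
  rw [Finset.mem_filter, Finset.mem_range]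

private theorem Blocks_D {x : ℕ} (hx : x ∈ d.D) : x / d.Lam < d.S.length ∧ x % d.Lam < len (d.el x) ∧
    d.blk (tk (d.el x) (x % d.Lam + 1)) = x / d.Lam ∧ d.el x ∈ d.S ∧ x % d.Lam + 1 < d.Lam ∧
    (x + 1) / d.Lam = x / d.Lam ∧ (x + 1) % d.Lam = x % d.Lam + 1 := by
  obtain ⟨h1, h2, h3⟩ := Blocks_mem.1 hx
  have hj : x / d.Lam < d.S.length := Nat.div_lt_of_lt_mul (by rw [mul_comm]; exact h1)
  have hel : d.el x ∈ d.S := by
    unfold el
    rw [List.getD_eq_getElem _ _ hj]
    exact List.getElem_mem hj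
  have hl := len_lt_Lam (preS_of_mem hel)
  have ht : x % d.Lam + 1 < d.Lam := by omega
  have hdm := Nat.div_add_mod x d.Lam
  have e1 : x + 1 = (x % d.Lam + 1) + d.Lam * (x / d.Lam) := by omega
  refine ⟨hj, h2, h3, hel, ht, ?_, ?_⟩
  · conv_lhs => rw [e1]
    rw [Nat.add_mul_div_left _ _ (by omega), Nat.div_eq_of_lt ht, zero_add]
  · conv_lhs => rw [e1]
    rw [Nat.add_mul_mod_self_left, Nat.mod_eq_of_lt ht]

private theorem Blocks_el {x : ℕ} (hx : x ∈ d.D) : d.el (x + 1) = d.el x := by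
  obtain ⟨-, -, -, -, -, h1, -⟩ := Blocks_D hx
  unfold el
  rw [h1]

private theorem Blocks_mZ {x : ℕ} (hx : x ∈ d.D) : d.mZ (x + 1) = tk (d.el x) (x % d.Lam + 1) := by
  obtain ⟨-, -, -, -, -, -, h1⟩ := Blocks_D hx
  unfold mZ
  rw [h1, Blocks_el hx]

private theorem Blocks_next {x : ℕ} (hx : x ∈ d.D) (h : x % d.Lam + 1 < len (d.el x)) : x + 1 ∈ d.D := by
  obtain ⟨hj, h2, h3, hel, ht, h4, h5⟩ := Blocks_D hx
  rw [Blocks_mem, Blocks_el hx, h4, h5]
  refine ⟨?_, h, ?_⟩
  · have h6 : (x + 1) / d.Lam < d.S.length := by omega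
    exact (Nat.div_lt_iff_lt_mul (by omega)).1 h6
  · apply le_antisymm
    · exact blk_le hj (pre_tk _ _)
    · have h7 : pre (tk (d.el x) (x % d.Lam + 1)) (tk (d.el x) (x % d.Lam + 1 + 1)) := by
        have h8 := pre_tk (tk (d.el x) (x % d.Lam + 1 + 1)) (x % d.Lam + 1)
        rwa [tk_tk, min_eq_left (Nat.le_succ _)] at h8
      have h9 := blk_mono (preS_tk (preS_of_mem hel) _) h7
      omega

/-- the letter of a unit -/
theorem sg_D {x : ℕ} (hx : x ∈ d.D) : ∃ a : Fin n × Bool, (d.mZ (x + 1)).toWord[len (d.mZ x)]? = some a ∧ d.sg x = a.2 := by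
  obtain ⟨-, h2, -, -, -, -, -⟩ := Blocks_D hx
  have hlen : x % d.Lam < (d.el x).toWord.length := h2
  have h1 : len (d.mZ x) = x % d.Lam := by
    unfold mZ
    rw [len_tk, min_eq_left h2.le]
  have h3 : (d.el x).toWord[x % d.Lam]? = some ((d.el x).toWord[x % d.Lam]) :=
    List.getElem?_eq_getElem hlen
  refine ⟨(d.el x).toWord[x % d.Lam], ?_, ?_⟩
  · rw [h1, Blocks_mZ hx, toWord_tk, List.getElem?_take_of_lt (Nat.lt_succ_self _), h3]
  · unfold sg
    rw [h3]
    rfl

theorem S_M0 {s : F n} (h : s ∈ d.S) : s ∈ d.M0 := by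
  unfold M0
  exact Finset.mem_union_left _ (List.mem_toFinset.2 h)

theorem M0_preS {h : F n} (h' : h ∈ d.M0) : d.PreS h := by
  unfold M0 at h'
  rcases Finset.mem_union.1 h' with h1 | h1
  · exact preS_of_mem (List.mem_toFinset.1 h1)
  · obtain ⟨x, hx, rfl⟩ := Finset.mem_image.1 h1
    exact (D_name (Finset.mem_filter.1 hx).1).2.2.2.2.2

theorem left_M0 {x : ℕ} (hx : x ∈ d.D) (h : ∀ u ∈ d.D, u + 1 ≠ x) : d.mZ x ∈ d.M0 := by
  unfold M0
  exact Finset.mem_union_right _ (Finset.mem_image.2 ⟨x, Finset.mem_filter.2 ⟨hx, h⟩, rfl⟩)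

theorem blk_pred {h : F n} (h' : d.PreS h) (h1 : h ≠ 1) (h0 : tk h (len h - 1) ∉ d.M0) :
    tk h (len h - 1) ≠ 1 ∧ d.blk (tk h (len h - 1)) = d.blk h ∧ d.P (tk h (len h - 1)) + 1 = d.P h := by
  have hx := P1_mem h' h1
  have hm := mZ_P1 h' h1
  obtain ⟨hp1, hp2, -⟩ := P1_div h' h1
  have hex : ∃ u ∈ d.D, u + 1 = d.P h - 1 := by
    by_contra hcon
    apply h0
    rw [← hm]
    refine left_M0 hx fun u hu he => hcon ⟨u, hu, he⟩
  obtain ⟨u, hu, he⟩ := hex
  obtain ⟨n1, n2, n3, -, -, -⟩ := D_name hu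
  rw [he, hm] at n1 n2 n3
  refine ⟨n2, ?_, by omega⟩
  rw [← (P_div n1).1, n3, hp2]

theorem branch {c1 c2 : F n} (h1 : d.PreS c1) (h2 : d.PreS c2) (hne : c1 ≠ c2) {t : ℕ} (hl1 : len c1 = t + 1) (hl2 : len c2 = t + 1)
    (ht : tk c1 t = tk c2 t) : tk c1 t ∈ d.M0 := by
  by_contra hcon
  have e1 : len c1 - 1 = t := by omega
  have e2 : len c2 - 1 = t := by omega
  have n1 : c1 ≠ 1 := by
    intro h
    have := (len_eq_zero c1).2 h
    omega
  have n2 : c2 ≠ 1 := by
    intro h
    have := (len_eq_zero c2).2 h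
    omega
  have b1 := (blk_pred h1 n1 (by rw [e1]; exact hcon)).2.1
  have b2 := (blk_pred h2 n2 (by rw [e2, ← ht]; exact hcon)).2.1
  rw [e1] at b1
  rw [e2, ← ht] at b2
  have hb : d.blk c1 = d.blk c2 := by rw [← b1, ← b2]
  have p1 := pre_blk h1
  have p2 := pre_blk h2
  rw [← hb] at p2
  exact hne (pre_eq p1 p2 (by omega))

theorem bdR_S {x : ℕ} (hx : x ∈ d.D) (h : x + 1 ∉ d.D) : d.mZ (x + 1) ∈ d.S := by
  obtain ⟨-, -, -, hel, -, -, -⟩ := Blocks_D hx
  have h1 : len (d.el x) ≤ x % d.Lam + 1 := by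
    by_contra hcon
    exact h (Blocks_next hx (by omega))
  rw [Blocks_mZ hx, tk_self h1]
  exact hel

private theorem Blocks_between {x x' : ℕ} (hx : x ∈ d.D) (hx' : x' ∈ d.D) (he : x / d.Lam = x' / d.Lam)
    (k : ℕ) (hk : x + k < x') : x + k ∈ d.D := by
  induction k with
  | zero => exact hx
  | succ k ih =>
    have h1 := ih (by omega)
    have hle : x / d.Lam ≤ (x + k) / d.Lam := Nat.div_le_div_right (by omega)
    have hle' : (x + k) / d.Lam ≤ x' / d.Lam := Nat.div_le_div_right (by omega)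
    have hq : (x + k) / d.Lam = x' / d.Lam := by omega
    have hel : d.el (x + k) = d.el x' := by
      unfold el
      rw [hq]
    have h2 := (Blocks_D hx').2.1
    have d1 := Nat.div_add_mod (x + k) d.Lam
    have d2 := Nat.div_add_mod x' d.Lam
    rw [hq] at d1
    have h3 := Blocks_next h1 (by rw [hel]; omega)
    rwa [add_assoc] at h3

theorem card_M0 : d.M0.card ≤ 2 * d.S.length := by
  classical
  unfold M0
  refine le_trans (Finset.card_union_le _ _) ?_
  have h1 := List.toFinset_card_le d.S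
  have h2 : ((d.D.filter fun x => ∀ u ∈ d.D, u + 1 ≠ x).image d.mZ).card ≤ d.S.length := by
    refine le_trans Finset.card_image_le ?_
    have h3 : (d.D.filter fun x => ∀ u ∈ d.D, u + 1 ≠ x).card ≤ (Finset.range d.S.length).card := by
      refine Finset.card_le_card_of_injOn (fun x => x / d.Lam) ?_ ?_
      · intro x hx
        rw [Finset.mem_coe, Finset.mem_range]
        exact (Blocks_D (Finset.mem_filter.1 (Finset.mem_coe.1 hx)).1).1
      · have key : ∀ x ∈ d.D.filter fun x => ∀ u ∈ d.D, u + 1 ≠ x, ∀ x' ∈ d.D.filter fun x => ∀ u ∈ d.D, u + 1 ≠ x,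
            x / d.Lam = x' / d.Lam → ¬ x < x' := by
          intro x hx x' hx' he hlt
          obtain ⟨hx1, -⟩ := Finset.mem_filter.1 hx
          obtain ⟨hx1', hx2'⟩ := Finset.mem_filter.1 hx'
          have h4 := Blocks_between hx1 hx1' he (x' - 1 - x) (by omega)
          exact hx2' _ h4 (by omega)
        intro x hx x' hx' he
        have hx1 := Finset.mem_coe.1 hx
        have hx2 := Finset.mem_coe.1 hx'
        have k1 := key x hx1 x' hx2 he
        have k2 := key x' hx2 x hx1 he.symm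
        omega
    rwa [Finset.card_range] at h3
  rw [two_mul]
  exact add_le_add h1 h2

end Dat

end PF
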