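import Pool.Agent.H1.PF.TreeA

set_option autoImplicit false

/-!
# PF BlocksA: units and blocks of the hull (helper1)

* `1 ∈ S` (the word `[]`), `y i ∈ S` (the word `[(i, true)]`, length `1 ≤ N + 1`; `PPos.mem_wordsLE`). `len s ≤` the maximum, so `len h + 2 ≤ Lam` for prefixes `h` of members of `S`.
* `blk h` is the first index `j` with `pre h S[j]` (`List.findIdx_lt_length`, `List.findIdx_getElem`, `List.not_of_lt_findIdx`).
* `P h = blk h * Lam + len h`, `len h < Lam`: division with remainder. For `h ≠ 1` also for `P h - 1` (`len h ≥ 1`).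
* `D_name`: for `x ∈ D` put `h = tk (el x) (x % Lam + 1)`; `blk h = x / Lam`, `len h = x % Lam + 1` (as `x % Lam < len (el x)`), `x + 1` has the same quotient (`x % Lam + 1 < Lam`).
* `blk_pred`: if `blk (tk h (len h - 1)) ≠ blk h` or `tk h (len h - 1) = 1`, then the unit `x = P h - 1` has no left neighbour in `D`: a left neighbour `u`, `u + 1 = x`, would be in the same block (if `x % Lam > 0`; its name is
  `tk h (len h - 1)`, whose `blk` is wrong), or, if `x % Lam = 0`, `u % Lam = Lam - 1 ≥ len (el u)`. So `mZ x = tk h (len h - 1) ∈ M0` by definition of `M0`.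
* `branch`: `c1 ≠ c2` with the same predecessor `v = tk c1 t`. If `v ∉ M0` then `blk c1 = blk v = blk c2` by `blk_pred`, so `c1, c2` are prefixes of the same `S[j]` of the same length, hence equal.
* `bdR`: let `j = x / Lam`, `h = mZ (x+1)`, `blk h = j`. If `x % Lam + 1 < len (el x)` then `h' = tk (el x) (x % Lam + 2)` is a prefix of `S[j]`, so `blk h' ≤ j`, and `blk h' ≥ blk h = j` because `h` is a prefix of `h'`. So `x + 1 ∈ D`. Contradiction;
  so `x % Lam + 1 = len (el x)` and `mZ (x+1) = el x ∈ S`.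
* `card_M0`: at most one left boundary per block: if `x < x'` are left boundaries in the same block then all units between `x` and `x'` are in `D` (as in `bdR`), contradiction. So `x ↦ x / Lam < |S|` is injective on left boundaries.
-/

namespace PF

namespace Dat

variable {n : ℕ} (d : Dat n)

theorem one_mem_S : (1 : F n) ∈ d.S := by
  refine List.mem_map.2 ⟨[], PPos.mem_wordsLE.2 (Nat.zero_le _), ?_⟩
  rw [← FreeGroup.one_eq_mk, map_one]

theorem y_mem_S (i : Fin n) : d.y i ∈ d.S := by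
  refine List.mem_map.2 ⟨[(i, true)], PPos.mem_wordsLE.2 ?_, rfl⟩
  rw [List.length_singleton]
  exact Nat.le_add_left 1 _

variable {d}

theorem preS_of_mem {s : F n} (h : s ∈ d.S) : d.PreS s := ⟨s, h, pre_rfl s⟩

theorem preS_of_pre {g h : F n} (hp : pre g h) (h' : d.PreS h) : d.PreS g := by
  obtain ⟨s, hs, hp'⟩ := h'
  exact ⟨s, hs, pre_trans hp hp'⟩

theorem preS_tk {h : F n} (h' : d.PreS h) (t : ℕ) : d.PreS (tk h t) := preS_of_pre (pre_tk h t) h'

theorem mem_PreF {h : F n} : h ∈ d.PreF ↔ d.PreS h := by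
  classical
  unfold PreF PreS
  rw [Finset.mem_biUnion]
  constructor
  · rintro ⟨s, hs, hh⟩
    obtain ⟨t, -, rfl⟩ := Finset.mem_image.1 hh
    exact ⟨s, List.mem_toFinset.1 hs, pre_tk s t⟩
  · rintro ⟨s, hs, hp⟩
    refine ⟨s, List.mem_toFinset.2 hs, Finset.mem_image.2 ⟨len h, ?_, (pre_iff h s).1 hp⟩⟩
    rw [Finset.mem_range]
    have := pre_len hp
    omega

private theorem BlocksA_max {l : List ℕ} {a : ℕ} (h : a ∈ l) : a ≤ l.foldr max 0 := by
  induction l with
  | nil => exact absurd h List.not_mem_nil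
  | cons b l ih =>
    rw [List.foldr_cons]
    rcases List.mem_cons.1 h with h | h
    · rw [h]
      exact le_max_left _ _
    · exact (ih h).trans (le_max_right _ _)

private theorem BlocksA_mem_len {s : F n} (hs : s ∈ d.S) : len s + 2 ≤ d.Lam := by
  unfold Lam
  have := BlocksA_max (List.mem_map.2 ⟨s, hs, rfl⟩ : len s ∈ d.S.map len)
  omega

theorem len_lt_Lam {h : F n} (h' : d.PreS h) : len h + 2 ≤ d.Lam := by
  obtain ⟨s, hs, hp⟩ := h'
  have h1 := pre_len hp
  have h2 := BlocksA_mem_len hs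
  omega

theorem blk_lt {h : F n} (h' : d.PreS h) : d.blk h < d.S.length := by
  classical
  unfold blk
  rw [List.findIdx_lt_length]
  obtain ⟨s, hs, hp⟩ := h'
  exact ⟨s, hs, decide_eq_true hp⟩

theorem pre_blk {h : F n} (h' : d.PreS h) : pre h (d.S.getD (d.blk h) 1) := by
  classical
  have h1 := blk_lt h'
  rw [List.getD_eq_getElem _ _ h1]
  have h2 := List.findIdx_getElem (p := fun s => decide (pre h s)) (xs := d.S) (w := h1)
  exact of_decide_eq_true h2

theorem blk_le {h : F n} {j : ℕ} (hj : j < d.S.length) (hp : pre h (d.S.getD j 1)) : d.blk h ≤ j := by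
  classical
  by_contra hlt
  rw [not_le] at hlt
  rw [List.getD_eq_getElem _ _ hj] at hp
  have h2 := List.not_of_lt_findIdx (p := fun s => decide (pre h s)) (xs := d.S) (i := j) hlt
  exact absurd (decide_eq_true hp) (by simpa using h2)

theorem blk_mono {g h : F n} (h' : d.PreS h) (hp : pre g h) : d.blk g ≤ d.blk h :=
  blk_le (blk_lt h') (pre_trans hp (pre_blk h'))

private theorem BlocksA_div {a c L : ℕ} (h : c < L) : (a * L + c) / L = a := by
  rw [mul_comm, Nat.mul_add_div (by omega), Nat.div_eq_of_lt h, add_zero]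

theorem P_div {h : F n} (h' : d.PreS h) : d.P h / d.Lam = d.blk h ∧ d.P h % d.Lam = len h := by
  have h1 := len_lt_Lam h'
  unfold P
  constructor
  · exact BlocksA_div (by omega)
  · rw [Nat.mul_add_mod_of_lt (by omega)]

theorem P1_div {h : F n} (h' : d.PreS h) (h1 : h ≠ 1) : 1 ≤ d.P h ∧ (d.P h - 1) / d.Lam = d.blk h ∧ (d.P h - 1) % d.Lam = len h - 1 := by
  have h2 := len_lt_Lam h'
  have h3 : len h ≠ 0 := fun h0 => h1 ((len_eq_zero h).1 h0)
  have h4 : d.P h - 1 = d.blk h * d.Lam + (len h - 1) := by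
    unfold P
    omega
  refine ⟨?_, ?_, ?_⟩
  · unfold P
    omega
  · rw [h4]
    exact BlocksA_div (by omega)
  · rw [h4, Nat.mul_add_mod_of_lt (by omega)]

theorem mZ_P {h : F n} (h' : d.PreS h) : d.mZ (d.P h) = h := by
  unfold mZ el
  rw [(P_div h').1, (P_div h').2]
  exact (pre_iff _ _).1 (pre_blk h')

theorem mZ_P1 {h : F n} (h' : d.PreS h) (h1 : h ≠ 1) : d.mZ (d.P h - 1) = tk h (len h - 1) := by
  unfold mZ el
  rw [(P1_div h' h1).2.1, (P1_div h' h1).2.2]
  have h2 := (pre_iff _ _).1 (pre_blk h')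
  conv_rhs => rw [← h2]
  rw [tk_tk, h2]
  congr 1
  omega

theorem P1_mem {h : F n} (h' : d.PreS h) (h1 : h ≠ 1) : d.P h - 1 ∈ d.D := by
  classical
  obtain ⟨h2, h3, h4⟩ := P1_div h' h1
  have h5 := blk_lt h'
  have h6 := len_lt_Lam h'
  have h7 := (pre_iff _ _).1 (pre_blk h')
  have h8 := pre_len (pre_blk h')
  have h9 : len h ≠ 0 := fun h0 => h1 ((len_eq_zero h).1 h0)
  unfold D
  rw [Finset.mem_filter, Finset.mem_range]
  refine ⟨?_, ?_, ?_⟩
  · rw [← Nat.div_lt_iff_lt_mul (by omega), h3]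
    exact h5
  · unfold el
    rw [h3, h4]
    omega
  · unfold el
    rw [h3, h4, Nat.sub_add_cancel (by omega), h7]

theorem D_name {x : ℕ} (hx : x ∈ d.D) : d.PreS (d.mZ (x + 1)) ∧ d.mZ (x + 1) ≠ 1 ∧ d.P (d.mZ (x + 1)) = x + 1 ∧
    len (d.mZ (x + 1)) = len (d.mZ x) + 1 ∧ d.mZ x = tk (d.mZ (x + 1)) (len (d.mZ x)) ∧ d.PreS (d.mZ x) := by
  classical
  unfold D at hx
  rw [Finset.mem_filter, Finset.mem_range] at hx
  obtain ⟨h1, h2, h3⟩ := hx
  have hL : 0 < d.Lam := by
    unfold Lam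
    omega
  have h4 : x / d.Lam < d.S.length := by
    rw [Nat.div_lt_iff_lt_mul hL]
    exact h1
  have h5 : d.el x ∈ d.S := by
    unfold el
    rw [List.getD_eq_getElem _ _ h4]
    exact List.getElem_mem h4
  have h6 := BlocksA_mem_len h5
  have h7 : (x + 1) / d.Lam = x / d.Lam ∧ (x + 1) % d.Lam = x % d.Lam + 1 := by
    have h8 := Nat.div_add_mod x d.Lam
    have h9 : x + 1 = x / d.Lam * d.Lam + (x % d.Lam + 1) := by
      rw [mul_comm]
      omega
    constructor
    · rw [h9]
      exact BlocksA_div (by omega)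
    · conv_lhs => rw [h9]
      exact Nat.mul_add_mod_of_lt (by omega)
  have h8 : d.el (x + 1) = d.el x := by
    unfold el
    rw [h7.1]
  have h9 : d.mZ (x + 1) = tk (d.el x) (x % d.Lam + 1) := by
    unfold mZ
    rw [h8, h7.2]
  have h10 : d.mZ x = tk (d.el x) (x % d.Lam) := rfl
  have h11 : len (d.mZ (x + 1)) = x % d.Lam + 1 := by
    rw [h9, len_tk]
    omega
  have h12 : len (d.mZ x) = x % d.Lam := by
    rw [h10, len_tk]
    omega
  have hS : d.PreS (d.el x) := preS_of_mem h5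
  refine ⟨?_, ?_, ?_, ?_, ?_, ?_⟩
  · rw [h9]
    exact preS_tk hS _
  · intro h0
    rw [h0, (len_eq_zero (1 : F n)).2 rfl] at h11
    omega
  · unfold P
    rw [h11, h9, h3]
    have := Nat.div_add_mod x d.Lam
    rw [mul_comm]
    omega
  · rw [h11, h12]
  · rw [h12, h9, tk_tk, h10]
    congr 1
    omega
  · rw [h10]
    exact preS_tk hS _

theorem D_inj {x x' : ℕ} (hx : x ∈ d.D) (hx' : x' ∈ d.D) (h : d.mZ (x + 1) = d.mZ (x' + 1)) : x = x' := by
  have h1 := (D_name hx).2.2.1
  have h2 := (D_name hx').2.2.1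
  rw [h, h2] at h1
  omega

end Dat

end PF
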