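import Pool.Agent.H1.PF.Init
import Pool.Agent.H1.PP.Comp

set_option autoImplicit false

/-!
# PF Bound: the bound is primitive recursive (helper1)

`PPos.primrec_wordsLE` (in `Pool.Agent.H1.PP.Comp`), `Primrec.list_length`, `Primrec.nat_add`, `Primrec.nat_mul`, and powers: `PPos.Comp_pow c : Primrec (fun m => c ^ m)` for constant `c`; for `fun q : ℕ × ℕ => q.1 ^ q.2` use
`Primrec.nat_rec` (`x ^ (m+1) = x ^ m * x`). `n` is a constant.
-/

namespace PF

/-- the bound for the number of marks -/
def bdM (n N : ℕ) : ℕ := 2 * (bdT n N + (2 * bdT n N + 1) + n) + 14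

/-- the bound for the automorphism and its inverse -/
def bdF (n N : ℕ) : ℕ := 3 ^ bdM n N * ((4 * bdM n N + 2) ^ numT (bdM n N + 1) * (3 ^ bdT n N + bdT n N))

private theorem Bound_pow : Primrec₂ (fun x m : ℕ => x ^ m) := by
  refine Primrec.of_eq (f := fun q : ℕ × ℕ => Nat.rec (motive := fun _ => ℕ) 1
    (fun _ r => r * q.1) q.2) ?_ ?_
  · have h2 : Primrec₂ (fun (q : ℕ × ℕ) (t : ℕ × ℕ) => t.2 * q.1) :=
      Primrec.nat_mul.comp (Primrec.snd.comp Primrec.snd) (Primrec.fst.comp Primrec.fst)
    exact Primrec.nat_rec' Primrec.snd (Primrec.const 1) h2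
  · rintro ⟨x, m⟩
    induction m with
    | zero => rfl
    | succ m ih =>
      change Nat.rec (motive := fun _ => ℕ) 1 (fun _ r => r * x) m * x = x ^ (m + 1)
      rw [pow_succ]
      exact congrArg (fun t => t * x) ih

private theorem Bound_bdT (n : ℕ) : Primrec (bdT n) := by
  unfold bdT
  exact Primrec.nat_mul.comp (Primrec.const _) (Primrec.nat_add.comp (Primrec.nat_mul.comp
    (Primrec.const _) (Primrec.list_length.comp ((PPos.primrec_wordsLE n).comp Primrec.succ)))
    (Primrec.const _))

private theorem Bound_bdM (n : ℕ) : Primrec (bdM n) := by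
  unfold bdM
  exact Primrec.nat_add.comp (Primrec.nat_mul.comp (Primrec.const _) (Primrec.nat_add.comp
    (Primrec.nat_add.comp (Bound_bdT n) (Primrec.nat_add.comp (Primrec.nat_mul.comp
      (Primrec.const _) (Bound_bdT n)) (Primrec.const _))) (Primrec.const _))) (Primrec.const _)

private theorem Bound_numT : Primrec numT := by
  unfold numT
  exact Primrec.nat_mul.comp (Bound_pow.comp (Primrec.const _) (Primrec.nat_add.comp
    (Primrec.nat_mul.comp (Primrec.const _) (Bound_pow.comp Primrec.id (Primrec.const _)))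
    (Bound_pow.comp Primrec.id (Primrec.const _)))) Primrec.id

theorem primrec_bdF (n : ℕ) : Primrec (bdF n) := by
  unfold bdF
  exact Primrec.nat_mul.comp (Bound_pow.comp (Primrec.const _) (Bound_bdM n))
    (Primrec.nat_mul.comp (Bound_pow.comp (Primrec.nat_add.comp (Primrec.nat_mul.comp
      (Primrec.const _) (Bound_bdM n)) (Primrec.const _))
      (Bound_numT.comp (Primrec.nat_add.comp (Bound_bdM n) (Primrec.const _))))
      (Primrec.nat_add.comp (Bound_pow.comp (Primrec.const _) (Bound_bdT n)) (Bound_bdT n)))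

end PF
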