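import Pool.Agent.H1.PF.Path

set_option autoImplicit false

/-!
# PF Card: the number of marks (helper1)

If a mark `x` is not in `D` and not in `I`, then `x = u + 1` with `u ∈ D`, and by `edge_left` there is an edge `(y, x)`, `y ∈ X ∩ D`; `y` determines `x` (`edge_unique_right`).
So `|X| ≤ |X ∩ D| + |X ∩ D| + |I|`. `card_ok`: `E + 1 ≤ V + R + n`.
-/

namespace PF

theorem card_X_le {s : St} (h : s.Valid) (I : Finset ℕ) (hI : ∀ x ∈ s.X, x ∈ s.D ∨ (∃ u ∈ s.D, u + 1 = x) ∨ x ∈ I) :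
    s.X.card ≤ 2 * s.E + I.card := by
  classical
  obtain ⟨f, hf⟩ : ∃ f : ℕ → ℕ, ∀ y x, s.Edge y x → f y = x := by
    refine ⟨fun y => if h : ∃ x, s.Edge y x then h.choose else 0, ?_⟩
    intro y x hyx
    have hex : ∃ x, s.Edge y x := ⟨x, hyx⟩
    have h1 : (if h : ∃ x, s.Edge y x then h.choose else 0) = hex.choose := dif_pos hex
    show (if h : ∃ x, s.Edge y x then h.choose else 0) = x
    rw [h1]
    exact edge_unique_right hex.choose_spec hyx
  have hsub : s.X ⊆ (s.X ∩ s.D) ∪ ((s.X ∩ s.D).image f ∪ I) := by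
    intro x hx
    rcases hI x hx with hD | hu | hxI
    · exact Finset.mem_union_left _ (Finset.mem_inter.2 ⟨hx, hD⟩)
    · obtain ⟨u, huD, hux⟩ := hu
      have hx' : u + 1 ∈ s.X := by rw [hux]; exact hx
      obtain ⟨y, hy⟩ := edge_left h hx' huD
      rw [hux] at hy
      refine Finset.mem_union_right _ (Finset.mem_union_left _ (Finset.mem_image.2 ⟨y, ?_, hf y x hy⟩))
      exact Finset.mem_inter.2 ⟨hy.1, hy.2.2.2.1 y le_rfl hy.2.2.1⟩
    · exact Finset.mem_union_right _ (Finset.mem_union_right _ hxI)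
  have h1 := Finset.card_le_card hsub
  have h2 := Finset.card_union_le (s.X ∩ s.D) ((s.X ∩ s.D).image f ∪ I)
  have h3 := Finset.card_union_le ((s.X ∩ s.D).image f) I
  have h4 : ((s.X ∩ s.D).image f).card ≤ (s.X ∩ s.D).card := Finset.card_image_le
  have h5 : s.E = (s.X ∩ s.D).card := rfl
  omega

theorem card_ok {n : ℕ} {sg : ℕ → Bool} {m : ℕ → FreeGroup (Fin n)} {s : St} (h : Ok n sg m s) (I : Finset ℕ)
    (hI : ∀ x ∈ s.X, x ∈ s.D ∨ (∃ u ∈ s.D, u + 1 = x) ∨ x ∈ I) {V R : ℕ} (hV : s.V ≤ V) (hR : s.rels.length ≤ R) (hc : I.card ≤ 2) :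
    s.X.card ≤ 2 * (V + R + n) + 2 := by
  have h1 := card_X_le h.valid I hI
  have h2 : s.E + 1 ≤ s.V + s.rels.length + n := h.chi
  omega

end PF
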