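import Pool.Agent.H1.PF.Basic

set_option autoImplicit false

/-!
# PF Tr: the general transfer lemma (helper1)

`T e` = the list of pairs of `f'` which replaces the pair `e` of `f`. Put `W' i = (W i).flatMap T`, `W0' = W0.flatMap T`. For a labelling `m'` of `f'` take
the labelling `m` of `f` of `hLab`; by `val_flatMap` `val m (W i) = val m' (W' i)`, so `fun i => val m (W i) = fun i => val m' (W' i)`, and the same for `W0`.
The length of `W' i` is at most `c * B`.
-/

namespace PF

theorem cert_transfer {A C : Type} {f : FS A} {f' : FS C} {n B c : ℕ} {w : List (Fin n × Bool)} (T : A × A → List (C × C))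
    (hpe : ∀ x y, f.pos x y → f.E2 (x, y))
    (hlen : ∀ e, f.E2 e → (T e).length ≤ c)
    (hed : ∀ e, f.E2 e → ∀ e' ∈ T e, f'.E2 e')
    (hpos : ∀ e, f.pos e.1 e.2 → ∀ e' ∈ T e, f'.pos e'.1 e'.2)
    (hLab : ∀ (G : Type) [Group G] (m' : C → G), f'.Lab m' →
      ∃ m : A → G, f.Lab m ∧ ∀ e, f.E2 e → (m e.1)⁻¹ * m e.2 = val m' (T e))
    (hSur : ∀ lam : A → A → List (Fin n × Bool), (∀ x y, (lam x y).length ≤ B) →
      ∃ lam' : C → C → List (Fin n × Bool), (∀ x y, (lam' x y).length ≤ c * B) ∧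
        ∀ (G : Type) [Group G] (m' : C → G) (m : A → G) (h : Fin n → G) (g : A → G), f'.Lab m' → f.Lab m →
          (∀ e, f.E2 e → (m e.1)⁻¹ * m e.2 = val m' (T e)) →
          (∀ x y, f.eqv x y → g x = g y) → g f.v0 = 1 →
          (∀ x y, f.ed x y → (m x)⁻¹ * m y = (g x)⁻¹ * ev h (lam x y) * g y) →
          ∃ g' : C → G, (∀ x y, f'.eqv x y → g' x = g' y) ∧ g' f'.v0 = 1 ∧
            ∀ x y, f'.ed x y → (m' x)⁻¹ * m' y = (g' x)⁻¹ * ev h (lam' x y) * g' y)
    (hC : Cert f n B w) : Cert f' n (c * B) w := by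
  obtain ⟨W, ⟨hl, hE, lam, hlam, hS⟩, W0, hW0, hev⟩ := hC
  have hlenf : ∀ L : List (A × A), (∀ e ∈ L, f.E2 e) → (L.flatMap T).length ≤ c * L.length := by
    intro L
    induction L with
    | nil => intro _; simp
    | cons e L ih =>
      intro hL
      rw [List.flatMap_cons, List.length_append, List.length_cons]
      have h1 := hlen e (hL e List.mem_cons_self)
      have h2 := ih fun e he => hL e (List.mem_cons_of_mem _ he)
      nlinarith
  have hvalW : ∀ (G : Type) [Group G] (m : A → G) (m' : C → G),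
      (∀ e, f.E2 e → (m e.1)⁻¹ * m e.2 = val m' (T e)) → ∀ i, val m (W i) = val m' ((W i).flatMap T) := by
    intro G _ m m' hm i
    exact val_flatMap m m' T (W i) fun e he => hm e (hE i e he)
  refine ⟨fun i => (W i).flatMap T, ⟨?_, ?_, ?_⟩, W0.flatMap T, ?_, ?_⟩
  · intro i
    exact (hlenf (W i) (hE i)).trans (Nat.mul_le_mul_left c (hl i))
  · intro i e' he'
    obtain ⟨e, he, hee⟩ := List.mem_flatMap.1 he'
    exact hed e (hE i e he) e' hee
  · obtain ⟨lam', hlam', hS'⟩ := hSur lam hlam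
    refine ⟨lam', hlam', ?_⟩
    intro G _ m' hm'
    obtain ⟨m, hm, hval⟩ := hLab G m' hm'
    obtain ⟨g, g1, g2, g3⟩ := hS G m hm
    obtain ⟨g', k1, k2, k3⟩ := hS' G m' m (fun i => val m (W i)) g hm' hm hval g1 g2 g3
    refine ⟨g', k1, k2, fun x y hxy => ?_⟩
    have h1 : (fun i => val m (W i)) = fun i => val m' ((W i).flatMap T) := by
      funext i
      exact hvalW G m m' hval i
    rw [k3 x y hxy, h1]
  · intro e' he'
    obtain ⟨e, he, hee⟩ := List.mem_flatMap.1 he'
    exact hpos e (hW0 e he) e' hee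
  · intro G _ m' hm'
    obtain ⟨m, hm, hval⟩ := hLab G m' hm'
    have h1 : (fun i => val m (W i)) = fun i => val m' ((W i).flatMap T) := by
      funext i
      exact hvalW G m m' hval i
    have h2 := hev G m hm
    rw [h1] at h2
    rw [h2]
    exact val_flatMap m m' T W0 fun e he => hval e (hpe e.1 e.2 (hW0 e he))

end PF
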