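import Pool.Agent.H1.PF.Path
import Pool.Agent.H1.PF.Tr

set_option autoImplicit false

/-!
# PF CertA: adding a mark transfers certificates (helper1)

Use `cert_transfer` with `c = 2` and then `Cert.mono`. Let `(x, y)` be the edge of `s` with `x < z + 1 < y` (`edge_around`).
`T (x, y) = [(x, z+1), (z+1, y)]`, `T (y, x) = [(y, z+1), (z+1, x)]`, `T e = [e]` otherwise. The edges of the new state are the edges of `s` except `(x, y)`,
and `(x, z+1)`, `(z+1, y)`. The relations do not change, so every labelling `m'` of the new state is a labelling of `s` (take `m = m'` in `hLab`).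

`hSur`: `lam' x (z+1) = []`, `lam' (z+1) y = lam x y`, `lam' = lam` otherwise. Given `g` put `g' (z+1) = g x * ((m x)⁻¹ * m (z+1))` and `g' u = g u` for `u ≠ z + 1`
(note `z + 1 ∉ s.X`, so the base mark and all old marks are different from `z + 1`; the class `k` of `z + 1` is new). Then
`(m (z+1))⁻¹ * m y = (m (z+1))⁻¹ * m x * ((m x)⁻¹ * m y) = (g' (z+1))⁻¹ * ev h (lam x y) * g y`.
-/

namespace PF

private theorem certA_edge_old {s : St} {x y z : ℕ} (hxy : s.Edge x y) (hxz : x < z + 1) (hzy : z + 1 < y)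
    {k : ℕ} {a b : ℕ} (hab : s.Edge a b) (hne : ¬ (a = x ∧ b = y)) :
    (⟨s.D, insert (z + 1) s.X, fun u => if u = z + 1 then k else s.cl u, s.rels, s.v0⟩ : St).Edge a b := by
  obtain ⟨hx, hy, -, -, hno⟩ := hxy
  obtain ⟨ha, hb, hlt, hD, hno'⟩ := hab
  refine ⟨Finset.mem_insert_of_mem ha, Finset.mem_insert_of_mem hb, hlt, hD, ?_⟩
  intro u hu1 hu2 hu3
  rcases Finset.mem_insert.1 hu3 with h | h
  · subst h
    apply hne
    constructor
    · by_contra hax
      rcases lt_or_gt_of_ne hax with h1 | h1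
      · exact hno' x h1 (by omega) hx
      · exact hno a h1 (by omega) ha
    · by_contra hby
      rcases lt_or_gt_of_ne hby with h1 | h1
      · exact hno b (by omega) h1 hb
      · exact hno' y (by omega) h1 hy
  · exact hno' u hu1 hu2 h

private theorem certA_edge_new {s : St} {x y z : ℕ} (hxy : s.Edge x y) (hxz : x < z + 1) (hzy : z + 1 < y)
    {k : ℕ} {a b : ℕ}
    (hab : (⟨s.D, insert (z + 1) s.X, fun u => if u = z + 1 then k else s.cl u, s.rels, s.v0⟩ : St).Edge a b) :
    (a = x ∧ b = z + 1) ∨ (a = z + 1 ∧ b = y) ∨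
      (s.Edge a b ∧ ¬ (a = x ∧ b = y) ∧ a ≠ z + 1 ∧ b ≠ z + 1) := by
  obtain ⟨hx, hy, -, -, hno⟩ := hxy
  obtain ⟨ha, hb, hlt, hD, hno'⟩ := hab
  by_cases ha1 : a = z + 1
  · right
    left
    refine ⟨ha1, ?_⟩
    have hb1 : b ∈ s.X := by
      rcases Finset.mem_insert.1 hb with h | h
      · omega
      · exact h
    by_contra hby
    rcases lt_or_gt_of_ne hby with h1 | h1
    · exact hno b (by omega) h1 hb1
    · exact hno' y (by omega) h1 (Finset.mem_insert_of_mem hy)
  · have ha2 : a ∈ s.X := (Finset.mem_insert.1 ha).resolve_left ha1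
    by_cases hb1 : b = z + 1
    · left
      refine ⟨?_, hb1⟩
      by_contra hax
      rcases lt_or_gt_of_ne hax with h1 | h1
      · exact hno' x h1 (by omega) (Finset.mem_insert_of_mem hx)
      · exact hno a h1 (by omega) ha2
    · have hb2 : b ∈ s.X := (Finset.mem_insert.1 hb).resolve_left hb1
      right
      right
      refine ⟨⟨ha2, hb2, hlt, hD, fun u h1 h2 h3 => hno' u h1 h2 (Finset.mem_insert_of_mem h3)⟩,
        ?_, ha1, hb1⟩
      rintro ⟨rfl, rfl⟩
      exact hno' (z + 1) hxz hzy (Finset.mem_insert_self _ _)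

private theorem certA_left {s : St} {x y z : ℕ} (hxy : s.Edge x y) (hxz : x < z + 1) (hzy : z + 1 < y)
    {k : ℕ} :
    (⟨s.D, insert (z + 1) s.X, fun u => if u = z + 1 then k else s.cl u, s.rels, s.v0⟩ : St).Edge x (z + 1) := by
  obtain ⟨hx, hy, -, hD, hno⟩ := hxy
  refine ⟨Finset.mem_insert_of_mem hx, Finset.mem_insert_self _ _, hxz, fun u h1 h2 => hD u h1 (by omega), ?_⟩
  intro u h1 h2 h3
  rcases Finset.mem_insert.1 h3 with h | h
  · omega
  · exact hno u h1 (by omega) h

private theorem certA_right {s : St} {x y z : ℕ} (hxy : s.Edge x y) (hxz : x < z + 1) (hzy : z + 1 < y)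
    {k : ℕ} :
    (⟨s.D, insert (z + 1) s.X, fun u => if u = z + 1 then k else s.cl u, s.rels, s.v0⟩ : St).Edge (z + 1) y := by
  obtain ⟨hx, hy, -, hD, hno⟩ := hxy
  refine ⟨Finset.mem_insert_self _ _, Finset.mem_insert_of_mem hy, hzy, fun u h1 h2 => hD u (by omega) h2, ?_⟩
  intro u h1 h2 h3
  rcases Finset.mem_insert.1 h3 with h | h
  · omega
  · exact hno u (by omega) h2 h

private def certA_T (x y z : ℕ) (e : ℕ × ℕ) : List (ℕ × ℕ) :=
  if e = (x, y) then [(x, z + 1), (z + 1, y)]
  else if e = (y, x) then [(y, z + 1), (z + 1, x)] else [e]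

private theorem certA_val {G : Type} [Group G] (m : ℕ → G) (x y z : ℕ) (e : ℕ × ℕ) :
    val m (certA_T x y z e) = (m e.1)⁻¹ * m e.2 := by
  unfold certA_T
  split_ifs with h1 h2
  · subst h1
    simp [val, mul_assoc]
  · subst h2
    simp [val, mul_assoc]
  · simp [val]

theorem cert_addMark {n : ℕ} {sg : ℕ → Bool} {s : St} (h : s.Valid) {z k B M : ℕ} {w : List (Fin n × Bool)}
    (hz : z + 1 ∉ s.X) (hD : z ∈ s.D) (hD' : z + 1 ∈ s.D) (hk : k ∉ s.X.image s.cl) (hC : Cert (s.toFS sg) n B w) :
    Cert (St.toFS ⟨s.D, insert (z + 1) s.X, fun u => if u = z + 1 then k else s.cl u, s.rels, s.v0⟩ sg) n ((4 * M + 2) * B) w := by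
  obtain ⟨x, y, hxy, hxz, hzy⟩ := edge_around h hz hD hD'
  have hlt : x < y := hxz.trans hzy
  have hL := certA_left hxy hxz hzy (k := k)
  have hR := certA_right hxy hxz hzy (k := k)
  refine Cert.mono (B := 2 * B) (Nat.mul_le_mul_right B (by omega)) ?_
  refine cert_transfer (certA_T x y z) ?_ ?_ ?_ ?_ ?_ ?_ hC
  · -- positive pairs are edges
    rintro a b (⟨h1, -⟩ | ⟨h1, -⟩)
    · exact Or.inl h1
    · exact Or.inr h1
  · -- lengths
    intro e _
    unfold certA_T
    split_ifs <;> simp
  · -- edges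
    rintro ⟨a, b⟩ he e' he'
    unfold certA_T at he'
    split_ifs at he' with h1 h2
    · rcases List.mem_cons.1 he' with rfl | he''
      · exact Or.inl hL
      · rw [List.mem_singleton.1 he'']
        exact Or.inl hR
    · rcases List.mem_cons.1 he' with rfl | he''
      · exact Or.inr hR
      · rw [List.mem_singleton.1 he'']
        exact Or.inr hL
    · rw [List.mem_singleton.1 he']
      rcases he with he | he
      · exact Or.inl (certA_edge_old hxy hxz hzy he fun hh => h1 (Prod.ext hh.1 hh.2))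
      · exact Or.inr (certA_edge_old hxy hxz hzy he fun hh => h2 (Prod.ext hh.2 hh.1))
  · -- positive pairs
    rintro ⟨a, b⟩ he e' he'
    unfold certA_T at he'
    split_ifs at he' with h1 h2
    · rw [Prod.mk.injEq] at h1
      obtain ⟨rfl, rfl⟩ := h1
      rcases he with ⟨-, hp⟩ | ⟨⟨-, -, hlt', -⟩, -⟩
      · rcases List.mem_cons.1 he' with rfl | he''
        · exact Or.inl ⟨hL, fun u hu1 hu2 => hp u hu1 (lt_trans hu2 hzy)⟩
        · rw [List.mem_singleton.1 he'']
          exact Or.inl ⟨hR, fun u hu1 hu2 => hp u (le_trans hxz.le hu1) hu2⟩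
      · exact absurd hlt' (by simpa using hlt.le)
    · rw [Prod.mk.injEq] at h2
      obtain ⟨rfl, rfl⟩ := h2
      rcases he with ⟨⟨-, -, hlt', -⟩, -⟩ | ⟨-, hp⟩
      · exact absurd hlt' (by simpa using hlt.le)
      · rcases List.mem_cons.1 he' with rfl | he''
        · exact Or.inr ⟨hR, fun u hu1 hu2 => hp u (le_trans hxz.le hu1) hu2⟩
        · rw [List.mem_singleton.1 he'']
          exact Or.inr ⟨hL, fun u hu1 hu2 => hp u hu1 (lt_trans hu2 hzy)⟩
    · rw [List.mem_singleton.1 he']
      rcases he with ⟨he, hp⟩ | ⟨he, hp⟩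
      · exact Or.inl ⟨certA_edge_old hxy hxz hzy he fun hh => h1 (Prod.ext hh.1 hh.2), hp⟩
      · exact Or.inr ⟨certA_edge_old hxy hxz hzy he fun hh => h2 (Prod.ext hh.2 hh.1), hp⟩
  · -- labellings
    intro G _ m' hm'
    exact ⟨m', hm', fun e _ => (certA_val m' x y z e).symm⟩
  · -- surjectivity
    intro lam hlam
    refine ⟨fun a b => if b = z + 1 then [] else if a = z + 1 then lam x y else lam a b, ?_, ?_⟩
    · intro a b
      have h1 := hlam x y
      have h2 := hlam a b
      dsimp only
      split_ifs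
      · simp
      · omega
      · omega
    · intro G _ m' m hw g _ _ hmm hg hg0 hge
      have hxz' : x ≠ z + 1 := hxz.ne
      have hyz' : y ≠ z + 1 := hzy.ne'
      refine ⟨fun u => if u = z + 1 then g x * ((m' x)⁻¹ * m' (z + 1)) else g u, ?_, ?_, ?_⟩
      · rintro a b ⟨ha, hb, hcl⟩
        dsimp only at ha hb hcl ⊢
        by_cases ha1 : a = z + 1
        · by_cases hb1 : b = z + 1
          · rw [ha1, hb1]
          · exfalso
            rw [if_pos ha1, if_neg hb1] at hcl
            exact hk (Finset.mem_image.2 ⟨b, (Finset.mem_insert.1 hb).resolve_left hb1, hcl.symm⟩)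
        · by_cases hb1 : b = z + 1
          · exfalso
            rw [if_neg ha1, if_pos hb1] at hcl
            exact hk (Finset.mem_image.2 ⟨a, (Finset.mem_insert.1 ha).resolve_left ha1, hcl⟩)
          · rw [if_neg ha1, if_neg hb1] at hcl ⊢
            exact hg a b ⟨(Finset.mem_insert.1 ha).resolve_left ha1,
              (Finset.mem_insert.1 hb).resolve_left hb1, hcl⟩
      · have hv : s.v0 ≠ z + 1 := fun hh => hz (hh ▸ h.v0X)
        show (if s.v0 = z + 1 then _ else g s.v0) = 1
        rw [if_neg hv]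
        exact hg0
      · intro a b hab
        dsimp only
        rcases certA_edge_new hxy hxz hzy hab with ⟨rfl, rfl⟩ | ⟨rfl, rfl⟩ | ⟨he, hne, ha1, hb1⟩
        · rw [if_neg hxz', if_pos rfl, if_pos rfl, ev_nil]
          group
        · rw [if_pos rfl, if_neg hyz', if_neg hyz', if_pos rfl]
          have h1 := hge x b hxy
          have h2 := hmm (x, b) (Or.inl hxy)
          rw [certA_val] at h2
          dsimp only at h2
          rw [h1] at h2
          have h3 : (g x * ((m' x)⁻¹ * m' (z + 1)))⁻¹ * ev hw (lam x b) * g b =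
              (m' (z + 1))⁻¹ * m' x * ((g x)⁻¹ * ev hw (lam x b) * g b) := by
            group
          rw [h3, h2]
          group
        · rw [if_neg ha1, if_neg hb1, if_neg hb1, if_neg ha1]
          have h1 := hge a b he
          have h2 := hmm (a, b) (Or.inl he)
          rw [certA_val] at h2
          dsimp only at h2
          rw [← h2, h1]

end PF
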