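import Pool.Agent.H1.PF.Path
import Pool.Agent.H1.PF.Tr

set_option autoImplicit false

/-!
# PF CertC: cutting a relation transfers certificates (helper1)

Use `cert_transfer` with `c = 4 * M + 2` and `T e = [e]` (edges, marks and positive pairs do not change).

`hLab` (`m = m'`): a labelling `m'` of the new state satisfies the relations of `r.cutL j` and `r.cutR j`; their product is the relation of `r`:
`(m p)⁻¹ m (p+j) = (m (Q 0))⁻¹ m (Q j)`, `(m (p+j))⁻¹ m (p+l) = (m (Q j))⁻¹ m (Q l)`.

`hSur`: put `a = p + j`, `z = r.Q j`. If `s.cl a = s.cl z` the classes do not change: `lam' = lam`, `g' = g`. Let `s.cl a ≠ s.cl z`.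
There is a path from `p` to `a` and a path between `r.Q 0` and `z` (`exists_path`; for `r.s = false` the second one goes from `z` to `r.Q 0`, then invert its word), so
by `path_lam` there are words `LP, LQ` of length `≤ M * B` with `(m p)⁻¹ m a = (g p)⁻¹ * ev h LP * g a` and `(m (Q 0))⁻¹ m z = (g (Q 0))⁻¹ * ev h LQ * g z`.
As `m = m'` is a labelling of the new state (relation `r.cutL j`) the left sides are equal, and `g p = g (Q 0)`. Hence `g a = ev h De * g z`, `De = invRev LP ++ LQ`
(length `≤ 2 * M * B`).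
* If `s.cl v0 ≠ s.cl a`: `g' u = g z` if `u` is in the class of `a` (`u ∈ X`, `cl u = cl a`), `g' u = g u` otherwise. For `u` in the class of `a`: `g u = g a = ev h De * g' u`. Put
  `lam' x y = (if cl x = cl a then invRev De else []) ++ lam x y ++ (if cl y = cl a then De else [])`.
* If `s.cl v0 = s.cl a`: `g' u = g a` if `u` is in the class of `z`, `g' u = g u` otherwise; for `u` in the class of `z`: `g u = (ev h De)⁻¹ * g' u`. Put
  `lam' x y = (if cl x = cl z then De else []) ++ lam x y ++ (if cl y = cl z then invRev De else [])`.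
In both cases `g'` is constant on the new classes, `g' v0 = 1`, and the length is at most `B + 4 * M * B`.
-/

namespace PF

private theorem certC_path {s : St} {x y n B M : ℕ} (hM : s.X.card ≤ M) (hx : x ∈ s.X) (hy : y ∈ s.X)
    (hxy : x < y) (hD : ∀ u, x ≤ u → u < y → u ∈ s.D) (lam : ℕ → ℕ → List (Fin n × Bool))
    (hB : ∀ x y, (lam x y).length ≤ B) :
    ∃ La : List (Fin n × Bool), La.length ≤ M * B ∧
      ∀ (G : Type) [Group G] (m g : ℕ → G) (h : Fin n → G),
        (∀ x y, s.Edge x y → (m x)⁻¹ * m y = (g x)⁻¹ * ev h (lam x y) * g y) →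
        (m x)⁻¹ * m y = (g x)⁻¹ * ev h La * g y := by
  obtain ⟨P, hP, _, hlen, _⟩ := exists_path hx hy hxy hD
  obtain ⟨La, hLa, hLa2⟩ := path_lam hP lam hB
  exact ⟨La, hLa.trans (Nat.mul_le_mul_right _ (hlen.trans hM)), hLa2⟩

private theorem certC_Q_L (r : Rel) {i j : ℕ} (hj : j < r.l) (hi : i ≤ j) : (r.cutL j).Q i = r.Q i := by
  unfold Rel.cutL Rel.Q
  cases r.s <;> simp
  omega

private theorem certC_Q_R (r : Rel) {i j : ℕ} (hj : j < r.l) (hi : i ≤ r.l - j) :
    (r.cutR j).Q i = r.Q (j + i) := by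
  unfold Rel.cutR Rel.Q
  cases r.s <;> simp
  · omega
  · omega

private theorem certC_pathQ {s : St} (h : s.Valid) {r : Rel} (hr : r ∈ s.rels) {n j B M : ℕ}
    (hM : s.X.card ≤ M) (hj : 0 < j) (hj' : j < r.l) (h2 : r.Q j ∈ s.X)
    (lam : ℕ → ℕ → List (Fin n × Bool)) (hB : ∀ x y, (lam x y).length ≤ B) :
    ∃ La : List (Fin n × Bool), La.length ≤ M * B ∧
      ∀ (G : Type) [Group G] (m g : ℕ → G) (h : Fin n → G),
        (∀ x y, s.Edge x y → (m x)⁻¹ * m y = (g x)⁻¹ * ev h (lam x y) * g y) →
        (m (r.Q 0))⁻¹ * m (r.Q j) = (g (r.Q 0))⁻¹ * ev h La * g (r.Q j) := by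
  have hpX := h.pX r hr
  have hpD := h.pD r hr
  unfold Rel.Q at h2 ⊢
  by_cases hsr : r.s = true
  · rw [if_pos hsr] at h2
    simp only [if_pos hsr]
    have h3 : r.q + 0 ∈ s.X := hpX.2.2.1
    refine certC_path hM h3 h2 (by omega) (fun u hu hu' => ?_) lam hB
    have h4 := (hpD (u - r.q) (by omega)).2
    have h5 : r.q + (u - r.q) = u := by omega
    rwa [h5] at h4
  · rw [if_neg hsr] at h2
    simp only [if_neg hsr]
    have h3 : r.q + (r.l - 0) ∈ s.X := hpX.2.2.2
    obtain ⟨La, hLa, hLa2⟩ := certC_path hM h2 h3 (by omega) (fun u hu hu' => by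
      have h4 := (hpD (u - r.q) (by omega)).2
      have h5 : r.q + (u - r.q) = u := by omega
      rwa [h5] at h4) lam hB
    refine ⟨FreeGroup.invRev La, ?_, fun G _ m g h he => ?_⟩
    · rw [FreeGroup.invRev_length]
      exact hLa
    · have h6 := hLa2 G m g h he
      rw [ev_invRev]
      have h7 : (m (r.q + (r.l - 0)))⁻¹ * m (r.q + (r.l - j)) =
          ((m (r.q + (r.l - j)))⁻¹ * m (r.q + (r.l - 0)))⁻¹ := by group
      rw [h7, h6]
      group

/-- the correction of the words -/
private theorem certC_core {n B M : ℕ} {s : St} {cl' : ℕ → ℕ}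
    (lam : ℕ → ℕ → List (Fin n × Bool)) (hB : ∀ x y, (lam x y).length ≤ B)
    (d : ℕ → List (Fin n × Bool)) (hd : ∀ u, (d u).length ≤ 2 * (M * B)) :
    ∃ lam' : ℕ → ℕ → List (Fin n × Bool), (∀ x y, (lam' x y).length ≤ (4 * M + 2) * B) ∧
      ∀ (G : Type) [Group G] (m : ℕ → G) (h : Fin n → G) (g g' : ℕ → G),
        (∀ u ∈ s.X, g u = ev h (d u) * g' u) →
        (∀ x ∈ s.X, ∀ y ∈ s.X, cl' x = cl' y → g' x = g' y) → g' s.v0 = 1 →
        (∀ x y, s.Edge x y → (m x)⁻¹ * m y = (g x)⁻¹ * ev h (lam x y) * g y) →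
        (∀ x y, x ∈ s.X ∧ y ∈ s.X ∧ cl' x = cl' y → g' x = g' y) ∧ g' s.v0 = 1 ∧
          ∀ x y, s.Edge x y → (m x)⁻¹ * m y = (g' x)⁻¹ * ev h (lam' x y) * g' y := by
  refine ⟨fun x y => FreeGroup.invRev (d x) ++ lam x y ++ d y, fun x y => ?_,
    fun G _ m h g g' hg hc h0 he => ⟨fun x y hxy => hc x hxy.1 y hxy.2.1 hxy.2.2, h0,
      fun x y hxy => ?_⟩⟩
  · show (FreeGroup.invRev (d x) ++ lam x y ++ d y).length ≤ (4 * M + 2) * B
    rw [List.length_append, List.length_append, FreeGroup.invRev_length]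
    have h1 := hd x
    have h2 := hd y
    have h3 := hB x y
    have h4 : (4 * M + 2) * B = 2 * (M * B) + 2 * (M * B) + B + B := by ring
    omega
  · show (m x)⁻¹ * m y = (g' x)⁻¹ * ev h (FreeGroup.invRev (d x) ++ lam x y ++ d y) * g' y
    rw [he x y hxy, hg x hxy.1, hg y hxy.2.1, ev_append, ev_append, ev_invRev]
    group

theorem cert_cut {n : ℕ} {sg : ℕ → Bool} {s : St} (h : s.Valid) {r : Rel} {L : List Rel} {j B M : ℕ} {w : List (Fin n × Bool)}
    (hM : s.X.card ≤ M) (hs : s.rels = r :: L) (hj : 0 < j) (hj' : j < r.l) (h1 : r.p + j ∈ s.X) (h2 : r.Q j ∈ s.X)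
    (hC : Cert (s.toFS sg) n B w) :
    Cert (St.toFS ⟨s.D, s.X, mergeCl s.cl (r.p + j) (r.Q j), r.cutL j :: r.cutR j :: L, s.v0⟩ sg) n ((4 * M + 2) * B) w := by
  have hr : r ∈ s.rels := by
    rw [hs]
    exact List.mem_cons_self
  have hpX := h.pX r hr
  have hpD := h.pD r hr
  have hcl := h.cl0 r hr
  have hQ0 : r.Q 0 ∈ s.X := by
    unfold Rel.Q
    split_ifs
    · exact hpX.2.2.1
    · exact hpX.2.2.2
  -- the labellings satisfy the two new relations
  have hrelL : ∀ (G : Type) [Group G] (m' : ℕ → G),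
      (St.toFS ⟨s.D, s.X, mergeCl s.cl (r.p + j) (r.Q j), r.cutL j :: r.cutR j :: L, s.v0⟩ sg).Lab m' →
        (m' r.p)⁻¹ * m' (r.p + j) = (m' (r.Q 0))⁻¹ * m' (r.Q j) := by
    intro G _ m' hm
    have := hm r.p (r.p + j) ((r.cutL j).Q 0) ((r.cutL j).Q j)
      ⟨r.cutL j, List.mem_cons_self, rfl, rfl, rfl, rfl⟩
    rwa [certC_Q_L r hj' (Nat.zero_le _), certC_Q_L r hj' le_rfl] at this
  have hrelR : ∀ (G : Type) [Group G] (m' : ℕ → G),
      (St.toFS ⟨s.D, s.X, mergeCl s.cl (r.p + j) (r.Q j), r.cutL j :: r.cutR j :: L, s.v0⟩ sg).Lab m' →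
        (m' (r.p + j))⁻¹ * m' (r.p + r.l) = (m' (r.Q j))⁻¹ * m' (r.Q r.l) := by
    intro G _ m' hm
    have := hm (r.p + j) (r.p + j + (r.l - j)) ((r.cutR j).Q 0) ((r.cutR j).Q (r.l - j))
      ⟨r.cutR j, List.mem_cons_of_mem _ List.mem_cons_self, rfl, rfl, rfl, rfl⟩
    rw [certC_Q_R r hj' (Nat.zero_le _), certC_Q_R r hj' le_rfl] at this
    have e1 : r.p + j + (r.l - j) = r.p + r.l := by omega
    have e2 : j + (r.l - j) = r.l := by omega
    rwa [e1, e2, Nat.add_zero] at this
  refine cert_transfer (c := 4 * M + 2) (fun e => [e]) ?_ ?_ ?_ ?_ ?_ ?_ hC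
  · intro x y hxy
    rcases hxy with hxy | hxy
    · exact Or.inl hxy.1
    · exact Or.inr hxy.1
  · intro e _
    show 1 ≤ 4 * M + 2
    omega
  · intro e he e' he'
    rw [List.mem_singleton] at he'
    rw [he']
    exact he
  · intro e he e' he'
    rw [List.mem_singleton] at he'
    rw [he']
    exact he
  · intro G _ m' hm
    refine ⟨m', ?_, fun e _ => by rw [val_singleton]⟩
    rintro a b c d ⟨r', hr', rfl, rfl, rfl, rfl⟩
    rw [hs] at hr'
    rcases List.mem_cons.mp hr' with rfl | hr'
    · have e1 := hrelL G m' hm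
      have e2 := hrelR G m' hm
      have e3 : (m' r'.p)⁻¹ * m' (r'.p + r'.l) =
          ((m' r'.p)⁻¹ * m' (r'.p + j)) * ((m' (r'.p + j))⁻¹ * m' (r'.p + r'.l)) := by group
      rw [e3, e1, e2]
      group
    · exact hm _ _ _ _ ⟨r', List.mem_cons_of_mem _ (List.mem_cons_of_mem _ hr'), rfl, rfl, rfl, rfl⟩
  · intro lam hlam
    by_cases hc : s.cl (r.p + j) = s.cl (r.Q j)
    · -- the classes do not change
      refine ⟨lam, fun x y => ?_, ?_⟩
      · have h3 := hlam x y
        have h4 : (4 * M + 2) * B = B + (4 * M + 1) * B := by ring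
        omega
      · intro G _ m' m h' g hm' hm hT heqv hv0 hed
        refine ⟨g, ?_, hv0, ?_⟩
        · intro x y hxy
          obtain ⟨hx, hy, hxy⟩ := hxy
          refine heqv x y ⟨hx, hy, ?_⟩
          have hxy' : mergeCl s.cl (r.p + j) (r.Q j) x = mergeCl s.cl (r.p + j) (r.Q j) y := hxy
          unfold mergeCl at hxy'
          rw [← hc] at hxy'
          split_ifs at hxy' with c1 c2 c2
          · rw [c1, c2]
          · rw [c1, hxy']
          · rw [c2, hxy']
          · exact hxy'
        · intro x y hxy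
          have h5 := hT (x, y) (Or.inl hxy)
          rw [val_singleton] at h5
          have h6 := hed x y hxy
          rw [← h6]
          exact h5.symm
    · -- the two words
      obtain ⟨LP, hLP, hLP2⟩ := certC_path (n := n) (B := B) hM hpX.1 h1 (by omega) (fun u hu hu' => by
        have h4 := (hpD (u - r.p) (by omega)).1
        have h5 : r.p + (u - r.p) = u := by omega
        rwa [h5] at h4) lam hlam
      obtain ⟨LQ, hLQ, hLQ2⟩ := certC_pathQ h hr hM hj hj' h2 lam hlam
      have hDe : (FreeGroup.invRev LP ++ LQ).length ≤ 2 * (M * B) := by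
        rw [List.length_append, FreeGroup.invRev_length]
        omega
      have hDe' : (FreeGroup.invRev (FreeGroup.invRev LP ++ LQ)).length ≤ 2 * (M * B) := by
        rw [FreeGroup.invRev_length]
        exact hDe
      have hgaz : ∀ (G : Type) [Group G] (m' : ℕ → G) (h' : Fin n → G) (g : ℕ → G),
          (St.toFS ⟨s.D, s.X, mergeCl s.cl (r.p + j) (r.Q j), r.cutL j :: r.cutR j :: L, s.v0⟩ sg).Lab m' →
          (∀ x y, x ∈ s.X ∧ y ∈ s.X ∧ s.cl x = s.cl y → g x = g y) →
          (∀ x y, s.Edge x y → (m' x)⁻¹ * m' y = (g x)⁻¹ * ev h' (lam x y) * g y) →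
          g (r.p + j) = ev h' (FreeGroup.invRev LP ++ LQ) * g (r.Q j) := by
        intro G _ m' h' g hm' hg he
        have e1 := hLP2 G m' g h' he
        have e2 := hLQ2 G m' g h' he
        have e3 := hrelL G m' hm'
        have e4 : g r.p = g (r.Q 0) := hg _ _ ⟨hpX.1, hQ0, hcl.1⟩
        rw [e1, e2, e4] at e3
        rw [ev_append, ev_invRev]
        have e5 : ev h' LP * g (r.p + j) = ev h' LQ * g (r.Q j) := by
          have := congrArg (fun t => g (r.Q 0) * t) e3
          simp only [mul_assoc, mul_inv_cancel_left] at this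
          exact this
        rw [mul_assoc, ← e5, inv_mul_cancel_left]
      by_cases hv : s.cl s.v0 = s.cl (r.p + j)
      · obtain ⟨lam', hl1, hl2⟩ := certC_core (s := s) (cl' := mergeCl s.cl (r.p + j) (r.Q j)) lam hlam
          (fun u => if s.cl u = s.cl (r.Q j) then FreeGroup.invRev (FreeGroup.invRev LP ++ LQ) else [])
          (M := M) (fun u => by
            show (if s.cl u = s.cl (r.Q j) then FreeGroup.invRev (FreeGroup.invRev LP ++ LQ)
              else []).length ≤ _
            split_ifs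
            · exact hDe'
            · exact Nat.zero_le _)
        refine ⟨lam', hl1, ?_⟩
        intro G _ m' m h' g hm' hm hT heqv hv0 hed
        have hed' : ∀ x y, s.Edge x y → (m' x)⁻¹ * m' y = (g x)⁻¹ * ev h' (lam x y) * g y := by
          intro x y hxy
          have h5 := hT (x, y) (Or.inl hxy)
          rw [val_singleton] at h5
          have h6 := hed x y hxy
          rw [← h6]
          exact h5.symm
        have hgz := hgaz G m' h' g hm' heqv hed'
        refine ⟨fun u => if s.cl u = s.cl (r.Q j) then g (r.p + j) else g u, ?_⟩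
        refine hl2 G m' h' g (fun u => if s.cl u = s.cl (r.Q j) then g (r.p + j) else g u) ?_ ?_ ?_ hed'
        · intro u hu
          show g u = ev h' (if s.cl u = s.cl (r.Q j) then FreeGroup.invRev (FreeGroup.invRev LP ++ LQ)
              else []) * (if s.cl u = s.cl (r.Q j) then g (r.p + j) else g u)
          split_ifs with c1
          · rw [ev_invRev, hgz, inv_mul_cancel_left]
            exact heqv _ _ ⟨hu, h2, c1⟩
          · rw [ev_nil, one_mul]
        · intro x hx y hy hxy
          show (if s.cl x = s.cl (r.Q j) then g (r.p + j) else g x) =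
            (if s.cl y = s.cl (r.Q j) then g (r.p + j) else g y)
          unfold mergeCl at hxy
          split_ifs at hxy with c1 c2 c2
          · rw [if_neg (by rw [c1]; exact hc), if_neg (by rw [c2]; exact hc)]
            exact heqv _ _ ⟨hx, hy, by rw [c1, c2]⟩
          · rw [if_neg (by rw [c1]; exact hc), if_pos hxy.symm]
            exact heqv _ _ ⟨hx, h1, c1⟩
          · rw [if_pos hxy, if_neg (by rw [c2]; exact hc)]
            exact heqv _ _ ⟨h1, hy, c2.symm⟩
          · split_ifs with c3 c4 c4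
            · rfl
            · exact absurd (hxy.symm.trans c3) c4
            · exact absurd (hxy.trans c4) c3
            · exact heqv _ _ ⟨hx, hy, hxy⟩
        · show (if s.cl s.v0 = s.cl (r.Q j) then g (r.p + j) else g s.v0) = 1
          rw [if_neg (by rw [hv]; exact hc)]
          exact hv0
      · obtain ⟨lam', hl1, hl2⟩ := certC_core (s := s) (cl' := mergeCl s.cl (r.p + j) (r.Q j)) lam hlam
          (fun u => if s.cl u = s.cl (r.p + j) then FreeGroup.invRev LP ++ LQ else [])
          (M := M) (fun u => by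
            show (if s.cl u = s.cl (r.p + j) then FreeGroup.invRev LP ++ LQ
              else []).length ≤ _
            split_ifs
            · exact hDe
            · exact Nat.zero_le _)
        refine ⟨lam', hl1, ?_⟩
        intro G _ m' m h' g hm' hm hT heqv hv0 hed
        have hed' : ∀ x y, s.Edge x y → (m' x)⁻¹ * m' y = (g x)⁻¹ * ev h' (lam x y) * g y := by
          intro x y hxy
          have h5 := hT (x, y) (Or.inl hxy)
          rw [val_singleton] at h5
          have h6 := hed x y hxy
          rw [← h6]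
          exact h5.symm
        have hgz := hgaz G m' h' g hm' heqv hed'
        refine ⟨fun u => if s.cl u = s.cl (r.p + j) then g (r.Q j) else g u, ?_⟩
        refine hl2 G m' h' g (fun u => if s.cl u = s.cl (r.p + j) then g (r.Q j) else g u) ?_ ?_ ?_ hed'
        · intro u hu
          show g u = ev h' (if s.cl u = s.cl (r.p + j) then FreeGroup.invRev LP ++ LQ
              else []) * (if s.cl u = s.cl (r.p + j) then g (r.Q j) else g u)
          split_ifs with c1
          · rw [← hgz]
            exact heqv _ _ ⟨hu, h1, c1⟩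
          · rw [ev_nil, one_mul]
        · intro x hx y hy hxy
          show (if s.cl x = s.cl (r.p + j) then g (r.Q j) else g x) =
            (if s.cl y = s.cl (r.p + j) then g (r.Q j) else g y)
          unfold mergeCl at hxy
          split_ifs at hxy with c1 c2 c2
          · rw [if_pos c1, if_pos c2]
          · rw [if_pos c1, if_neg c2]
            exact heqv _ _ ⟨h2, hy, hxy⟩
          · rw [if_neg c1, if_pos c2]
            exact heqv _ _ ⟨hx, h2, hxy⟩
          · rw [if_neg c1, if_neg c2]
            exact heqv _ _ ⟨hx, hy, hxy⟩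
        · show (if s.cl s.v0 = s.cl (r.p + j) then g (r.Q j) else g s.v0) = 1
          rw [if_neg hv]
          exact hv0

end PF
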