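import Pool.Agent.H1.PF.Path
import Pool.Agent.H1.PF.Tr

set_option autoImplicit false

/-!
# PF CertD: deleting an edge and its relation transfers certificates (helper1)

Use `cert_transfer` with `c = max M 1` (or any `c ≤ 4 * M + 2` which bounds the lengths) and then `Cert.mono`.

The edges of the new state are the edges of `s` except `(p, p + l)` (the units of `[p, p+l)` contain no mark in the interior and are deleted).
Let `Q0 = r.Q 0`, `Q1 = r.Q l`. The interval `[q, q + l)` is disjoint from `[p, p + l)`, its units are present in the new state; `exists_path` (in the new state) gives a path `L0`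
from `q` to `q + l` of length `≤ M`; let `Lq = L0` if `r.s = true` and `Lq = (L0.map Prod.swap).reverse` if `r.s = false`; then `val m Lq = (m Q0)⁻¹ * m Q1` for all `m`.
`T (p, p+l) = Lq`, `T (p+l, p) = (Lq.map Prod.swap).reverse`, `T e = [e]` otherwise.

`hLab`: let `m'` be a labelling of the new state, `k = m' p * ((m' Q0)⁻¹ * m' Q1) * (m' (p+l))⁻¹`; put `m x = m' x` for `x ≤ p` and `m x = k * m' x` for `x > p`.
Every edge other than `(p, p+l)`, and every side of a relation (of `L`, and the second side of `r`) lies in `x ≤ p` or in `x ≥ p + l`, so it keeps its value; and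
`(m p)⁻¹ * m (p + l) = (m' Q0)⁻¹ * m' Q1`, which is the value of `T (p, p+l)` and the relation of `r`.

`hpos`: if all units of `(p, p+l)` are positive and `r.s = true` then by `Sgn` all units `r.U j` are positive, these are all units of `[q, q+l)`, so all pairs of `L0` are positive;
if `r.s = false` all units of `[q, q + l)` are negative, so the reversed pairs are positive. The same for `(p+l, p)`.

`hSur`: `lam' = lam`, `g' = g` (edges of the new state are edges of `s` with the same value: `T e = [e]`).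
-/

namespace PF

theorem cert_del {n : ℕ} {sg : ℕ → Bool} {s : St} (h : s.Valid) (hsg : s.Sgn sg) {r : Rel} {L : List Rel} {B M : ℕ} {w : List (Fin n × Bool)}
    (hM : s.X.card ≤ M) (hs : s.rels = r :: L) (hm : ∀ u, r.p < u → u < r.p + r.l → u ∉ s.X) (hq : Free1 r L r.p (r.p + r.l))
    (hC : Cert (s.toFS sg) n B w) :
    Cert (St.toFS ⟨s.D.filter (fun u => ¬ (r.p ≤ u ∧ u < r.p + r.l)), s.X, s.cl, L, s.v0⟩ sg) n ((4 * M + 2) * B) w := by
  set s' : St := ⟨s.D.filter (fun u => ¬ (r.p ≤ u ∧ u < r.p + r.l)), s.X, s.cl, L, s.v0⟩ with hs'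
  have hr : r ∈ s.rels := by rw [hs]; exact List.mem_cons_self
  have hl : 0 < r.l := h.lpos r hr
  obtain ⟨hp1, hp2, hq1, hq2⟩ := h.pX r hr
  -- edges of the two states
  have hD' : ∀ u, u ∈ s'.D ↔ u ∈ s.D ∧ ¬ (r.p ≤ u ∧ u < r.p + r.l) := by
    intro u
    exact Finset.mem_filter
  have hE1 : ∀ x y, s'.Edge x y → s.Edge x y := by
    rintro x y ⟨h1, h2, h3, h4, h5⟩
    exact ⟨h1, h2, h3, fun u hu hu' => ((hD' u).1 (h4 u hu hu')).1, h5⟩
  have hS : ∀ x y, s'.Edge x y → y ≤ r.p ∨ r.p < x := by
    rintro x y ⟨h1, h2, h3, h4, h5⟩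
    by_contra h6
    rw [not_or, not_le, not_lt] at h6
    exact ((hD' r.p).1 (h4 r.p h6.2 h6.1)).2 ⟨le_refl _, by omega⟩
  have hE2 : ∀ x y, s.Edge x y → (x = r.p ∧ y = r.p + r.l) ∨ s'.Edge x y := by
    rintro x y ⟨h1, h2, h3, h4, h5⟩
    by_cases h6 : ∀ u, x ≤ u → u < y → ¬ (r.p ≤ u ∧ u < r.p + r.l)
    · right
      exact ⟨h1, h2, h3, fun u hu hu' => (hD' u).2 ⟨h4 u hu hu', h6 u hu hu'⟩, h5⟩
    · left
      simp only [not_forall, not_not] at h6
      obtain ⟨u, hu1, hu2, hu3, hu4⟩ := h6
      have e1 : x = r.p := by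
        rcases lt_trichotomy x r.p with h7 | h7 | h7
        · exact absurd hp1 (h5 r.p h7 (by omega))
        · exact h7
        · exact absurd h1 (hm x h7 (by omega))
      refine ⟨e1, ?_⟩
      rcases lt_trichotomy y (r.p + r.l) with h7 | h7 | h7
      · exact absurd h2 (hm y (by omega) h7)
      · exact h7
      · exact absurd hp2 (h5 _ (by omega) h7)
  -- the path
  have hqD : ∀ u, r.q ≤ u → u < r.q + r.l → u ∈ s'.D := by
    intro u hu1 hu2
    refine (hD' u).2 ⟨?_, fun h1 => (hq u h1.1 h1.2).1 ⟨hu1, hu2⟩⟩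
    have h1 := (h.pD r hr (u - r.q) (by omega)).2
    rwa [show r.q + (u - r.q) = u by omega] at h1
  obtain ⟨L0, hL1, hL2, hL3, hL4⟩ := exists_path (s := s') (x := r.q) (y := r.q + r.l) hq1 hq2
    (by omega) hqD
  have hL3' : L0.length ≤ M := le_trans hL3 hM
  let Lq : List (ℕ × ℕ) := if r.s then L0 else (L0.map Prod.swap).reverse
  have hQv : ∀ (G : Type) [Group G] (m : ℕ → G), val m Lq = (m (r.Q 0))⁻¹ * m (r.Q r.l) := by
    intro G _ m
    show val m (if r.s then L0 else (L0.map Prod.swap).reverse) = _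
    unfold Rel.Q
    cases hrs : r.s
    · simp only [Bool.false_eq_true, if_false, Nat.sub_zero, Nat.sub_self, Nat.add_zero]
      rw [val_rev, path_val hL1, mul_inv_rev, inv_inv]
    · simp only [if_true, Nat.add_zero]
      exact path_val hL1 m
  have hLql : Lq.length ≤ M := by
    show (if r.s then L0 else (L0.map Prod.swap).reverse).length ≤ M
    split_ifs
    · exact hL3'
    · rw [List.length_reverse, List.length_map]
      exact hL3'
  let T : ℕ × ℕ → List (ℕ × ℕ) := fun e =>
    if e = (r.p, r.p + r.l) then Lq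
    else if e = (r.p + r.l, r.p) then (Lq.map Prod.swap).reverse else [e]
  have hT1 : T (r.p, r.p + r.l) = Lq := if_pos rfl
  have hne : ((r.p + r.l, r.p) : ℕ × ℕ) ≠ (r.p, r.p + r.l) := by
    intro h1
    have h2 := congrArg Prod.fst h1
    simp only at h2
    omega
  have hT2 : T (r.p + r.l, r.p) = (Lq.map Prod.swap).reverse := by
    show (if _ then _ else if _ then _ else _) = _
    rw [if_neg hne, if_pos rfl]
  have hT3 : ∀ e, e ≠ (r.p, r.p + r.l) → e ≠ (r.p + r.l, r.p) → T e = [e] := by
    intro e h1 h2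
    show (if _ then _ else if _ then _ else _) = _
    rw [if_neg h1, if_neg h2]
  -- members of the paths
  have hmLq : ∀ e ∈ Lq, (r.s = true ∧ e ∈ L0) ∨ (r.s = false ∧ e.swap ∈ L0) := by
    intro e he
    have he' : e ∈ (if r.s then L0 else (L0.map Prod.swap).reverse) := he
    cases hrs : r.s
    · right
      rw [hrs, if_neg (by simp), List.mem_reverse, List.mem_map] at he'
      obtain ⟨a, ha, rfl⟩ := he'
      exact ⟨rfl, by rwa [Prod.swap_swap]⟩
    · left
      rw [hrs, if_pos rfl] at he'
      exact ⟨rfl, he'⟩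
  have hmLr : ∀ e ∈ (Lq.map Prod.swap).reverse, e.swap ∈ Lq := by
    intro e he
    rw [List.mem_reverse, List.mem_map] at he
    obtain ⟨a, ha, rfl⟩ := he
    rwa [Prod.swap_swap]
  -- an edge of `s` is a special pair or an edge of `s'`
  have hcase : ∀ e : ℕ × ℕ, (s.toFS sg).E2 e → e = (r.p, r.p + r.l) ∨ e = (r.p + r.l, r.p) ∨
      (T e = [e] ∧ (s'.toFS sg).E2 e) := by
    rintro ⟨x, y⟩ he
    by_cases h1 : ((x, y) : ℕ × ℕ) = (r.p, r.p + r.l)
    · exact Or.inl h1
    · by_cases h2 : ((x, y) : ℕ × ℕ) = (r.p + r.l, r.p)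
      · exact Or.inr (Or.inl h2)
      · refine Or.inr (Or.inr ⟨hT3 _ h1 h2, ?_⟩)
        rcases he with he | he
        · rcases hE2 x y he with h3 | h3
          · exact absurd (by rw [h3.1, h3.2]) h1
          · exact Or.inl h3
        · rcases hE2 y x he with h3 | h3
          · exact absurd (by rw [h3.1, h3.2]) h2
          · exact Or.inr h3
  have hT' : ∀ x y, s'.Edge x y → T (x, y) = [(x, y)] := by
    intro x y hxy
    refine hT3 _ ?_ ?_
    · intro h1
      have h2 := congrArg Prod.fst h1
      have h3 := congrArg Prod.snd h1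
      simp only at h2 h3
      have h4 := hS x y hxy
      have h5 := hxy.2.2.1
      omega
    · intro h1
      have h2 := congrArg Prod.fst h1
      have h3 := congrArg Prod.snd h1
      simp only at h2 h3
      have h5 := hxy.2.2.1
      omega
  -- signs of the units of the second side
  have hsg1 : ∀ c : Bool, (∀ u, r.p ≤ u → u < r.p + r.l → sg u = c) →
      ∀ u, r.q ≤ u → u < r.q + r.l → sg u = if r.s then c else !c := by
    intro c hc u hu1 hu2
    cases hrs : r.s
    · have h1 := hsg r hr (r.l - 1 - (u - r.q)) (by omega)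
      have h2 : r.U (r.l - 1 - (u - r.q)) = u := by
        unfold Rel.U
        rw [hrs, if_neg (by simp)]
        omega
      rw [h2, hc (r.p + (r.l - 1 - (u - r.q))) (by omega) (by omega), hrs] at h1
      have h3 : ¬ sg u = c := fun h4 => by simpa using h1.1 h4
      rw [if_neg (by simp)]
      exact Bool.eq_not_of_ne h3
    · have h1 := hsg r hr (u - r.q) (by omega)
      have h2 : r.U (u - r.q) = u := by
        unfold Rel.U
        rw [hrs, if_pos rfl]
        omega
      rw [h2, hc (r.p + (u - r.q)) (by omega) (by omega)] at h1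
      rw [if_pos rfl]
      exact h1.2 hrs
  have hpl : ¬ s.Edge (r.p + r.l) r.p := fun h1 => by
    have h2 := h1.2.2.1
    omega
  -- transfer
  refine Cert.mono (Nat.mul_le_mul_right B (show max M 1 ≤ 4 * M + 2 by omega))
    (cert_transfer (f := s.toFS sg) (f' := s'.toFS sg) (c := max M 1) T ?_ ?_ ?_ ?_ ?_ ?_ hC)
  · rintro x y (h1 | h1)
    · exact Or.inl h1.1
    · exact Or.inr h1.1
  · intro e he
    rcases hcase e he with rfl | rfl | h1
    · rw [hT1]; exact le_trans hLql (le_max_left _ _)
    · rw [hT2, List.length_reverse, List.length_map]; exact le_trans hLql (le_max_left _ _)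
    · rw [h1.1, List.length_singleton]; exact le_max_right _ _
  · have hEq : ∀ e ∈ Lq, (s'.toFS sg).E2 e := by
      intro e he
      rcases hmLq e he with ⟨_, h1⟩ | ⟨_, h1⟩
      · exact Or.inl (hL4 e h1).1
      · exact Or.inr (hL4 _ h1).1
    intro e he e' he'
    rcases hcase e he with rfl | rfl | h1
    · rw [hT1] at he'
      exact hEq e' he'
    · rw [hT2] at he'
      exact (hEq _ (hmLr e' he')).symm
    · rw [h1.1, List.mem_singleton] at he'
      rw [he']
      exact h1.2
  · -- positive pairs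
    have hposL : ∀ c : Bool, (∀ u, r.p ≤ u → u < r.p + r.l → sg u = c) → ∀ e ∈ L0,
        s'.Edge e.1 e.2 ∧ ∀ u, e.1 ≤ u → u < e.2 → sg u = if r.s then c else !c := by
      intro c hc e he
      obtain ⟨h1, h2, h3⟩ := hL4 e he
      exact ⟨h1, fun u hu1 hu2 => hsg1 c hc u (by omega) (by omega)⟩
    intro e he e' he'
    have hE : (s.toFS sg).E2 e := by
      rcases he with h1 | h1
      · exact Or.inl h1.1
      · exact Or.inr h1.1
    rcases hcase e hE with rfl | rfl | h1
    · rw [hT1] at he'
      rcases he with h1 | h1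
      · rcases hmLq e' he' with ⟨h2, h3⟩ | ⟨h2, h3⟩
        · obtain ⟨h4, h5⟩ := hposL true h1.2 e' h3
          rw [h2] at h5
          exact Or.inl ⟨h4, h5⟩
        · obtain ⟨h4, h5⟩ := hposL true h1.2 _ h3
          rw [h2] at h5
          exact Or.inr ⟨h4, h5⟩
      · exact absurd h1.1 hpl
    · rw [hT2] at he'
      rcases he with h1 | h1
      · exact absurd h1.1 hpl
      · rcases hmLq _ (hmLr e' he') with ⟨h2, h3⟩ | ⟨h2, h3⟩
        · obtain ⟨h4, h5⟩ := hposL false h1.2 _ h3
          rw [h2] at h5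
          exact Or.inr ⟨h4, h5⟩
        · rw [Prod.swap_swap] at h3
          obtain ⟨h4, h5⟩ := hposL false h1.2 _ h3
          rw [h2] at h5
          exact Or.inl ⟨h4, h5⟩
    · rw [h1.1, List.mem_singleton] at he'
      rw [he']
      rcases he with h2 | h2
      · left
        refine ⟨?_, h2.2⟩
        rcases hE2 _ _ h2.1 with h3 | h3
        · exfalso
          rcases h1.2 with h4 | h4
          · have h5 := hS _ _ h4
            have h6 : s'.Edge e.1 e.2 := h4
            have h7 := h6.2.2.1
            omega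
          · have h6 : s'.Edge e.2 e.1 := h4
            have h7 := h6.2.2.1
            omega
        · exact h3
      · right
        refine ⟨?_, h2.2⟩
        rcases hE2 _ _ h2.1 with h3 | h3
        · exfalso
          rcases h1.2 with h4 | h4
          · have h6 : s'.Edge e.1 e.2 := h4
            have h7 := h6.2.2.1
            omega
          · have h5 := hS _ _ h4
            have h6 : s'.Edge e.2 e.1 := h4
            have h7 := h6.2.2.1
            omega
        · exact h3
  · -- labellings
    intro G _ m' hm'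
    let k : G := m' r.p * ((m' (r.Q 0))⁻¹ * m' (r.Q r.l)) * (m' (r.p + r.l))⁻¹
    let m : ℕ → G := fun x => if x ≤ r.p then m' x else k * m' x
    have hK : ∀ x y, (x ≤ r.p ∧ y ≤ r.p) ∨ (r.p < x ∧ r.p < y) →
        (m x)⁻¹ * m y = (m' x)⁻¹ * m' y := by
      intro x y hxy
      show (if x ≤ r.p then m' x else k * m' x)⁻¹ * (if y ≤ r.p then m' y else k * m' y) = _
      rcases hxy with ⟨h1, h2⟩ | ⟨h1, h2⟩
      · rw [if_pos h1, if_pos h2]
      · rw [if_neg (by omega), if_neg (by omega)]
        group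
    have hside : ∀ a c, 0 < c → (∀ u, r.p ≤ u → u < r.p + r.l → ¬ (a ≤ u ∧ u < a + c)) →
        (a ≤ r.p ∧ a + c ≤ r.p) ∨ (r.p < a ∧ r.p < a + c) := by
      intro a c hc h1
      have h2 := h1 r.p (le_refl _) (by omega)
      omega
    have hrv : (m r.p)⁻¹ * m (r.p + r.l) = (m' (r.Q 0))⁻¹ * m' (r.Q r.l) := by
      show (if r.p ≤ r.p then m' r.p else k * m' r.p)⁻¹ *
        (if r.p + r.l ≤ r.p then m' (r.p + r.l) else k * m' (r.p + r.l)) = _
      rw [if_pos (le_refl _), if_neg (by omega)]
      show (m' r.p)⁻¹ * (m' r.p * ((m' (r.Q 0))⁻¹ * m' (r.Q r.l)) * (m' (r.p + r.l))⁻¹ *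
        m' (r.p + r.l)) = _
      group
    have hQ : ∀ t : Rel, ((t.q ≤ r.p ∧ t.q + t.l ≤ r.p) ∨ (r.p < t.q ∧ r.p < t.q + t.l)) →
        ((t.Q 0 ≤ r.p ∧ t.Q t.l ≤ r.p) ∨ (r.p < t.Q 0 ∧ r.p < t.Q t.l)) := by
      intro t ht
      unfold Rel.Q
      split_ifs <;> omega
    refine ⟨m, ?_, ?_⟩
    · rintro a b c d ⟨t, ht, rfl, rfl, rfl, rfl⟩
      rw [hs, List.mem_cons] at ht
      rcases ht with rfl | ht
      · rw [hrv, hK _ _ (hQ t (hside _ _ hl fun u h1 h2 => (hq u h1 h2).1))]
      · have htl : 0 < t.l := h.lpos t (by rw [hs]; exact List.mem_cons_of_mem _ ht)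
        rw [hK _ _ (hside _ _ htl fun u h1 h2 => ((hq u h1 h2).2 t ht).1),
          hK _ _ (hQ t (hside _ _ htl fun u h1 h2 => ((hq u h1 h2).2 t ht).2))]
        exact hm' _ _ _ _ ⟨t, ht, rfl, rfl, rfl, rfl⟩
    · intro e he
      rcases hcase e he with rfl | rfl | h1
      · rw [hT1, hQv]
        exact hrv
      · rw [hT2, val_rev, hQv, ← hrv, mul_inv_rev, inv_inv]
      · rw [h1.1, val_singleton]
        rcases h1.2 with h2 | h2
        · refine hK _ _ ?_
          have h3 := hS _ _ h2
          have h4 : s'.Edge e.1 e.2 := h2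
          have h5 := h4.2.2.1
          omega
        · refine hK _ _ ?_
          have h3 := hS _ _ h2
          have h4 : s'.Edge e.2 e.1 := h2
          have h5 := h4.2.2.1
          omega
  · intro lam hlam
    refine ⟨lam, fun x y => le_trans (hlam x y) (Nat.le_mul_of_pos_left B (by omega)), ?_⟩
    intro G _ m' m hh g _ _ hv h1 h2 h3
    refine ⟨g, h1, h2, fun x y hxy => ?_⟩
    have h4 := hv (x, y) (Or.inl (hE1 x y hxy))
    rw [hT' x y hxy, val_singleton] at h4
    rw [← h4]
    exact h3 x y (hE1 x y hxy)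

end PF
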