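import Pool.Agent.H1.PF.Path
import Pool.Agent.H1.PF.Tr

set_option autoImplicit false

/-!
# PF CertE: the other moves transfer certificates (helper1)

* `cert_same`: same marks, units, classes and base mark, and every labelling of the new state is a labelling of the old one: then the same `W, W0, lam` work
  (directly from the definitions; `toFS` has the same `ed`, `eqv`, `pos`, `v0`).
* `comp`: the relation of `r'` follows from those of `r` and `r.comp r'` (two cases for `r.s`, two cases for `r'.s`). `flip`: for `r.s = false` take inverses. `perm`: clear.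
* `drop`: `cert_transfer` with `T e = [e]`, `c = 1`. Edges, positive pairs and relations do not change (ends of edges are not isolated), `g' = g`; the new base mark has the same class as
  the old one.
The conclusion has the factor `4 * M + 2` only for uniformity (`Cert.mono`).
-/

namespace PF

theorem cert_same {n : ℕ} {sg : ℕ → Bool} {s s' : St} {B : ℕ} {w : List (Fin n × Bool)} (hX : s'.X = s.X) (hD : s'.D = s.D) (hcl : s'.cl = s.cl)
    (hv : s'.v0 = s.v0) (hLab : ∀ (G : Type) [Group G] (m : ℕ → G), (s'.toFS sg).Lab m → (s.toFS sg).Lab m)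
    (hC : Cert (s.toFS sg) n B w) : Cert (s'.toFS sg) n B w := by
  obtain ⟨D, X, cl, rels, v0⟩ := s
  obtain ⟨D', X', cl', rels', v0'⟩ := s'
  dsimp only at hX hD hcl hv
  subst hX hD hcl hv
  obtain ⟨W, ⟨h1, h2, lam, h3, h4⟩, W0, h5, h6⟩ := hC
  exact ⟨W, ⟨h1, h2, lam, h3, fun G _ m hm => h4 G m (hLab G m hm)⟩, W0, h5,
    fun G _ m hm => h6 G m (hLab G m hm)⟩

/-- the relation of `t` for the labelling `m` -/
private def CertE_ok {G : Type} [Group G] (m : ℕ → G) (t : Rel) : Prop :=
  (m t.p)⁻¹ * m (t.p + t.l) =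
    if t.s then (m t.q)⁻¹ * m (t.q + t.l) else ((m t.q)⁻¹ * m (t.q + t.l))⁻¹

private theorem CertE_iff {G : Type} [Group G] (m : ℕ → G) (t : Rel) :
    (m t.p)⁻¹ * m (t.p + t.l) = (m (t.Q 0))⁻¹ * m (t.Q t.l) ↔ CertE_ok m t := by
  unfold CertE_ok Rel.Q
  cases ht : t.s
  · simp
  · simp

private theorem CertE_lab {s : St} {sg : ℕ → Bool} {G : Type} [Group G] (m : ℕ → G) :
    (s.toFS sg).Lab m ↔ ∀ t ∈ s.rels, CertE_ok m t := by
  constructor
  · intro h t ht
    exact (CertE_iff m t).1 (h _ _ _ _ ⟨t, ht, rfl, rfl, rfl, rfl⟩)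
  · rintro h a b c d ⟨t, ht, rfl, rfl, rfl, rfl⟩
    exact (CertE_iff m t).2 (h t ht)

private theorem CertE_le {M B : ℕ} : B ≤ (4 * M + 2) * B :=
  Nat.le_mul_of_pos_left _ (by omega)

private theorem CertE_comp {G : Type} [Group G] (m : ℕ → G) {r r' : Rel} (hp : r.p = r'.p) (hl : r.l = r'.l)
    (h1 : CertE_ok m r) (h2 : CertE_ok m (r.comp r')) : CertE_ok m r' := by
  obtain ⟨p, q, l, s⟩ := r
  obtain ⟨p', q', l', s'⟩ := r'
  dsimp only at hp hl
  subst hp hl
  unfold CertE_ok at h1 h2 ⊢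
  unfold Rel.comp at h2
  dsimp only at h1 h2 ⊢
  cases s <;> cases s'
  · rw [if_neg (by decide)] at h1
    rw [if_pos (by decide)] at h2
    rw [if_neg (by decide), h1, h2]
  · rw [if_neg (by decide)] at h1
    rw [if_neg (by decide)] at h2
    rw [if_pos (by decide), h1, h2, inv_inv]
  · rw [if_pos (by decide)] at h1
    rw [if_neg (by decide)] at h2
    rw [if_neg (by decide), h1, h2]
  · rw [if_pos (by decide)] at h1
    rw [if_pos (by decide)] at h2
    rw [if_pos (by decide), h1, h2]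

private theorem CertE_flip {G : Type} [Group G] (m : ℕ → G) {r : Rel} (h : CertE_ok m r.flip) :
    CertE_ok m r := by
  obtain ⟨p, q, l, s⟩ := r
  unfold CertE_ok at h ⊢
  unfold Rel.flip at h
  dsimp only at h ⊢
  cases s
  · rw [if_neg (by decide)] at h ⊢
    rw [h, inv_inv]
  · rw [if_pos (by decide)] at h ⊢
    rw [h]

theorem cert_comp {n : ℕ} {sg : ℕ → Bool} {s : St} {r r' : Rel} {L : List Rel} {B M : ℕ} {w : List (Fin n × Bool)}
    (hs : s.rels = r :: r' :: L) (hp : r.p = r'.p) (hl : r.l = r'.l) (hC : Cert (s.toFS sg) n B w) :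
    Cert (St.toFS ⟨s.D, s.X, s.cl, r :: r.comp r' :: L, s.v0⟩ sg) n ((4 * M + 2) * B) w := by
  refine Cert.mono CertE_le ?_
  refine cert_same (s := s) rfl rfl rfl rfl ?_ hC
  intro G _ m hm
  rw [CertE_lab] at hm ⊢
  rw [hs]
  have h1 : CertE_ok m r := hm r (List.mem_cons_self ..)
  have h2 : CertE_ok m (r.comp r') := hm (r.comp r') (List.mem_cons_of_mem _ (List.mem_cons_self ..))
  intro t ht
  rcases List.mem_cons.1 ht with ht | ht
  · rw [ht]
    exact h1
  rcases List.mem_cons.1 ht with ht | ht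
  · rw [ht]
    exact CertE_comp m hp hl h1 h2
  · exact hm t (List.mem_cons_of_mem _ (List.mem_cons_of_mem _ ht))

theorem cert_flip {n : ℕ} {sg : ℕ → Bool} {s : St} {r : Rel} {L : List Rel} {B M : ℕ} {w : List (Fin n × Bool)}
    (hs : s.rels = r :: L) (hC : Cert (s.toFS sg) n B w) :
    Cert (St.toFS ⟨s.D, s.X, s.cl, r.flip :: L, s.v0⟩ sg) n ((4 * M + 2) * B) w := by
  refine Cert.mono CertE_le ?_
  refine cert_same (s := s) rfl rfl rfl rfl ?_ hC
  intro G _ m hm
  rw [CertE_lab] at hm ⊢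
  rw [hs]
  intro t ht
  rcases List.mem_cons.1 ht with ht | ht
  · rw [ht]
    exact CertE_flip m (hm r.flip (List.mem_cons_self ..))
  · exact hm t (List.mem_cons_of_mem _ ht)

theorem cert_perm {n : ℕ} {sg : ℕ → Bool} {s : St} {L : List Rel} {B M : ℕ} {w : List (Fin n × Bool)}
    (hs : s.rels.Perm L) (hC : Cert (s.toFS sg) n B w) :
    Cert (St.toFS ⟨s.D, s.X, s.cl, L, s.v0⟩ sg) n ((4 * M + 2) * B) w := by
  refine Cert.mono CertE_le ?_
  refine cert_same (s := s) rfl rfl rfl rfl ?_ hC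
  intro G _ m hm
  rw [CertE_lab] at hm ⊢
  intro t ht
  exact hm t (hs.mem_iff.1 ht)

end PF
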