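import Pool.Agent.H1.PF.Path
import Pool.Agent.H1.PF.Tr

set_option autoImplicit false

/-!
# PF CertF: the other moves transfer certificates (helper1)

* `cert_same`: same marks, units, classes and base mark, and every labelling of the new state is a labelling of the old one: then the same `W, W0, lam` work
  (directly from the definitions; `toFS` has the same `ed`, `eqv`, `pos`, `v0`).
* `comp`: the relation of `r'` follows from those of `r` and `r.comp r'` (two cases for `r.s`, two cases for `r'.s`). `flip`: for `r.s = false` take inverses. `perm`: clear.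
* `drop`: `cert_transfer` with `T e = [e]`, `c = 1`. Edges, positive pairs and relations do not change (ends of edges are not isolated), `g' = g`; the new base mark has the same class as
  the old one.
The conclusion has the factor `4 * M + 2` only for uniformity (`Cert.mono`).
-/

namespace PF

theorem cert_drop {n : ℕ} {sg : ℕ → Bool} {s : St} (h : s.Valid) {x0 x1 B M : ℕ} {w : List (Fin n × Bool)}
    (h0 : x0 ∈ s.X) (h0D : x0 ∉ s.D) (h0D' : ∀ u ∈ s.D, u + 1 ≠ x0) (h1 : x1 ∈ s.X) (hne : x1 ≠ x0) (hcl : s.cl x1 = s.cl x0)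
    (hC : Cert (s.toFS sg) n B w) :
    Cert (St.toFS ⟨s.D, s.X.erase x0, s.cl, s.rels, if s.v0 = x0 then x1 else s.v0⟩ sg) n ((4 * M + 2) * B) w := by
  set s' : St := ⟨s.D, s.X.erase x0, s.cl, s.rels, if s.v0 = x0 then x1 else s.v0⟩ with hs'
  have hE : ∀ x y, s'.Edge x y ↔ s.Edge x y := by
    intro x y
    constructor
    · rintro ⟨hx, hy, hxy, hD, hno⟩
      refine ⟨Finset.mem_of_mem_erase hx, Finset.mem_of_mem_erase hy, hxy, hD, fun u hu hu' huX => ?_⟩
      refine hno u hu hu' (Finset.mem_erase.2 ⟨?_, huX⟩)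
      rintro rfl
      exact h0D (hD u (by omega) hu')
    · rintro ⟨hx, hy, hxy, hD, hno⟩
      refine ⟨Finset.mem_erase.2 ⟨?_, hx⟩, Finset.mem_erase.2 ⟨?_, hy⟩, hxy, hD,
        fun u hu hu' huX => hno u hu hu' (Finset.mem_of_mem_erase huX)⟩
      · rintro rfl
        exact h0D (hD x le_rfl hxy)
      · intro hy0
        exact h0D' (y - 1) (hD (y - 1) (by omega) (by omega)) (by omega)
  have hE2 : ∀ e, (s.toFS sg).E2 e ↔ (s'.toFS sg).E2 e := by
    intro e
    unfold FS.E2
    show s.Edge e.1 e.2 ∨ s.Edge e.2 e.1 ↔ s'.Edge e.1 e.2 ∨ s'.Edge e.2 e.1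
    rw [hE, hE]
  have hpos : ∀ x y, (s.toFS sg).pos x y → (s'.toFS sg).pos x y := by
    intro x y hxy
    rcases hxy with hxy | hxy
    · exact Or.inl ⟨(hE _ _).2 hxy.1, hxy.2⟩
    · exact Or.inr ⟨(hE _ _).2 hxy.1, hxy.2⟩
  have hBB : 1 * B ≤ (4 * M + 2) * B := Nat.mul_le_mul_right B (by omega)
  refine Cert.mono hBB ?_
  refine cert_transfer (f := s.toFS sg) (fun e => [e]) ?_ ?_ ?_ ?_ ?_ ?_ hC
  · rintro x y (hxy | hxy)
    · exact Or.inl hxy.1
    · exact Or.inr hxy.1
  · intro e _
    exact le_rfl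
  · intro e he e' he'
    rw [List.mem_singleton] at he'
    subst he'
    exact (hE2 _).1 he
  · intro e he e' he'
    rw [List.mem_singleton] at he'
    subst he'
    exact hpos _ _ he
  · intro G _ m' hm'
    exact ⟨m', hm', fun e _ => (val_singleton m' e).symm⟩
  · intro lam hlam
    refine ⟨lam, fun x y => (hlam x y).trans (by omega), ?_⟩
    intro G _ m' m h' g _ _ hme hg hg0 hgl
    refine ⟨g, ?_, ?_, ?_⟩
    · rintro x y ⟨hx, hy, hxy⟩
      exact hg x y ⟨Finset.mem_of_mem_erase hx, Finset.mem_of_mem_erase hy, hxy⟩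
    · show g (if s.v0 = x0 then x1 else s.v0) = 1
      by_cases hv : s.v0 = x0
      · rw [if_pos hv, hg x1 x0 ⟨h1, h0, hcl⟩, ← hv]
        exact hg0
      · rw [if_neg hv]
        exact hg0
    · intro x y hxy
      have h3 : s.Edge x y := (hE x y).1 hxy
      rw [← hgl x y h3, hme (x, y) (Or.inl h3), val_singleton]

end PF
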