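import Pool.Agent.H1.PF.CovA

set_option autoImplicit false

/-!
# PF Cov: coverage, degree, and the basic operations (helper1)

* `deg_ue`: for one relation `((List.range l).map fun j => p + j).count u` is 1 if `p ≤ u < p + l` and 0 otherwise, and the same for the units `r.U j` (`j ↦ r.U j` is a bijection from
  `{0..l-1}` to `[q, q + l)`); induction on the list of relations.
* `cov_one`: apply `Forest` to the whole list.
* `perm`: `sides`, `ue` of permuted lists are permutations (`List.Perm.flatMap_right` or induction), `countP`, `toFinset`, `Subperm` are invariant.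
* `flip`: `sides (r.flip :: L)` is a permutation of `sides (r :: L)`. `ue [r.flip]` is a permutation of `(ue [r]).map Prod.swap`, where the pair `(p + j, r.U j)` is swapped. For `Forest`: a subfamily
  of the new list can be turned back into a subfamily of the old list with the same degrees (swap the members coming from `r`).
* `not_same`: if the two sides of `r` are the same interval, then `(p, p)` (if `s = true` or `l = 1`) or the two pairs `(p, p + l - 1), (p + l - 1, p)` are a subfamily of `ue` without a unit of degree one.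
* `sum_wt`: every side is in exactly one block.
-/

namespace PF

private theorem cov_sides_perm {L L' : List Rel} (h : L.Perm L') : (sides L).Perm (sides L') := by
  unfold sides
  exact List.Perm.flatMap_right _ h

private theorem cov_ue_perm {L L' : List Rel} (h : L.Perm L') : (ue L).Perm (ue L') := by
  unfold ue
  exact List.Perm.flatMap_right _ h

private theorem cov_sides_flip (r : Rel) (L : List Rel) :
    (sides (r.flip :: L)).Perm (sides (r :: L)) := by
  show List.Perm ((r.q, r.l) :: (r.p, r.l) :: sides L) ((r.p, r.l) :: (r.q, r.l) :: sides L)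
  exact List.Perm.swap _ _ _

private theorem cov_cov_perm {L L' : List Rel} (h : (sides L).Perm (sides L')) (u : ℕ) :
    cov L u = cov L' u := by
  unfold cov
  exact h.countP_eq _

private theorem cov_wt_perm {L L' : List Rel} (h : (sides L).Perm (sides L')) (bl : ℕ → ℕ) (v : ℕ) :
    wt bl L v = wt bl L' v := by
  unfold wt
  exact h.countP_eq _

private theorem cov_kap_perm {L L' : List Rel} (h : (sides L).Perm (sides L')) (bl : ℕ → ℕ) :
    kap bl L = kap bl L' := by
  unfold kap
  rw [List.toFinset_eq_of_perm _ _ (h.map _)]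
  exact Finset.sum_congr rfl fun v _ => by rw [cov_wt_perm h bl v]

private theorem cov_blok_perm {L L' : List Rel} (h : (sides L).Perm (sides L')) {bl : ℕ → ℕ}
    (hF : BlOk bl L) : BlOk bl L' := fun t ht => hF t (h.mem_iff.mpr ht)

private theorem cov_forest_perm {A B : List (ℕ × ℕ)} (h : A.Perm B) (hF : Forest A) : Forest B :=
  fun L' hL' hne => hF L' (hL'.trans h.symm.subperm) hne

private theorem cov_deg_perm {A B : List (ℕ × ℕ)} (h : A.Perm B) (x : ℕ) : deg A x = deg B x := by
  unfold deg
  rw [(h.map Prod.fst).count_eq, (h.map Prod.snd).count_eq]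

private theorem cov_deg_append (A B : List (ℕ × ℕ)) (x : ℕ) :
    deg (A ++ B) x = deg A x + deg B x := by
  unfold deg
  rw [List.map_append, List.map_append, List.count_append, List.count_append]
  omega

private theorem cov_deg_swap (A : List (ℕ × ℕ)) (x : ℕ) : deg (A.map Prod.swap) x = deg A x := by
  unfold deg
  rw [List.map_map, List.map_map]
  have h1 : (Prod.fst ∘ Prod.swap : ℕ × ℕ → ℕ) = Prod.snd := rfl
  have h2 : (Prod.snd ∘ Prod.swap : ℕ × ℕ → ℕ) = Prod.fst := rfl
  rw [h1, h2, Nat.add_comm]

private theorem cov_forest_swap {A B : List (ℕ × ℕ)} (hF : Forest (A ++ B)) :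
    Forest (A.map Prod.swap ++ B) := by
  intro L' hL' hne
  obtain ⟨l, hl, hsub⟩ := hL'
  obtain ⟨l1, l2, rfl, h1, h2⟩ := List.sublist_append_iff.mp hsub
  obtain ⟨A', hA', rfl⟩ := List.sublist_map_iff.mp h1
  have hne' : A' ++ l2 ≠ [] := by
    intro h0
    rw [List.append_eq_nil_iff] at h0
    rw [h0.1, h0.2] at hl
    exact hne (List.Perm.eq_nil hl.symm)
  obtain ⟨x, hx⟩ := hF (A' ++ l2) (List.Sublist.subperm (hA'.append h2)) hne'
  refine ⟨x, ?_⟩
  rw [← cov_deg_perm hl x, cov_deg_append, cov_deg_swap, ← cov_deg_append]
  exact hx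

private theorem cov_ue_flip (r : Rel) :
    (((List.range r.l).map fun j => (r.p + j, r.U j)).map Prod.swap).Perm
      ((List.range r.flip.l).map fun j => (r.flip.p + j, r.flip.U j)) := by
  rw [List.map_map]
  have hl : r.flip.l = r.l := rfl
  rw [hl]
  by_cases hs : r.s = true
  · have e : (Prod.swap ∘ fun j => (r.p + j, r.U j)) = fun j => (r.flip.p + j, r.flip.U j) := by
      funext j
      show (r.U j, r.p + j) = (r.q + j, if r.s then r.p + j else r.p + (r.l - 1 - j))
      unfold Rel.U
      rw [if_pos hs, if_pos hs]
    rw [e]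
  · have e1 : (List.range r.l).map (Prod.swap ∘ fun j => (r.p + j, r.U j)) =
        ((List.range r.l).map fun j => r.l - 1 - j).map
          (fun j => (r.flip.p + j, r.flip.U j)) := by
      rw [List.map_map]
      refine List.map_congr_left fun j hj => ?_
      rw [List.mem_range] at hj
      show (r.U j, r.p + j) = (r.q + (r.l - 1 - j),
        if r.s then r.p + (r.l - 1 - j) else r.p + (r.l - 1 - (r.l - 1 - j)))
      unfold Rel.U
      rw [if_neg hs, if_neg hs]
      have : r.l - 1 - (r.l - 1 - j) = j := by omega
      rw [this]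
    rw [e1]
    refine List.Perm.map _ ?_
    have e2 : (List.range r.l).map (fun j => r.l - 1 - j) = (List.range r.l).reverse := by
      rw [List.range_eq_range', List.reverse_range', ← List.range_eq_range']
      simp
    rw [e2]
    exact List.reverse_perm _

theorem cov_perm {L L' : List Rel} (h : L.Perm L') (u : ℕ) : cov L u = cov L' u :=
  cov_cov_perm (cov_sides_perm h) u

theorem wt_perm {L L' : List Rel} (h : L.Perm L') (bl : ℕ → ℕ) (v : ℕ) : wt bl L v = wt bl L' v :=
  cov_wt_perm (cov_sides_perm h) bl v

theorem kap_perm {L L' : List Rel} (h : L.Perm L') (bl : ℕ → ℕ) : kap bl L = kap bl L' :=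
  cov_kap_perm (cov_sides_perm h) bl

theorem forest_perm {L L' : List Rel} (h : L.Perm L') (hF : Forest (ue L)) : Forest (ue L') :=
  cov_forest_perm (cov_ue_perm h) hF

theorem blok_perm {L L' : List Rel} (h : L.Perm L') {bl : ℕ → ℕ} (hF : BlOk bl L) : BlOk bl L' :=
  cov_blok_perm (cov_sides_perm h) hF

theorem cov_flip (r : Rel) (L : List Rel) (u : ℕ) : cov (r.flip :: L) u = cov (r :: L) u :=
  cov_cov_perm (cov_sides_flip r L) u

theorem wt_flip (r : Rel) (L : List Rel) (bl : ℕ → ℕ) (v : ℕ) : wt bl (r.flip :: L) v = wt bl (r :: L) v :=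
  cov_wt_perm (cov_sides_flip r L) bl v

theorem kap_flip (r : Rel) (L : List Rel) (bl : ℕ → ℕ) : kap bl (r.flip :: L) = kap bl (r :: L) :=
  cov_kap_perm (cov_sides_flip r L) bl

theorem forest_flip {r : Rel} {L : List Rel} (hF : Forest (ue (r :: L))) : Forest (ue (r.flip :: L)) := by
  have e1 : ue (r :: L) = ((List.range r.l).map fun j => (r.p + j, r.U j)) ++ ue L := rfl
  have e2 : ue (r.flip :: L) =
      ((List.range r.flip.l).map fun j => (r.flip.p + j, r.flip.U j)) ++ ue L := rfl
  rw [e1] at hF
  rw [e2]
  exact cov_forest_perm ((cov_ue_flip r).append_right _) (cov_forest_swap hF)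

theorem blok_flip {r : Rel} {L : List Rel} {bl : ℕ → ℕ} (hF : BlOk bl (r :: L)) : BlOk bl (r.flip :: L) :=
  cov_blok_perm (cov_sides_flip r L).symm hF

end PF
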