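import Pool.Agent.H1.PF.Defs

set_option autoImplicit false

/-!
# PF CovA: coverage, degree, and the basic operations (helper1)

* `deg_ue`: for one relation `((List.range l).map fun j => p + j).count u` is 1 if `p ≤ u < p + l` and 0 otherwise, and the same for the units `r.U j` (`j ↦ r.U j` is a bijection from
  `{0..l-1}` to `[q, q + l)`); induction on the list of relations.
* `cov_one`: apply `Forest` to the whole list.
* `perm`: `sides`, `ue` of permuted lists are permutations (`List.Perm.flatMap_right` or induction), `countP`, `toFinset`, `Subperm` are invariant.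
* `flip`: `sides (r.flip :: L)` is a permutation of `sides (r :: L)`. `ue [r.flip]` is a permutation of `(ue [r]).map Prod.swap`, where the pair `(p + j, r.U j)` is swapped. For `Forest`: a subfamily
  of the new list can be turned back into a subfamily of the old list with the same degrees (swap the members coming from `r`).
* `not_same`: if the two sides of `r` are the same interval, then `(p, p)` (if `s = true` or `l = 1`) or the two pairs `(p, p + l - 1), (p + l - 1, p)` are a subfamily of `ue` without a unit of degree one.
* `sum_wt`: every side is in exactly one block.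
-/

namespace PF

private theorem CovA_deg_append (A B : List (ℕ × ℕ)) (u : ℕ) : deg (A ++ B) u = deg A u + deg B u := by
  unfold deg
  rw [List.map_append, List.map_append, List.count_append, List.count_append]
  omega

private theorem CovA_count {A : List ℕ} (h : A.Nodup) (u : ℕ) (P : Prop) [Decidable P]
    (hP : u ∈ A ↔ P) : A.count u = if P then 1 else 0 := by
  split_ifs with hp
  · exact List.count_eq_one_of_mem h (hP.2 hp)
  · exact List.count_eq_zero_of_not_mem fun hu => hp (hP.1 hu)

private theorem CovA_one (r : Rel) (u : ℕ) :
    deg ((List.range r.l).map fun j => (r.p + j, r.U j)) u =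
      (if r.p ≤ u ∧ u < r.p + r.l then 1 else 0) + if r.q ≤ u ∧ u < r.q + r.l then 1 else 0 := by
  unfold deg
  rw [List.map_map, List.map_map]
  congr 1
  · apply CovA_count
    · refine List.Nodup.map_on ?_ List.nodup_range
      intro x _ y _ h
      exact Nat.add_left_cancel h
    · rw [List.mem_map]
      constructor
      · rintro ⟨j, hj, rfl⟩
        rw [List.mem_range] at hj
        show r.p ≤ r.p + j ∧ r.p + j < r.p + r.l
        omega
      · rintro ⟨h1, h2⟩
        refine ⟨u - r.p, List.mem_range.2 (by omega), ?_⟩
        show r.p + (u - r.p) = u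
        omega
  · apply CovA_count
    · refine List.Nodup.map_on ?_ List.nodup_range
      intro x hx y hy h
      rw [List.mem_range] at hx hy
      have h' : r.U x = r.U y := h
      unfold Rel.U at h'
      split_ifs at h' <;> omega
    · rw [List.mem_map]
      constructor
      · rintro ⟨j, hj, rfl⟩
        rw [List.mem_range] at hj
        show r.q ≤ r.U j ∧ r.U j < r.q + r.l
        unfold Rel.U
        split_ifs <;> omega
      · rintro ⟨h1, h2⟩
        by_cases hs : r.s = true
        · refine ⟨u - r.q, List.mem_range.2 (by omega), ?_⟩
          show r.U (u - r.q) = u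
          unfold Rel.U
          rw [if_pos hs]
          omega
        · refine ⟨r.l - 1 - (u - r.q), List.mem_range.2 (by omega), ?_⟩
          show r.U (r.l - 1 - (u - r.q)) = u
          unfold Rel.U
          rw [if_neg hs]
          omega

theorem deg_ue (rels : List Rel) (u : ℕ) : deg (ue rels) u = cov rels u := by
  induction rels with
  | nil => rfl
  | cons r L ih =>
    have h1 : ue (r :: L) = ((List.range r.l).map fun j => (r.p + j, r.U j)) ++ ue L := by
      unfold ue
      rw [List.flatMap_cons]
    have h2 : sides (r :: L) = [(r.p, r.l), (r.q, r.l)] ++ sides L := by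
      unfold sides
      rw [List.flatMap_cons]
    rw [h1, CovA_deg_append, ih, CovA_one]
    unfold cov
    rw [h2, List.countP_append]
    congr 1
    simp only [List.countP_cons, List.countP_nil, decide_eq_true_eq]
    omega

theorem cov_one {rels : List Rel} (hF : Forest (ue rels)) (hne : rels ≠ []) (hl : ∀ r ∈ rels, 0 < r.l) : ∃ u, cov rels u = 1 := by
  have h : ue rels ≠ [] := by
    obtain ⟨r, L, rfl⟩ := List.exists_cons_of_ne_nil hne
    have h0 : (r.p + 0, r.U 0) ∈ ue (r :: L) := by
      unfold ue
      rw [List.flatMap_cons]
      exact List.mem_append_left _ (List.mem_map.2 ⟨0, List.mem_range.2 (hl r List.mem_cons_self), rfl⟩)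
    exact List.ne_nil_of_mem h0
  obtain ⟨x, hx⟩ := hF (ue rels) (List.Subperm.refl _) h
  exact ⟨x, by rw [← deg_ue]; exact hx⟩

theorem not_same {r : Rel} {L : List Rel} (hF : Forest (ue (r :: L))) (hl : 0 < r.l) : r.p ≠ r.q := by
  intro hpq
  have hmem : ∀ j, j < r.l → (r.p + j, r.U j) ∈ ue (r :: L) := by
    intro j hj
    unfold ue
    rw [List.flatMap_cons]
    exact List.mem_append_left _ (List.mem_map.2 ⟨j, List.mem_range.2 hj, rfl⟩)
  by_cases h0 : r.U 0 = r.p
  · have h1 := hmem 0 hl
    rw [h0, Nat.add_zero] at h1
    obtain ⟨x, hx⟩ := hF [(r.p, r.p)] (List.singleton_subperm_iff.2 h1) (List.cons_ne_nil _ _)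
    unfold deg at hx
    simp only [List.map_cons, List.map_nil] at hx
    omega
  · have hs : r.s = false := by
      by_contra hs
      rw [Bool.not_eq_false] at hs
      apply h0
      unfold Rel.U
      rw [if_pos hs]
      omega
    have hU : ∀ j, r.U j = r.q + (r.l - 1 - j) := by
      intro j
      unfold Rel.U
      rw [hs]
      rfl
    have h1 := hmem 0 hl
    have h2 := hmem (r.l - 1) (by omega)
    have e1 : (r.p + 0, r.U 0) = (r.p, r.p + (r.l - 1)) := by
      rw [hU, hpq]
      congr 1
    have e2 : (r.p + (r.l - 1), r.U (r.l - 1)) = (r.p + (r.l - 1), r.p) := by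
      rw [hU, hpq]
      congr 1
      omega
    rw [e1] at h1
    rw [e2] at h2
    have h3 : r.l - 1 ≠ 0 := by
      intro h3
      apply h0
      rw [hU, hpq]
      omega
    have hnd : [(r.p, r.p + (r.l - 1)), (r.p + (r.l - 1), r.p)].Nodup := by
      rw [List.nodup_cons]
      refine ⟨?_, List.nodup_singleton _⟩
      rw [List.mem_singleton, Prod.mk.injEq]
      omega
    have hsub : [(r.p, r.p + (r.l - 1)), (r.p + (r.l - 1), r.p)] ⊆ ue (r :: L) := by
      intro e he
      rcases List.mem_cons.1 he with rfl | he
      · exact h1
      · rw [List.mem_singleton] at he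
        rw [he]
        exact h2
    obtain ⟨x, hx⟩ := hF _ (List.subperm_of_subset hnd hsub) (List.cons_ne_nil _ _)
    unfold deg at hx
    simp only [List.map_cons, List.map_nil, List.count_cons, List.count_nil, beq_iff_eq] at hx
    split_ifs at hx <;> omega

/-- the sum of the weights is twice the number of relations -/
theorem sum_wt (bl : ℕ → ℕ) (rels : List Rel) :
    ∑ v ∈ ((sides rels).map (fun t => bl t.1)).toFinset, wt bl rels v = 2 * rels.length := by
  have h1 : ∀ v, wt bl rels v = ((sides rels).map (fun t => bl t.1)).count v := by
    intro v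
    unfold wt
    rw [List.count, List.countP_map]
    apply List.countP_congr
    intro t _
    simp
  simp only [h1]
  rw [List.sum_toFinset_count_eq_length, List.length_map]
  unfold sides
  rw [List.length_flatMap]
  simp [mul_comm]

end PF
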