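import Pool.Agent.H1.PF.Defs
import Pool.Agent.H1.PP.Comp

set_option autoImplicit false

/-!
# PF CritP: the criterion is decidable (helper1)

`Crit n B w` is a finite search. The tuples `a, b : Fin n → List (Fin n × Bool)` with entries of length `≤ B` are the lists of length `n` with entries in `wordsLE n B` (`PPos.wordsLE`, `PPos.mem_wordsLE`, `PPos.primrec_wordsLE` in
`Pool.Agent.H1.PP.Comp`). For a list `A` of words put `subst A w` = concatenation of the words `A[i]` (for `(i, true)`) and `invRev A[i]` (for `(i, false)`); then `ev (fun k => mk (a k)) w = mk (subst A w)`. The condition for `b i` is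
`reduce (subst A (b i)) = [(i, true)]`, the condition for `w` is `reduce (subst A w) ≠ []` and all its letters are `(i, true)`. (A product of generators `of i` is `mk (L.map fun i => (i, true))`, which is reduced.)
All functions are primitive recursive: `Primrec.list_flatMap`, `list_map`, `list_getD`/`list_getElem?`, `PPos.primrec_reduce`; `invRev L = (L.map fun a => (a.1, !a.2)).reverse`; the list of all tuples is obtained by `n` steps
(`n` is constant). See `Pool/Agent/H1/PP/Comp.lean` for a similar proof (`check_primrec`). Bounded quantifiers: `PrimrecRel.exists_mem_list`, `forall_mem_list`.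
-/

namespace PF

/-- words -/
abbrev CritP_W (n : ℕ) : Type := List (Fin n × Bool)

/-- tuples of words -/
abbrev CritP_T (n : ℕ) : Type := List (CritP_W n)

/-- substitution -/
def CritP_subst {n : ℕ} (A : CritP_T n) (w : CritP_W n) : CritP_W n :=
  w.flatMap (fun x => if x.2 = true then A.getD x.1 [] else FreeGroup.invRev (A.getD x.1 []))

/-- all lists of length `k` with members in `W` -/
def CritP_tup {β : Type} : ℕ → List β → List (List β)
  | 0, _ => [[]]
  | k + 1, W => (CritP_tup k W).flatMap (fun t => W.map (fun a => a :: t))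

theorem CritP_mem_tup {β : Type} {k : ℕ} {W : List β} {t : List β} :
    t ∈ CritP_tup k W ↔ t.length = k ∧ ∀ a ∈ t, a ∈ W := by
  induction k generalizing t with
  | zero =>
    unfold CritP_tup
    rw [List.mem_singleton, List.length_eq_zero_iff]
    constructor
    · rintro rfl
      exact ⟨rfl, by simp⟩
    · rintro ⟨h, _⟩
      exact h
  | succ k ih =>
    unfold CritP_tup
    rw [List.mem_flatMap]
    constructor
    · rintro ⟨t', h1, h2⟩
      rw [List.mem_map] at h2
      obtain ⟨a, ha, rfl⟩ := h2
      obtain ⟨h3, h4⟩ := ih.mp h1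
      refine ⟨by rw [List.length_cons, h3], ?_⟩
      intro b hb
      rcases List.mem_cons.mp hb with rfl | hb
      · exact ha
      · exact h4 b hb
    · rintro ⟨h1, h2⟩
      rcases t with _ | ⟨a, t⟩
      · simp at h1
      · refine ⟨t, ih.mpr ⟨by simpa using h1, fun b hb => h2 b (List.mem_cons_of_mem _ hb)⟩, ?_⟩
        rw [List.mem_map]
        exact ⟨a, h2 a List.mem_cons_self, rfl⟩

theorem CritP_tup_primrec (n k : ℕ) :
    Primrec (CritP_tup k : List (CritP_W n) → List (List (CritP_W n))) := by
  induction k with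
  | zero => exact Primrec.const [[]]
  | succ k ih =>
    have h : Primrec (fun W : List (CritP_W n) =>
        (CritP_tup k W).flatMap (fun t => W.map (fun a => a :: t))) := by
      refine Primrec.list_flatMap ih ?_
      refine Primrec.list_map Primrec.fst ?_
      exact Primrec.list_cons.comp Primrec.snd (Primrec.snd.comp Primrec.fst)
    exact h

theorem CritP_invRev (n : ℕ) :
    Primrec (FreeGroup.invRev : CritP_W n → CritP_W n) := by
  have h : Primrec (fun L : CritP_W n => (L.map fun a => (a.1, !a.2)).reverse) := by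
    refine Primrec.list_reverse.comp (Primrec.list_map Primrec.id ?_)
    exact (Primrec.pair (Primrec.fst.comp Primrec.snd)
      (Primrec.not.comp (Primrec.snd.comp Primrec.snd)))
  exact h.of_eq (fun L => rfl)

theorem CritP_subst_primrec (n : ℕ) :
    Primrec₂ (CritP_subst : CritP_T n → CritP_W n → CritP_W n) := by
  have hget : Primrec (fun q : (CritP_T n × CritP_W n) × (Fin n × Bool) =>
      q.1.1.getD (q.2.1 : ℕ) []) :=
    (Primrec.list_getD []).comp (Primrec.fst.comp Primrec.fst)
      (Primrec.fin_val.comp (Primrec.fst.comp Primrec.snd))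
  have h : Primrec (fun q : CritP_T n × CritP_W n => q.2.flatMap (fun x =>
      if x.2 = true then q.1.getD x.1 [] else FreeGroup.invRev (q.1.getD x.1 []))) := by
    refine Primrec.list_flatMap Primrec.snd ?_
    refine Primrec.ite ?_ hget ((CritP_invRev n).comp hget)
    exact Primrec.eq.comp (Primrec.snd.comp Primrec.snd) (Primrec.const true)
  exact h

/-- the value of a word -/
theorem CritP_ev {n : ℕ} (a : Fin n → CritP_W n) (A : CritP_T n) (hA : ∀ i : Fin n, A.getD (i : ℕ) [] = a i)
    (w : CritP_W n) : ev (fun k => FreeGroup.mk (a k)) w = FreeGroup.mk (CritP_subst A w) := by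
  induction w with
  | nil => simp [ev, CritP_subst, FreeGroup.one_eq_mk]
  | cons x w ih =>
    have h1 : CritP_subst A (x :: w) =
        (if x.2 = true then A.getD x.1 [] else FreeGroup.invRev (A.getD x.1 [])) ++
          CritP_subst A w := by
      simp [CritP_subst]
    have h2 : ev (fun k => FreeGroup.mk (a k)) (x :: w) =
        ev (fun k => FreeGroup.mk (a k)) [x] * ev (fun k => FreeGroup.mk (a k)) w := by
      simp [ev]
    rw [h1, h2, ih, ← FreeGroup.mul_mk]
    congr 1
    obtain ⟨i, b⟩ := x
    have h3 := hA i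
    cases b
    · simp only [Bool.false_eq_true, if_false]
      rw [h3]
      simp [ev]
    · simp only [if_true]
      rw [h3]
      simp [ev]

/-- condition on the second tuple -/
def CritP_P2 {n : ℕ} (A B : CritP_T n) : Prop :=
  ∀ i ∈ List.finRange n, FreeGroup.reduce (CritP_subst A (B.getD (i : ℕ) [])) = [(i, true)]

/-- condition on the word -/
def CritP_P3 {n : ℕ} (A : CritP_T n) (w : CritP_W n) : Prop :=
  FreeGroup.reduce (CritP_subst A w) ≠ [] ∧
    ∀ x ∈ FreeGroup.reduce (CritP_subst A w), x.2 = true

theorem CritP_mk_of {n : ℕ} (u : CritP_W n) (i : Fin n) :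
    FreeGroup.mk u = FreeGroup.of i ↔ FreeGroup.reduce u = [(i, true)] := by
  constructor
  · intro h
    have h1 := congrArg FreeGroup.toWord h
    rw [FreeGroup.toWord_mk, FreeGroup.toWord_of] at h1
    exact h1
  · intro h
    apply FreeGroup.toWord_injective
    rw [FreeGroup.toWord_mk, FreeGroup.toWord_of, h]

theorem CritP_prod {n : ℕ} (L : List (Fin n)) :
    (L.map FreeGroup.of).prod = FreeGroup.mk (L.map fun i => (i, true)) := by
  induction L with
  | nil => simp [FreeGroup.one_eq_mk]
  | cons i L ih =>
    rw [List.map_cons, List.prod_cons, ih, List.map_cons, FreeGroup.of, FreeGroup.mul_mk]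
    rfl

theorem CritP_reduce_pos {n : ℕ} (L : List (Fin n)) :
    FreeGroup.reduce (L.map fun i => (i, true)) = L.map fun i => (i, true) := by
  induction L with
  | nil => rfl
  | cons i L ih =>
    rw [List.map_cons, FreeGroup.reduce.cons, ih]
    cases L with
    | nil => rfl
    | cons j L => simp

theorem CritP_word {n : ℕ} (u : CritP_W n) :
    (∃ L : List (Fin n), L ≠ [] ∧ FreeGroup.mk u = (L.map FreeGroup.of).prod) ↔
      (FreeGroup.reduce u ≠ [] ∧ ∀ x ∈ FreeGroup.reduce u, x.2 = true) := by
  constructor
  · rintro ⟨L, hL, h⟩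
    rw [CritP_prod] at h
    have h1 := congrArg FreeGroup.toWord h
    rw [FreeGroup.toWord_mk, FreeGroup.toWord_mk, CritP_reduce_pos] at h1
    rw [h1]
    constructor
    · simpa using hL
    · intro x hx
      obtain ⟨i, _, rfl⟩ := List.mem_map.mp hx
      rfl
  · rintro ⟨h1, h2⟩
    refine ⟨(FreeGroup.reduce u).map Prod.fst, by simpa using h1, ?_⟩
    rw [CritP_prod]
    have h3 : ((FreeGroup.reduce u).map Prod.fst).map (fun i => (i, true)) =
        FreeGroup.reduce u := by
      rw [List.map_map]
      conv_rhs => rw [← List.map_id (FreeGroup.reduce u)]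
      apply List.map_congr_left
      intro x hx
      have := h2 x hx
      simp [← this]
    rw [h3]
    apply FreeGroup.toWord_injective
    rw [FreeGroup.toWord_mk, FreeGroup.toWord_mk, FreeGroup.reduce.idem]

theorem CritP_iff (n B : ℕ) (w : CritP_W n) :
    Crit n B w ↔ ∃ A ∈ CritP_tup n (PPos.wordsLE n B), ∃ A' ∈ CritP_tup n (PPos.wordsLE n B),
      CritP_P2 A A' ∧ CritP_P3 A w := by
  have hof : ∀ a : Fin n → CritP_W n, ∀ i : Fin n, (List.ofFn a).getD (i : ℕ) [] = a i := by
    intro a i
    rw [List.getD_eq_getElem?_getD, List.getElem?_ofFn]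
    simp
  constructor
  · rintro ⟨a, b, ha, hb, hab, hL⟩
    have hmem : ∀ c : Fin n → CritP_W n, (∀ i, (c i).length ≤ B) →
        List.ofFn c ∈ CritP_tup n (PPos.wordsLE n B) := by
      intro c hc
      rw [CritP_mem_tup]
      refine ⟨List.length_ofFn, ?_⟩
      intro x hx
      obtain ⟨i, rfl⟩ := List.mem_ofFn.mp hx
      exact PPos.mem_wordsLE.mpr (hc i)
    refine ⟨List.ofFn a, hmem a ha, List.ofFn b, hmem b hb, ?_, ?_⟩
    · intro i _
      rw [hof b i, ← CritP_mk_of, ← CritP_ev a (List.ofFn a) (hof a)]
      exact hab i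
    · have h1 := CritP_ev a (List.ofFn a) (hof a) w
      rw [h1] at hL
      exact (CritP_word _).mp hL
  · rintro ⟨A, hA, A', hA', h2, h3⟩
    rw [CritP_mem_tup] at hA hA'
    have hlen : ∀ C : CritP_T n, C.length = n ∧ (∀ x ∈ C, x ∈ PPos.wordsLE n B) →
        ∀ i : Fin n, (C.getD (i : ℕ) []).length ≤ B := by
      rintro C ⟨h4, h5⟩ i
      have hi : (i : ℕ) < C.length := by rw [h4]; exact i.2
      rw [List.getD_eq_getElem _ _ hi]
      exact PPos.mem_wordsLE.mp (h5 _ (List.getElem_mem hi))
    refine ⟨fun i => A.getD i [], fun i => A'.getD i [], hlen A hA, hlen A' hA', ?_, ?_⟩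
    · intro i
      rw [CritP_ev (fun i => A.getD i []) A (fun i => rfl), CritP_mk_of]
      exact h2 i (List.mem_finRange i)
    · rw [CritP_ev (fun i => A.getD i []) A (fun i => rfl)]
      exact (CritP_word _).mpr h3

theorem CritP_P2_primrec (n : ℕ) : PrimrecRel (fun (A' : CritP_T n) (A : CritP_T n) =>
    CritP_P2 A A') := by
  have h1 : PrimrecRel (fun (i : Fin n) (p : CritP_T n × CritP_T n) =>
      FreeGroup.reduce (CritP_subst p.2 (p.1.getD (i : ℕ) [])) = [(i, true)]) := by
    refine Primrec.eq.comp ?_ ?_
    · refine (PPos.primrec_reduce n).comp ((CritP_subst_primrec n).comp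
        (Primrec.snd.comp Primrec.snd) ?_)
      exact (Primrec.list_getD []).comp (Primrec.fst.comp Primrec.snd)
        (Primrec.fin_val.comp Primrec.fst)
    · exact Primrec.list_cons.comp (Primrec.pair Primrec.fst (Primrec.const true))
        (Primrec.const [])
  have h2 := (PrimrecRel.forall_mem_list h1).comp
    (Primrec.const (α := CritP_T n × CritP_T n) (List.finRange n)) Primrec.id
  exact h2.of_eq (fun q => Iff.rfl)

theorem CritP_P3_primrec (n : ℕ) : PrimrecRel (fun (A : CritP_T n) (w : CritP_W n) =>
    CritP_P3 A w) := by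
  have h0 : Primrec (fun q : CritP_T n × CritP_W n =>
      FreeGroup.reduce (CritP_subst q.1 q.2)) :=
    (PPos.primrec_reduce n).comp (CritP_subst_primrec n)
  have h1 : PrimrecPred (fun q : CritP_T n × CritP_W n =>
      FreeGroup.reduce (CritP_subst q.1 q.2) ≠ []) :=
    (Primrec.eq.comp h0 (Primrec.const [])).not
  have h2 : PrimrecRel (fun (x : Fin n × Bool) (_ : Unit) => x.2 = true) :=
    Primrec.eq.comp (Primrec.snd.comp Primrec.fst) (Primrec.const true)
  have h3 := (PrimrecRel.forall_mem_list h2).comp h0 (Primrec.const ())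
  exact (h1.and h3).of_eq (fun q => Iff.rfl)

theorem crit_computable (n : ℕ) (bd : ℕ → ℕ) (hbd : Primrec bd) :
    ComputablePred (fun w : List (Fin n × Bool) => Crit n (bd w.length) w) := by
  have hT : Primrec (fun w : CritP_W n => CritP_tup n (PPos.wordsLE n (bd w.length))) :=
    (CritP_tup_primrec n n).comp ((PPos.primrec_wordsLE n).comp
      (hbd.comp Primrec.list_length))
  have h1 : PrimrecRel (fun (A' : CritP_T n) (q : CritP_T n × CritP_W n) =>
      CritP_P2 q.1 A' ∧ CritP_P3 q.1 q.2) := by
    have e1 : PrimrecPred (fun p : CritP_T n × (CritP_T n × CritP_W n) =>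
        CritP_P2 p.2.1 p.1) :=
      (CritP_P2_primrec n).comp Primrec.fst (Primrec.fst.comp Primrec.snd)
    have e2 : PrimrecPred (fun p : CritP_T n × (CritP_T n × CritP_W n) =>
        CritP_P3 p.2.1 p.2.2) :=
      (CritP_P3_primrec n).comp (Primrec.fst.comp Primrec.snd) (Primrec.snd.comp Primrec.snd)
    exact (e1.and e2).of_eq (fun p => Iff.rfl)
  have h2 : PrimrecRel (fun (A : CritP_T n) (p : List (CritP_T n) × CritP_W n) =>
      ∃ A' ∈ p.1, CritP_P2 A A' ∧ CritP_P3 A p.2) := by
    have e3 := (PrimrecRel.exists_mem_list h1).comp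
      (Primrec.fst.comp (Primrec.snd (α := CritP_T n) (β := List (CritP_T n) × CritP_W n)))
      (Primrec.pair Primrec.fst (Primrec.snd.comp Primrec.snd))
    exact e3.of_eq (fun p => Iff.rfl)
  have h3 := (PrimrecRel.exists_mem_list h2).comp hT (Primrec.pair hT Primrec.id)
  have h4 : PrimrecPred (fun w : List (Fin n × Bool) => Crit n (bd w.length) w) :=
    h3.of_eq (fun w => (CritP_iff n (bd w.length) w).symm)
  obtain ⟨hd, hp⟩ := h4
  exact ⟨hd, hp.to_comp⟩

end PF
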