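import Pool.Agent.H1.PF.Path

set_option autoImplicit false

/-!
# PF OkC: cutting a relation preserves `Ok` (helper1)

`r = ⟨p, q, l, s⟩`, `0 < j < l`. `(r.cutL j).Q i = r.Q i` for `i ≤ j`, `(r.cutR j).Q i = r.Q (j + i)` for `i ≤ l - j`, and the same for `U`
(`(r.cutL j).U i = r.U i` for `i < j`, `(r.cutR j).U i = r.U (j + i)` for `i < l - j`); all of this is `omega` after unfolding.

* `Valid`: the ends of the new relations are the old ends, `p + j` and `r.Q j`. `cl0`: the class map is `mergeCl cl (p+j) (Q j)`; equal classes stay equal, and the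
  classes of `p + j` and `Q j` become equal.
* `Sgn`, `Full`: restrict; for the right part divide the equations of `Full` for `j + i` and `j`.
* `Conn`: the edges do not change and the classes become larger.
* `Chi`: `V` decreases at most by one (`V_cut`), the number of relations increases by one.
-/

namespace PF

private theorem okC_Q_L (r : Rel) {i j : ℕ} (hj : j < r.l) (hi : i ≤ j) : (r.cutL j).Q i = r.Q i := by
  unfold Rel.cutL Rel.Q
  cases r.s <;> simp
  omega

private theorem okC_Q_R (r : Rel) {i j : ℕ} (hj : j < r.l) (hi : i ≤ r.l - j) :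
    (r.cutR j).Q i = r.Q (j + i) := by
  unfold Rel.cutR Rel.Q
  cases r.s <;> simp
  · omega
  · omega

private theorem okC_U_L (r : Rel) {i j : ℕ} (hj : j < r.l) (hi : i < j) : (r.cutL j).U i = r.U i := by
  unfold Rel.cutL Rel.U
  cases r.s <;> simp
  omega

private theorem okC_U_R (r : Rel) {i j : ℕ} (hj : j < r.l) (hi : i < r.l - j) :
    (r.cutR j).U i = r.U (j + i) := by
  unfold Rel.cutR Rel.U
  cases r.s <;> simp
  · omega
  · omega

private theorem okC_merge {cl : ℕ → ℕ} {a b x y : ℕ} (h : cl x = cl y) :
    mergeCl cl a b x = mergeCl cl a b y := by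
  unfold mergeCl
  rw [h]

private theorem okC_merge_ab (cl : ℕ → ℕ) (a b : ℕ) : mergeCl cl a b a = mergeCl cl a b b := by
  unfold mergeCl
  simp

theorem V_cut (s : St) (D : Finset ℕ) (rels : List Rel) (v a b : ℕ) (ha : a ∈ s.X) (hb : b ∈ s.X) :
    s.V ≤ St.V ⟨D, s.X, mergeCl s.cl a b, rels, v⟩ + 1 ∧ St.V ⟨D, s.X, mergeCl s.cl a b, rels, v⟩ ≤ s.V ∧
      (s.cl a ≠ s.cl b → St.V ⟨D, s.X, mergeCl s.cl a b, rels, v⟩ + 1 = s.V) := by
  unfold St.V
  show (s.X.image s.cl).card ≤ (s.X.image (mergeCl s.cl a b)).card + 1 ∧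
    (s.X.image (mergeCl s.cl a b)).card ≤ (s.X.image s.cl).card ∧
    (s.cl a ≠ s.cl b → (s.X.image (mergeCl s.cl a b)).card + 1 = (s.X.image s.cl).card)
  by_cases hab : s.cl a = s.cl b
  · have e : s.X.image (mergeCl s.cl a b) = s.X.image s.cl := by
      refine Finset.image_congr fun x _ => ?_
      unfold mergeCl
      split_ifs with h
      · rw [h, hab]
      · rfl
    rw [e]
    exact ⟨Nat.le_succ _, le_rfl, fun h => absurd hab h⟩
  · have e : s.X.image (mergeCl s.cl a b) = (s.X.image s.cl).erase (s.cl a) := by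
      ext c
      rw [Finset.mem_erase, Finset.mem_image, Finset.mem_image]
      constructor
      · rintro ⟨x, hx, rfl⟩
        unfold mergeCl
        split_ifs with h
        · exact ⟨fun h' => hab h'.symm, b, hb, rfl⟩
        · exact ⟨h, x, hx, rfl⟩
      · rintro ⟨hc, x, hx, rfl⟩
        refine ⟨x, hx, ?_⟩
        unfold mergeCl
        rw [if_neg hc]
    have hmem : s.cl a ∈ s.X.image s.cl := Finset.mem_image_of_mem _ ha
    have hc := Finset.card_erase_add_one hmem
    rw [e]
    omega

theorem ok_cut {n : ℕ} {sg : ℕ → Bool} {m : ℕ → FreeGroup (Fin n)} {s : St} (h : Ok n sg m s) {r : Rel} {L : List Rel} {j : ℕ}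
    (hs : s.rels = r :: L) (hj : 0 < j) (hj' : j < r.l) (h1 : r.p + j ∈ s.X) (h2 : r.Q j ∈ s.X) :
    Ok n sg m ⟨s.D, s.X, mergeCl s.cl (r.p + j) (r.Q j), r.cutL j :: r.cutR j :: L, s.v0⟩ := by
  have hr : r ∈ s.rels := by
    rw [hs]
    exact List.mem_cons_self
  have hL : ∀ r' ∈ L, r' ∈ s.rels := fun r' h' => by
    rw [hs]
    exact List.mem_cons_of_mem _ h'
  have hpX := h.valid.pX r hr
  have hpD := h.valid.pD r hr
  have hcl := h.valid.cl0 r hr
  refine ⟨⟨?_, ?_, ?_, ?_, h.valid.bdL, h.valid.bdR, h.valid.v0X⟩, ?_, ?_, ?_, ?_⟩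
  · intro r' hr'
    rcases List.mem_cons.mp hr' with rfl | hr'
    · exact hj
    · rcases List.mem_cons.mp hr' with rfl | hr'
      · show 0 < r.l - j
        omega
      · exact h.valid.lpos r' (hL r' hr')
  · intro r' hr'
    rcases List.mem_cons.mp hr' with rfl | hr'
    · unfold Rel.Q at h2
      unfold Rel.cutL
      refine ⟨hpX.1, h1, ?_, ?_⟩
      · show (if r.s then r.q else r.q + (r.l - j)) ∈ s.X
        split_ifs with hsr
        · exact hpX.2.2.1
        · rwa [if_neg hsr] at h2
      · show (if r.s then r.q else r.q + (r.l - j)) + j ∈ s.X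
        split_ifs with hsr
        · rwa [if_pos hsr] at h2
        · have : r.q + (r.l - j) + j = r.q + r.l := by omega
          rw [this]
          exact hpX.2.2.2
    · rcases List.mem_cons.mp hr' with rfl | hr'
      · unfold Rel.Q at h2
        unfold Rel.cutR
        refine ⟨h1, ?_, ?_, ?_⟩
        · show r.p + j + (r.l - j) ∈ s.X
          have : r.p + j + (r.l - j) = r.p + r.l := by omega
          rw [this]
          exact hpX.2.1
        · show (if r.s then r.q + j else r.q) ∈ s.X
          split_ifs with hsr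
          · rwa [if_pos hsr] at h2
          · exact hpX.2.2.1
        · show (if r.s then r.q + j else r.q) + (r.l - j) ∈ s.X
          split_ifs with hsr
          · have : r.q + j + (r.l - j) = r.q + r.l := by omega
            rw [this]
            exact hpX.2.2.2
          · rwa [if_neg hsr] at h2
      · exact h.valid.pX r' (hL r' hr')
  · intro r' hr'
    rcases List.mem_cons.mp hr' with rfl | hr'
    · intro i hi
      have hi' : i < j := hi
      refine ⟨(hpD i (by omega)).1, ?_⟩
      show (if r.s then r.q else r.q + (r.l - j)) + i ∈ s.D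
      split_ifs with hsr
      · exact (hpD i (by omega)).2
      · have : r.q + (r.l - j) + i = r.q + ((r.l - j) + i) := by omega
        rw [this]
        exact (hpD _ (by omega)).2
    · rcases List.mem_cons.mp hr' with rfl | hr'
      · intro i hi
        have hi' : i < r.l - j := hi
        refine ⟨?_, ?_⟩
        · show r.p + j + i ∈ s.D
          rw [add_assoc]
          exact (hpD _ (by omega)).1
        · show (if r.s then r.q + j else r.q) + i ∈ s.D
          split_ifs with hsr
          · rw [add_assoc]
            exact (hpD _ (by omega)).2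
          · exact (hpD _ (by omega)).2
      · exact h.valid.pD r' (hL r' hr')
  · intro r' hr'
    rcases List.mem_cons.mp hr' with rfl | hr'
    · rw [okC_Q_L r hj' (Nat.zero_le _), show (r.cutL j).l = j from rfl, okC_Q_L r hj' le_rfl]
      exact ⟨okC_merge hcl.1, okC_merge_ab _ _ _⟩
    · rcases List.mem_cons.mp hr' with rfl | hr'
      · rw [okC_Q_R r hj' (Nat.zero_le _), show (r.cutR j).l = r.l - j from rfl,
          okC_Q_R r hj' le_rfl]
        refine ⟨okC_merge_ab _ _ _, ?_⟩
        show mergeCl s.cl (r.p + j) (r.Q j) (r.p + j + (r.l - j)) =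
          mergeCl s.cl (r.p + j) (r.Q j) (r.Q (j + (r.l - j)))
        have e1 : r.p + j + (r.l - j) = r.p + r.l := by omega
        have e2 : j + (r.l - j) = r.l := by omega
        rw [e1, e2]
        exact okC_merge hcl.2
      · have := h.valid.cl0 r' (hL r' hr')
        exact ⟨okC_merge this.1, okC_merge this.2⟩
  · intro r' hr'
    rcases List.mem_cons.mp hr' with rfl | hr'
    · intro i hi
      have hi' : i < j := hi
      rw [okC_U_L r hj' hi']
      exact h.sgn r hr i (by omega)
    · rcases List.mem_cons.mp hr' with rfl | hr'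
      · intro i hi
        have hi' : i < r.l - j := hi
        rw [okC_U_R r hj' hi']
        have := h.sgn r hr (j + i) (by omega)
        rw [← add_assoc] at this
        exact this
      · exact h.sgn r' (hL r' hr')
  · intro r' hr'
    rcases List.mem_cons.mp hr' with rfl | hr'
    · intro i hi
      have hi' : i ≤ j := hi
      rw [okC_Q_L r hj' (Nat.zero_le _), okC_Q_L r hj' hi']
      exact h.full r hr i (by omega)
    · rcases List.mem_cons.mp hr' with rfl | hr'
      · intro i hi
        have hi' : i ≤ r.l - j := hi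
        rw [okC_Q_R r hj' (Nat.zero_le _), okC_Q_R r hj' hi', Nat.add_zero]
        show (m (r.p + j))⁻¹ * m (r.p + j + i) = (m (r.Q j))⁻¹ * m (r.Q (j + i))
        have f1 := h.full r hr j (by omega)
        have f2 := h.full r hr (j + i) (by omega)
        rw [← add_assoc] at f2
        have f3 : (m (r.p + j))⁻¹ * m (r.p + j + i) =
            ((m r.p)⁻¹ * m (r.p + j))⁻¹ * ((m r.p)⁻¹ * m (r.p + j + i)) := by group
        rw [f3, f1, f2]
        group
      · exact h.full r' (hL r' hr')
  · intro Sg hv hc he
    refine h.conn Sg hv (fun x y ω hx hy hxy hS => ?_) he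
    exact hc x y ω hx hy (okC_merge hxy) hS
  · have hchi := h.chi
    have hV := (V_cut s s.D (r.cutL j :: r.cutR j :: L) s.v0 (r.p + j) (r.Q j) h1 h2).1
    unfold St.Chi at hchi ⊢
    have hlen : s.rels.length = L.length + 1 := by
      rw [hs, List.length_cons]
    have hE : St.E ⟨s.D, s.X, mergeCl s.cl (r.p + j) (r.Q j), r.cutL j :: r.cutR j :: L, s.v0⟩ =
        s.E := rfl
    show St.E ⟨s.D, s.X, mergeCl s.cl (r.p + j) (r.Q j), r.cutL j :: r.cutR j :: L, s.v0⟩ + 1 ≤
      St.V ⟨s.D, s.X, mergeCl s.cl (r.p + j) (r.Q j), r.cutL j :: r.cutR j :: L, s.v0⟩ +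
        (r.cutL j :: r.cutR j :: L).length + n
    rw [hE, List.length_cons, List.length_cons]
    omega

end PF
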