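import Pool.Agent.H1.PF.Path
import Pool.Agent.H1.PF.OkC

set_option autoImplicit false

/-!
# PF CtrOk: contracting edges when there are no relations (helper1)

`s.rels = []`, `(x, y)` is an edge, `s.cl x ≠ s.cl y`. The new state `ctr s x y` has `D' = D \ [x, y)` and the classes of `x` and `y` are glued. Its edges are the edges of `s` except `(x, y)`.

`ctr_ok`: there is a new labelling `m'` with `Ok`. Put `c = (m x)⁻¹ * m y`, `m' u = m u * c⁻¹` if `cl u = cl y`, and `m' u = m u` otherwise (so `(m' x)⁻¹ * m' y = 1`). `Sgn`, `Full` are empty. `Valid`: as in `OkD`.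
`Chi`: `E' = E - 1` (`X ∩ D' = (X ∩ D) \ {x}`), `V' = V - 1` (`V_cut`).
`Conn`: let `Sg'` be closed for the new state and `m'`. Define `Sg u ω := Sg' u (ω * (if cl u = cl y then c⁻¹ else 1))`. (`s.cl` of the base mark: if `cl v0 = cl y` then use `Sg u ω := Sg' u (c * (ω * ...))`, i.e. multiply on the left by the constant
which makes `Sg v0 1 = Sg' v0 1`; the closure properties are invariant under left multiplication of all `ω` by a constant.) `Sg` is closed for `s` and `m`: classes of `s`: clear; edges of `s` other than `(x, y)`: clear; the edge `(x, y)`: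
`Sg x ω = Sg' x ω`, `Sg y (ω * c) = Sg' y ω`, and `x, y` are in the same class of the new state.

`ctr_cert`: `cert_transfer` with `c = 3`, `T (x, y) = T (y, x) = []`, `T e = [e]` otherwise. `hLab`: for a labelling `m'` of the new state (no condition) put `m u = m' u` for `u ≤ x`, `m u = k * m' u` for `u > x`, `k = m' x * (m' y)⁻¹`;
every other edge lies in `u ≤ x` or in `u ≥ y`. `hSur`: `(m x)⁻¹ * m y = 1`, so `g x = ev h (lam x y) * g y` (`De = lam x y`, length `≤ B`); now as in `CertC` (with `a = x`, `z = y`).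
-/

namespace PF

/-- contraction of the edge `(x, y)` -/
def ctr (s : St) (x y : ℕ) : St := ⟨s.D.filter (fun u => ¬ (x ≤ u ∧ u < y)), s.X, mergeCl s.cl x y, [], s.v0⟩

private theorem ctrOk_edge {s : St} {x y : ℕ} (he : s.Edge x y) {a b : ℕ} :
    (ctr s x y).Edge a b ↔ s.Edge a b ∧ a ≠ x := by
  obtain ⟨hx, hy, hxy, hD, hno⟩ := he
  constructor
  · rintro ⟨h1, h2, h3, h4, h5⟩
    have h4' : ∀ u, a ≤ u → u < b → u ∈ s.D ∧ ¬ (x ≤ u ∧ u < y) := fun u hu hu' => by
      have := h4 u hu hu'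
      simpa [ctr] using this
    refine ⟨⟨h1, h2, h3, fun u hu hu' => (h4' u hu hu').1, h5⟩, ?_⟩
    rintro rfl
    exact (h4' a le_rfl h3).2 ⟨le_rfl, hxy⟩
  · rintro ⟨⟨h1, h2, h3, h4, h5⟩, hne⟩
    refine ⟨h1, h2, h3, fun u hu hu' => ?_, h5⟩
    have hn : ¬ (x ≤ u ∧ u < y) := by
      rintro ⟨hxu, huy⟩
      rcases lt_or_gt_of_ne hne with hl | hl
      · exact h5 x hl (by omega) hx
      · exact hno a hl (by omega) h1
    simpa [ctr] using And.intro (h4 u hu hu') hn

theorem ctr_ok {n : ℕ} {sg : ℕ → Bool} {m : ℕ → FreeGroup (Fin n)} {s : St} (h : Ok n sg m s) (hr : s.rels = []) {x y : ℕ}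
    (he : s.Edge x y) (hne : s.cl x ≠ s.cl y) : (∃ m', Ok n sg m' (ctr s x y)) ∧ (ctr s x y).E + 1 = s.E := by
  have he' := he
  obtain ⟨hx, hy, hxy, hD, hno⟩ := he'
  have hE : (ctr s x y).E + 1 = s.E := by
    have h1 : (ctr s x y).X ∩ (ctr s x y).D = (s.X ∩ s.D).erase x := by
      ext z
      simp only [ctr, Finset.mem_inter, Finset.mem_filter, Finset.mem_erase]
      constructor
      · rintro ⟨h1, h2, h3⟩
        refine ⟨?_, h1, h2⟩
        rintro rfl
        exact h3 ⟨le_rfl, hxy⟩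
      · rintro ⟨h1, h2, h3⟩
        refine ⟨h2, h3, ?_⟩
        rintro ⟨h4, h5⟩
        exact hno z (by omega) h5 h2
    unfold St.E
    rw [h1]
    exact Finset.card_erase_add_one (Finset.mem_inter.2 ⟨hx, hD x le_rfl hxy⟩)
  refine ⟨?_, hE⟩
  let c : FreeGroup (Fin n) := (m x)⁻¹ * m y
  let δ : ℕ → FreeGroup (Fin n) := fun u => if s.cl u = s.cl y then c⁻¹ else 1
  refine ⟨fun u => m u * δ u, ?_⟩
  have hδx : δ x = 1 := if_neg hne
  have hδy : δ y = c⁻¹ := if_pos rfl
  refine ⟨⟨?_, ?_, ?_, ?_, ?_, ?_, ?_⟩, ?_, ?_, ?_, ?_⟩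
  · intro r hr'; simp [ctr] at hr'
  · intro r hr'; simp [ctr] at hr'
  · intro r hr'; simp [ctr] at hr'
  · intro r hr'; simp [ctr] at hr'
  · intro z hz hzX
    have hz' : z ∈ s.D ∧ ¬ (x ≤ z ∧ z < y) := by simpa [ctr] using hz
    have hzX' : z ∉ s.X := hzX
    obtain ⟨u, hu, huz⟩ := h.valid.bdL z hz'.1 hzX'
    refine ⟨u, ?_, huz⟩
    have hn : ¬ (x ≤ u ∧ u < y) := by
      rintro ⟨h1, h2⟩
      have : z = y := by
        by_contra hzy
        exact hz'.2 ⟨by omega, by omega⟩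
      exact hzX' (this ▸ hy)
    simpa [ctr] using And.intro hu hn
  · intro z hz hzX
    have hz' : z ∈ s.D ∧ ¬ (x ≤ z ∧ z < y) := by simpa [ctr] using hz
    have hzX' : z + 1 ∉ s.X := hzX
    have hu := h.valid.bdR z hz'.1 hzX'
    have hn : ¬ (x ≤ z + 1 ∧ z + 1 < y) := by
      rintro ⟨h1, h2⟩
      have : z + 1 = x := by
        by_contra hzy
        exact hz'.2 ⟨by omega, by omega⟩
      exact hzX' (this ▸ hx)
    simpa [ctr] using And.intro hu hn
  · exact h.valid.v0X
  · intro r hr'; simp [ctr] at hr'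
  · intro r hr'; simp [ctr] at hr'
  · intro Sg hS0 hScl hSed z hz ω
    have hScl' : ∀ a b ω, a ∈ s.X → b ∈ s.X → mergeCl s.cl x y a = mergeCl s.cl x y b → Sg a ω → Sg b ω := hScl
    have hmerge : ∀ a b, s.cl a = s.cl b → mergeCl s.cl x y a = mergeCl s.cl x y b := by
      intro a b hab
      simp only [mergeCl, hab]
    have hxy' : mergeCl s.cl x y x = mergeCl s.cl x y y := by
      simp only [mergeCl]
      split_ifs <;> simp_all
    have key := h.conn (fun u ω => Sg u ((δ s.v0)⁻¹ * ω * δ u)) (by have h0 : Sg s.v0 1 := hS0; simpa using h0) ?_ ?_ z hz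
    · have := key (δ s.v0 * ω * (δ z)⁻¹)
      simpa [mul_assoc] using this
    · intro a b ω ha hb hab hS
      have hδ : δ a = δ b := by simp only [δ, hab]
      have hS' : Sg a ((δ s.v0)⁻¹ * ω * δ a) := hS
      rw [hδ] at hS'
      exact hScl' a b _ ha hb (hmerge a b hab) hS'
    · intro a b ω hab
      by_cases hax : a = x
      · subst hax
        have hby : b = y := edge_unique_right hab he
        subst hby
        show Sg a ((δ s.v0)⁻¹ * ω * δ a) ↔ Sg b ((δ s.v0)⁻¹ * (ω * c) * δ b)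
        have e1 : (δ s.v0)⁻¹ * (ω * c) * δ b = (δ s.v0)⁻¹ * ω * δ a := by
          rw [hδx, hδy]; group
        rw [e1]
        exact ⟨hScl' a b _ hx hy hxy', hScl' b a _ hy hx hxy'.symm⟩
      · have := hSed a b ((δ s.v0)⁻¹ * ω * δ a) ((ctrOk_edge he).2 ⟨hab, hax⟩)
        have e1 : (δ s.v0)⁻¹ * ω * δ a * ((m a * δ a)⁻¹ * (m b * δ b)) = (δ s.v0)⁻¹ * (ω * ((m a)⁻¹ * m b)) * δ b := by
          group
        rw [e1] at this
        exact this
  · have h1 := h.chi
    have h2 := (V_cut s (s.D.filter (fun u => ¬ (x ≤ u ∧ u < y))) [] s.v0 x y hx hy).2.2 hne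
    unfold St.Chi at h1 ⊢
    rw [hr] at h1
    have h3 : (ctr s x y).V + 1 = s.V := h2
    have h4 : (ctr s x y).rels.length = 0 := rfl
    simp only [List.length_nil] at h1
    omega

end PF
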