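import Pool.Agent.H1.PF.Path
import Pool.Agent.H1.PF.Tr
import Pool.Agent.H1.PF.CtrOk

set_option autoImplicit false

/-!
# PF CtrCert: contracting edges when there are no relations (helper1)

`s.rels = []`, `(x, y)` is an edge, `s.cl x ≠ s.cl y`. The new state `ctr s x y` has `D' = D \ [x, y)` and the classes of `x` and `y` are glued. Its edges are the edges of `s` except `(x, y)`.

`ctr_ok`: there is a new labelling `m'` with `Ok`. Put `c = (m x)⁻¹ * m y`, `m' u = m u * c⁻¹` if `cl u = cl y`, and `m' u = m u` otherwise (so `(m' x)⁻¹ * m' y = 1`). `Sgn`, `Full` are empty. `Valid`: as in `OkD`.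
`Chi`: `E' = E - 1` (`X ∩ D' = (X ∩ D) \ {x}`), `V' = V - 1` (`V_cut`).
`Conn`: let `Sg'` be closed for the new state and `m'`. Define `Sg u ω := Sg' u (ω * (if cl u = cl y then c⁻¹ else 1))`. (`s.cl` of the base mark: if `cl v0 = cl y` then use `Sg u ω := Sg' u (c * (ω * ...))`, i.e. multiply on the left by the constant
which makes `Sg v0 1 = Sg' v0 1`; the closure properties are invariant under left multiplication of all `ω` by a constant.) `Sg` is closed for `s` and `m`: classes of `s`: clear; edges of `s` other than `(x, y)`: clear; the edge `(x, y)`: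
`Sg x ω = Sg' x ω`, `Sg y (ω * c) = Sg' y ω`, and `x, y` are in the same class of the new state.

`ctr_cert`: `cert_transfer` with `c = 3`, `T (x, y) = T (y, x) = []`, `T e = [e]` otherwise. `hLab`: for a labelling `m'` of the new state (no condition) put `m u = m' u` for `u ≤ x`, `m u = k * m' u` for `u > x`, `k = m' x * (m' y)⁻¹`;
every other edge lies in `u ≤ x` or in `u ≥ y`. `hSur`: `(m x)⁻¹ * m y = 1`, so `g x = ev h (lam x y) * g y` (`De = lam x y`, length `≤ B`); now as in `CertC` (with `a = x`, `z = y`).
-/

namespace PF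

private theorem ctrCert_edge {s : St} {x y : ℕ} (he : s.Edge x y) {a b : ℕ} :
    (ctr s x y).Edge a b ↔ s.Edge a b ∧ a ≠ x := by
  obtain ⟨hx, hy, hxy, hD, hno⟩ := he
  constructor
  · rintro ⟨h1, h2, h3, h4, h5⟩
    have h4' : ∀ u, a ≤ u → u < b → u ∈ s.D ∧ ¬ (x ≤ u ∧ u < y) := fun u hu hu' => by
      have := h4 u hu hu'
      simpa [ctr] using this
    refine ⟨⟨h1, h2, h3, fun u hu hu' => (h4' u hu hu').1, h5⟩, ?_⟩
    rintro rfl
    exact (h4' a le_rfl h3).2 ⟨le_rfl, hxy⟩
  · rintro ⟨⟨h1, h2, h3, h4, h5⟩, hne⟩
    refine ⟨h1, h2, h3, fun u hu hu' => ?_, h5⟩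
    have hn : ¬ (x ≤ u ∧ u < y) := by
      rintro ⟨hxu, huy⟩
      rcases lt_or_gt_of_ne hne with hl | hl
      · exact h5 x hl (by omega) hx
      · exact hno a hl (by omega) h1
    simpa [ctr] using And.intro (h4 u hu hu') hn

/-- changing the base points by a word -/
private theorem ctrCert_sur {n B : ℕ} (lam : ℕ → ℕ → List (Fin n × Bool)) (hlam : ∀ a b, (lam a b).length ≤ B)
    (P : ℕ → Prop) (De : List (Fin n × Bool)) (hDe : De.length ≤ B) :
    ∃ lam' : ℕ → ℕ → List (Fin n × Bool), (∀ a b, (lam' a b).length ≤ 3 * B) ∧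
      ∀ (G : Type) [Group G] (h : Fin n → G) (g g' : ℕ → G) (a b : ℕ),
        (P a → g a = ev h De * g' a) → (¬ P a → g' a = g a) →
        (P b → g b = ev h De * g' b) → (¬ P b → g' b = g b) →
        (g a)⁻¹ * ev h (lam a b) * g b = (g' a)⁻¹ * ev h (lam' a b) * g' b := by
  classical
  refine ⟨fun a b => (if P a then FreeGroup.invRev De else []) ++ (lam a b ++ (if P b then De else [])), ?_, ?_⟩
  · intro a b
    have := hlam a b
    by_cases h1 : P a <;> by_cases h2 : P b <;>
      simp only [h1, h2, if_true, if_false, List.length_append, FreeGroup.invRev_length, List.length_nil] <;> omega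
  · intro G _ h g g' a b h1 h2 h3 h4
    by_cases ha : P a <;> by_cases hb : P b <;>
      simp only [ha, hb, if_true, if_false, ev_append, ev_invRev, ev_nil, not_true_eq_false, not_false_eq_true, forall_const,
        false_imp_iff] at h1 h2 h3 h4 ⊢
    · rw [h1, h3]; group
    · rw [h1, h4]; group
    · rw [h2, h3]; group
    · rw [h2, h4]; group

theorem ctr_cert {n : ℕ} {sg : ℕ → Bool} {s : St} (h : s.Valid) (hr : s.rels = []) {x y B : ℕ} {w : List (Fin n × Bool)}
    (he : s.Edge x y) (hne : s.cl x ≠ s.cl y) (hC : Cert (s.toFS sg) n B w) : Cert ((ctr s x y).toFS sg) n (3 * B) w := by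
  classical
  have he' := he
  obtain ⟨hx, hy, hxy, hD, hno⟩ := he'
  have hbad : ∀ a b, s.Edge a b → ¬ ((a, b) = (x, y) ∨ (a, b) = (y, x)) → a ≠ x := by
    intro a b hab hn hax
    subst hax
    exact hn (Or.inl (by rw [edge_unique_right hab he]))
  have hbad' : ∀ a b, s.Edge b a → ¬ ((a, b) = (x, y) ∨ (a, b) = (y, x)) → b ≠ x := by
    intro a b hab hn hax
    subst hax
    exact hn (Or.inr (by rw [edge_unique_right hab he]))
  refine cert_transfer (c := 3) (fun e => if e = (x, y) ∨ e = (y, x) then [] else [e]) ?_ ?_ ?_ ?_ ?_ ?_ hC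
  · rintro a b (⟨h1, -⟩ | ⟨h1, -⟩)
    · exact Or.inl h1
    · exact Or.inr h1
  · intro e _
    split_ifs <;> simp
  · rintro ⟨a, b⟩ he1 e' he2
    split_ifs at he2 with hn
    · simp at he2
    · rw [List.mem_singleton] at he2
      subst he2
      rcases he1 with h1 | h1
      · exact Or.inl ((ctrCert_edge he).2 ⟨h1, hbad a b h1 hn⟩)
      · exact Or.inr ((ctrCert_edge he).2 ⟨h1, hbad' a b h1 hn⟩)
  · rintro ⟨a, b⟩ he1 e' he2
    split_ifs at he2 with hn
    · simp at he2
    · rw [List.mem_singleton] at he2
      subst he2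
      rcases he1 with ⟨h1, h2⟩ | ⟨h1, h2⟩
      · exact Or.inl ⟨(ctrCert_edge he).2 ⟨h1, hbad a b h1 hn⟩, h2⟩
      · exact Or.inr ⟨(ctrCert_edge he).2 ⟨h1, hbad' a b h1 hn⟩, h2⟩
  · intro G _ m' _
    refine ⟨fun u => if u ≤ x then m' u else m' x * (m' y)⁻¹ * m' u, ?_, ?_⟩
    · rintro a b c d ⟨r, hr', -⟩
      rw [hr] at hr'
      simp at hr'
    · rintro ⟨a, b⟩ hab
      have hyx : ¬ y ≤ x := by omega
      have hside : ∀ a b, s.Edge a b → a ≠ x → (a ≤ x ∧ b ≤ x) ∨ (¬ a ≤ x ∧ ¬ b ≤ x) := by
        rintro a b ⟨h1, h2, h3, h4, h5⟩ hax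
        by_cases hle : a ≤ x
        · left
          refine ⟨hle, ?_⟩
          by_contra hb
          exact h5 x (by omega) (by omega) hx
        · right
          exact ⟨hle, by omega⟩
      by_cases hn : (a, b) = (x, y) ∨ (a, b) = (y, x)
      · have e1 : (if (a, b) = (x, y) ∨ (a, b) = (y, x) then ([] : List (ℕ × ℕ)) else [(a, b)]) = [] := if_pos hn
        rw [e1, val_nil]
        show (if a ≤ x then m' a else m' x * (m' y)⁻¹ * m' a)⁻¹ * (if b ≤ x then m' b else m' x * (m' y)⁻¹ * m' b) = 1
        rcases hn with hn | hn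
        · obtain ⟨rfl, rfl⟩ := Prod.mk.inj hn
          rw [if_pos le_rfl, if_neg hyx]
          group
        · obtain ⟨rfl, rfl⟩ := Prod.mk.inj hn
          rw [if_pos le_rfl, if_neg hyx]
          group
      · have e1 : (if (a, b) = (x, y) ∨ (a, b) = (y, x) then ([] : List (ℕ × ℕ)) else [(a, b)]) = [(a, b)] := if_neg hn
        rw [e1, val_singleton]
        show (if a ≤ x then m' a else m' x * (m' y)⁻¹ * m' a)⁻¹ * (if b ≤ x then m' b else m' x * (m' y)⁻¹ * m' b)
          = (m' a)⁻¹ * m' b
        have h3 : (a ≤ x ∧ b ≤ x) ∨ (¬ a ≤ x ∧ ¬ b ≤ x) := by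
          rcases hab with h1 | h1
          · exact hside a b h1 (hbad a b h1 hn)
          · exact (hside b a h1 (hbad' a b h1 hn)).imp And.symm And.symm
        rcases h3 with ⟨h4, h5⟩ | ⟨h4, h5⟩
        · rw [if_pos h4, if_pos h5]
        · rw [if_neg h4, if_neg h5]
          group
  · intro lam hlam
    by_cases hv : s.cl s.v0 = s.cl x
    · obtain ⟨lam', hlam', H⟩ := ctrCert_sur lam hlam (fun u => s.cl u = s.cl y) (FreeGroup.invRev (lam x y))
        (by rw [FreeGroup.invRev_length]; exact hlam x y)
      refine ⟨lam', hlam', ?_⟩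
      intro G _ m' m h' g _ _ hval hcl hv0 hed
      refine ⟨fun u => if s.cl u = s.cl y then g x else g u, ?_, ?_, ?_⟩
      · rintro a b ⟨ha, hb, hab⟩
        have ha' : a ∈ s.X := ha
        have hb' : b ∈ s.X := hb
        have hab' : mergeCl s.cl x y a = mergeCl s.cl x y b := hab
        have hc : ∀ u v, u ∈ s.X → v ∈ s.X → s.cl u = s.cl v → g u = g v := fun u v hu hv huv => hcl u v ⟨hu, hv, huv⟩
        simp only [mergeCl] at hab'
        dsimp only
        by_cases h1 : s.cl a = s.cl y <;> by_cases h2 : s.cl b = s.cl y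
        · rw [if_pos h1, if_pos h2]
        · rw [if_pos h1, if_neg h2]
          rw [if_neg (by rw [h1]; exact fun h => hne h.symm)] at hab'
          split_ifs at hab' with h3
          · exact hc x b hx hb' h3.symm
          · exact absurd (hab'.symm.trans h1) h2
        · rw [if_neg h1, if_pos h2]
          rw [if_neg (c := s.cl b = s.cl x) (by rw [h2]; exact fun h => hne h.symm)] at hab'
          split_ifs at hab' with h3
          · exact hc a x ha' hx h3
          · exact absurd (hab'.trans h2) h1
        · rw [if_neg h1, if_neg h2]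
          split_ifs at hab' with h3 h4 h4
          · exact hc a b ha' hb' (h3.trans h4.symm)
          · exact absurd hab'.symm h2
          · exact absurd hab' h1
          · exact hc a b ha' hb' hab'
      · show (if s.cl s.v0 = s.cl y then g x else g s.v0) = 1
        rw [if_neg (by rw [hv]; exact hne)]
        exact hv0
      · intro a b hab
        have hab' : (ctr s x y).Edge a b := hab
        obtain ⟨h1, h2⟩ := (ctrCert_edge he).1 hab'
        have h3 : (m a)⁻¹ * m b = (m' a)⁻¹ * m' b := by
          have := hval (a, b) (Or.inl h1)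
          have hn : ¬ ((a, b) = (x, y) ∨ (a, b) = (y, x)) := by
            rintro (hn | hn)
            · exact h2 (Prod.mk.inj hn).1
            · obtain ⟨h4, h5⟩ := Prod.mk.inj hn
              have := h1.2.2.1
              omega
          rw [if_neg hn, val_singleton] at this
          exact this
        have h4 : (m x)⁻¹ * m y = 1 := by
          have := hval (x, y) (Or.inl he)
          rw [if_pos (Or.inl rfl), val_nil] at this
          exact this
        have h5 := hed x y he
        rw [h4] at h5
        have h6 : g x = ev h' (lam x y) * g y := by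
          have : g x * 1 = g x * ((g x)⁻¹ * ev h' (lam x y) * g y) := by rw [← h5]
          simpa [mul_assoc] using this
        rw [← h3, hed a b h1]
        have hga : ∀ u ∈ s.X, s.cl u = s.cl y → g u = ev h' (FreeGroup.invRev (lam x y)) * g x := by
          intro u hu huy
          rw [ev_invRev, hcl u y ⟨hu, hy, huy⟩, h6]
          group
        refine H G h' g (fun u => if s.cl u = s.cl y then g x else g u) a b ?_ ?_ ?_ ?_
        · intro hp
          show g a = _ * (if s.cl a = s.cl y then g x else g a)
          rw [if_pos hp]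
          exact hga a h1.1 hp
        · intro hp
          exact if_neg hp
        · intro hp
          show g b = _ * (if s.cl b = s.cl y then g x else g b)
          rw [if_pos hp]
          exact hga b h1.2.1 hp
        · intro hp
          exact if_neg hp
    · obtain ⟨lam', hlam', H⟩ := ctrCert_sur lam hlam (fun u => s.cl u = s.cl x) (lam x y) (hlam x y)
      refine ⟨lam', hlam', ?_⟩
      intro G _ m' m h' g _ _ hval hcl hv0 hed
      refine ⟨fun u => if s.cl u = s.cl x then g y else g u, ?_, ?_, ?_⟩
      · rintro a b ⟨ha, hb, hab⟩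
        have ha' : a ∈ s.X := ha
        have hb' : b ∈ s.X := hb
        have hab' : mergeCl s.cl x y a = mergeCl s.cl x y b := hab
        have hc : ∀ u v, u ∈ s.X → v ∈ s.X → s.cl u = s.cl v → g u = g v := fun u v hu hv huv => hcl u v ⟨hu, hv, huv⟩
        simp only [mergeCl] at hab'
        dsimp only
        by_cases h1 : s.cl a = s.cl x <;> by_cases h2 : s.cl b = s.cl x
        · rw [if_pos h1, if_pos h2]
        · rw [if_pos h1, if_neg h2]
          rw [if_pos h1, if_neg h2] at hab'
          exact hc y b hy hb' hab'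
        · rw [if_neg h1, if_pos h2]
          rw [if_neg h1, if_pos h2] at hab'
          exact hc a y ha' hy hab'
        · rw [if_neg h1, if_neg h2]
          rw [if_neg h1, if_neg h2] at hab'
          exact hc a b ha' hb' hab'
      · show (if s.cl s.v0 = s.cl x then g y else g s.v0) = 1
        rw [if_neg hv]
        exact hv0
      · intro a b hab
        have hab' : (ctr s x y).Edge a b := hab
        obtain ⟨h1, h2⟩ := (ctrCert_edge he).1 hab'
        have h3 : (m a)⁻¹ * m b = (m' a)⁻¹ * m' b := by
          have := hval (a, b) (Or.inl h1)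
          have hn : ¬ ((a, b) = (x, y) ∨ (a, b) = (y, x)) := by
            rintro (hn | hn)
            · exact h2 (Prod.mk.inj hn).1
            · obtain ⟨h4, h5⟩ := Prod.mk.inj hn
              have := h1.2.2.1
              omega
          rw [if_neg hn, val_singleton] at this
          exact this
        have h4 : (m x)⁻¹ * m y = 1 := by
          have := hval (x, y) (Or.inl he)
          rw [if_pos (Or.inl rfl), val_nil] at this
          exact this
        have h5 := hed x y he
        rw [h4] at h5
        have h6 : g x = ev h' (lam x y) * g y := by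
          have : g x * 1 = g x * ((g x)⁻¹ * ev h' (lam x y) * g y) := by rw [← h5]
          simpa [mul_assoc] using this
        rw [← h3, hed a b h1]
        have hga : ∀ u ∈ s.X, s.cl u = s.cl x → g u = ev h' (lam x y) * g y := by
          intro u hu hux
          rw [hcl u x ⟨hu, hx, hux⟩, h6]
        refine H G h' g (fun u => if s.cl u = s.cl x then g y else g u) a b ?_ ?_ ?_ ?_
        · intro hp
          show g a = _ * (if s.cl a = s.cl x then g y else g a)
          rw [if_pos hp]
          exact hga a h1.1 hp
        · intro hp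
          exact if_neg hp
        · intro hp
          show g b = _ * (if s.cl b = s.cl x then g y else g b)
          rw [if_pos hp]
          exact hga b h1.2.1 hp
        · intro hp
          exact if_neg hp

end PF
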