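import Pool.Agent.H1.PF.KapA

set_option autoImplicit false

/-!
# PF Kap: the complexity does not increase when a maximal run is removed (helper1)

`r` (first side `P = [p, p+l)`), the run `[c, d) ⊆ P` is covered by `P` only. `b = bl p` is the block of `P`, `fr` is a new block name,
`nbl bl b d fr u = fr` if `d ≤ u` and `bl u = b`, and `= bl u` otherwise. The new list is `N = trimR r L c d`: the sides of `L`, the part `P1 = [p, c)` of `P` and the
corresponding part `Q1` of the second side `Q` (if `p < c`), the part `P2 = [d, p + l)` and the corresponding part `Q2` of `Q` (if `d < p + l`).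

* `blok_trim`: a side `t` of `L` (or `Q`) in the block `b` does not meet `[c, d)`, hence lies in `u < c` or in `u ≥ d`, so it is inside one block of `nbl`. Sides in other blocks: clear.
  `P1` is in the block `b`, `P2` in the block `fr`.
* `kap_trim`: let `S` be a finite set of names containing `b`, `fr` and all blocks of both lists; `kap` may be computed as a sum over `S` (blocks of weight 0 contribute 0).
  Let `π ∈ {0, 1, 2}` be the number of parts. Weights: for `v ≠ b, fr`: `w' v = w v + (if bl q = v then π - 1 else 0)`; `w' b + w' fr = (w b - 1 + π) + (if bl q = b then π - 1 else 0)`.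
  (`w fr = 0`; if `bl q = b` then the parts `Q1`, `Q2` are both in `b` or both in `fr`.) Use: `(x - 2) + (y - 2) ≤ (x + y) - 2` (truncated), and if `x, y ≥ 2` then `(x - 2) + (y - 2) = (x + y) - 4`.
  If `π ≤ 1` everything is monotone. If `π = 2`: the unit `c - 1` has coverage `≥ 2`, so a side different from `P` covers it: it is in the block `b` and not to the right of `d`; together with `P1`:
  `w' b ≥ 2`; in the same way `w' fr ≥ 2`. So the contribution of `b, fr` changes from `w b - 2` to `w b + 1 (+ 1 if bl q = b) - 4`, and the contribution of `bl q ≠ b` increases by at most one.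
* `forest_trim`: `ue N` is a subfamily of `ue (r :: L)` up to order: `ue [r.cutL j]` = the first `j` members of `ue [r]`, `ue [r.cutR j]` = the last `l - j` members.
-/

namespace PF

theorem Kap_sides_cons (r : Rel) (L : List Rel) : sides (r :: L) = (r.p, r.l) :: (r.q, r.l) :: sides L := rfl

theorem Kap_wt_cons (bl : ℕ → ℕ) (r : Rel) (L : List Rel) (v : ℕ) :
    wt bl (r :: L) v = (if bl r.p = v then 1 else 0) + (if bl r.q = v then 1 else 0) + wt bl L v := by
  unfold wt
  rw [Kap_sides_cons, List.countP_cons, List.countP_cons]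
  simp only [decide_eq_true_eq]
  omega

theorem Kap_wt_trim (bl : ℕ → ℕ) (r : Rel) (L : List Rel) (c d v : ℕ) :
    wt bl (trimR r L c d) v =
      (if r.p < c then (if bl (r.cutL (c - r.p)).p = v then 1 else 0) + (if bl (r.cutL (c - r.p)).q = v then 1 else 0) else 0)
      + (if d < r.p + r.l then (if bl (r.cutR (d - r.p)).p = v then 1 else 0) + (if bl (r.cutR (d - r.p)).q = v then 1 else 0) else 0)
      + wt bl L v := by
  unfold trimR
  by_cases h1 : r.p < c <;> by_cases h2 : d < r.p + r.l
  · simp only [if_pos h1, if_pos h2, List.singleton_append, Kap_wt_cons]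
    omega
  · simp only [if_pos h1, if_neg h2, List.singleton_append, List.nil_append, Kap_wt_cons]
    omega
  · simp only [if_neg h1, if_pos h2, List.singleton_append, List.nil_append, Kap_wt_cons]
    omega
  · simp only [if_neg h1, if_neg h2, List.nil_append]
    omega

theorem Kap_kap_eq (bl : ℕ → ℕ) (rels : List Rel) (S : Finset ℕ) (hS : ∀ t ∈ sides rels, bl t.1 ∈ S) :
    kap bl rels = ∑ v ∈ S, (wt bl rels v - 2) := by
  unfold kap
  apply Finset.sum_subset
  · intro v hv
    rw [List.mem_toFinset, List.mem_map] at hv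
    obtain ⟨t, ht, rfl⟩ := hv
    exact hS t ht
  · intro v _ hv
    have h0 : wt bl rels v = 0 := by
      unfold wt
      rw [List.countP_eq_zero]
      intro t ht h
      apply hv
      rw [List.mem_toFinset, List.mem_map]
      exact ⟨t, ht, by simpa using h⟩
    rw [h0]
    rfl

theorem Kap_wt_pos {bl : ℕ → ℕ} {L : List Rel} {v : ℕ} {t : ℕ × ℕ} (ht : t ∈ sides L) (h : bl t.1 = v) :
    1 ≤ wt bl L v := by
  unfold wt
  rw [Nat.succ_le_iff, List.countP_pos_iff]
  exact ⟨t, ht, by simpa using h⟩

theorem Kap_free {r : Rel} {L : List Rel} {c d : ℕ} (hfree : Free1 r L c d) {t : ℕ × ℕ} (ht : t ∈ sides L)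
    {u : ℕ} (h1 : c ≤ u) (h2 : u < d) : ¬ (t.1 ≤ u ∧ u < t.1 + t.2) := by
  unfold sides at ht
  rw [List.mem_flatMap] at ht
  obtain ⟨x, hx, hx'⟩ := ht
  have h := (hfree u h1 h2).2 x hx
  simp only [List.mem_cons, List.not_mem_nil, or_false] at hx'
  rcases hx' with rfl | rfl
  · exact h.1
  · exact h.2

/-- a unit of the first side with coverage at least two is covered by the second side or by a side of another relation -/
theorem Kap_cov {r : Rel} {L : List Rel} {u : ℕ} (h : 2 ≤ cov (r :: L) u) :
    (r.q ≤ u ∧ u < r.q + r.l) ∨ ∃ t ∈ sides L, t.1 ≤ u ∧ u < t.1 + t.2 := by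
  by_contra hcon
  push Not at hcon
  obtain ⟨h1, h2⟩ := hcon
  have h0 : (sides L).countP (fun t => t.1 ≤ u ∧ u < t.1 + t.2) = 0 := by
    rw [List.countP_eq_zero]
    intro t ht h
    have h' : t.1 ≤ u ∧ u < t.1 + t.2 := by simpa using h
    have := h2 t ht h'.1
    omega
  unfold cov at h
  rw [Kap_sides_cons, List.countP_cons, List.countP_cons, h0] at h
  have hq : ¬ (r.q ≤ u ∧ u < r.q + r.l) := by
    rintro ⟨h3, h4⟩
    have := h1 h3
    omega
  simp only [decide_eq_true_eq, hq, if_false] at h
  split_ifs at h <;> omega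

theorem Kap_wt_nbl_ne {bl : ℕ → ℕ} {L : List Rel} {b d fr v : ℕ} (h1 : v ≠ b) (h2 : v ≠ fr) :
    wt (nbl bl b d fr) L v = wt bl L v := by
  unfold wt
  apply List.countP_congr
  intro t _
  simp only [decide_eq_true_eq]
  unfold nbl
  split_ifs with h
  · constructor
    · intro h3; exact absurd h3.symm h2
    · intro h3; exact absurd (h3.symm.trans h.2) h1
  · exact Iff.rfl

theorem Kap_wt_nbl_add {bl : ℕ → ℕ} {L : List Rel} {b d fr : ℕ} (hbf : b ≠ fr) (hfr : ∀ t ∈ sides L, bl t.1 ≠ fr) :
    wt (nbl bl b d fr) L b + wt (nbl bl b d fr) L fr = wt bl L b := by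
  unfold wt
  generalize sides L = l at hfr
  induction l with
  | nil => rfl
  | cons t l ih =>
    have ih' := ih (fun x hx => hfr x (List.mem_cons_of_mem _ hx))
    have ht := hfr t List.mem_cons_self
    rw [List.countP_cons, List.countP_cons, List.countP_cons]
    simp only [decide_eq_true_eq] at ih' ⊢
    have key : (if nbl bl b d fr t.1 = b then 1 else 0) + (if nbl bl b d fr t.1 = fr then 1 else 0) =
        (if bl t.1 = b then 1 else 0) := by
      unfold nbl
      by_cases h : d ≤ t.1 ∧ bl t.1 = b
      · rw [if_pos h, if_neg (Ne.symm hbf), if_pos rfl, if_pos h.2]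
      · rw [if_neg h, if_neg ht, Nat.add_zero]
    omega

theorem kap_trim {bl : ℕ → ℕ} {r : Rel} {L : List Rel} (hb : BlOk bl (r :: L)) {c d fr : ℕ} (h1 : r.p ≤ c) (hcd : c < d)
    (h2 : d ≤ r.p + r.l) (hfree : Free1 r L c d) (hfr : ∀ t ∈ sides (r :: L), bl t.1 ≠ fr) (hl : ∀ t ∈ r :: L, 0 < t.l)
    (hc : r.p < c → 2 ≤ cov (r :: L) (c - 1)) (hd : d < r.p + r.l → 2 ≤ cov (r :: L) d) :
    kap (nbl bl (bl r.p) d fr) (trimR r L c d) ≤ kap bl (r :: L) := by
  have hlr : 0 < r.l := hl r List.mem_cons_self
  have hbP : ∀ u, r.p ≤ u → u < r.p + r.l → bl u = bl r.p :=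
    hb (r.p, r.l) (by rw [Kap_sides_cons]; exact List.mem_cons_self)
  have hbQ : ∀ u, r.q ≤ u → u < r.q + r.l → bl u = bl r.q :=
    hb (r.q, r.l) (by rw [Kap_sides_cons]; exact List.mem_cons_of_mem _ List.mem_cons_self)
  have hbL : ∀ t ∈ sides L, ∀ u, t.1 ≤ u → u < t.1 + t.2 → bl u = bl t.1 := fun t ht =>
    hb t (by rw [Kap_sides_cons]; exact List.mem_cons_of_mem _ (List.mem_cons_of_mem _ ht))
  have hfrP : bl r.p ≠ fr := hfr (r.p, r.l) (by rw [Kap_sides_cons]; exact List.mem_cons_self)
  have hfrQ : bl r.q ≠ fr := hfr (r.q, r.l) (by rw [Kap_sides_cons]; exact List.mem_cons_of_mem _ List.mem_cons_self)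
  have hfrL : ∀ t ∈ sides L, bl t.1 ≠ fr := fun t ht =>
    hfr t (by rw [Kap_sides_cons]; exact List.mem_cons_of_mem _ (List.mem_cons_of_mem _ ht))
  set b := bl r.p with hbdef
  set bl' := nbl bl b d fr with hbl'
  -- the second side
  have hQcase : bl r.q = b → (∀ u, r.q ≤ u → u < r.q + r.l → u < c) ∨ (∀ u, r.q ≤ u → u < r.q + r.l → d ≤ u) := by
    intro _
    have hno : ∀ u, c ≤ u → u < d → ¬ (r.q ≤ u ∧ u < r.q + r.l) := fun u h3 h4 => (hfree u h3 h4).1
    by_cases h5 : r.q < c
    · left
      intro u h6 h7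
      by_contra h8
      exact hno c le_rfl hcd ⟨h5.le, by omega⟩
    · right
      intro u h6 h7
      by_contra h8
      exact hno u (by omega) (by omega) ⟨h6, h7⟩
  have hpart : ∀ u, r.q ≤ u → u < r.q + r.l → bl' u = bl' r.q := by
    intro u h3 h4
    rw [hbl']
    unfold nbl
    rw [hbQ u h3 h4]
    by_cases h5 : bl r.q = b
    · rcases hQcase h5 with h6 | h6
      · have h7 := h6 u h3 h4
        have h8 := h6 r.q le_rfl (by omega)
        rw [if_neg (fun h => absurd h.1 (by omega)), if_neg (fun h => absurd h.1 (by omega))]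
      · have h7 := h6 u h3 h4
        have h8 := h6 r.q le_rfl (by omega)
        rw [if_pos ⟨h7, h5⟩, if_pos ⟨h8, h5⟩]
    · rw [if_neg (fun h => h5 h.2), if_neg (fun h => h5 h.2)]
  set β := bl' r.q with hβ
  have e1 : r.p < c → bl' (r.cutL (c - r.p)).p = b := by
    intro h3
    change bl' r.p = b
    rw [hbl']
    unfold nbl
    rw [if_neg (fun h => absurd h.1 (by omega))]
  have e2 : r.p < c → bl' (r.cutL (c - r.p)).q = β := by
    intro h3
    apply hpart
    · unfold Rel.cutL
      dsimp only
      split_ifs <;> omega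
    · unfold Rel.cutL
      dsimp only
      split_ifs <;> omega
  have e3 : d < r.p + r.l → bl' (r.cutR (d - r.p)).p = fr := by
    intro h3
    change bl' (r.p + (d - r.p)) = fr
    have h4 : r.p + (d - r.p) = d := by omega
    rw [h4, hbl']
    unfold nbl
    rw [if_pos ⟨le_rfl, hbP d (by omega) h3⟩]
  have e4 : d < r.p + r.l → bl' (r.cutR (d - r.p)).q = β := by
    intro h3
    apply hpart
    · unfold Rel.cutR
      dsimp only
      split_ifs <;> omega
    · unfold Rel.cutR
      dsimp only
      split_ifs <;> omega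
  -- the weights
  have w' : ∀ v, wt bl' (trimR r L c d) v =
      (if r.p < c then (if b = v then 1 else 0) + (if β = v then 1 else 0) else 0)
      + (if d < r.p + r.l then (if fr = v then 1 else 0) + (if β = v then 1 else 0) else 0)
      + wt bl' L v := by
    intro v
    rw [Kap_wt_trim]
    congr 2
    · by_cases h3 : r.p < c
      · rw [if_pos h3, if_pos h3, e1 h3, e2 h3]
      · rw [if_neg h3, if_neg h3]
    · by_cases h3 : d < r.p + r.l
      · rw [if_pos h3, if_pos h3, e3 h3, e4 h3]
      · rw [if_neg h3, if_neg h3]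
  have w : ∀ v, wt bl (r :: L) v = (if b = v then 1 else 0) + (if bl r.q = v then 1 else 0) + wt bl L v :=
    fun v => Kap_wt_cons bl r L v
  have hadd : wt bl' L b + wt bl' L fr = wt bl L b := Kap_wt_nbl_add hfrP hfrL
  have hne : ∀ v, v ≠ b → v ≠ fr → wt bl' L v = wt bl L v := fun v h3 h4 => Kap_wt_nbl_ne h3 h4
  -- the coverage
  have hL1 : r.p < c → ¬ (r.q ≤ c - 1 ∧ c - 1 < r.q + r.l) → 1 ≤ wt bl' L b := by
    intro h3 h4
    rcases Kap_cov (hc h3) with h5 | ⟨t, ht, h5, h6⟩
    · exact absurd h5 h4
    · refine Kap_wt_pos ht ?_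
      rw [hbl']
      unfold nbl
      rw [if_neg (fun h => absurd h.1 (by omega)), ← hbL t ht (c - 1) h5 h6]
      exact hbP (c - 1) (by omega) (by omega)
  have hL2 : d < r.p + r.l → ¬ (r.q ≤ d ∧ d < r.q + r.l) → 1 ≤ wt bl' L fr := by
    intro h3 h4
    rcases Kap_cov (hd h3) with h5 | ⟨t, ht, h5, h6⟩
    · exact absurd h5 h4
    · refine Kap_wt_pos ht ?_
      have h7 := Kap_free hfree ht (u := d - 1) (by omega) (by omega)
      have h8 : t.1 = d := by
        by_contra h9
        exact h7 ⟨by omega, by omega⟩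
      rw [hbl']
      unfold nbl
      rw [if_pos ⟨h8.ge, by rw [h8]; exact hbP d (by omega) h3⟩]
  -- the set of names
  let S : Finset ℕ := insert b (insert fr
    (((sides (trimR r L c d)).map (fun t => bl' t.1)).toFinset ∪ ((sides (r :: L)).map (fun t => bl t.1)).toFinset))
  have hbS : b ∈ S := Finset.mem_insert_self _ _
  have hfS : fr ∈ S := Finset.mem_insert_of_mem (Finset.mem_insert_self _ _)
  rw [Kap_kap_eq bl' (trimR r L c d) S (fun t ht => Finset.mem_insert_of_mem (Finset.mem_insert_of_mem
      (Finset.mem_union_left _ (List.mem_toFinset.mpr (List.mem_map.mpr ⟨t, ht, rfl⟩))))),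
    Kap_kap_eq bl (r :: L) S (fun t ht => Finset.mem_insert_of_mem (Finset.mem_insert_of_mem
      (Finset.mem_union_right _ (List.mem_toFinset.mpr (List.mem_map.mpr ⟨t, ht, rfl⟩)))))]
  have hfS' : fr ∈ S.erase b := Finset.mem_erase.mpr ⟨fun h => hfrP h.symm, hfS⟩
  rw [← Finset.add_sum_erase S _ hbS, ← Finset.add_sum_erase (S.erase b) _ hfS',
    ← Finset.add_sum_erase S (fun v => wt bl (r :: L) v - 2) hbS,
    ← Finset.add_sum_erase (S.erase b) (fun v => wt bl (r :: L) v - 2) hfS']
  set T := (S.erase b).erase fr with hT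
  have hTb : ∀ v ∈ T, v ≠ b ∧ v ≠ fr := fun v hv =>
    ⟨(Finset.mem_erase.mp (Finset.mem_erase.mp hv).2).1, (Finset.mem_erase.mp hv).1⟩
  have wb' := w' b
  have wf' := w' fr
  have wb := w b
  have wf := w fr
  simp only [if_true, if_neg hfrP, if_neg (Ne.symm hfrP), if_neg hfrQ] at wb' wf' wb wf
  by_cases hq : bl r.q = b
  · -- the second side is in the same block
    have hβ' : β = b ∨ β = fr := by
      rw [hβ, hbl']
      unfold nbl
      split_ifs
      · right; rfl
      · left; exact hq
    have hsum : ∑ v ∈ T, (wt bl' (trimR r L c d) v - 2) ≤ ∑ v ∈ T, (wt bl (r :: L) v - 2) := by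
      apply Finset.sum_le_sum
      intro v hv
      obtain ⟨h3, h4⟩ := hTb v hv
      rw [w' v, w v, hne v h3 h4, hq, if_neg (Ne.symm h3), if_neg (Ne.symm h4)]
      have h5 : β ≠ v := by
        rcases hβ' with h | h
        · rw [h]; exact Ne.symm h3
        · rw [h]; exact Ne.symm h4
      rw [if_neg h5]
      simp
    have h5 : (wt bl' (trimR r L c d) b - 2) + (wt bl' (trimR r L c d) fr - 2) ≤
        (wt bl (r :: L) b - 2) + (wt bl (r :: L) fr - 2) := by
      have hpos : r.p < c → d < r.p + r.l → 2 ≤ wt bl' (trimR r L c d) b ∧ 2 ≤ wt bl' (trimR r L c d) fr := by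
        intro h3 h4
        rw [if_pos h3, if_pos h4] at wb' wf'
        rcases hQcase hq with h6 | h6
        · -- left of the run
          have hβb : β = b := by
            rw [hβ, hbl']
            unfold nbl
            rw [if_neg (fun h => absurd h.1 (by have := h6 r.q le_rfl (by omega); omega))]
            exact hq
          have h7 := hL2 h4 (fun h => absurd (h6 d h.1 h.2) (by omega))
          rw [if_pos hβb] at wb'
          constructor
          · omega
          · omega
        · have hβf : β = fr := by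
            rw [hβ, hbl']
            unfold nbl
            rw [if_pos ⟨h6 r.q le_rfl (by omega), hq⟩]
          have h7 := hL1 h3 (fun h => absurd (h6 (c - 1) h.1 h.2) (by omega))
          rw [if_pos hβf] at wf'
          constructor
          · omega
          · omega
      have hind : (if β = b then 1 else 0) + (if β = fr then 1 else 0) = 1 := by
        rcases hβ' with h | h
        · rw [if_pos h, if_neg (by rw [h]; exact hfrP)]
        · rw [if_neg (by rw [h]; exact Ne.symm hfrP), if_pos h]
      rw [if_pos hq] at wb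
      by_cases h3 : r.p < c <;> by_cases h4 : d < r.p + r.l
      · have h6 := hpos h3 h4
        rw [if_pos h3, if_pos h4] at wb' wf'
        omega
      · rw [if_pos h3, if_neg h4] at wb' wf'
        omega
      · rw [if_neg h3, if_pos h4] at wb' wf'
        omega
      · rw [if_neg h3, if_neg h4] at wb' wf'
        omega
    omega
  · -- the second side is in another block
    have hβ' : β = bl r.q := by
      rw [hβ, hbl']
      unfold nbl
      rw [if_neg (fun h => hq h.2)]
    have hQP : ∀ u, r.p ≤ u → u < r.p + r.l → ¬ (r.q ≤ u ∧ u < r.q + r.l) := by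
      intro u h3 h4 h5
      apply hq
      rw [← hbQ u h5.1 h5.2]
      exact hbP u h3 h4
    rw [if_neg hq] at wb
    rw [hβ', if_neg hq] at wb'
    rw [hβ', if_neg hfrQ] at wf'
    by_cases hpi : r.p < c ∧ d < r.p + r.l
    · obtain ⟨h3, h4⟩ := hpi
      rw [if_pos h3, if_pos h4] at wb' wf'
      have h5 := hL1 h3 (hQP (c - 1) (by omega) (by omega))
      have h6 := hL2 h4 (hQP d (by omega) h4)
      have hsum : ∑ v ∈ T, (wt bl' (trimR r L c d) v - 2) ≤ ∑ v ∈ T, (wt bl (r :: L) v - 2) + 1 := by
        have hle : ∀ v ∈ T, wt bl' (trimR r L c d) v - 2 ≤ (wt bl (r :: L) v - 2) + (if bl r.q = v then 1 else 0) := by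
          intro v hv
          obtain ⟨h7, h8⟩ := hTb v hv
          rw [w' v, w v, hne v h7 h8, if_pos h3, if_pos h4, hβ', if_neg (Ne.symm h7), if_neg (Ne.symm h8)]
          split_ifs <;> omega
        calc ∑ v ∈ T, (wt bl' (trimR r L c d) v - 2)
            ≤ ∑ v ∈ T, ((wt bl (r :: L) v - 2) + (if bl r.q = v then 1 else 0)) := Finset.sum_le_sum hle
          _ = ∑ v ∈ T, (wt bl (r :: L) v - 2) + ∑ v ∈ T, (if bl r.q = v then 1 else 0) := Finset.sum_add_distrib
          _ ≤ ∑ v ∈ T, (wt bl (r :: L) v - 2) + 1 := by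
              apply Nat.add_le_add_left
              rw [Finset.sum_ite_eq]
              split_ifs <;> omega
      omega
    · have hsum : ∑ v ∈ T, (wt bl' (trimR r L c d) v - 2) ≤ ∑ v ∈ T, (wt bl (r :: L) v - 2) := by
        apply Finset.sum_le_sum
        intro v hv
        obtain ⟨h7, h8⟩ := hTb v hv
        rw [w' v, w v, hne v h7 h8, hβ', if_neg (Ne.symm h7), if_neg (Ne.symm h8)]
        by_cases h3 : r.p < c <;> by_cases h4 : d < r.p + r.l
        · exact absurd ⟨h3, h4⟩ hpi
        · rw [if_pos h3, if_neg h4]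
          omega
        · rw [if_neg h3, if_pos h4]
          omega
        · rw [if_neg h3, if_neg h4]
          omega
      by_cases h3 : r.p < c <;> by_cases h4 : d < r.p + r.l
      · exact absurd ⟨h3, h4⟩ hpi
      · rw [if_pos h3, if_neg h4] at wb' wf'
        omega
      · rw [if_neg h3, if_pos h4] at wb' wf'
        omega
      · rw [if_neg h3, if_neg h4] at wb' wf'
        omega

end PF
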