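import Pool.Agent.H1.PF.TrimL

set_option autoImplicit false

/-!
# PF Trim: remove a run of a side (helper1)

* `trimLeft`: induction on `d - p`. Let `c1` be the least number `> p` such that `c1 ∈ X` or `r.Q (c1 - p) ∈ X`; `c1 ≤ d` because `d ∈ X`. `trimOne` removes `[p, c1)`.
  If `c1 = d` we are done. If `c1 < d` apply the induction hypothesis to the new state with `r' = r.cutR (c1 - p)` (`r'.p = c1`, `r'.p + r'.l = p + l`; `Free1 r' L c1 d` because the second side of
  `r'` is inside the second side of `r`), `d` is still a mark; `(r.cutR i).cutR j = r.cutR (i + j)`.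
* `trimRun`: if `c = p` this is `trimLeft`. If `p < c`: add the mark `r.Q (c - p)` if it is not a mark (`Move.addMark`), `Move.cut` at `j = c - p`, `Move.perm` to the list
  `r.cutR j :: r.cutL j :: L`, and `trimLeft` (with `R + 1`) for `r.cutR j` and the list `r.cutL j :: L`. (`Free1`: the first side of `r.cutL j` is `[p, c)`, the second one is inside the second side
  of `r`.) At the end `Move.perm` to the order of `trimR`. The number of classes: as in `trimOne`.
* `merge2`: `Move.comp`, then `Move.perm` is not needed: `trimRun` for `r`, `c = p`, `d = p + l` and the list `r.comp r' :: L` (`trimR r (r.comp r' :: L) p (p + l) = r.comp r' :: L`).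

All states in the chain have at most `M` marks by `card_ok`.
-/

namespace PF

theorem trimRun {n : ℕ} {sg : ℕ → Bool} {m : ℕ → FreeGroup (Fin n)} {M V R : ℕ} (hM : 2 * (V + R + n) + 14 ≤ M) {s : St}
    (hOk : Ok n sg m s) (hiso : s.NoIso) {r : Rel} {L : List Rel} (hs : s.rels = r :: L) {c d : ℕ} (h0 : r.p ≤ c) (h1 : c < d)
    (h2 : d ≤ r.p + r.l) (hc : c ∈ s.X) (hd : d ∈ s.X) (hfree : Free1 r L c d) (hV : s.V ≤ V) (hR : s.rels.length ≤ R) :
    ∃ s', Chain M s s' ∧ Ok n sg m s' ∧ s'.NoIso ∧ s'.V ≤ s.V ∧ s'.D = s.D.filter (fun u => ¬ (c ≤ u ∧ u < d)) ∧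
      s'.rels = trimR r L c d := by
  have hr : r ∈ s.rels := by rw [hs]; exact List.mem_cons_self
  have hp := hOk.valid.pX r hr
  have hcardOf : ∀ (t : St), Ok n sg m t → t.NoIso → t.V ≤ V → t.rels.length ≤ R + 1 → t.X.card ≤ M := by
    intro t ht1 ht2 ht3 ht4
    have h1 := card_ok ht1 ∅ (fun x hx => by
      rcases ht2 x hx with h | h
      · exact Or.inl h
      · exact Or.inr (Or.inl h)) ht3 ht4 (by simp)
    omega
  rcases Nat.lt_or_ge r.p c with hlt | hge
  · obtain ⟨j, hj⟩ : ∃ j, c = r.p + j := ⟨c - r.p, by omega⟩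
    have hj0 : 0 < j := by omega
    have hjl : j < r.l := by omega
    have hcj : c - r.p = j := by omega
    have hpD := hOk.valid.pD r hr
    have hQj : r.Q j = r.q + (if r.s then j else r.l - j) := by
      unfold Rel.Q
      split <;> rfl
    have hQ0 : 0 < r.Q j := by
      rw [hQj]
      split <;> omega
    have hQ1 : r.Q j - 1 ∈ s.D := by
      rw [hQj]
      split
      · rw [show r.q + j - 1 = r.q + (j - 1) by omega]
        exact (hpD _ (by omega)).2
      · rw [show r.q + (r.l - j) - 1 = r.q + (r.l - j - 1) by omega]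
        exact (hpD _ (by omega)).2
    have hQ2 : r.Q j ∈ s.D := by
      rw [hQj]
      split
      · exact (hpD _ hjl).2
      · exact (hpD _ (by omega)).2
    obtain ⟨t, a1, a2, a3, a4, a5, a6, a7, a8, a9, a10⟩ := trimOne_add (M := M) (V := V) (R := R) (by omega) hOk hiso hV hR hQ0 hQ1 hQ2 hc
    have htr' : t.rels = r :: L := by rw [a5, hs]
    have hct : r.p + j ∈ t.X := by rw [← hj]; exact a8 _ hc
    have hmv := Move.cut t r L j htr' hj0 hjl hct a7
    obtain ⟨b, hb⟩ : ∃ b : St, b = ⟨t.D, t.X, mergeCl t.cl (r.p + j) (r.Q j), r.cutL j :: r.cutR j :: L, t.v0⟩ := ⟨_, rfl⟩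
    have hVV := V_cut t t.D (r.cutL j :: r.cutR j :: L) t.v0 (r.p + j) (r.Q j) hct a7
    rw [← hb] at hmv hVV
    have hOkb := ok_move a2 hmv
    have hbX : b.X = t.X := by rw [hb]
    have hbD : b.D = s.D := by rw [hb]; exact a4
    have hbr : b.rels = r.cutL j :: r.cutR j :: L := by rw [hb]
    have hbc : b.X.card ≤ M := by rw [hbX]; exact a6
    have hisob : b.NoIso := by
      intro x hx
      rw [hbD, ← a4]
      rw [hbX] at hx
      exact a3 x hx
    have hbV : b.V ≤ s.V := by
      rcases a10 with h | ⟨h, h'⟩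
      · exact hVV.2.1.trans h.le
      · rw [hj] at h'
        have := hVV.2.2 (Ne.symm h')
        omega
    -- exchange the two relations
    have hmv2 := Move.perm b (r.cutR j :: r.cutL j :: L) (by rw [hbr]; exact List.Perm.swap _ _ _)
    obtain ⟨e, he⟩ : ∃ e : St, e = ⟨b.D, b.X, b.cl, r.cutR j :: r.cutL j :: L, b.v0⟩ := ⟨_, rfl⟩
    rw [← he] at hmv2
    have hOke := ok_move hOkb hmv2
    have heX : e.X = b.X := by rw [he]
    have heD : e.D = s.D := by rw [he]; exact hbD
    have her : e.rels = r.cutR j :: r.cutL j :: L := by rw [he]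
    have heV : e.V = b.V := by rw [he]; rfl
    have hec : e.X.card ≤ M := by rw [heX]; exact hbc
    have hisoe : e.NoIso := by
      intro x hx
      rw [heD, ← hbD]
      rw [heX] at hx
      exact hisob x hx
    have hLp : (r.cutL j).p = r.p := rfl
    have hLl : (r.cutL j).l = j := rfl
    have hLq : (r.cutL j).q = if r.s then r.q else r.q + (r.l - j) := rfl
    have hRp : (r.cutR j).p = c := by
      show r.p + j = c
      omega
    have hRl : (r.cutR j).l = r.l - j := rfl
    have hRq : (r.cutR j).q = if r.s then r.q + j else r.q := rfl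
    have hlen : e.rels.length ≤ R + 1 := by
      rw [her]
      rw [hs] at hR
      simp only [List.length_cons] at hR ⊢
      omega
    obtain ⟨f, k1, k2, k3, k4, k5, k6⟩ := trimLeft (M := M) (V := V) (R := R + 1) (by omega) hOke hisoe her (d := d)
      (by rw [hRp]; exact h1) (by rw [hRp, hRl]; omega) (by rw [heX, hbX]; exact a8 _ hd) (by
        intro u hu1 hu2
        rw [hRp] at hu1
        obtain ⟨g1, g2⟩ := hfree u (by omega) hu2
        refine ⟨?_, ?_⟩
        · rw [hRq, hRl]
          split <;> omega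
        · intro x hx
          rcases List.mem_cons.1 hx with hx | hx
          · rw [hx, hLp, hLl, hLq]
            refine ⟨by omega, ?_⟩
            split <;> omega
          · exact g2 x hx) (by omega) hlen
    have hkr : f.rels = (if d < r.p + r.l then [r.cutR (d - r.p)] else []) ++ r.cutL j :: L := by
      rw [k6, trimL_cutR, hRp, hRl]
      have e1 : j + (d - c) = d - r.p := by omega
      have e2 : c + (r.l - j) = r.p + r.l := by omega
      rw [e1, e2]
    have hperm : f.rels.Perm (trimR r L c d) := by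
      rw [hkr]
      unfold trimR
      rw [if_pos hlt, hcj, List.singleton_append]
      exact List.perm_middle
    have hflen : f.rels.length ≤ R + 1 := by
      rw [hkr]
      rw [hs] at hR
      simp only [List.length_cons] at hR
      by_cases hdl : d < r.p + r.l
      · rw [if_pos hdl]
        simp only [List.length_append, List.length_cons, List.length_nil]
        omega
      · rw [if_neg hdl]
        simp only [List.length_append, List.length_cons, List.length_nil]
        omega
    have hfc : f.X.card ≤ M := hcardOf f k2 k3 (by omega) hflen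
    have hmv3 := Move.perm f (trimR r L c d) hperm
    refine ⟨⟨f.D, f.X, f.cl, trimR r L c d, f.v0⟩, (((a1.trans (trimOne_single a6 hbc hmv)).trans (trimOne_single hbc hec hmv2)).trans k1).trans
      (trimOne_single hfc (by exact hfc) hmv3), ok_move k2 hmv3, k3, ?_, ?_, rfl⟩
    · have hfV : St.V ⟨f.D, f.X, f.cl, trimR r L c d, f.v0⟩ = f.V := rfl
      rw [hfV]
      omega
    · show f.D = _
      rw [k5, heD, hRp]
  · have hcp : c = r.p := by omega
    rw [hcp] at hfree h1 ⊢
    obtain ⟨f, k1, k2, k3, k4, k5, k6⟩ := trimLeft (M := M) (V := V) (R := R) (by omega) hOk hiso hs h1 h2 hd hfree hV hR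
    refine ⟨f, k1, k2, k3, k4, k5, ?_⟩
    rw [k6]
    unfold trimR
    rw [if_neg (lt_irrefl _)]
    rfl

theorem merge2 {n : ℕ} {sg : ℕ → Bool} {m : ℕ → FreeGroup (Fin n)} {M V R : ℕ} (hM : 2 * (V + R + n) + 14 ≤ M) {s : St}
    (hOk : Ok n sg m s) (hiso : s.NoIso) {r r' : Rel} {L : List Rel} (hs : s.rels = r :: r' :: L) (hp : r.p = r'.p) (hl : r.l = r'.l)
    (hfree : Free1 r L r.p (r.p + r.l)) (hfree' : ∀ u, r.p ≤ u → u < r.p + r.l → ¬ (r'.q ≤ u ∧ u < r'.q + r'.l))
    (hV : s.V ≤ V) (hR : s.rels.length ≤ R) :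
    ∃ s', Chain M s s' ∧ Ok n sg m s' ∧ s'.NoIso ∧ s'.V ≤ s.V ∧ s'.D = s.D.filter (fun u => ¬ (r.p ≤ u ∧ u < r.p + r.l)) ∧
      s'.rels = r.comp r' :: L := by
  have hr : r ∈ s.rels := by rw [hs]; exact List.mem_cons_self
  have hlpos := hOk.valid.lpos r hr
  obtain ⟨hp1, hp2, -, -⟩ := hOk.valid.pX r hr
  have hcard : s.X.card ≤ M := by
    have h1 := card_ok hOk ∅ (fun x hx => by
      rcases hiso x hx with h | h
      · exact Or.inl h
      · exact Or.inr (Or.inl h)) hV hR (by simp)
    omega
  have hmv := Move.comp s r r' L hs hp hl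
  obtain ⟨t, ht⟩ : ∃ t : St, t = ⟨s.D, s.X, s.cl, r :: r.comp r' :: L, s.v0⟩ := ⟨_, rfl⟩
  rw [← ht] at hmv
  have hOkt := ok_move hOk hmv
  have htX : t.X = s.X := by rw [ht]
  have htD : t.D = s.D := by rw [ht]
  have htr : t.rels = r :: r.comp r' :: L := by rw [ht]
  have htV : t.V = s.V := by rw [ht]; rfl
  have htc : t.X.card ≤ M := by rw [htX]; exact hcard
  have hisot : t.NoIso := by
    intro x hx
    rw [htD]
    rw [htX] at hx
    exact hiso x hx
  obtain ⟨f, k1, k2, k3, k4, k5, k6⟩ := trimRun hM hOkt hisot htr (c := r.p) (d := r.p + r.l) le_rfl (by omega) le_rfl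
    (by rw [htX]; exact hp1) (by rw [htX]; exact hp2) (by
      intro u hu1 hu2
      obtain ⟨g1, g2⟩ := hfree u hu1 hu2
      refine ⟨g1, ?_⟩
      intro x hx
      rcases List.mem_cons.1 hx with hx | hx
      · rw [hx]
        refine ⟨g1, ?_⟩
        show ¬ (r'.q ≤ u ∧ u < r'.q + r.l)
        rw [hl]
        exact hfree' u hu1 hu2
      · exact g2 x hx) (by omega) (by
      rw [htr]
      rw [hs] at hR
      simpa using hR)
  refine ⟨f, (trimOne_single hcard htc hmv).trans k1, k2, k3, by omega, by rw [k5, htD], ?_⟩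
  rw [k6]
  unfold trimR
  rw [if_neg (lt_irrefl _), if_neg (lt_irrefl _)]
  rfl

end PF
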