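import Pool.Agent.H1.PF.Front
import Pool.Agent.H1.PF.Kap
import Pool.Agent.H1.PF.Trim

set_option autoImplicit false

/-!
# PF CutStep: one macroscopic step at a unit of coverage one (helper1)

`u` is covered by exactly one side `t` (`cov = countP = 1`). `front` brings it to the front: `rels = r :: L`, `r.p = t.1`, `r.l = t.2`. `exists_run` gives the maximal run `[c, d)`, `run_marks`, `run_free`
the hypotheses of `trimRun`, which gives the new state `s'` with `s'.rels = trimR r L c d`. The new block map is `nbl bl (bl r.p) d fr` with `fr` larger than all `bl t.1`, `t ∈ sides`.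
`blok_trim`, `kap_trim`, `forest_trim` give the invariants. The number of relations: if there are less than `R` relations, `length_trim` gives at most one more. If the block `bl u` (`= bl r.p` by `BlOk`)
has weight `≤ 2`, then by `run_low` not both `p < c` and `d < p + l`, so the number of relations does not increase. `D` has become smaller (`u ∈ D` was removed: `Valid.pD`).
`|X| ≤ M` for `front`: `card_ok` with `I = ∅`.
-/

namespace PF

theorem cutStep {n : ℕ} {sg : ℕ → Bool} {m : ℕ → FreeGroup (Fin n)} {M V R K : ℕ} (hM : 2 * (V + R + n) + 14 ≤ M) {s : St} {bl : ℕ → ℕ}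
    (hOk : Ok n sg m s) (hMac : Mac V R K s bl) {u : ℕ} (hu : cov s.rels u = 1) (hlen : s.rels.length < R ∨ wt bl s.rels (bl u) ≤ 2) :
    ∃ s' bl', Chain M s s' ∧ Ok n sg m s' ∧ Mac V R K s' bl' ∧ s'.D.card < s.D.card := by
  classical
  have hX : s.X.card ≤ M := by
    have h1 := card_ok hOk ∅ (fun x hx => by
      rcases hMac.iso x hx with h | h
      · exact Or.inl h
      · exact Or.inr (Or.inl h)) hMac.hV hMac.hR (by simp)
    omega
  have hpos : 0 < (sides s.rels).countP (fun t => t.1 ≤ u ∧ u < t.1 + t.2) := by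
    unfold cov at hu; omega
  obtain ⟨t, ht, htu'⟩ := List.countP_pos_iff.1 hpos
  have htu : t.1 ≤ u ∧ u < t.1 + t.2 := by simpa using htu'
  obtain ⟨s1, r, L, hch, hOk1, hMac1, hD, hX1, hV1, hrels, hp, hl, hlen1, hcov, hwt, hkap⟩ :=
    front hOk hMac hX ht
  have hu1 : cov (r :: L) u = 1 := by rw [← hrels, hcov, hu]
  obtain ⟨c, d, hc1, hc2, hd1, hd2, hrun, hcL, hdR⟩ :=
    exists_run (r := r) (L := L) (u := u) (by omega) (by omega) hu1
  have hcd : c < d := by omega
  have hmk := run_marks hOk1.valid hrels hc1 hcd hd2 hrun hcL hdR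
  have hfree := run_free hc1 hd2 hrun
  obtain ⟨s2, hch2, hOk2, hiso2, hV2, hD2, hrels2⟩ :=
    trimRun hM hOk1 hMac1.iso hrels hc1 hcd hd2 hmk.1 hmk.2 hfree hMac1.hV hMac1.hR
  obtain ⟨fr, hfr⟩ := Infinite.exists_notMem_finset ((sides (r :: L)).map (fun t => bl t.1)).toFinset
  have hfr' : ∀ t ∈ sides (r :: L), bl t.1 ≠ fr := by
    intro t ht he
    apply hfr
    rw [List.mem_toFinset, List.mem_map]
    exact ⟨t, ht, he⟩
  have hlp : ∀ t ∈ r :: L, 0 < t.l := by
    intro t ht
    exact hOk1.valid.lpos t (hrels ▸ ht)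
  have hblok : BlOk bl (r :: L) := hrels ▸ hMac1.blok
  have hforest : Forest (ue (r :: L)) := hrels ▸ hMac1.forest
  have hkapK : kap bl (r :: L) ≤ K := hrels ▸ hMac1.kap
  have hlenL : s.rels.length = L.length + 1 := by
    rw [← hlen1, hrels, List.length_cons]
  have hlt := length_trim r L c d hc1 hd2
  refine ⟨s2, nbl bl (bl r.p) d fr, Relation.ReflTransGen.trans hch hch2, hOk2, ?_, ?_⟩
  · refine ⟨hiso2, ?_, ?_, ?_, ?_, ?_⟩
    · rw [hrels2]; exact forest_trim hc1 hcd hd2 hforest
    · rw [hrels2]; exact blok_trim hblok hc1 hcd hd2 hfree hfr' hlp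
    · rw [hrels2]
      exact (kap_trim hblok hc1 hcd hd2 hfree hfr' hlp hcL hdR).trans hkapK
    · rw [hrels2]
      rcases hlen with h | h
      · have := hlt.1
        omega
      · have hblu : bl u = bl r.p := by
          have hmem : (r.p, r.l) ∈ sides (r :: L) := by simp [sides]
          exact hblok (r.p, r.l) hmem u (by show r.p ≤ u; omega) (by show u < r.p + r.l; omega)
        have hnot : ¬ (r.p < c ∧ d < r.p + r.l) := by
          rintro ⟨ha, hb⟩
          have h3 := run_low hblok hcd hrun ⟨ha, hcL ha⟩ ⟨hb, hdR hb⟩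
          have h4 : wt bl (r :: L) (bl r.p) = wt bl s.rels (bl u) := by
            rw [← hrels, hwt, hblu]
          omega
        have h5 := hlt.2 hnot
        have h6 := hMac.hR
        omega
    · have h7 := hMac.hV
      omega
  · rw [hD2, hD]
    apply Finset.card_lt_card
    rw [Finset.filter_ssubset]
    refine ⟨u, ?_, ?_⟩
    · have h8 := (hOk1.valid.pD r (by rw [hrels]; exact List.mem_cons_self) (u - r.p) (by omega)).1
      have h9 : r.p + (u - r.p) = u := by omega
      rw [h9, hD] at h8
      exact h8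
    · intro hn
      exact hn ⟨hc2, hd1⟩

end PF
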