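import Mathlib

set_option autoImplicit false

/-!
# PF: potential positivity in free groups is decidable (helper1, MP_db04f5_al, full answer)

A *state* `s` is a finite system of partial isometries of an integer line. The unit `u` is the interval `[u, u+1]`.
* `s.D` = the finite set of present units, `s.X` = the finite set of marks (vertices),
* `s.cl x` = the class of the mark `x` (marks of the same class are glued), `s.v0` = the base mark,
* `s.rels` = list of relations. `r : Rel` glues the interval `[p, p+l]` to `[q, q+l]` (`s = true`: translation, `s = false`: reversed):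
  the vertex `p + j` is glued to `r.Q j` (`0 ≤ j ≤ l`), the unit `p + j` to the unit `r.U j` (`j < l`).
`s.Edge x y`: `x < y` are consecutive marks and all units between them are present.

`FS A` = the combinatorial type of a state over a set `A` of marks. `f.Lab m` (`m : A → G`, `G` a group): `m` is a labelling,
the pair `(x, y)` has the value `(m x)⁻¹ * m y`; every relation `(a, b, c, d)` says that `(a, b)` and `(c, d)` have the same value.
`val m L` = product of the values of the pairs of `L`; `ev h w` = value of the word `w` (letters `x_i^{±1}`) at `h : Fin n → G`.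

`f.Sur n B W`: the words `W i` (`i < n`) in the edges generate the fundamental group of `f`, in a controlled way.
`f.EqP w W`: the word `w` in the `W i` equals a positive word. `Cert f n B w`: both.
-/

namespace PF

structure Rel where
  p : ℕ
  q : ℕ
  l : ℕ
  s : Bool
deriving DecidableEq

/-- the vertex map -/
def Rel.Q (r : Rel) (j : ℕ) : ℕ := if r.s then r.q + j else r.q + (r.l - j)

/-- the unit map -/
def Rel.U (r : Rel) (j : ℕ) : ℕ := if r.s then r.q + j else r.q + (r.l - 1 - j)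

def Rel.flip (r : Rel) : Rel := ⟨r.q, r.p, r.l, r.s⟩

/-- the part of `r` over `[p, p+j]` -/
def Rel.cutL (r : Rel) (j : ℕ) : Rel := ⟨r.p, if r.s then r.q else r.q + (r.l - j), j, r.s⟩

/-- the part of `r` over `[p+j, p+l]` -/
def Rel.cutR (r : Rel) (j : ℕ) : Rel := ⟨r.p + j, if r.s then r.q + j else r.q, r.l - j, r.s⟩

/-- if `r : P → Q` and `r' : P → Q'` then `r.comp r' : Q → Q'` -/
def Rel.comp (r r' : Rel) : Rel := ⟨r.q, r'.q, r.l, r.s == r'.s⟩

structure St where
  D : Finset ℕ
  X : Finset ℕ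
  cl : ℕ → ℕ
  rels : List Rel
  v0 : ℕ

/-- consecutive marks with all units between them present -/
def St.Edge (s : St) (x y : ℕ) : Prop :=
  x ∈ s.X ∧ y ∈ s.X ∧ x < y ∧ (∀ u, x ≤ u → u < y → u ∈ s.D) ∧ ∀ u, x < u → u < y → u ∉ s.X

/-- `L` is a path of edges from `x` to `y` (from left to right) -/
def St.IsPath (s : St) : ℕ → ℕ → List (ℕ × ℕ) → Prop
  | x, y, [] => x = y
  | x, y, e :: L => e.1 = x ∧ s.Edge x e.2 ∧ s.IsPath e.2 y L

/-- glue the class of `a` to the class of `b` -/
def mergeCl (cl : ℕ → ℕ) (a b : ℕ) : ℕ → ℕ := fun u => if cl u = cl a then cl b else cl u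

/-- combinatorial types -/
structure FS (A : Type) where
  ed : A → A → Prop
  eqv : A → A → Prop
  pos : A → A → Prop
  rel : A → A → A → A → Prop
  v0 : A

def FS.Lab {A : Type} (f : FS A) {G : Type} [Group G] (m : A → G) : Prop :=
  ∀ a b c d, f.rel a b c d → (m a)⁻¹ * m b = (m c)⁻¹ * m d

/-- product of the values of a list of pairs -/
def val {A : Type} {G : Type} [Group G] (m : A → G) (L : List (A × A)) : G :=
  (L.map fun e => (m e.1)⁻¹ * m e.2).prod

/-- value of a word in the letters `x_i^{±1}` -/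
def ev {n : ℕ} {G : Type} [Group G] (h : Fin n → G) (w : List (Fin n × Bool)) : G :=
  FreeGroup.lift h (FreeGroup.mk w)

/-- edge or reversed edge -/
def FS.E2 {A : Type} (f : FS A) (e : A × A) : Prop := f.ed e.1 e.2 ∨ f.ed e.2 e.1

def FS.Sur {A : Type} (f : FS A) (n B : ℕ) (W : Fin n → List (A × A)) : Prop :=
  (∀ i, (W i).length ≤ B) ∧ (∀ i, ∀ e ∈ W i, f.E2 e) ∧
  ∃ lam : A → A → List (Fin n × Bool), (∀ x y, (lam x y).length ≤ B) ∧
    ∀ (G : Type) [Group G] (m : A → G), f.Lab m →
      ∃ g : A → G, (∀ x y, f.eqv x y → g x = g y) ∧ g f.v0 = 1 ∧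
        ∀ x y, f.ed x y → (m x)⁻¹ * m y = (g x)⁻¹ * ev (fun i => val m (W i)) (lam x y) * g y

def FS.EqP {A : Type} (f : FS A) {n : ℕ} (w : List (Fin n × Bool)) (W : Fin n → List (A × A)) : Prop :=
  ∃ W0 : List (A × A), (∀ e ∈ W0, f.pos e.1 e.2) ∧
    ∀ (G : Type) [Group G] (m : A → G), f.Lab m → ev (fun i => val m (W i)) w = val m W0

def Cert {A : Type} (f : FS A) (n B : ℕ) (w : List (Fin n × Bool)) : Prop :=
  ∃ W : Fin n → List (A × A), f.Sur n B W ∧ f.EqP w W

/-- the type of a state; `sg u` = the sign of the unit `u`. A pair is positive if it is an edge all of whose units are positive,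
or a reversed edge all of whose units are negative. -/
def St.toFS (s : St) (sg : ℕ → Bool) : FS ℕ where
  ed := s.Edge
  eqv x y := x ∈ s.X ∧ y ∈ s.X ∧ s.cl x = s.cl y
  pos x y := (s.Edge x y ∧ ∀ u, x ≤ u → u < y → sg u = true) ∨
    (s.Edge y x ∧ ∀ u, y ≤ u → u < x → sg u = false)
  rel a b c d := ∃ r ∈ s.rels, a = r.p ∧ b = r.p + r.l ∧ c = r.Q 0 ∧ d = r.Q r.l
  v0 := s.v0

/-- push forward of a type along a map -/
def FS.push {A C : Type} (f : FS A) (ρ : A → C) : FS C where
  ed i j := ∃ x y, f.ed x y ∧ ρ x = i ∧ ρ y = j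
  eqv i j := ∃ x y, f.eqv x y ∧ ρ x = i ∧ ρ y = j
  pos i j := ∃ x y, f.pos x y ∧ ρ x = i ∧ ρ y = j
  rel i j k l := ∃ a b c d, f.rel a b c d ∧ ρ a = i ∧ ρ b = j ∧ ρ c = k ∧ ρ d = l
  v0 := ρ f.v0

/-- everything in `f` happens inside the set `X` of marks, and positive pairs are edges -/
structure FS.Supp {A : Type} (f : FS A) (X : Set A) : Prop where
  v0 : f.v0 ∈ X
  ed : ∀ x y, f.ed x y → x ∈ X ∧ y ∈ X
  eqv : ∀ x y, f.eqv x y → x ∈ X ∧ y ∈ X
  pos : ∀ x y, f.pos x y → f.E2 (x, y)
  rel : ∀ a b c d, f.rel a b c d → a ∈ X ∧ b ∈ X ∧ c ∈ X ∧ d ∈ X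

/-- number of smaller marks -/
def St.rk (s : St) (x : ℕ) : ℕ := (s.X.filter (fun y => y < x)).card

/-- the type of a state over `Fin (M+1)` (marks are replaced by their ranks) -/
def St.tp (s : St) (sg : ℕ → Bool) (M : ℕ) : FS (Fin (M + 1)) :=
  (s.toFS sg).push (fun x => Fin.ofNat (M + 1) (s.rk x))

/-- `Good c f f'`: certificates are transferred from `f` to `f'`, with a loss of a factor `c` -/
def Good {k : ℕ} (c : ℕ) (f f' : FS (Fin k)) : Prop :=
  ∀ (n B : ℕ) (w : List (Fin n × Bool)), Cert f n B w → Cert f' n (c * B) w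

/-- a bound for the number of types over `Fin k` -/
def numT (k : ℕ) : ℕ := 2 ^ (3 * k ^ 2 + k ^ 4) * k

/-! ## Invariants -/

/-- basic validity -/
structure St.Valid (s : St) : Prop where
  lpos : ∀ r ∈ s.rels, 0 < r.l
  pX : ∀ r ∈ s.rels, r.p ∈ s.X ∧ r.p + r.l ∈ s.X ∧ r.q ∈ s.X ∧ r.q + r.l ∈ s.X
  pD : ∀ r ∈ s.rels, ∀ j, j < r.l → r.p + j ∈ s.D ∧ r.q + j ∈ s.D
  cl0 : ∀ r ∈ s.rels, s.cl r.p = s.cl (r.Q 0) ∧ s.cl (r.p + r.l) = s.cl (r.Q r.l)
  bdL : ∀ x ∈ s.D, x ∉ s.X → ∃ u ∈ s.D, u + 1 = x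
  bdR : ∀ x ∈ s.D, x + 1 ∉ s.X → x + 1 ∈ s.D
  v0X : s.v0 ∈ s.X

/-- relations respect the signs of the units -/
def St.Sgn (s : St) (sg : ℕ → Bool) : Prop :=
  ∀ r ∈ s.rels, ∀ j, j < r.l → (sg (r.U j) = sg (r.p + j) ↔ r.s = true)

/-- `m` is a labelling, also at all intermediate vertices -/
def St.Full (s : St) {F : Type} [Group F] (m : ℕ → F) : Prop :=
  ∀ r ∈ s.rels, ∀ j, j ≤ r.l → (m r.p)⁻¹ * m (r.p + j) = (m (r.Q 0))⁻¹ * m (r.Q j)

/-- the covering of `s` given by `m` is connected: a set `Σ` of pairs `(mark, element of F)` which contains `(v0, 1)` and is closed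
under the gluing of classes and under the edges (in both directions) contains everything -/
def St.Conn (s : St) {F : Type} [Group F] (m : ℕ → F) : Prop :=
  ∀ Sg : ℕ → F → Prop, Sg s.v0 1 →
    (∀ x y ω, x ∈ s.X → y ∈ s.X → s.cl x = s.cl y → Sg x ω → Sg y ω) →
    (∀ x y ω, s.Edge x y → (Sg x ω ↔ Sg y (ω * ((m x)⁻¹ * m y)))) →
    ∀ x ∈ s.X, ∀ ω, Sg x ω

/-- number of classes of marks -/
def St.V (s : St) : ℕ := (s.X.image s.cl).card

/-- number of edges -/
def St.E (s : St) : ℕ := (s.X ∩ s.D).card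

/-- Euler characteristic inequality -/
def St.Chi (s : St) (n : ℕ) : Prop := s.E + 1 ≤ s.V + s.rels.length + n

structure Ok (n : ℕ) (sg : ℕ → Bool) (m : ℕ → FreeGroup (Fin n)) (s : St) : Prop where
  valid : s.Valid
  sgn : s.Sgn sg
  full : s.Full m
  conn : s.Conn m
  chi : s.Chi n

/-- no isolated marks -/
def St.NoIso (s : St) : Prop := ∀ x ∈ s.X, x ∈ s.D ∨ ∃ u ∈ s.D, u + 1 = x

/-! ## Elementary moves -/

/-- the units `u ∈ [c, d)` are not in the second side of `r` and not in the sides of the relations of `L` -/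
def Free1 (r : Rel) (L : List Rel) (c d : ℕ) : Prop :=
  ∀ u, c ≤ u → u < d → ¬ (r.q ≤ u ∧ u < r.q + r.l) ∧
    ∀ t ∈ L, ¬ (t.p ≤ u ∧ u < t.p + t.l) ∧ ¬ (t.q ≤ u ∧ u < t.q + t.l)

inductive Move : St → St → Prop
  /-- add the mark `z + 1` inside an edge -/
  | addMark (s : St) (z k : ℕ) (hz : z + 1 ∉ s.X) (hD : z ∈ s.D) (hD' : z + 1 ∈ s.D) (hk : k ∉ s.X.image s.cl) :
      Move s ⟨s.D, insert (z + 1) s.X, fun u => if u = z + 1 then k else s.cl u, s.rels, s.v0⟩
  /-- cut the first relation at `j`, and glue the classes of the two marks -/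
  | cut (s : St) (r : Rel) (L : List Rel) (j : ℕ) (hs : s.rels = r :: L) (hj : 0 < j) (hj' : j < r.l)
      (h1 : r.p + j ∈ s.X) (h2 : r.Q j ∈ s.X) :
      Move s ⟨s.D, s.X, mergeCl s.cl (r.p + j) (r.Q j), r.cutL j :: r.cutR j :: L, s.v0⟩
  /-- delete an edge which is one side of exactly one relation, together with this relation -/
  | del (s : St) (r : Rel) (L : List Rel) (hs : s.rels = r :: L)
      (hm : ∀ u, r.p < u → u < r.p + r.l → u ∉ s.X)
      (hq : Free1 r L r.p (r.p + r.l)) :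
      Move s ⟨s.D.filter (fun u => ¬ (r.p ≤ u ∧ u < r.p + r.l)), s.X, s.cl, L, s.v0⟩
  /-- replace `P → Q, P → Q'` by `P → Q, Q → Q'` -/
  | comp (s : St) (r r' : Rel) (L : List Rel) (hs : s.rels = r :: r' :: L) (hp : r.p = r'.p) (hl : r.l = r'.l) :
      Move s ⟨s.D, s.X, s.cl, r :: r.comp r' :: L, s.v0⟩
  | flip (s : St) (r : Rel) (L : List Rel) (hs : s.rels = r :: L) :
      Move s ⟨s.D, s.X, s.cl, r.flip :: L, s.v0⟩
  | perm (s : St) (L : List Rel) (hs : s.rels.Perm L) : Move s ⟨s.D, s.X, s.cl, L, s.v0⟩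
  /-- forget an isolated mark whose class has another member -/
  | drop (s : St) (x0 x1 : ℕ) (h0 : x0 ∈ s.X) (h0D : x0 ∉ s.D) (h0D' : ∀ u ∈ s.D, u + 1 ≠ x0)
      (h1 : x1 ∈ s.X) (hne : x1 ≠ x0) (hcl : s.cl x1 = s.cl x0) :
      Move s ⟨s.D, s.X.erase x0, s.cl, s.rels, if s.v0 = x0 then x1 else s.v0⟩

/-- an elementary move between states with at most `M` marks -/
def Step (M : ℕ) (s t : St) : Prop := s.X.card ≤ M ∧ t.X.card ≤ M ∧ Move s t

/-- a finite sequence of such moves -/
def Chain (M : ℕ) : St → St → Prop := Relation.ReflTransGen (Step M)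

/-! ## Complexity -/

/-- the pairs of units which are glued by the relations -/
def ue (rels : List Rel) : List (ℕ × ℕ) :=
  rels.flatMap fun r => (List.range r.l).map fun j => (r.p + j, r.U j)

/-- the degree of the unit `x` -/
def deg (L : List (ℕ × ℕ)) (x : ℕ) : ℕ := (L.map Prod.fst).count x + (L.map Prod.snd).count x

/-- every nonempty subfamily has a unit of degree one -/
def Forest (L : List (ℕ × ℕ)) : Prop := ∀ L' : List (ℕ × ℕ), L'.Subperm L → L' ≠ [] → ∃ x, deg L' x = 1

/-- the sides `(start, length)` of the relations -/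
def sides (rels : List Rel) : List (ℕ × ℕ) := rels.flatMap fun r => [(r.p, r.l), (r.q, r.l)]

/-- the number of sides which cover the unit `u` -/
def cov (rels : List Rel) (u : ℕ) : ℕ := (sides rels).countP (fun t => t.1 ≤ u ∧ u < t.1 + t.2)

/-- the relations after the run `[c, d]` of the first side of `r` has been removed -/
def trimR (r : Rel) (L : List Rel) (c d : ℕ) : List Rel :=
  (if r.p < c then [r.cutL (c - r.p)] else []) ++ ((if d < r.p + r.l then [r.cutR (d - r.p)] else []) ++ L)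

/-- the number of sides in the block `v`; `bl u` = the block of the unit `u` -/
def wt (bl : ℕ → ℕ) (rels : List Rel) (v : ℕ) : ℕ := (sides rels).countP (fun t => bl t.1 = v)

/-- the complexity: the sum over the blocks of `weight - 2` (truncated) -/
def kap (bl : ℕ → ℕ) (rels : List Rel) : ℕ :=
  ∑ v ∈ ((sides rels).map (fun t => bl t.1)).toFinset, (wt bl rels v - 2)

/-- every side is inside one block -/
def BlOk (bl : ℕ → ℕ) (rels : List Rel) : Prop := ∀ t ∈ sides rels, ∀ u, t.1 ≤ u → u < t.1 + t.2 → bl u = bl t.1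

/-- the macroscopic invariants; `V`, `R`, `K` are bounds for the numbers of classes and relations and for the complexity -/
structure Mac (V R K : ℕ) (s : St) (bl : ℕ → ℕ) : Prop where
  iso : s.NoIso
  forest : Forest (ue s.rels)
  blok : BlOk bl s.rels
  kap : kap bl s.rels ≤ K
  hR : s.rels.length ≤ R
  hV : s.V ≤ V

/-- the criterion: `a i` = the image of `x_i` under an automorphism, `b i` = the image of `x_i` under its inverse -/
def Crit (n B : ℕ) (w : List (Fin n × Bool)) : Prop :=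
  ∃ a b : Fin n → List (Fin n × Bool), (∀ i, (a i).length ≤ B) ∧ (∀ i, (b i).length ≤ B) ∧
    (∀ i, ev (fun k => FreeGroup.mk (a k)) (b i) = FreeGroup.of i) ∧
    ∃ L : List (Fin n), L ≠ [] ∧ ev (fun k => FreeGroup.mk (a k)) w = (L.map FreeGroup.of).prod

end PF
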