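import Pool.Agent.H1.PF.DevA

set_option autoImplicit false

/-!
# PF Dev: the developing map (helper1)

`dev m h` = product over `k = 0, ..., len h - 1` of `(m (P (tk h (k+1)) - 1))⁻¹ * m (P (tk h (k+1)))` (the values of the units on the way from 1 to `h`).
* `dev_unit`: for `x ∈ D` and `h = mZ (x+1)`: `P h = x + 1`, `mZ x = tk h (len h - 1)`, and `tk (mZ x) (k+1) = tk h (k+1)` for `k + 1 < len h`.
* `dev_seg`: induction on `y - x`.
* `pathTo`: strong induction on `len h`, `h = mZ z`, `z ∈ X`. `h = 1`: the empty list. Otherwise `y = P h ∈ X` (`P h - 1 ∈ D`, `mZ (P h) = h ∈ MM`), `edge_left` gives an edge `(x, y)`, `mZ x ∈ MM` is a proper prefix of `h` (`D_name`), `dev (mZ y) = dev (mZ x) * ((m x)⁻¹ * m y)`.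
  The bound: the length is `< ` the number of `g ∈ MM` with `pre g h`. Positivity: for a unit `u ∈ [x, y)` the vertex `mZ (u+1)` is a prefix of `h`, and `sg u` is the sign of its last letter (`sg_D`), a letter of `h`.
* `dev_band`: strong induction on `len a`. `a = 1`: `dev 1 = 1`. `a ≠ 1`: `r = d.rel i a`, `a' = tk a (pt i a) ∈ M1 i` is shorter. `dev a = dev a' * ((m p)⁻¹ * m (p + l))` (`dev_seg`, `RelOk.mp`), and
  `dev (y i * a) = dev (y i * a') * ((m (Q 0))⁻¹ * m (Q l))` (`dev_seg` for `[q, q + l]`, in one of the two directions), and `m` is a labelling.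
* `dev_S`: induction on the word `L`, `|L| ≤ N + 1`: `L = (i, true) :: L'`: `al (mk L) = y i * al (mk L')`, both in `S`, so `al (mk L') ∈ M1 i` (`S_M1`). `L = (i, false) :: L'`: `al (mk L') = y i * al (mk L)`, so `al (mk L) ∈ M1 i`.
-/

namespace PF

namespace Dat

variable {n : ℕ} (d : Dat n)

variable {G : Type} [Group G] (m : ℕ → G)

theorem dev_band (hm : (d.st.toFS d.sg).Lab m) {i : Fin n} {a : F n} (ha : a ∈ d.M1 i) :
    d.dev m (d.y i * a) = d.dev m (d.y i) * d.dev m a := by
  induction hk : len a using Nat.strong_induction_on generalizing a with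
  | _ k ih =>
    by_cases h1 : a = 1
    · subst h1
      rw [mul_one, dev_one, mul_one]
    · have R := relOk ha h1
      obtain ⟨hp1, hp2, -⟩ := pt_spec ha h1
      set r := d.rel i a with hr
      set a' := tk a (d.pt i a) with ha'
      have hlen : len a' < k := by
        rw [ha', len_tk, ← hk]
        omega
      have hIH := ih (len a') hlen hp2 rfl
      have e0 : d.mZ r.p = a' := by
        have := R.mp 0 (Nat.zero_le _)
        simpa using this
      have el : d.mZ (r.p + r.l) = a := by
        rw [R.mp r.l le_rfl]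
        apply tk_self
        have := R.hl.1
        omega
      have f0 : d.mZ (r.Q 0) = d.y i * a' := by
        have := R.mq 0 (Nat.zero_le _)
        simpa using this
      have fl : d.mZ (r.Q r.l) = d.y i * a := by
        rw [R.mq r.l le_rfl]
        congr 1
        apply tk_self
        have := R.hl.1
        omega
      have s1 := d.dev_seg m (x := r.p) (y := r.p + r.l) (by omega) (by
        intro u hu hu'
        have := R.Dp (u - r.p) (by omega)
        rwa [Nat.add_sub_cancel' hu] at this)
      have s2 := d.dev_seg m (x := r.q) (y := r.q + r.l) (by omega) (by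
        intro u hu hu'
        have := R.Dq (u - r.q) (by omega)
        rwa [Nat.add_sub_cancel' hu] at this)
      have hlab : (m r.p)⁻¹ * m (r.p + r.l) = (m (r.Q 0))⁻¹ * m (r.Q r.l) :=
        hm _ _ _ _ ⟨r, mem_rels.mpr ⟨i, a, ha, h1, hr⟩, rfl, rfl, rfl, rfl⟩
      have s3 : d.dev m (d.mZ (r.Q r.l)) = d.dev m (d.mZ (r.Q 0)) * ((m (r.Q 0))⁻¹ * m (r.Q r.l)) := by
        unfold Rel.Q
        by_cases hs : r.s = true
        · simp only [hs, if_true, Nat.add_zero]
          exact s2
        · simp only [hs, if_false, Nat.sub_zero, Nat.sub_self, Nat.add_zero, Bool.false_eq_true]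
          rw [s2]
          group
      rw [← fl, s3, f0, hIH, ← hlab, mul_assoc]
      congr 1
      rw [← el, s1, e0]

theorem dev_S (hm : (d.st.toFS d.sg).Lab m) (L : List (Fin n × Bool)) (hL : L.length ≤ d.N + 1) :
    d.dev m (d.al (FreeGroup.mk L)) = ev (fun i => d.dev m (d.y i)) L := by
  induction L with
  | nil =>
    have : (FreeGroup.mk [] : F n) = 1 := rfl
    rw [this, map_one, dev_one, ev_nil]
  | cons x L ih =>
    obtain ⟨i, b⟩ := x
    have hL' : L.length ≤ d.N + 1 := by
      simp only [List.length_cons] at hL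
      omega
    have hmem : ∀ K : List (Fin n × Bool), K.length ≤ d.N + 1 → d.al (FreeGroup.mk K) ∈ d.S := by
      intro K hK
      unfold Dat.S
      exact List.mem_map_of_mem (PPos.mem_wordsLE.mpr hK)
    have h1 := hmem _ hL
    have h2 := hmem _ hL'
    have hIH := ih hL'
    have hcons : ∀ b : Bool, (FreeGroup.mk ((i, b) :: L) : F n) = FreeGroup.mk [(i, b)] * FreeGroup.mk L := by
      intro b
      rw [FreeGroup.mul_mk]
      rfl
    have hev : ∀ b : Bool, ev (fun i => d.dev m (d.y i)) ((i, b) :: L) =
        ev (fun i => d.dev m (d.y i)) [(i, b)] * ev (fun i => d.dev m (d.y i)) L := by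
      intro b
      rw [← ev_append]
      rfl
    cases b with
    | true =>
      have e1 : d.al (FreeGroup.mk ((i, true) :: L)) = d.y i * d.al (FreeGroup.mk L) := by
        rw [hcons, map_mul]
        rfl
      rw [e1] at h1
      rw [e1, dev_band d m hm (S_M1 h2 h1), hIH, hev, ev_single]
    | false =>
      have e1 : d.al (FreeGroup.mk L) = d.y i * d.al (FreeGroup.mk ((i, false) :: L)) := by
        rw [hcons, map_mul, ← mul_assoc]
        have : d.y i * d.al (FreeGroup.mk [(i, false)]) = 1 := by
          unfold Dat.y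
          rw [← map_mul]
          have h3 : (FreeGroup.of i : F n) * FreeGroup.mk [(i, false)] = 1 := by
            have h4 : (FreeGroup.mk [(i, false)] : F n) = (FreeGroup.of i)⁻¹ := rfl
            rw [h4, mul_inv_cancel]
          rw [h3, map_one]
        rw [this, one_mul]
      rw [e1] at h2
      have h5 := dev_band d m hm (S_M1 h1 h2)
      rw [← e1, hIH] at h5
      have h6 : ev (fun i => d.dev m (d.y i)) [(i, false)] = (d.dev m (d.y i))⁻¹ := by
        have h7 : ([(i, false)] : List (Fin n × Bool)) = FreeGroup.invRev [(i, true)] := rfl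
        rw [h7, ev_invRev, ev_single]
      rw [hev, h6, h5]
      group

end Dat

end PF
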