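import Pool.Agent.H1.PF.IValid

set_option autoImplicit false

/-!
# PF DevA: the developing map (helper1)

`dev m h` = product over `k = 0, ..., len h - 1` of `(m (P (tk h (k+1)) - 1))⁻¹ * m (P (tk h (k+1)))` (the values of the units on the way from 1 to `h`).
* `dev_unit`: for `x ∈ D` and `h = mZ (x+1)`: `P h = x + 1`, `mZ x = tk h (len h - 1)`, and `tk (mZ x) (k+1) = tk h (k+1)` for `k + 1 < len h`.
* `dev_seg`: induction on `y - x`.
* `pathTo`: strong induction on `len h`, `h = mZ z`, `z ∈ X`. `h = 1`: the empty list. Otherwise `y = P h ∈ X` (`P h - 1 ∈ D`, `mZ (P h) = h ∈ MM`), `edge_left` gives an edge `(x, y)`, `mZ x ∈ MM` is a proper prefix of `h` (`D_name`), `dev (mZ y) = dev (mZ x) * ((m x)⁻¹ * m y)`.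
  The bound: the length is `< ` the number of `g ∈ MM` with `pre g h`. Positivity: for a unit `u ∈ [x, y)` the vertex `mZ (u+1)` is a prefix of `h`, and `sg u` is the sign of its last letter (`sg_D`), a letter of `h`.
* `dev_band`: strong induction on `len a`. `a = 1`: `dev 1 = 1`. `a ≠ 1`: `r = d.rel i a`, `a' = tk a (pt i a) ∈ M1 i` is shorter. `dev a = dev a' * ((m p)⁻¹ * m (p + l))` (`dev_seg`, `RelOk.mp`), and
  `dev (y i * a) = dev (y i * a') * ((m (Q 0))⁻¹ * m (Q l))` (`dev_seg` for `[q, q + l]`, in one of the two directions), and `m` is a labelling.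
* `dev_S`: induction on the word `L`, `|L| ≤ N + 1`: `L = (i, true) :: L'`: `al (mk L) = y i * al (mk L')`, both in `S`, so `al (mk L') ∈ M1 i` (`S_M1`). `L = (i, false) :: L'`: `al (mk L') = y i * al (mk L)`, so `al (mk L) ∈ M1 i`.
-/

namespace PF

namespace Dat

variable {n : ℕ} (d : Dat n)

noncomputable def dev {G : Type} [Group G] (m : ℕ → G) (h : F n) : G :=
  ((List.range (len h)).map fun k => (m (d.P (tk h (k + 1)) - 1))⁻¹ * m (d.P (tk h (k + 1)))).prod

variable {G : Type} [Group G] (m : ℕ → G)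

theorem dev_one : d.dev m 1 = 1 := by
  unfold dev
  rw [(len_eq_zero (1 : F n)).mpr rfl]
  rfl

theorem dev_unit {x : ℕ} (hx : x ∈ d.D) : d.dev m (d.mZ (x + 1)) = d.dev m (d.mZ x) * ((m x)⁻¹ * m (x + 1)) := by
  obtain ⟨_, _, h3, h4, h5, _⟩ := D_name hx
  have e : d.dev m (d.mZ (x + 1)) = ((List.range (len (d.mZ x) + 1)).map fun k =>
      (m (d.P (tk (d.mZ (x + 1)) (k + 1)) - 1))⁻¹ * m (d.P (tk (d.mZ (x + 1)) (k + 1)))).prod := by
    unfold dev
    rw [h4]
  rw [e, List.range_succ, List.map_append, List.prod_append]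
  congr 1
  · unfold dev
    congr 1
    apply List.map_congr_left
    intro k hk
    rw [List.mem_range] at hk
    have h6 : tk (d.mZ x) (k + 1) = tk (d.mZ (x + 1)) (k + 1) := by
      conv_lhs => rw [h5]
      rw [tk_tk]
      congr 1
      omega
    rw [h6]
  · have h6 : tk (d.mZ (x + 1)) (len (d.mZ x) + 1) = d.mZ (x + 1) := tk_self (by omega)
    rw [List.map_cons, List.map_nil, List.prod_cons, List.prod_nil, mul_one, h6, h3, Nat.add_sub_cancel]

theorem DevA_seg_aux (x : ℕ) : ∀ j : ℕ, (∀ u, x ≤ u → u < x + j → u ∈ d.D) →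
    d.dev m (d.mZ (x + j)) = d.dev m (d.mZ x) * ((m x)⁻¹ * m (x + j)) := by
  intro j
  induction j with
  | zero => intro _; rw [Nat.add_zero, inv_mul_cancel, mul_one]
  | succ j ih =>
    intro hD
    have h1 := ih (fun u h2 h3 => hD u h2 (by omega))
    have h2 := dev_unit d m (hD (x + j) (by omega) (by omega))
    rw [← add_assoc, h2, h1, mul_assoc, mul_assoc, mul_inv_cancel_left]

theorem dev_seg {x y : ℕ} (hxy : x ≤ y) (hD : ∀ u, x ≤ u → u < y → u ∈ d.D) :
    d.dev m (d.mZ y) = d.dev m (d.mZ x) * ((m x)⁻¹ * m y) := by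
  obtain ⟨j, rfl⟩ := Nat.exists_eq_add_of_le hxy
  exact DevA_seg_aux d m x j hD

theorem DevA_pre (x : ℕ) : ∀ j : ℕ, (∀ u, x ≤ u → u < x + j → u ∈ d.D) →
    pre (d.mZ x) (d.mZ (x + j)) ∧ len (d.mZ (x + j)) = len (d.mZ x) + j := by
  intro j
  induction j with
  | zero => intro _; exact ⟨pre_rfl _, rfl⟩
  | succ j ih =>
    intro hD
    obtain ⟨h1, h1'⟩ := ih (fun u h2 h3 => hD u h2 (by omega))
    obtain ⟨_, _, _, h4, h5, _⟩ := D_name (hD (x + j) (by omega) (by omega))
    refine ⟨pre_trans h1 ?_, ?_⟩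
    · rw [← add_assoc, pre_iff]
      exact h5.symm
    · rw [← add_assoc, h4, h1']
      omega

theorem DevA_path (l : ℕ) : ∀ z : ℕ, z ∈ d.X → len (d.mZ z) = l → ∃ L : List (ℕ × ℕ), (∀ e ∈ L, d.st.Edge e.1 e.2) ∧
    (∃ A : Finset (F n), L.length ≤ A.card ∧ (∀ g ∈ A, g ∈ d.MM ∧ pre g (d.mZ z))) ∧
    (∀ (G : Type) [Group G] (m : ℕ → G), val m L = d.dev m (d.mZ z)) ∧
    ((∀ a ∈ (d.mZ z).toWord, a.2 = true) → ∀ e ∈ L, ∀ u, e.1 ≤ u → u < e.2 → d.sg u = true) := by
  classical
  induction l using Nat.strong_induction_on with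
  | _ l ih =>
    intro z hz hl
    obtain ⟨_, hMM⟩ := (mem_X d).mp hz
    by_cases h1 : d.mZ z = 1
    · refine ⟨[], fun e he => absurd he List.not_mem_nil, ⟨∅, le_rfl, fun g hg => absurd hg (Finset.notMem_empty g)⟩,
        fun G _ m => ?_, fun _ e he => absurd he List.not_mem_nil⟩
      rw [h1, dev_one, val_nil]
    · have hP : d.PreS (d.mZ z) := MM_preS hMM
      obtain ⟨hP1, _, _⟩ := P1_div hP h1
      have hD := P1_mem hP h1
      have hmy : d.mZ (d.P (d.mZ z)) = d.mZ z := mZ_P hP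
      have hyy : d.P (d.mZ z) - 1 + 1 = d.P (d.mZ z) := by omega
      have hyX : d.P (d.mZ z) ∈ d.X := by
        rw [mem_X]
        exact ⟨Or.inr ⟨_, hD, hyy⟩, by rw [hmy]; exact hMM⟩
      obtain ⟨x, hx⟩ := edge_left (valid_st d) (u := d.P (d.mZ z) - 1) (by rw [hyy]; exact hyX) hD
      rw [hyy] at hx
      set y := d.P (d.mZ z) with hy
      obtain ⟨hxX, _, hxy, hxD, _⟩ := hx
      obtain ⟨j, hj⟩ := Nat.exists_eq_add_of_le hxy.le
      have hpre := DevA_pre d x j (fun u h2 h3 => hxD u h2 (by omega))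
      rw [← hj, hmy] at hpre
      have hxX' : x ∈ d.X := hxX
      obtain ⟨L, hL1, ⟨A, hA1, hA2⟩, hL3, hL4⟩ := ih (len (d.mZ x)) (by omega) x hxX' rfl
      refine ⟨L ++ [(x, y)], ?_, ⟨insert (d.mZ z) A, ?_, ?_⟩, ?_, ?_⟩
      · intro e he
        rcases List.mem_append.mp he with h | h
        · exact hL1 e h
        · rw [List.mem_singleton] at h
          subst h
          exact ⟨hxX, hyX, hxy, hxD, by assumption⟩
      · have hnot : d.mZ z ∉ A := by
          intro h
          have h2 := pre_len (hA2 _ h).2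
          omega
        rw [Finset.card_insert_of_notMem hnot, List.length_append, List.length_singleton]
        omega
      · intro g hg
        rcases Finset.mem_insert.mp hg with rfl | h
        · exact ⟨hMM, pre_rfl _⟩
        · exact ⟨(hA2 g h).1, pre_trans (hA2 g h).2 hpre.1⟩
      · intro G _ m
        rw [val_append, hL3 G m, val_singleton]
        have h2 := dev_seg d m hxy.le hxD
        rw [hmy] at h2
        exact h2.symm
      · intro hpos e he u hu1 hu2
        rcases List.mem_append.mp he with h | h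
        · refine hL4 (fun a ha => hpos a ?_) e h u hu1 hu2
          exact hpre.1.subset ha
        · rw [List.mem_singleton] at h
          subst h
          have huD := hxD u hu1 hu2
          obtain ⟨a, ha, hsa⟩ := sg_D huD
          obtain ⟨j', hj'⟩ := Nat.exists_eq_add_of_le (show u + 1 ≤ y from hu2)
          have hpre' := DevA_pre d (u + 1) j' (fun v h2 h3 => hxD v (by dsimp only at hu1; omega) (by omega))
          rw [← hj', hmy] at hpre'
          rw [hsa]
          exact hpos a (hpre'.1.subset (List.mem_of_getElem? ha))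

/-- a list of edges from 1 to `h` -/
theorem pathTo {z : ℕ} (hz : z ∈ d.X) : ∃ L : List (ℕ × ℕ), (∀ e ∈ L, d.st.Edge e.1 e.2) ∧ L.length ≤ d.MM.card ∧
    (∀ (G : Type) [Group G] (m : ℕ → G), val m L = d.dev m (d.mZ z)) ∧
    ((∀ a ∈ (d.mZ z).toWord, a.2 = true) → ∀ e ∈ L, ∀ u, e.1 ≤ u → u < e.2 → d.sg u = true) := by
  obtain ⟨L, h1, ⟨A, hA1, hA2⟩, h3, h4⟩ := DevA_path d _ z hz rfl
  exact ⟨L, h1, hA1.trans (Finset.card_le_card (fun g hg => (hA2 g hg).1)), h3, h4⟩

end Dat

end PF
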