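import Pool.Agent.H1.PF.Mv
import Pool.Agent.H1.PF.Cov

set_option autoImplicit false

/-!
# PF Front: bring a side to the front (helper1)

`t` is a side of `s.rels`, so there is `r ∈ s.rels` with `t = (r.p, r.l)` or `t = (r.q, r.l)`. `Move.perm` brings `r` to the front, and in the second case `Move.flip` exchanges the two sides.
These moves change neither `D`, `X`, `cl`, `v0`, nor the number of relations (`|X| ≤ M` is a hypothesis).
-/

namespace PF

private structure Front_R (n : ℕ) (sg : ℕ → Bool) (m : ℕ → FreeGroup (Fin n)) (M V R K : ℕ) (bl : ℕ → ℕ)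
    (s s' : St) : Prop where
  chain : Chain M s s'
  ok : Ok n sg m s'
  mac : Mac V R K s' bl
  hD : s'.D = s.D
  hX : s'.X = s.X
  hV : s'.V = s.V
  hlen : s'.rels.length = s.rels.length
  hcov : ∀ u, cov s'.rels u = cov s.rels u
  hwt : ∀ b v, wt b s'.rels v = wt b s.rels v
  hkap : ∀ b, kap b s'.rels = kap b s.rels

private theorem Front_trans {n : ℕ} {sg : ℕ → Bool} {m : ℕ → FreeGroup (Fin n)} {M V R K : ℕ} {bl : ℕ → ℕ}
    {s s' s'' : St} (h : Front_R n sg m M V R K bl s s') (h' : Front_R n sg m M V R K bl s' s'') :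
    Front_R n sg m M V R K bl s s'' where
  chain := Relation.ReflTransGen.trans h.chain h'.chain
  ok := h'.ok
  mac := h'.mac
  hD := h'.hD.trans h.hD
  hX := h'.hX.trans h.hX
  hV := h'.hV.trans h.hV
  hlen := h'.hlen.trans h.hlen
  hcov := fun u => (h'.hcov u).trans (h.hcov u)
  hwt := fun b v => (h'.hwt b v).trans (h.hwt b v)
  hkap := fun b => (h'.hkap b).trans (h.hkap b)

private theorem Front_perm {n : ℕ} {sg : ℕ → Bool} {m : ℕ → FreeGroup (Fin n)} {M V R K : ℕ} {s : St} {bl : ℕ → ℕ}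
    (hOk : Ok n sg m s) (hMac : Mac V R K s bl) (hM : s.X.card ≤ M) {L : List Rel} (h : s.rels.Perm L) :
    Front_R n sg m M V R K bl s ⟨s.D, s.X, s.cl, L, s.v0⟩ where
  chain := Relation.ReflTransGen.single ⟨hM, hM, Move.perm s L h⟩
  ok := ok_move hOk (Move.perm s L h)
  mac := {
    iso := hMac.iso
    forest := forest_perm h hMac.forest
    blok := blok_perm h hMac.blok
    kap := le_of_eq_of_le (kap_perm h bl).symm hMac.kap
    hR := le_of_eq_of_le h.length_eq.symm hMac.hR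
    hV := hMac.hV }
  hD := rfl
  hX := rfl
  hV := rfl
  hlen := h.length_eq.symm
  hcov := fun u => (cov_perm h u).symm
  hwt := fun b v => (wt_perm h b v).symm
  hkap := fun b => (kap_perm h b).symm

private theorem Front_flip {n : ℕ} {sg : ℕ → Bool} {m : ℕ → FreeGroup (Fin n)} {M V R K : ℕ} {s : St} {bl : ℕ → ℕ}
    (hOk : Ok n sg m s) (hMac : Mac V R K s bl) (hM : s.X.card ≤ M) {r : Rel} {L : List Rel} (h : s.rels = r :: L) :
    Front_R n sg m M V R K bl s ⟨s.D, s.X, s.cl, r.flip :: L, s.v0⟩ where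
  chain := Relation.ReflTransGen.single ⟨hM, hM, Move.flip s r L h⟩
  ok := ok_move hOk (Move.flip s r L h)
  mac := {
    iso := hMac.iso
    forest := forest_flip (h ▸ hMac.forest)
    blok := blok_flip (h ▸ hMac.blok)
    kap := by
      have h1 := hMac.kap
      rw [h] at h1
      show kap bl (r.flip :: L) ≤ K
      rw [kap_flip]
      exact h1
    hR := by
      have h1 := hMac.hR
      rw [h] at h1
      exact h1
    hV := hMac.hV }
  hD := rfl
  hX := rfl
  hV := rfl
  hlen := by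
    rw [h]
    rfl
  hcov := fun u => by
    rw [h]
    exact cov_flip r L u
  hwt := fun b v => by
    rw [h]
    exact wt_flip r L b v
  hkap := fun b => by
    rw [h]
    exact kap_flip r L b

private theorem Front_mem {rels : List Rel} {t : ℕ × ℕ} (ht : t ∈ sides rels) :
    ∃ r ∈ rels, t = (r.p, r.l) ∨ t = (r.q, r.l) := by
  unfold sides at ht
  obtain ⟨r, hr, h⟩ := List.mem_flatMap.1 ht
  refine ⟨r, hr, ?_⟩
  rcases List.mem_cons.1 h with h | h
  · exact Or.inl h
  · right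
    rcases List.mem_cons.1 h with h | h
    · exact h
    · exact absurd h List.not_mem_nil

theorem front {n : ℕ} {sg : ℕ → Bool} {m : ℕ → FreeGroup (Fin n)} {M V R K : ℕ} {s : St} {bl : ℕ → ℕ} (hOk : Ok n sg m s)
    (hMac : Mac V R K s bl) (hM : s.X.card ≤ M) {t : ℕ × ℕ} (ht : t ∈ sides s.rels) :
    ∃ s' r L, Chain M s s' ∧ Ok n sg m s' ∧ Mac V R K s' bl ∧ s'.D = s.D ∧ s'.X = s.X ∧ s'.V = s.V ∧ s'.rels = r :: L ∧
      r.p = t.1 ∧ r.l = t.2 ∧ s'.rels.length = s.rels.length ∧ (∀ u, cov s'.rels u = cov s.rels u) ∧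
      (∀ b v, wt b s'.rels v = wt b s.rels v) ∧ (∀ b, kap b s'.rels = kap b s.rels) := by
  obtain ⟨r, hr, hrt⟩ := Front_mem ht
  have hp : s.rels.Perm (r :: s.rels.erase r) := List.perm_cons_erase hr
  have h1 := Front_perm hOk hMac hM hp
  rcases hrt with hrt | hrt
  · subst hrt
    exact ⟨_, r, s.rels.erase r, h1.chain, h1.ok, h1.mac, h1.hD, h1.hX, h1.hV, rfl, rfl, rfl, h1.hlen, h1.hcov,
      h1.hwt, h1.hkap⟩
  · subst hrt
    have h2 := Front_trans h1 (Front_flip h1.ok h1.mac hM rfl)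
    exact ⟨_, r.flip, s.rels.erase r, h2.chain, h2.ok, h2.mac, h2.hD, h2.hX, h2.hV, rfl, rfl, rfl, h2.hlen, h2.hcov,
      h2.hwt, h2.hkap⟩

/-- the same for two sides with the same start and the same length, in different relations -/
theorem front2 {n : ℕ} {sg : ℕ → Bool} {m : ℕ → FreeGroup (Fin n)} {M V R K : ℕ} {s : St} {bl : ℕ → ℕ} (hOk : Ok n sg m s)
    (hMac : Mac V R K s bl) (hM : s.X.card ≤ M) {r : Rel} {L : List Rel} (hs : s.rels = r :: L) {t : ℕ × ℕ} (ht : t ∈ sides L) :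
    ∃ s' r' L', Chain M s s' ∧ Ok n sg m s' ∧ Mac V R K s' bl ∧ s'.D = s.D ∧ s'.X = s.X ∧ s'.V = s.V ∧ s'.rels = r :: r' :: L' ∧
      r'.p = t.1 ∧ r'.l = t.2 ∧ s'.rels.length = s.rels.length ∧ (∀ u, cov s'.rels u = cov s.rels u) ∧
      (∀ b v, wt b s'.rels v = wt b s.rels v) ∧ (∀ b, kap b s'.rels = kap b s.rels) := by
  obtain ⟨r', hr, hrt⟩ := Front_mem ht
  have hp : L.Perm (r' :: L.erase r') := List.perm_cons_erase hr
  have hp1 : s.rels.Perm (r :: r' :: L.erase r') := by
    rw [hs]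
    exact hp.cons r
  have hp2 : s.rels.Perm (r' :: r :: L.erase r') := hp1.trans (List.Perm.swap r' r _)
  rcases hrt with hrt | hrt
  · subst hrt
    have h1 := Front_perm hOk hMac hM hp1
    exact ⟨_, r', L.erase r', h1.chain, h1.ok, h1.mac, h1.hD, h1.hX, h1.hV, rfl, rfl, rfl, h1.hlen, h1.hcov,
      h1.hwt, h1.hkap⟩
  · subst hrt
    have h1 := Front_perm hOk hMac hM hp2
    have h2 := Front_trans h1 (Front_flip h1.ok h1.mac hM rfl)
    have h3 := Front_trans h2 (Front_perm h2.ok h2.mac hM (List.Perm.swap r r'.flip (L.erase r')))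
    exact ⟨_, r'.flip, L.erase r', h3.chain, h3.ok, h3.mac, h3.hD, h3.hX, h3.hV, rfl, rfl, rfl, h3.hlen, h3.hcov,
      h3.hwt, h3.hkap⟩

end PF
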