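import Pool.Agent.H1.PF.HopfA

set_option autoImplicit false

/-!
# PF Hopf: a surjective endomorphism of a free group of finite rank is an automorphism (helper1)

`FreeGroup (Fin n)` is residually finite: a reduced word `w = a_1 ... a_k ≠ 1` acts nontrivially on `{0, ..., k}`: choose permutations `σ_i` of `Fin (k+1)` such that `σ_i` maps `j - 1` to `j` if `a_j = x_i` and `j` to `j - 1` if
`a_j = x_i⁻¹` (these are partial injections because `w` is reduced; they extend to permutations); the product of the letters (in a suitable order) maps `0` to `k`.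
(A proof of residual finiteness may be in the library already; any proof is fine. Alternative: `FreeGroup` embeds into a product of finite groups, or use Nielsen reduction.)
Let `φ` be a surjective endomorphism, `φ w = 1`, `w ≠ 1`, and `ρ : F → Q` a homomorphism to a finite group with `ρ w ≠ 1`. The map `ψ ↦ ψ ∘ φ` on the finite set `Hom(F, Q)` is injective (`φ` surjective), so surjective: `ρ = ψ ∘ φ`, `ρ w = ψ (φ w) = 1`, contradiction.

`hopf`: `ev (fun k => mk (a k)) (b i) = of i` says that the endomorphism `φ = lift (fun k => mk (a k))` is surjective. `crit_sound`: `α = φ`, `α (mk w)` is a nonempty product of generators.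
-/

namespace PF

private theorem Hopf_prod_mem {n : ℕ} : ∀ L : List (Fin n), L ≠ [] →
    (L.map (FreeGroup.of : Fin n → FreeGroup (Fin n))).prod ∈
      Subsemigroup.closure (Set.range (FreeGroup.of : Fin n → FreeGroup (Fin n))) := by
  intro L
  induction L with
  | nil => intro h; exact absurd rfl h
  | cons x L ih =>
    intro _
    rw [List.map_cons, List.prod_cons]
    rcases eq_or_ne L [] with rfl | hL
    · rw [List.map_nil, List.prod_nil, mul_one]
      exact Subsemigroup.subset_closure ⟨x, rfl⟩
    · exact mul_mem (Subsemigroup.subset_closure ⟨x, rfl⟩) (ih hL)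

theorem hopf {n : ℕ} (a b : Fin n → List (Fin n × Bool)) (h : ∀ i, ev (fun k => FreeGroup.mk (a k)) (b i) = FreeGroup.of i) :
    ∃ α : FreeGroup (Fin n) ≃* FreeGroup (Fin n), ∀ w, α (FreeGroup.mk w) = ev (fun k => FreeGroup.mk (a k)) w := by
  let φ : FreeGroup (Fin n) →* FreeGroup (Fin n) := FreeGroup.lift (fun k => FreeGroup.mk (a k))
  have hs : Function.Surjective φ := by
    rw [← MonoidHom.range_eq_top, eq_top_iff, ← FreeGroup.closure_range_of, Subgroup.closure_le]
    rintro _ ⟨i, rfl⟩
    exact ⟨FreeGroup.mk (b i), h i⟩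
  exact ⟨MulEquiv.ofBijective φ ⟨hopfian φ hs, hs⟩, fun w => rfl⟩

theorem crit_sound {n B : ℕ} {w : List (Fin n × Bool)} (h : Crit n B w) :
    ∃ α : FreeGroup (Fin n) ≃* FreeGroup (Fin n), α (FreeGroup.mk w) ∈
      Subsemigroup.closure (Set.range (FreeGroup.of : Fin n → FreeGroup (Fin n))) := by
  obtain ⟨a, b, _, _, hab, L, hL, hw⟩ := h
  obtain ⟨α, hα⟩ := hopf a b hab
  refine ⟨α, ?_⟩
  rw [hα, hw]
  exact Hopf_prod_mem L hL

end PF
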