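import Pool.Agent.H1.PF.Kp

set_option autoImplicit false

/-!
# PF KpDev: the classes of the vertices (helper1)

`kp` is obtained from the injective map `h ↦ MM.toList.idxOf h` on `MM` by gluing the pairs `(a, y i * a)`, `(i, a) ∈ prs` (`foldl` of `mergeK`).
* `mergeK κ a b h = mergeK κ a b h'` if `κ h = κ h'`; `mergeK κ a b a = mergeK κ a b b`. So `kp (y i * a) = kp a` for all `(i, a) ∈ prs` (induction along the list, equalities are preserved by later steps).
* `kp_card`: one step decreases the number of values on a finite set by at most one: the image of `A` under `mergeK κ a b` contains the image under `κ` except possibly `κ a`.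
* `kp_dev` (certificate for the classes): by induction on the list of pairs, starting with the end of the list (`List.foldl_append`, `List.reverseRecOn`): there is `t : F n → List (Fin n × Bool)`, `t 1 = []`, `2 * |t h| + 1 ≤ 3 ^ (number of pairs)`,
  such that for every group `G`, `f : Fin n → G`, `dv : F n → G` with `dv 1 = 1` and `dv (y i * a) = f i * dv a` for the pairs, there is `g`, constant on the classes in `MM`, `g 1 = 1`, with `dv h = ev f (t h) * g h` for `h ∈ MM`.
  No pairs: `t = []`, `g = dv` (`idxOf` is injective on the members of the list). One more pair `(i, a)`, `b = y i * a` (`a, b ∈ MM`), `κ` = the classes before. If `κ a = κ b` nothing changes.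
  Otherwise: `ev f (t b) * g b = f i * ev f (t a) * g a`.
  - If `κ 1 ≠ κ a`: `g a = ev f De * g b`, `De = invRev (t a) ++ [(i, false)] ++ t b`. For `h` with `κ h = κ a`: new `g h := g b`, new `t h := t h ++ De`.
  - If `κ 1 = κ a`: `g b = ev f De * g a`, `De = invRev (t b) ++ [(i, true)] ++ t a`. For `h` with `κ h = κ b`: new `g h := g a`, new `t h := t h ++ De`.
  Lengths: `3 T + 1`.
-/

namespace PF

namespace Dat

variable {n : ℕ} (d : Dat n)

/-- the statement for a list of pairs -/
def KpDev_P (l : List (Fin n × F n)) : Prop :=
  ∃ t : F n → List (Fin n × Bool), t 1 = [] ∧ (∀ h, 2 * (t h).length + 1 ≤ 3 ^ l.length) ∧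
    ∀ (G : Type) [Group G] (f : Fin n → G) (dv : F n → G), dv 1 = 1 → (∀ p ∈ l, dv (d.y p.1 * p.2) = f p.1 * dv p.2) →
      ∃ g : F n → G, (∀ h ∈ d.MM, ∀ h' ∈ d.MM,
        l.foldl (fun κ p => mergeK κ p.2 (d.y p.1 * p.2)) (fun h => d.MM.toList.idxOf h) h =
        l.foldl (fun κ p => mergeK κ p.2 (d.y p.1 * p.2)) (fun h => d.MM.toList.idxOf h) h' → g h = g h') ∧
        g 1 = 1 ∧ ∀ h ∈ d.MM, dv h = ev f (t h) * g h

theorem KpDev_nil : d.KpDev_P [] := by
  refine ⟨fun _ => [], rfl, fun h => by simp, ?_⟩
  intro G _ f dv h1 _
  refine ⟨dv, ?_, h1, ?_⟩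
  · intro h hh h' _ e
    have hx' : h ∈ d.MM.toList := Finset.mem_toList.2 hh
    rw [(List.idxOf_inj hx').1 e]
  · intro h _
    rw [ev_nil, one_mul]

theorem KpDev_step (l : List (Fin n × F n)) (p : Fin n × F n) (ha : p.2 ∈ d.MM) (hb : d.y p.1 * p.2 ∈ d.MM)
    (ih : d.KpDev_P l) : d.KpDev_P (l ++ [p]) := by
  obtain ⟨i, a⟩ := p
  obtain ⟨t, ht1, htl, hG⟩ := ih
  set κ : F n → ℕ := l.foldl (fun κ p => mergeK κ p.2 (d.y p.1 * p.2)) (fun h => d.MM.toList.idxOf h) with hκ
  set b : F n := d.y i * a with hbdef
  have hfold : (l ++ [(i, a)]).foldl (fun κ p => mergeK κ p.2 (d.y p.1 * p.2)) (fun h => d.MM.toList.idxOf h) = mergeK κ a b := by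
    rw [List.foldl_append, List.foldl_cons, List.foldl_nil, ← hκ]
  have hlen : (l ++ [(i, a)]).length = l.length + 1 := by simp
  have hpow : 3 ^ (l.length + 1) = 3 * 3 ^ l.length := by rw [pow_succ, mul_comm]
  unfold KpDev_P
  rw [hfold, hlen, hpow]
  have ha' : a ∈ d.MM := ha
  have hb' : b ∈ d.MM := hb
  by_cases hab : κ a = κ b
  · have hm : mergeK κ a b = κ := by
      funext h
      unfold mergeK
      by_cases e : κ h = κ a
      · rw [if_pos e, e, hab]
      · rw [if_neg e]
    rw [hm]
    refine ⟨t, ht1, fun h => by have := htl h; omega, ?_⟩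
    intro G _ f dv h1 hp
    exact hG G f dv h1 (fun p hp' => hp p (List.mem_append_left _ hp'))
  · by_cases h1a : κ 1 = κ a
    · refine ⟨fun h => if κ h = κ b then t h ++ (FreeGroup.invRev (t b) ++ ([(i, true)] ++ t a)) else t h, ?_, ?_, ?_⟩
      · have : ¬ κ 1 = κ b := by rw [h1a]; exact hab
        show (if κ 1 = κ b then _ else t 1) = []
        rw [if_neg this, ht1]
      · intro h
        show 2 * (if κ h = κ b then t h ++ (FreeGroup.invRev (t b) ++ ([(i, true)] ++ t a)) else t h).length + 1 ≤ _
        have e1 := htl h
        have e2 := htl a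
        have e3 := htl b
        split_ifs with e
        · simp only [List.length_append, FreeGroup.invRev_length, List.length_cons, List.length_nil]
          omega
        · omega
      · intro G _ f dv h1 hp
        obtain ⟨g, hg1, hg2, hg3⟩ := hG G f dv h1 (fun p hp' => hp p (List.mem_append_left _ hp'))
        have hpair : dv b = f i * dv a := hp (i, a) (by simp)
        have hgb : g b = ev f (FreeGroup.invRev (t b) ++ ([(i, true)] ++ t a)) * g a := by
          rw [ev_append, ev_append, ev_invRev, ev_single]
          have e1 := hg3 a ha'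
          have e2 := hg3 b hb'
          rw [hpair, e1] at e2
          rw [mul_assoc, mul_assoc, e2, inv_mul_cancel_left]
        refine ⟨fun h => if κ h = κ b then g a else g h, ?_, ?_, ?_⟩
        · intro h hh h' hh' e
          show (if κ h = κ b then g a else g h) = (if κ h' = κ b then g a else g h')
          unfold mergeK at e
          by_cases c1 : κ h = κ b
          · rw [if_pos c1]
            by_cases c2 : κ h' = κ b
            · rw [if_pos c2]
            · rw [if_neg c2]
              have c3 : ¬ κ h = κ a := by rw [c1]; exact fun h => hab h.symm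
              rw [if_neg c3, c1] at e
              by_cases c4 : κ h' = κ a
              · exact (hg1 h' hh' a ha' c4).symm
              · rw [if_neg c4] at e
                exact absurd e.symm c2
          · rw [if_neg c1]
            by_cases c3 : κ h = κ a
            · rw [if_pos c3] at e
              have c5 : g h = g a := hg1 h hh a ha' c3
              rw [c5]
              by_cases c2 : κ h' = κ b
              · rw [if_pos c2]
              · rw [if_neg c2]
                by_cases c4 : κ h' = κ a
                · exact (hg1 h' hh' a ha' c4).symm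
                · rw [if_neg c4] at e
                  exact absurd e.symm c2
            · rw [if_neg c3] at e
              by_cases c4 : κ h' = κ a
              · rw [if_pos c4] at e
                exact absurd e c1
              · rw [if_neg c4] at e
                rw [if_neg (by rw [← e]; exact c1)]
                exact hg1 h hh h' hh' e
        · have : ¬ κ 1 = κ b := by rw [h1a]; exact hab
          show (if κ 1 = κ b then g a else g 1) = 1
          rw [if_neg this, hg2]
        · intro h hh
          show dv h = ev f (if κ h = κ b then t h ++ (FreeGroup.invRev (t b) ++ ([(i, true)] ++ t a)) else t h) *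
            (if κ h = κ b then g a else g h)
          by_cases c : κ h = κ b
          · rw [if_pos c, if_pos c, ev_append, mul_assoc, ← hgb, ← hg1 h hh b hb' c]
            exact hg3 h hh
          · rw [if_neg c, if_neg c]
            exact hg3 h hh
    · refine ⟨fun h => if κ h = κ a then t h ++ (FreeGroup.invRev (t a) ++ (FreeGroup.invRev [(i, true)] ++ t b)) else t h, ?_, ?_, ?_⟩
      · show (if κ 1 = κ a then _ else t 1) = []
        rw [if_neg h1a, ht1]
      · intro h
        show 2 * (if κ h = κ a then t h ++ (FreeGroup.invRev (t a) ++ (FreeGroup.invRev [(i, true)] ++ t b)) else t h).length + 1 ≤ _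
        have e1 := htl h
        have e2 := htl a
        have e3 := htl b
        split_ifs with e
        · simp only [List.length_append, FreeGroup.invRev_length, List.length_cons, List.length_nil]
          omega
        · omega
      · intro G _ f dv h1 hp
        obtain ⟨g, hg1, hg2, hg3⟩ := hG G f dv h1 (fun p hp' => hp p (List.mem_append_left _ hp'))
        have hpair : dv b = f i * dv a := hp (i, a) (by simp)
        have hga : g a = ev f (FreeGroup.invRev (t a) ++ (FreeGroup.invRev [(i, true)] ++ t b)) * g b := by
          rw [ev_append, ev_append, ev_invRev, ev_invRev, ev_single]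
          have e1 := hg3 a ha'
          have e2 := hg3 b hb'
          rw [hpair, e1] at e2
          rw [mul_assoc, mul_assoc, ← e2, inv_mul_cancel_left, inv_mul_cancel_left]
        refine ⟨fun h => if κ h = κ a then g b else g h, ?_, ?_, ?_⟩
        · intro h hh h' hh' e
          show (if κ h = κ a then g b else g h) = (if κ h' = κ a then g b else g h')
          unfold mergeK at e
          by_cases c1 : κ h = κ a
          · rw [if_pos c1] at e ⊢
            by_cases c2 : κ h' = κ a
            · rw [if_pos c2]
            · rw [if_neg c2] at e ⊢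
              exact hg1 b hb' h' hh' e
          · rw [if_neg c1] at e ⊢
            by_cases c2 : κ h' = κ a
            · rw [if_pos c2] at e ⊢
              exact hg1 h hh b hb' e
            · rw [if_neg c2] at e ⊢
              exact hg1 h hh h' hh' e
        · show (if κ 1 = κ a then g b else g 1) = 1
          rw [if_neg h1a, hg2]
        · intro h hh
          show dv h = ev f (if κ h = κ a then t h ++ (FreeGroup.invRev (t a) ++ (FreeGroup.invRev [(i, true)] ++ t b)) else t h) *
            (if κ h = κ a then g b else g h)
          by_cases c : κ h = κ a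
          · rw [if_pos c, if_pos c, ev_append, mul_assoc, ← hga, ← hg1 h hh a ha' c]
            exact hg3 h hh
          · rw [if_neg c, if_neg c]
            exact hg3 h hh

theorem KpDev_all (l : List (Fin n × F n)) (hl : ∀ p ∈ l, p.2 ∈ d.MM ∧ d.y p.1 * p.2 ∈ d.MM) : d.KpDev_P l := by
  induction l using List.reverseRecOn with
  | nil => exact d.KpDev_nil
  | append_singleton l p ih =>
    have h1 := hl p (by simp)
    exact d.KpDev_step l p h1.1 h1.2 (ih (fun q hq => hl q (List.mem_append_left _ hq)))

theorem kp_dev : ∃ t : F n → List (Fin n × Bool), t 1 = [] ∧ (∀ h, 2 * (t h).length + 1 ≤ 3 ^ d.prs.length) ∧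
    ∀ (G : Type) [Group G] (f : Fin n → G) (dv : F n → G), dv 1 = 1 → (∀ i, ∀ a ∈ d.M1 i, dv (d.y i * a) = f i * dv a) →
      ∃ g : F n → G, (∀ h ∈ d.MM, ∀ h' ∈ d.MM, d.kp h = d.kp h' → g h = g h') ∧ g 1 = 1 ∧ ∀ h ∈ d.MM, dv h = ev f (t h) * g h := by
  obtain ⟨t, h1, h2, h3⟩ := d.KpDev_all d.prs (by
    rintro ⟨i, a⟩ hp
    exact M1_MM ((mem_prs d).1 hp))
  refine ⟨t, h1, h2, ?_⟩
  intro G _ f dv hdv hpair
  exact h3 G f dv hdv (by
    rintro ⟨i, a⟩ hp
    exact hpair i a ((mem_prs d).1 hp))

end Dat

end PF
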