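import Pool.Agent.H1.PF.Dev
import Pool.Agent.H1.PF.KpDev

set_option autoImplicit false

/-!
# PF ICert: the certificate of the initial state (helper1)

For every `i`: `y i ≠ 1`, `z = P (y i) ∈ X` (`y i ∈ S ⊆ M0 ⊆ MM`, `P (y i) - 1 ∈ D`), `mZ z = y i`; `W i` = the list of `pathTo`, `val m (W i) = dev m (y i)`, length `≤ |MM|`.
`lam x y = invRev (t (mZ x)) ++ t (mZ y)` with `t` from `kp_dev`. For a labelling `m` apply `kp_dev` with `f i = dev m (y i)`, `dv = dev m` (`dev_one`, `dev_band`): `g' x := g (mZ x)`. For an edge `(x, y)`: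
`(m x)⁻¹ * m y = (dev (mZ x))⁻¹ * dev (mZ y)` (`dev_seg`) `= (g (mZ x))⁻¹ * (ev f (t (mZ x)))⁻¹ * ev f (t (mZ y)) * g (mZ y)`. `mZ x ∈ MM` for `x ∈ X`. `mZ v0 = 1`.
Length: `2 |t h| + 1 ≤ 3 ^ |prs|`, so `|lam| ≤ 3 ^ |prs| ≤ 3 ^ T`, `T = bdT n N`; `|MM| ≤ T` (hypothesis of the statement `hT`).
`EqP`: `w' = al (mk w) ≠ 1` is in `S` (`|w| ≤ N + 1`); `W0` = the list of `pathTo` for `z = P w'`; all its edges are positive (`closure_pos`); `val m W0 = dev m w' = ev (dev m ∘ y) w` by `dev_S`.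
-/

namespace PF

namespace Dat

variable {n : ℕ} (d : Dat n)

private theorem ICert_mark {h : F n} (hh : h ∈ d.MM) (h1 : h ≠ 1) : d.P h ∈ d.X ∧ d.mZ (d.P h) = h := by
  have hp : d.PreS h := MM_preS hh
  have hz : d.mZ (d.P h) = h := mZ_P hp
  refine ⟨?_, hz⟩
  rw [mem_X]
  refine ⟨Or.inr ⟨d.P h - 1, P1_mem hp h1, ?_⟩, ?_⟩
  · have := (P1_div hp h1).1
    omega
  · rw [hz]
    exact hh

private theorem ICert_y_ne (i : Fin n) : d.y i ≠ 1 := by
  intro h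
  have h2 : d.al (FreeGroup.of i) = d.al 1 := by
    rw [map_one]
    exact h
  exact FreeGroup.of_ne_one i (d.al.injective h2)

theorem cert_st (hT : d.MM.card ≤ bdT n d.N) {w : List (Fin n × Bool)} (hw : w.length ≤ d.N + 1)
    (hp : d.al (FreeGroup.mk w) ∈ Subsemigroup.closure (Set.range (FreeGroup.of : Fin n → FreeGroup (Fin n)))) :
    Cert (d.st.toFS d.sg) n (3 ^ bdT n d.N + bdT n d.N) w := by
  have hyMM : ∀ i, d.y i ∈ d.MM := fun i => M0_MM (S_M0 (d.y_mem_S i))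
  have hyX : ∀ i, d.P (d.y i) ∈ d.X := fun i => (d.ICert_mark (hyMM i) (d.ICert_y_ne i)).1
  have hyZ : ∀ i, d.mZ (d.P (d.y i)) = d.y i := fun i => (d.ICert_mark (hyMM i) (d.ICert_y_ne i)).2
  choose W hW1 hW2 hW3 hW4 using fun i => d.pathTo (hyX i)
  obtain ⟨t, ht1, htl, ht⟩ := d.kp_dev
  have hlen : ∀ h, 2 * (t h).length + 1 ≤ 3 ^ bdT n d.N := fun h =>
    (htl h).trans (Nat.pow_le_pow_right (by norm_num) d.prs_length_le)
  have hval : ∀ (G : Type) [Group G] (m : ℕ → G), (fun i => val m (W i)) = fun i => d.dev m (d.y i) := by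
    intro G _ m
    funext i
    rw [hW3 i G m, hyZ i]
  refine ⟨W, ⟨fun i => ?_, fun i e he => Or.inl (hW1 i e he),
    fun x y => FreeGroup.invRev (t (d.mZ x)) ++ t (d.mZ y), fun x y => ?_, ?_⟩, ?_⟩
  · exact ((hW2 i).trans hT).trans (Nat.le_add_left _ _)
  · have h1 := hlen (d.mZ x)
    have h2 := hlen (d.mZ y)
    rw [List.length_append, FreeGroup.invRev_length]
    omega
  · intro G _ m hm
    obtain ⟨g, hg1, hg2, hg3⟩ := ht G (fun i => d.dev m (d.y i)) (d.dev m) (d.dev_one m)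
      (fun i a ha => d.dev_band m hm ha)
    refine ⟨fun x => g (d.mZ x), ?_, ?_, ?_⟩
    · rintro x y ⟨hx, hy, hxy⟩
      exact hg1 _ ((d.mem_X).mp hx).2 _ ((d.mem_X).mp hy).2 hxy
    · change g (d.mZ d.st.v0) = 1
      rw [d.mZ_v0, hg2]
    · intro x y hxy
      obtain ⟨hx, hy, hlt, hD, -⟩ := hxy
      have hseg := d.dev_seg m hlt.le hD
      rw [hg3 _ ((d.mem_X).mp hx).2, hg3 _ ((d.mem_X).mp hy).2] at hseg
      rw [hval G m, ev_append, ev_invRev]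
      have h3 : (m x)⁻¹ * m y = (ev (fun i => d.dev m (d.y i)) (t (d.mZ x)) * g (d.mZ x))⁻¹ *
          (ev (fun i => d.dev m (d.y i)) (t (d.mZ y)) * g (d.mZ y)) := by
        rw [hseg, inv_mul_cancel_left]
      rw [h3, mul_inv_rev]
      simp only [mul_assoc]
  · have hS : d.al (FreeGroup.mk w) ∈ d.S :=
      List.mem_map.mpr ⟨w, PPos.mem_wordsLE.mpr hw, rfl⟩
    obtain ⟨hne, hpos⟩ := closure_pos hp
    obtain ⟨hX, hZ⟩ := d.ICert_mark (M0_MM (S_M0 hS)) hne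
    obtain ⟨W0, h1, -, h3, h4⟩ := d.pathTo hX
    refine ⟨W0, fun e he => Or.inl ⟨h1 e he, h4 (by rw [hZ]; exact hpos) e he⟩, ?_⟩
    intro G _ m hm
    rw [hval G m, h3 G m, hZ, d.dev_S m hm w hw]

end Dat

end PF
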