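import Pool.Agent.H1.PF.IValid

set_option autoImplicit false

/-!
# PF IChi: connectedness and Euler characteristic of the initial state (helper1)

`conn_st`: let `Sg` be closed (for `d.st`, `m = mZ`). Two marks with the same `mZ` are in the same class, so for `h ∈ MM` occurring as `mZ x`, `x ∈ X`, the statement `Sg x ω` depends only on `h`.
By induction along the path of `pathTo` (or by strong induction on `len (mZ z)` as there: for `h = mZ z ≠ 1` there is an edge `(x, P h)`), `Sg v0 ω ↔ Sg z (ω * mZ z)` for all `z ∈ X`, `ω` (the value of an edge `(x, y)` is `(mZ x)⁻¹ * mZ y`).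
For `z` with `mZ z = y i` the class of `z` is the class of `v0` (`kp_pair` for `a = 1`): `Sg v0 (ω * y i) ↔ Sg z (ω * y i) ↔ Sg v0 ω`. So `{ω | Sg v0 ω}` contains 1 and is closed under right multiplication by `y i` and `(y i)⁻¹`; as `al` is
surjective it is everything (`FreeGroup.induction_on` for `al.symm ω`). Hence `Sg z ω` for all `z ∈ X`, `ω`.

`chi_st`: map the left end `x ∈ X ∩ D` of an edge `(x, y)` to `mZ y ∈ MM`; it is `≠ 1` (`D_name` for the unit `y - 1`), and `y = P (mZ y)` is determined by `mZ y`, so `x` is too (`edge_unique_left`). With `1 = mZ v0`: `E + 1 ≤ |mZ(X)|`.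
By `kp_card` for `A = mZ(X)`: `|A| ≤ |kp(A)| + |prs|`, `kp(A) = cl(X)`, `|prs| = |rels| + n` (`prs_length`).
`card_MM`: `|MM| ≤ |M0| + 2 ∑ |M1 i| ≤ |M0| (1 + 4 n)`, `|M0| ≤ 2 |S|`, `|S| = (wordsLE n (N+1)).length`.
`V_st`: `|cl(X)| ≤ |MM|`.
-/

namespace PF

namespace Dat

variable {n : ℕ} (d : Dat n)

private theorem IChi_image : (d.X.image d.mZ).image d.kp = d.st.X.image d.st.cl := by
  rw [Finset.image_image]
  rfl

private theorem IChi_sub : d.X.image d.mZ ⊆ d.MM := by
  intro h hh
  rw [Finset.mem_image] at hh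
  obtain ⟨x, hx, rfl⟩ := hh
  exact (d.mem_X.1 hx).2

theorem chi_st : d.st.Chi n := by
  unfold St.Chi St.E St.V
  have h1 := d.kp_card (d.X.image d.mZ) d.IChi_sub
  rw [d.IChi_image, d.prs_length] at h1
  have hr : d.st.rels = d.rels := rfl
  rw [hr]
  have hv := d.valid_st
  have hy : ∀ x ∈ d.st.X ∩ d.st.D, ∃ y, d.st.Edge x y := by
    intro x hx
    rw [Finset.mem_inter] at hx
    exact edge_right hv hx.1 hx.2
  choose! f hf using hy
  have hname : ∀ x ∈ d.st.X ∩ d.st.D, d.mZ (f x) ≠ 1 ∧ d.P (d.mZ (f x)) = f x := by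
    intro x hx
    obtain ⟨-, -, hlt, hD, -⟩ := hf x hx
    obtain ⟨u, hu⟩ : ∃ u, f x = u + 1 := ⟨f x - 1, by omega⟩
    have huD : u ∈ d.D := hD u (by omega) (by omega)
    obtain ⟨-, h2, h3, -⟩ := D_name huD
    rw [hu]
    exact ⟨h2, h3⟩
  have h2 : (d.st.X ∩ d.st.D).card ≤ ((d.X.image d.mZ).erase 1).card := by
    refine Finset.card_le_card_of_injOn (fun x => d.mZ (f x)) ?_ ?_
    · intro x hx
      have hx' : x ∈ d.st.X ∩ d.st.D := hx
      have h3 : f x ∈ d.X := (hf x hx').2.1
      exact Finset.mem_coe.2 (Finset.mem_erase.2 ⟨(hname x hx').1, Finset.mem_image_of_mem _ h3⟩)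
    · intro x hx x' hx' he
      have hx1 : x ∈ d.st.X ∩ d.st.D := hx
      have hx2 : x' ∈ d.st.X ∩ d.st.D := hx'
      have h3 : d.mZ (f x) = d.mZ (f x') := he
      have h4 : f x = f x' := by
        rw [← (hname x hx1).2, ← (hname x' hx2).2, h3]
      have h5 := hf x' hx2
      rw [← h4] at h5
      exact edge_unique_left (hf x hx1) h5
  have h3 : (1 : F n) ∈ d.X.image d.mZ := by
    rw [Finset.mem_image]
    exact ⟨d.st.v0, hv.v0X, d.mZ_v0⟩
  have h4 := Finset.card_erase_add_one h3
  omega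

theorem card_MM : d.MM.card ≤ bdT n d.N := by
  have hS : d.S.length = (PPos.wordsLE n (d.N + 1)).length := by
    unfold S
    exact List.length_map _
  have h0 := card_M0 (d := d)
  rw [hS] at h0
  have h1 : ∀ i : Fin n, (d.M1 i ∪ (d.M1 i).image (fun h => d.y i * h)).card ≤ 4 * d.M0.card := by
    intro i
    have h2 := Finset.card_union_le (d.M1 i) ((d.M1 i).image (fun h => d.y i * h))
    have h3 : ((d.M1 i).image (fun h => d.y i * h)).card ≤ (d.M1 i).card := Finset.card_image_le
    have h4 := card_M1 (d := d) i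
    omega
  have h2 : (Finset.univ.biUnion fun i => d.M1 i ∪ (d.M1 i).image (fun h => d.y i * h)).card ≤
      n * (4 * d.M0.card) := by
    have h3 := Finset.card_biUnion_le_card_mul (Finset.univ : Finset (Fin n))
      (fun i => d.M1 i ∪ (d.M1 i).image (fun h => d.y i * h)) (4 * d.M0.card) (fun i _ => h1 i)
    rwa [Finset.card_univ, Fintype.card_fin] at h3
  have h3 : d.MM.card ≤ d.M0.card + n * (4 * d.M0.card) := by
    unfold MM
    exact (Finset.card_union_le _ _).trans (Nat.add_le_add_left h2 _)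
  unfold bdT
  have h5 : n * (4 * d.M0.card) ≤ n * (4 * (2 * (PPos.wordsLE n (d.N + 1)).length)) :=
    Nat.mul_le_mul_left _ (Nat.mul_le_mul_left _ h0)
  nlinarith [Nat.zero_le n, Nat.zero_le (n * (PPos.wordsLE n (d.N + 1)).length)]

theorem V_st : d.st.V ≤ bdT n d.N := by
  unfold St.V
  rw [← d.IChi_image]
  exact Finset.card_image_le.trans ((Finset.card_le_card d.IChi_sub).trans d.card_MM)

end Dat

end PF
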