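import Pool.Agent.H1.PF.Dev

set_option autoImplicit false

/-!
# PF IConn: connectedness and Euler characteristic of the initial state (helper1)

`conn_st`: let `Sg` be closed (for `d.st`, `m = mZ`). Two marks with the same `mZ` are in the same class, so for `h ∈ MM` occurring as `mZ x`, `x ∈ X`, the statement `Sg x ω` depends only on `h`.
By induction along the path of `pathTo` (or by strong induction on `len (mZ z)` as there: for `h = mZ z ≠ 1` there is an edge `(x, P h)`), `Sg v0 ω ↔ Sg z (ω * mZ z)` for all `z ∈ X`, `ω` (the value of an edge `(x, y)` is `(mZ x)⁻¹ * mZ y`).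
For `z` with `mZ z = y i` the class of `z` is the class of `v0` (`kp_pair` for `a = 1`): `Sg v0 (ω * y i) ↔ Sg z (ω * y i) ↔ Sg v0 ω`. So `{ω | Sg v0 ω}` contains 1 and is closed under right multiplication by `y i` and `(y i)⁻¹`; as `al` is
surjective it is everything (`FreeGroup.induction_on` for `al.symm ω`). Hence `Sg z ω` for all `z ∈ X`, `ω`.

`chi_st`: map the left end `x ∈ X ∩ D` of an edge `(x, y)` to `mZ y ∈ MM`; it is `≠ 1` (`D_name` for the unit `y - 1`), and `y = P (mZ y)` is determined by `mZ y`, so `x` is too (`edge_unique_left`). With `1 = mZ v0`: `E + 1 ≤ |mZ(X)|`.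
By `kp_card` for `A = mZ(X)`: `|A| ≤ |kp(A)| + |prs|`, `kp(A) = cl(X)`, `|prs| = |rels| + n` (`prs_length`).
`card_MM`: `|MM| ≤ |M0| + 2 ∑ |M1 i| ≤ |M0| (1 + 4 n)`, `|M0| ≤ 2 |S|`, `|S| = (wordsLE n (N+1)).length`.
`V_st`: `|cl(X)| ≤ |MM|`.
-/

namespace PF

namespace Dat

variable {n : ℕ} (d : Dat n)

theorem IConn_len {x : ℕ} (k : ℕ) (hD : ∀ u, x ≤ u → u < x + k → u ∈ d.D) : len (d.mZ (x + k)) = len (d.mZ x) + k := by
  induction k with
  | zero => rfl
  | succ k ih =>
    have h1 := ih (fun u h1 h2 => hD u h1 (by omega))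
    have h2 := (D_name (hD (x + k) (by omega) (by omega))).2.2.2.1
    rw [h1] at h2
    rw [← add_assoc, h2, add_assoc]

theorem IConn_PX {h : F n} (hM : h ∈ d.MM) (h1 : h ≠ 1) : d.P h ∈ d.X ∧ d.mZ (d.P h) = h ∧ ∃ u, u ∈ d.D ∧ u + 1 = d.P h := by
  have hp : d.PreS h := MM_preS hM
  have e1 := P1_div hp h1
  have e2 := P1_mem hp h1
  have e3 := mZ_P hp
  have e4 : d.P h - 1 + 1 = d.P h := by omega
  refine ⟨(mem_X d).2 ⟨Or.inr ⟨d.P h - 1, e2, e4⟩, ?_⟩, e3, d.P h - 1, e2, e4⟩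
  rw [e3]
  exact hM

theorem IConn_y_ne (i : Fin n) : d.y i ≠ 1 := by
  intro h
  unfold y at h
  have h1 : FreeGroup.of i = (1 : F n) := by
    apply d.al.injective
    rw [h, map_one]
  exact FreeGroup.of_ne_one i h1

theorem conn_st : d.st.Conn d.mZ := by
  intro Sg h1 hcl hed
  have hv0 : d.st.v0 ∈ d.X := d.valid_st.v0X
  have hsame : ∀ x y ω, x ∈ d.X → y ∈ d.X → d.mZ x = d.mZ y → (Sg x ω ↔ Sg y ω) := by
    intro x y ω hx hy e
    have e1 : d.st.cl x = d.st.cl y := by
      show d.kp (d.mZ x) = d.kp (d.mZ y)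
      rw [e]
    exact ⟨hcl x y ω hx hy e1, hcl y x ω hy hx e1.symm⟩
  have key : ∀ N : ℕ, ∀ z ∈ d.X, len (d.mZ z) ≤ N → ∀ ω, Sg d.st.v0 ω ↔ Sg z (ω * d.mZ z) := by
    intro N
    induction N with
    | zero =>
      intro z hz hN ω
      have e : d.mZ z = 1 := (len_eq_zero _).1 (by omega)
      rw [e, mul_one]
      exact hsame _ _ ω hv0 hz (by rw [mZ_v0, e])
    | succ N ih =>
      intro z hz hN ω
      by_cases hz1 : d.mZ z = 1
      · rw [hz1, mul_one]
        exact hsame _ _ ω hv0 hz (by rw [mZ_v0, hz1])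
      · have hM : d.mZ z ∈ d.MM := ((mem_X d).1 hz).2
        obtain ⟨hPX, hPm, u, huD, hu⟩ := d.IConn_PX hM hz1
        have hPX' : u + 1 ∈ d.st.X := by rw [hu]; exact hPX
        obtain ⟨y, hy⟩ := edge_left d.valid_st hPX' huD
        have hyX : y ∈ d.X := hy.1
        have hylt : y < u + 1 := hy.2.2.1
        have hlen := d.IConn_len (x := y) (u + 1 - y) (fun v hv1 hv2 => hy.2.2.2.1 v hv1 (by omega))
        have e1 : y + (u + 1 - y) = d.P (d.mZ z) := by omega
        rw [e1, hPm] at hlen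
        have h2 := ih y hyX (by omega) ω
        have h3 := hed y (u + 1) (ω * d.mZ y) hy
        rw [hu, hPm, mul_assoc, mul_inv_cancel_left] at h3
        exact h2.trans (h3.trans (hsame _ _ _ hPX hz hPm))
  have hy : ∀ (i : Fin n) ω, Sg d.st.v0 ω ↔ Sg d.st.v0 (ω * d.y i) := by
    intro i ω
    have hM : d.y i ∈ d.MM := M0_MM (S_M0 (y_mem_S d i))
    obtain ⟨hPX, hPm, _⟩ := d.IConn_PX hM (d.IConn_y_ne i)
    have h2 := key _ (d.P (d.y i)) hPX le_rfl ω
    rw [hPm] at h2
    have h3 : d.st.cl d.st.v0 = d.st.cl (d.P (d.y i)) := by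
      show d.kp (d.mZ d.st.v0) = d.kp (d.mZ (d.P (d.y i)))
      rw [mZ_v0, hPm]
      have h4 := d.kp_pair (one_mem_M1 (d := d) i)
      rw [mul_one] at h4
      exact h4
    exact h2.trans ⟨hcl _ _ _ hPX hv0 h3.symm, hcl _ _ _ hv0 hPX h3⟩
  have hal : ∀ g : F n, ∀ ω, Sg d.st.v0 ω ↔ Sg d.st.v0 (ω * d.al g) := by
    intro g
    induction g using FreeGroup.induction_on with
    | C1 => intro ω; rw [map_one, mul_one]
    | of i => intro ω; exact hy i ω
    | inv_of i _ =>
      intro ω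
      have h2 := hy i (ω * (d.y i)⁻¹)
      rw [inv_mul_cancel_right] at h2
      rw [map_inv]
      exact h2.symm
    | mul a b iha ihb =>
      intro ω
      rw [map_mul, ← mul_assoc]
      exact (iha ω).trans (ihb _)
  have hall : ∀ ω, Sg d.st.v0 ω := by
    intro ω
    have h2 := (hal (d.al.symm ω) 1).1 h1
    rw [MulEquiv.apply_symm_apply, one_mul] at h2
    exact h2
  intro x hx ω
  have h2 := (key _ x hx le_rfl (ω * (d.mZ x)⁻¹)).1 (hall _)
  rw [inv_mul_cancel_right] at h2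
  exact h2

end Dat

end PF
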