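import Pool.Agent.H1.PF.IValid

set_option autoImplicit false

/-!
# PF ICount: blocks and numbers for the initial state (helper1)

`blok_st`: the sides are `(r.p, r.l)`, `(r.q, r.l)` for `r = rel i c`; all units of a side have the same quotient by `Lam` (`RelOk.bp`, `RelOk.bq`; `mem_rels`, `relOk`).
`rels_length`: `|rels| ≤ |prs| ≤ bdT` (`prs_length`, `prs_length_le`). `kap_st`: the sum of the weights is `2 * |rels|` (`sum_wt`), and `2 * |rels| ≤ 2 * ∑ |M1 i| ≤ 2 * n * 2 * |M0| ≤ 8 * n * |S| ≤ bdT`
(`card_M1`, `card_M0`, `|S| = (wordsLE n (N+1)).length`).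
-/

namespace PF

namespace Dat

variable {n : ℕ} (d : Dat n)

/-- blocks: `bl u = u / Lam` -/
theorem blok_st : BlOk (fun u => u / d.Lam) d.st.rels := by
  intro t ht u h1 h2
  have hst : d.st.rels = d.rels := rfl
  rw [hst] at ht
  unfold sides at ht
  rw [List.mem_flatMap] at ht
  obtain ⟨r, hr, ht⟩ := ht
  obtain ⟨i, c, hc, hc1, rfl⟩ := mem_rels.1 hr
  have ok := relOk hc hc1
  simp only [List.mem_cons, List.not_mem_nil, or_false] at ht
  rcases ht with rfl | rfl
  · have h := ok.bp (u - (d.rel i c).p) (by simp only at h1 h2; omega)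
    simp only at h1 h2 ⊢
    rwa [Nat.add_sub_cancel' h1] at h
  · have h := ok.bq (u - (d.rel i c).q) (by simp only at h1 h2; omega)
    simp only at h1 h2 ⊢
    rwa [Nat.add_sub_cancel' h1] at h

private theorem ICount_S : d.S.length = (PPos.wordsLE n (d.N + 1)).length := by
  unfold S
  exact List.length_map _

private theorem ICount_len : d.rels.length ≤ n * (4 * d.S.length) := by
  unfold rels
  rw [List.length_flatMap]
  have h1 : ∀ x ∈ (List.finRange n).map (fun i => ((((d.M1 i).erase 1).toList.map (d.rel i)).length)),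
      x ≤ 4 * d.S.length := by
    intro x hx
    rw [List.mem_map] at hx
    obtain ⟨i, -, rfl⟩ := hx
    rw [List.length_map, Finset.length_toList]
    have h2 := Finset.card_erase_le (s := d.M1 i) (a := 1)
    have h3 := card_M1 (d := d) i
    have h4 := card_M0 (d := d)
    have h5 : ((d.M1 i).erase 1).card ≤ (d.M1 i).card := Finset.card_le_card (Finset.erase_subset _ _)
    omega
  have h2 := List.sum_le_card_nsmul _ _ h1
  rw [List.length_map, List.length_finRange, smul_eq_mul] at h2
  exact h2

theorem rels_length : d.rels.length ≤ bdT n d.N := by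
  have h := d.ICount_len
  rw [d.ICount_S] at h
  unfold bdT
  nlinarith [Nat.zero_le n, Nat.zero_le (n * (PPos.wordsLE n (d.N + 1)).length)]

private theorem ICount_sides (L : List Rel) : (sides L).length = 2 * L.length := by
  induction L with
  | nil => rfl
  | cons r L ih =>
    unfold sides at ih ⊢
    rw [List.flatMap_cons, List.length_append, ih]
    simp only [List.length_cons, List.length_nil]
    omega

private theorem ICount_kap (bl : ℕ → ℕ) (L : List Rel) : kap bl L ≤ 2 * L.length := by
  unfold kap
  have h1 : ∀ v ∈ ((sides L).map (fun t => bl t.1)).toFinset, wt bl L v - 2 ≤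
      ((sides L).map (fun t => bl t.1)).count v := by
    intro v _
    refine (Nat.sub_le _ _).trans (le_of_eq ?_)
    unfold wt
    rw [List.count, List.countP_map]
    refine List.countP_congr fun t _ => ?_
    simp
  refine (Finset.sum_le_sum h1).trans (le_of_eq ?_)
  rw [List.sum_toFinset_count_eq_length, List.length_map, ICount_sides]

theorem kap_st : kap (fun u => u / d.Lam) d.st.rels ≤ bdT n d.N := by
  have h0 := ICount_kap (fun u => u / d.Lam) d.st.rels
  have hst : d.st.rels = d.rels := rfl
  rw [hst] at h0 ⊢
  have h := d.ICount_len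
  rw [d.ICount_S] at h
  refine h0.trans ?_
  unfold bdT
  nlinarith [Nat.zero_le n, Nat.zero_le (n * (PPos.wordsLE n (d.N + 1)).length)]

end Dat

end PF
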