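import Pool.Agent.H1.PF.IValid

set_option autoImplicit false

/-!
# PF IForest: the unit graph of the initial state is a forest (helper1)

For a unit `x ∈ D` put `st x = mZ x` if `sg x = true` and `st x = mZ (x+1)` if `sg x = false` (the origin of the positively oriented edge of the Cayley tree), `k x` = the index of the letter of `x`,
`u x = al.symm (st x)`, `ν x = (u x).toWord.length`. `x ↦ (st x, k x)` is injective on `D` (the other end is `st x * of (k x)`; the two ends determine `mZ (x+1)` as the longer one; `D_inj`).
Let `(x, x')` be in `ue rels`, from the relation `r = rel i c`, `x = p + j`, `x' = r.U j`. By `RelOk`: `k x' = k x`, `st x' = y i * st x` (if `r.s = true` then `mZ x' = y i * mZ x`, `mZ (x'+1) = y i * mZ (x+1)` and the signs agree; if `r.s = false`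
then `mZ (x'+1) = y i * mZ x`, `mZ x' = y i * mZ (x+1)` and the signs differ; here `r.U j = r.Q j`, or `r.U j = r.Q (j+1)`, `r.U j + 1 = r.Q j`; the letter of a unit `x` is the group element `(mZ x)⁻¹ * mZ (x+1)` `= of k` or `(of k)⁻¹`,
so it is determined by `mZ x`, `mZ (x+1)`). So `u x' = of i * u x`, `ν x' = ν x ± 1`, and `ν x' < ν x` iff the first letter of `u x` is `(i, false)`; `ν x < ν x'` iff the first letter of `u x'` is `(i, true)`.
`ue rels` has no duplicates: the pair `(x, x')` determines `i` (`u x' * (u x)⁻¹ = of i`) and then `c` (`unit_unique`, with `h = mZ (x+1)`) and `j`.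
Let `L'` be a nonempty subfamily of `ue rels`, and `x` a unit in a pair of `L'` with `ν x` maximal. A pair of `L'` which contains `x` is `(x, x')` with `ν x' < ν x` (they differ by one), so `(u x).toWord` begins with `(i, false)`, `i` the index of the pair; or `(x', x)` and
`(u x).toWord` begins with `(i, true)`. So the first letter of `u x` determines the index and whether `x` is the first or second member, and then the other member (`st`, `k` of it are determined). So exactly one pair of `L'` contains `x`, and only once: `deg L' x = 1`.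
-/

namespace PF

/-- abstract criterion: a nodup list of pairs with a rank such that every vertex has at most one
neighbour of smaller rank -/
private theorem IForest_abs {L : List (ℕ × ℕ)} (hnd : L.Nodup) (ν : ℕ → ℕ)
    (hne : ∀ e ∈ L, ν e.1 ≠ ν e.2)
    (h11 : ∀ x a b, (x, a) ∈ L → (x, b) ∈ L → ν a < ν x → ν b < ν x → a = b)
    (h22 : ∀ x a b, (a, x) ∈ L → (b, x) ∈ L → ν a < ν x → ν b < ν x → a = b)
    (h12 : ∀ x a b, (x, a) ∈ L → (b, x) ∈ L → ν a < ν x → ν b < ν x → False) :
    Forest L := by
  intro L' hsub hL'
  have hmem : ∀ e ∈ L', e ∈ L := fun e he => hsub.subset he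
  have hnd' : L'.Nodup := by
    obtain ⟨l, hp, hs⟩ := hsub
    exact hp.nodup_iff.mp (hs.nodup hnd)
  -- a unit of maximal rank
  have hex : ∃ x, (∃ e ∈ L', e.1 = x ∨ e.2 = x) ∧ ∀ e ∈ L', ν e.1 ≤ ν x ∧ ν e.2 ≤ ν x := by
    have : ∀ M : List (ℕ × ℕ), M ≠ [] → ∃ x, (∃ e ∈ M, e.1 = x ∨ e.2 = x) ∧
        ∀ e ∈ M, ν e.1 ≤ ν x ∧ ν e.2 ≤ ν x := by
      intro M
      induction M with
      | nil => intro h; exact absurd rfl h
      | cons e M ih =>
        intro _
        by_cases hM : M = []
        · subst hM
          rcases le_total (ν e.1) (ν e.2) with h | h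
          · exact ⟨e.2, ⟨e, by simp, Or.inr rfl⟩, by simp [h]⟩
          · exact ⟨e.1, ⟨e, by simp, Or.inl rfl⟩, by simp [h]⟩
        · obtain ⟨x, ⟨f, hf, hfx⟩, hx⟩ := ih hM
          rcases le_total (ν e.1) (ν e.2) with h | h
          · rcases le_total (ν e.2) (ν x) with h' | h'
            · refine ⟨x, ⟨f, List.mem_cons_of_mem _ hf, hfx⟩, ?_⟩
              intro g hg
              rcases List.mem_cons.mp hg with rfl | hg
              · exact ⟨h.trans h', h'⟩
              · exact hx g hg
            · refine ⟨e.2, ⟨e, List.mem_cons_self, Or.inr rfl⟩, ?_⟩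
              intro g hg
              rcases List.mem_cons.mp hg with rfl | hg
              · exact ⟨h, le_refl _⟩
              · exact ⟨(hx g hg).1.trans h', (hx g hg).2.trans h'⟩
          · rcases le_total (ν e.1) (ν x) with h' | h'
            · refine ⟨x, ⟨f, List.mem_cons_of_mem _ hf, hfx⟩, ?_⟩
              intro g hg
              rcases List.mem_cons.mp hg with rfl | hg
              · exact ⟨h', h.trans h'⟩
              · exact hx g hg
            · refine ⟨e.1, ⟨e, List.mem_cons_self, Or.inl rfl⟩, ?_⟩
              intro g hg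
              rcases List.mem_cons.mp hg with rfl | hg
              · exact ⟨le_refl _, h⟩
              · exact ⟨(hx g hg).1.trans h', (hx g hg).2.trans h'⟩
    exact this L' hL'
  obtain ⟨x, ⟨e, he, hex⟩, hmax⟩ := hex
  refine ⟨x, ?_⟩
  -- all pairs of `L'` which contain `x` are equal to `e`
  have hsmall1 : ∀ a, (x, a) ∈ L' → ν a < ν x := by
    intro a ha
    have h1 := (hmax _ ha).2
    have h2 := hne _ (hmem _ ha)
    simp only at h1 h2
    omega
  have hsmall2 : ∀ a, (a, x) ∈ L' → ν a < ν x := by
    intro a ha
    have h1 := (hmax _ ha).1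
    have h2 := hne _ (hmem _ ha)
    simp only at h1 h2
    omega
  have hcount : ∀ (M : List (ℕ × ℕ)) (f : ℕ × ℕ → ℕ), M.Nodup → ∀ e ∈ M, f e = x → (∀ g ∈ M, f g = x → g = e) →
      (M.map f).count x = 1 := by
    intro M f hM
    induction M with
    | nil => intro e he; simp at he
    | cons g M ih =>
      intro e he hfe hall
      rw [List.map_cons, List.count_cons]
      have hgM := (List.nodup_cons.mp hM)
      rcases List.mem_cons.mp he with rfl | he
      · have h0 : (M.map f).count x = 0 := by
          rw [List.count_eq_zero]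
          intro hx
          obtain ⟨g', hg', hfg'⟩ := List.mem_map.mp hx
          have := hall g' (List.mem_cons_of_mem _ hg') hfg'
          subst this
          exact hgM.1 hg'
        rw [h0]
        simp [hfe]
      · have h1 := ih hgM.2 e he hfe (fun g hg => hall g (List.mem_cons_of_mem _ hg))
        have h2 : f g ≠ x := by
          intro h
          have := hall g List.mem_cons_self h
          subst this
          exact hgM.1 he
        rw [h1]
        simp [h2]
  have hzero : ∀ (M : List (ℕ × ℕ)) (f : ℕ × ℕ → ℕ), (∀ g ∈ M, f g ≠ x) → (M.map f).count x = 0 := by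
    intro M f h
    rw [List.count_eq_zero]
    intro hx
    obtain ⟨g', hg', hfg'⟩ := List.mem_map.mp hx
    exact h g' hg' hfg'
  unfold deg
  rcases hex with hx | hx
  · obtain ⟨x0, a⟩ := e
    simp only at hx
    subst hx
    rw [hcount L' Prod.fst hnd' (x0, a) he rfl, hzero L' Prod.snd]
    · rintro ⟨b, x1⟩ hg h
      simp only at h
      subst h
      exact h12 _ _ _ (hmem _ he) (hmem _ hg) (hsmall1 _ he) (hsmall2 _ hg)
    · rintro ⟨x1, b⟩ hg h
      simp only at h
      subst h
      rw [h11 _ _ _ (hmem _ he) (hmem _ hg) (hsmall1 _ he) (hsmall1 _ hg)]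
  · obtain ⟨a, x0⟩ := e
    simp only at hx
    subst hx
    rw [hcount L' Prod.snd hnd' (a, x0) he rfl, hzero L' Prod.fst]
    · rintro ⟨x1, b⟩ hg h
      simp only at h
      subst h
      exact h12 _ _ _ (hmem _ hg) (hmem _ he) (hsmall1 _ hg) (hsmall2 _ he)
    · rintro ⟨b, x1⟩ hg h
      simp only at h
      subst h
      rw [h22 _ _ _ (hmem _ he) (hmem _ hg) (hsmall2 _ he) (hsmall2 _ hg)]

namespace Dat

variable {n : ℕ} (d : Dat n)

/-- origin of the positively oriented edge of the unit `x` -/
private def IForest_o (x : ℕ) : F n := if d.sg x = true then d.mZ x else d.mZ (x + 1)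

/-- end of the positively oriented edge of the unit `x` -/
private def IForest_e (x : ℕ) : F n := if d.sg x = true then d.mZ (x + 1) else d.mZ x

private theorem IForest_inj {x x' : ℕ} (hx : x ∈ d.D) (hx' : x' ∈ d.D)
    (ho : IForest_o d x = IForest_o d x') (he : IForest_e d x = IForest_e d x') : x = x' := by
  obtain ⟨-, -, -, hl, -, -⟩ := D_name hx
  obtain ⟨-, -, -, hl', -, -⟩ := D_name hx'
  unfold IForest_o at ho
  unfold IForest_e at he
  apply D_inj hx hx'
  split_ifs at ho he with h1 h2 h2
  · exact he
  · rw [ho, he] at hl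
    omega
  · rw [ho, he] at hl
    omega
  · exact ho

private theorem IForest_pair {i : Fin n} {c : F n} (hc : c ∈ d.M1 i) (h1 : c ≠ 1) {j : ℕ} (hj : j < (d.rel i c).l) :
    IForest_o d ((d.rel i c).U j) = d.y i * IForest_o d ((d.rel i c).p + j) ∧
    IForest_e d ((d.rel i c).U j) = d.y i * IForest_e d ((d.rel i c).p + j) ∧
    (d.rel i c).U j ∈ d.D := by
  have hr := relOk hc h1
  set r := d.rel i c with hrdef
  have e1 := hr.mp j (by omega)
  have e2 := hr.mp (j + 1) (by omega)
  have e3 := hr.mq j (by omega)
  have e4 := hr.mq (j + 1) (by omega)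
  have e5 := hr.sgn j hj
  rw [← e1] at e3
  rw [← add_assoc] at e2
  rw [← e2] at e4
  rcases hs : r.s with _ | _
  · have hU1 : r.U j = r.Q (j + 1) := by
      simp only [Rel.U, Rel.Q, hs]
      simp only [Bool.false_eq_true, if_false]
      omega
    have hU2 : r.U j + 1 = r.Q j := by
      simp only [Rel.U, Rel.Q, hs]
      simp only [Bool.false_eq_true, if_false]
      omega
    rw [hs] at e5
    have hsg : d.sg (r.U j) = !d.sg (r.p + j) := by
      cases h1 : d.sg (r.U j) <;> cases h2 : d.sg (r.p + j) <;> simp_all
    have hD : r.U j ∈ d.D := by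
      have := hr.Dq (r.l - 1 - j) (by omega)
      simpa [Rel.U, hs] using this
    refine ⟨?_, ?_, hD⟩
    · unfold IForest_o
      rw [hU2, e3, hsg]
      rw [hU1, e4]
      cases h2 : d.sg (r.p + j) <;> simp
    · unfold IForest_e
      rw [hU2, e3, hsg]
      rw [hU1, e4]
      cases h2 : d.sg (r.p + j) <;> simp
  · have hU1 : r.U j = r.Q j := by
      simp only [Rel.U, Rel.Q, hs]
      simp only [if_true]
    have hU2 : r.U j + 1 = r.Q (j + 1) := by
      simp only [Rel.U, Rel.Q, hs]
      simp only [if_true]
      omega
    rw [hs] at e5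
    have hsg : d.sg (r.U j) = d.sg (r.p + j) := by
      exact e5.mpr rfl
    have hD : r.U j ∈ d.D := by
      have := hr.Dq j (by omega)
      simpa [Rel.U, hs] using this
    refine ⟨?_, ?_, hD⟩
    · unfold IForest_o
      rw [hU2, e4, hsg]
      rw [hU1, e3]
      cases h2 : d.sg (r.p + j) <;> simp
    · unfold IForest_e
      rw [hU2, e4, hsg]
      rw [hU1, e3]
      cases h2 : d.sg (r.p + j) <;> simp

private theorem IForest_ue : ue d.st.rels = (List.finRange n).flatMap fun i =>
    ((d.M1 i).erase 1).toList.flatMap fun c => (List.range (d.rel i c).l).map fun j => ((d.rel i c).p + j, (d.rel i c).U j) := by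
  change ue d.rels = _
  unfold ue rels
  rw [List.flatMap_assoc]
  congr 1
  funext i
  rw [List.flatMap_map]

private theorem IForest_mem {e : ℕ × ℕ} (he : e ∈ ue d.st.rels) : ∃ i c j, c ∈ d.M1 i ∧ c ≠ 1 ∧ j < (d.rel i c).l ∧
    e = ((d.rel i c).p + j, (d.rel i c).U j) := by
  rw [IForest_ue] at he
  simp only [List.mem_flatMap, List.mem_finRange, Finset.mem_toList, Finset.mem_erase, List.mem_map, List.mem_range,
    true_and] at he
  obtain ⟨i, c, ⟨h1, h2⟩, j, hj, rfl⟩ := he
  exact ⟨i, c, j, h2, h1, hj, rfl⟩

/-- the index `i` is determined -/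
private theorem IForest_idx {i i' : Fin n} {g h : F n} (h1 : h = d.y i * g) (h2 : h = d.y i' * g) : i = i' := by
  have h3 : d.y i = d.y i' := mul_right_cancel (h1.symm.trans h2)
  have h4 : (FreeGroup.of i : F n) = FreeGroup.of i' := d.al.injective h3
  exact FreeGroup.of_injective h4

private theorem IForest_nodup : (ue d.st.rels).Nodup := by
  rw [IForest_ue, List.nodup_flatMap]
  constructor
  · intro i _
    rw [List.nodup_flatMap]
    constructor
    · intro c _
      apply List.Nodup.map_on _ List.nodup_range
      intro a _ b _ hab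
      simp only [Prod.mk.injEq] at hab
      omega
    · apply List.Pairwise.imp_of_mem (R := (· ≠ ·))
      · intro c c' hc hc' hne
        rw [Function.onFun, List.disjoint_left]
        rintro ⟨x, x'⟩ hx hx'
        simp only [Finset.mem_toList, Finset.mem_erase] at hc hc'
        simp only [List.mem_map, List.mem_range, Prod.mk.injEq] at hx hx'
        obtain ⟨j, hj, hx1, -⟩ := hx
        obtain ⟨j', hj', hx1', -⟩ := hx'
        apply hne
        have hr := relOk hc.2 hc.1
        have hr' := relOk hc'.2 hc'.1
        have e1 := hr.mp (j + 1) (by omega)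
        have e2 := hr'.mp (j' + 1) (by omega)
        rw [← add_assoc, hx1] at e1
        rw [← add_assoc, hx1'] at e2
        have hl := hr.hl.1
        have hl' := hr'.hl.1
        have hlen : len (tk c (d.pt i c + (j + 1))) = d.pt i c + (j + 1) := by
          rw [len_tk]; omega
        have hlen' : len (tk c' (d.pt i c' + (j' + 1))) = d.pt i c' + (j' + 1) := by
          rw [len_tk]; omega
        have heq : tk c (d.pt i c + (j + 1)) = tk c' (d.pt i c' + (j' + 1)) := e1.symm.trans e2
        refine unit_unique (h := tk c (d.pt i c + (j + 1))) hc.2 hc'.2 hc.1 hc'.1 (pre_tk _ _) ?_ ?_ ?_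
        · rw [heq]; exact pre_tk _ _
        · rw [hlen]; omega
        · rw [heq, hlen']; omega
      · exact ((d.M1 i).erase 1).nodup_toList
  · apply List.Pairwise.imp_of_mem (R := (· ≠ ·))
    · intro i i' _ _ hne
      rw [Function.onFun, List.disjoint_left]
      rintro ⟨x, x'⟩ hx hx'
      simp only [List.mem_flatMap, Finset.mem_toList, Finset.mem_erase, List.mem_map, List.mem_range, Prod.mk.injEq] at hx hx'
      obtain ⟨c, hc, j, hj, hx1, hx2⟩ := hx
      obtain ⟨c', hc', j', hj', hx1', hx2'⟩ := hx'
      apply hne
      have e1 := (IForest_pair d hc.2 hc.1 hj).1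
      have e2 := (IForest_pair d hc'.2 hc'.1 hj').1
      rw [hx1, hx2] at e1
      rw [hx1', hx2'] at e2
      exact IForest_idx d e1 e2
    · exact List.nodup_finRange n

/-- rank of a unit -/
private def IForest_nu (x : ℕ) : ℕ := ((d.al.symm (IForest_o d x)).toWord).length

private theorem IForest_step {i : Fin n} {u v : F n} (h : v = FreeGroup.of i * u) :
    (v.toWord.length < u.toWord.length ∧ u.toWord.head? = some (i, false)) ∨
    (u.toWord.length < v.toWord.length ∧ v.toWord.head? = some (i, true)) := by
  have h1 := PPos.toWord_lt_mul (i, true) u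
  have h2 : PPos.lt (i, true) = FreeGroup.of i := rfl
  rw [h2, ← h] at h1
  by_cases hh : u.toWord.head? = some (PPos.bar (i, true))
  · left
    rw [if_pos hh] at h1
    refine ⟨?_, by simpa [PPos.bar] using hh⟩
    rw [h1]
    have hne : u.toWord ≠ [] := by
      intro h0
      rw [h0] at hh
      simp at hh
    have := List.length_pos_iff.mpr hne
    rw [List.length_tail]
    omega
  · right
    rw [if_neg hh] at h1
    rw [h1]
    simp

theorem forest_st : Forest (ue d.st.rels) := by
  have hstep : ∀ e ∈ ue d.st.rels, ∃ i : Fin n, IForest_o d e.2 = d.y i * IForest_o d e.1 ∧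
      IForest_e d e.2 = d.y i * IForest_e d e.1 ∧ e.1 ∈ d.D ∧ e.2 ∈ d.D ∧
      ((IForest_nu d e.2 < IForest_nu d e.1 ∧ (d.al.symm (IForest_o d e.1)).toWord.head? = some (i, false)) ∨
       (IForest_nu d e.1 < IForest_nu d e.2 ∧ (d.al.symm (IForest_o d e.2)).toWord.head? = some (i, true))) := by
    intro e he
    obtain ⟨i, c, j, hc, h1, hj, rfl⟩ := IForest_mem d he
    obtain ⟨h2, h3, h4⟩ := IForest_pair d hc h1 hj
    refine ⟨i, h2, h3, (relOk hc h1).Dp j hj, h4, ?_⟩
    apply IForest_step
    simp only
    rw [h2, map_mul]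
    congr 1
    exact d.al.symm_apply_apply _
  apply IForest_abs (IForest_nodup d) (IForest_nu d)
  · intro e he
    obtain ⟨i, -, -, -, -, h | h⟩ := hstep e he
    · exact (Nat.ne_of_lt h.1).symm
    · exact Nat.ne_of_lt h.1
  · intro x a b ha hb hax hbx
    obtain ⟨i, ho, he, hD, hD', h⟩ := hstep _ ha
    obtain ⟨i', ho', he', hD1, hD1', h'⟩ := hstep _ hb
    simp only at *
    have h1 : (d.al.symm (IForest_o d x)).toWord.head? = some (i, false) := by
      rcases h with h | h
      · exact h.2
      · omega
    have h2 : (d.al.symm (IForest_o d x)).toWord.head? = some (i', false) := by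
      rcases h' with h | h
      · exact h.2
      · omega
    have hi : i = i' := by
      rw [h1] at h2
      simpa using h2
    subst hi
    exact IForest_inj d hD' hD1' (ho.trans ho'.symm) (he.trans he'.symm)
  · intro x a b ha hb hax hbx
    obtain ⟨i, ho, he, hD, hD', h⟩ := hstep _ ha
    obtain ⟨i', ho', he', hD1, hD1', h'⟩ := hstep _ hb
    simp only at *
    have h1 : (d.al.symm (IForest_o d x)).toWord.head? = some (i, true) := by
      rcases h with h | h
      · omega
      · exact h.2
    have h2 : (d.al.symm (IForest_o d x)).toWord.head? = some (i', true) := by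
      rcases h' with h | h
      · omega
      · exact h.2
    have hi : i = i' := by
      rw [h1] at h2
      simpa using h2
    subst hi
    exact IForest_inj d hD hD1 (mul_left_cancel (ho.symm.trans ho')) (mul_left_cancel (he.symm.trans he'))
  · intro x a b ha hb hax hbx
    obtain ⟨i, ho, he, hD, hD', h⟩ := hstep _ ha
    obtain ⟨i', ho', he', hD1, hD1', h'⟩ := hstep _ hb
    simp only at *
    have h1 : (d.al.symm (IForest_o d x)).toWord.head? = some (i, false) := by
      rcases h with h | h
      · exact h.2
      · omega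
    have h2 : (d.al.symm (IForest_o d x)).toWord.head? = some (i', true) := by
      rcases h' with h | h
      · omega
      · exact h.2
    rw [h1] at h2
    simp at h2

end Dat

end PF
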