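import Pool.Agent.H1.PF.Bands

set_option autoImplicit false

/-!
# PF Kp: the classes of the vertices (helper1)

`kp` is obtained from the injective map `h ↦ MM.toList.idxOf h` on `MM` by gluing the pairs `(a, y i * a)`, `(i, a) ∈ prs` (`foldl` of `mergeK`).
* `mergeK κ a b h = mergeK κ a b h'` if `κ h = κ h'`; `mergeK κ a b a = mergeK κ a b b`. So `kp (y i * a) = kp a` for all `(i, a) ∈ prs` (induction along the list, equalities are preserved by later steps).
* `kp_card`: one step decreases the number of values on a finite set by at most one: the image of `A` under `mergeK κ a b` contains the image under `κ` except possibly `κ a`.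
* `kp_dev` (certificate for the classes): by induction on the list of pairs, starting with the end of the list (`List.foldl_append`, `List.reverseRecOn`): there is `t : F n → List (Fin n × Bool)`, `t 1 = []`, `2 * |t h| + 1 ≤ 3 ^ (number of pairs)`,
  such that for every group `G`, `f : Fin n → G`, `dv : F n → G` with `dv 1 = 1` and `dv (y i * a) = f i * dv a` for the pairs, there is `g`, constant on the classes in `MM`, `g 1 = 1`, with `dv h = ev f (t h) * g h` for `h ∈ MM`.
  No pairs: `t = []`, `g = dv` (`idxOf` is injective on the members of the list). One more pair `(i, a)`, `b = y i * a` (`a, b ∈ MM`), `κ` = the classes before. If `κ a = κ b` nothing changes.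
  Otherwise: `ev f (t b) * g b = f i * ev f (t a) * g a`.
  - If `κ 1 ≠ κ a`: `g a = ev f De * g b`, `De = invRev (t a) ++ [(i, false)] ++ t b`. For `h` with `κ h = κ a`: new `g h := g b`, new `t h := t h ++ De`.
  - If `κ 1 = κ a`: `g b = ev f De * g a`, `De = invRev (t b) ++ [(i, true)] ++ t a`. For `h` with `κ h = κ b`: new `g h := g a`, new `t h := t h ++ De`.
  Lengths: `3 T + 1`.
-/

namespace PF

namespace Dat

variable {n : ℕ} (d : Dat n)

theorem Kp_merge_eq (κ : F n → ℕ) (a b : F n) {h h' : F n} (e : κ h = κ h') : mergeK κ a b h = mergeK κ a b h' := by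
  unfold mergeK
  rw [e]

theorem Kp_merge_pair (κ : F n → ℕ) (a b : F n) : mergeK κ a b a = mergeK κ a b b := by
  unfold mergeK
  by_cases h : κ b = κ a
  · rw [if_pos rfl, if_pos h]
  · rw [if_pos rfl, if_neg h]

theorem Kp_fold_eq (l : List (Fin n × F n)) (κ : F n → ℕ) {h h' : F n} (e : κ h = κ h') :
    l.foldl (fun κ p => mergeK κ p.2 (d.y p.1 * p.2)) κ h = l.foldl (fun κ p => mergeK κ p.2 (d.y p.1 * p.2)) κ h' := by
  induction l generalizing κ with
  | nil => exact e
  | cons p l ih =>
    rw [List.foldl_cons]
    exact ih _ (Kp_merge_eq κ _ _ e)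

theorem Kp_fold_pair (l : List (Fin n × F n)) (κ : F n → ℕ) {i : Fin n} {a : F n} (hm : (i, a) ∈ l) :
    l.foldl (fun κ p => mergeK κ p.2 (d.y p.1 * p.2)) κ a = l.foldl (fun κ p => mergeK κ p.2 (d.y p.1 * p.2)) κ (d.y i * a) := by
  induction l generalizing κ with
  | nil => simp at hm
  | cons p l ih =>
    rw [List.foldl_cons]
    rcases List.mem_cons.1 hm with h | h
    · subst h
      exact Kp_fold_eq d l _ (Kp_merge_pair κ _ _)
    · exact ih _ h

theorem Kp_fold_card [DecidableEq (F n)] (A : Finset (F n)) (l : List (Fin n × F n)) (κ : F n → ℕ) :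
    (A.image κ).card ≤ (A.image (l.foldl (fun κ p => mergeK κ p.2 (d.y p.1 * p.2)) κ)).card + l.length := by
  induction l generalizing κ with
  | nil => simp
  | cons p l ih =>
    rw [List.foldl_cons, List.length_cons]
    have h1 := ih (mergeK κ p.2 (d.y p.1 * p.2))
    have h2 : A.image κ ⊆ insert (κ p.2) (A.image (mergeK κ p.2 (d.y p.1 * p.2))) := by
      intro x hx
      obtain ⟨h, hh, rfl⟩ := Finset.mem_image.1 hx
      by_cases e : κ h = κ p.2
      · rw [e]; exact Finset.mem_insert_self _ _
      · apply Finset.mem_insert_of_mem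
        refine Finset.mem_image.2 ⟨h, hh, ?_⟩
        unfold mergeK
        rw [if_neg e]
    have h3 := (Finset.card_le_card h2).trans (Finset.card_insert_le _ _)
    omega

theorem mem_prs {i : Fin n} {a : F n} : (i, a) ∈ d.prs ↔ a ∈ d.M1 i := by
  unfold prs
  simp [List.mem_flatMap]

theorem kp_pair {i : Fin n} {a : F n} (h : a ∈ d.M1 i) : d.kp a = d.kp (d.y i * a) :=
  Kp_fold_pair d d.prs _ ((mem_prs d).2 h)

theorem kp_card (A : Finset (F n)) (hA : A ⊆ d.MM) : A.card ≤ (A.image d.kp).card + d.prs.length := by
  have h1 := Kp_fold_card d A d.prs (fun h => d.MM.toList.idxOf h)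
  have h2 : (A.image (fun h => d.MM.toList.idxOf h)).card = A.card := by
    apply Finset.card_image_of_injOn
    intro x hx y hy e
    have hx' : x ∈ d.MM.toList := Finset.mem_toList.2 (hA hx)
    exact (List.idxOf_inj hx').1 e
  rw [h2] at h1
  exact h1

theorem Kp_len (l : List (Fin n)) : (l.flatMap fun i => (d.M1 i).toList.map fun a => (i, a)).length =
    (l.flatMap fun i => ((d.M1 i).erase 1).toList.map (d.rel i)).length + l.length := by
  induction l with
  | nil => simp
  | cons i l ih =>
    rw [List.flatMap_cons, List.flatMap_cons, List.length_append, List.length_append, ih, List.length_map, List.length_map,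
      Finset.length_toList, Finset.length_toList, Finset.card_erase_of_mem (one_mem_M1 i), List.length_cons]
    have : 0 < (d.M1 i).card := Finset.card_pos.2 ⟨1, one_mem_M1 i⟩
    omega

theorem prs_length : d.prs.length = d.rels.length + n := by
  have h := Kp_len d (List.finRange n)
  rw [List.length_finRange] at h
  exact h

theorem Kp_len_le (l : List (Fin n)) : (l.flatMap fun i => (d.M1 i).toList.map fun a => (i, a)).length ≤
    l.length * (2 * d.M0.card) := by
  induction l with
  | nil => simp
  | cons i l ih =>
    rw [List.flatMap_cons, List.length_append, List.length_map, Finset.length_toList, List.length_cons, Nat.succ_mul]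
    have := card_M1 (d := d) i
    omega

theorem prs_length_le : d.prs.length ≤ bdT n d.N := by
  have h := Kp_len_le d (List.finRange n)
  rw [List.length_finRange] at h
  have h0 := card_M0 (d := d)
  have h1 : d.S.length = (PPos.wordsLE n (d.N + 1)).length := by
    unfold S
    rw [List.length_map]
  have h2 : n * (2 * d.M0.card) ≤ n * (2 * (2 * (PPos.wordsLE n (d.N + 1)).length)) := by
    apply Nat.mul_le_mul_left
    omega
  have h3 : n * (2 * (2 * (PPos.wordsLE n (d.N + 1)).length)) ≤ bdT n d.N := by
    unfold bdT
    apply Nat.mul_le_mul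
    · omega
    · omega
  exact (h.trans h2).trans h3

end Dat

end PF
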