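import Pool.Agent.H1.PF.Basic

set_option autoImplicit false

/-!
# PF Path: paths of edges (helper1)

`Edge s x y` means: `x < y` are consecutive elements of `s.X` and all units `u` with `x ≤ u < y` are in `s.D`.

* `exists_path`: strong induction on `y - x`: let `z` be the least mark `> x` (`≤ y`); `(x, z)` is an edge; the rest is a path from `z` to `y`.
  The length is at most the number of marks in `[x, y)`.
* `path_val`: induction on the list. `path_lam`: take `Λ = L.flatMap (fun e => lam e.1 e.2)`.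
* `edge_around`: `x` = the largest mark `≤ z`; it exists and all units from it to `z` are present because of `Valid.bdL` (if `u ∈ D`, `u ∉ X` then `u - 1 ∈ D`);
  `y` = the least mark `> z + 1`, it exists because of `Valid.bdR`. (Go down/up by induction inside the finite set `D`.)
* `edge_right`, `edge_left` are proved in the same way.
-/

namespace PF

theorem edge_unique_right {s : St} {x y y' : ℕ} (h : s.Edge x y) (h' : s.Edge x y') : y = y' := by
  obtain ⟨_, hy, hxy, _, h4⟩ := h
  obtain ⟨_, hy', hxy', _, h4'⟩ := h'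
  rcases lt_trichotomy y y' with hlt | heq | hgt
  · exact absurd hy (h4' y hxy hlt)
  · exact heq
  · exact absurd hy' (h4 y' hxy' hgt)

theorem edge_unique_left {s : St} {x x' y : ℕ} (h : s.Edge x y) (h' : s.Edge x' y) : x = x' := by
  obtain ⟨hx, _, hxy, _, h4⟩ := h
  obtain ⟨hx', _, hxy', _, h4'⟩ := h'
  rcases lt_trichotomy x x' with hlt | heq | hgt
  · exact absurd hx' (h4 x' hlt hxy')
  · exact heq
  · exact absurd hx (h4' x hgt hxy)

private theorem Path_aux {s : St} {y : ℕ} (hy : y ∈ s.X) : ∀ (k x : ℕ), y - x ≤ k → x ∈ s.X → x < y →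
    (∀ u, x ≤ u → u < y → u ∈ s.D) →
    ∃ L : List (ℕ × ℕ), s.IsPath x y L ∧ L ≠ [] ∧
      L.length ≤ (s.X.filter (fun u => x ≤ u ∧ u < y)).card ∧
      ∀ e ∈ L, s.Edge e.1 e.2 ∧ x ≤ e.1 ∧ e.2 ≤ y := by
  intro k
  induction k with
  | zero =>
    intro x hk _ hxy _
    omega
  | succ k ih =>
    intro x hk hx hxy hD
    have hne : (s.X.filter (fun u => x < u)).Nonempty := ⟨y, Finset.mem_filter.2 ⟨hy, hxy⟩⟩
    obtain ⟨z, hz⟩ : ∃ z, z = (s.X.filter (fun u => x < u)).min' hne := ⟨_, rfl⟩
    have hzm : z ∈ s.X.filter (fun u => x < u) := by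
      rw [hz]; exact Finset.min'_mem _ _
    have hzX : z ∈ s.X := (Finset.mem_filter.1 hzm).1
    have hxz : x < z := (Finset.mem_filter.1 hzm).2
    have hzmin : ∀ u ∈ s.X, x < u → z ≤ u := by
      intro u hu hxu
      rw [hz]
      exact Finset.min'_le _ _ (Finset.mem_filter.2 ⟨hu, hxu⟩)
    have hzy : z ≤ y := hzmin y hy hxy
    have hedge : s.Edge x z :=
      ⟨hx, hzX, hxz, fun u h1 h2 => hD u h1 (h2.trans_le hzy), fun u h1 h2 hu =>
        absurd (hzmin u hu h1) (by omega)⟩
    rcases Nat.lt_or_ge z y with hlt | hge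
    · obtain ⟨L, h1, _, h3, h4⟩ := ih z (by omega) hzX hlt (fun u h1 h2 => hD u (by omega) h2)
      refine ⟨(x, z) :: L, ⟨rfl, hedge, h1⟩, by simp, ?_, ?_⟩
      · rw [List.length_cons]
        refine Nat.succ_le_of_lt (h3.trans_lt ?_)
        apply Finset.card_lt_card
        rw [Finset.ssubset_iff_of_subset]
        · refine ⟨x, Finset.mem_filter.2 ⟨hx, le_rfl, hxy⟩, ?_⟩
          intro hmem
          have := (Finset.mem_filter.1 hmem).2.1
          omega
        · intro u hu
          have h5 := Finset.mem_filter.1 hu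
          exact Finset.mem_filter.2 ⟨h5.1, by omega, h5.2.2⟩
      · intro e he
        rcases List.mem_cons.1 he with h | h
        · rw [h]
          exact ⟨hedge, le_rfl, hzy⟩
        · obtain ⟨g1, g2, g3⟩ := h4 e h
          exact ⟨g1, by omega, g3⟩
    · have hzy' : z = y := le_antisymm hzy hge
      rw [hzy'] at hedge
      refine ⟨[(x, y)], ⟨rfl, hedge, rfl⟩, by simp, ?_, ?_⟩
      · rw [List.length_singleton, Nat.one_le_iff_ne_zero, Finset.card_ne_zero]
        exact ⟨x, Finset.mem_filter.2 ⟨hx, le_rfl, hxy⟩⟩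
      · intro e he
        rw [List.mem_singleton.1 he]
        exact ⟨hedge, le_rfl, le_rfl⟩

/-- a path between two marks, if all units between them are present -/
theorem exists_path {s : St} {x y : ℕ} (hx : x ∈ s.X) (hy : y ∈ s.X) (hxy : x < y) (hD : ∀ u, x ≤ u → u < y → u ∈ s.D) :
    ∃ L : List (ℕ × ℕ), s.IsPath x y L ∧ L ≠ [] ∧ L.length ≤ s.X.card ∧ ∀ e ∈ L, s.Edge e.1 e.2 ∧ x ≤ e.1 ∧ e.2 ≤ y := by
  obtain ⟨L, h1, h2, h3, h4⟩ := Path_aux hy (y - x) x le_rfl hx hxy hD
  exact ⟨L, h1, h2, h3.trans (Finset.card_le_card (Finset.filter_subset _ _)), h4⟩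

theorem path_val {s : St} {x y : ℕ} {L : List (ℕ × ℕ)} (h : s.IsPath x y L) {G : Type} [Group G] (m : ℕ → G) :
    val m L = (m x)⁻¹ * m y := by
  induction L generalizing x with
  | nil =>
    have h1 : x = y := h
    rw [h1, inv_mul_cancel]
    rfl
  | cons e L ih =>
    obtain ⟨h1, _, h3⟩ := h
    have h4 : val m (e :: L) = ((m e.1)⁻¹ * m e.2) * val m L := by
      unfold val
      rw [List.map_cons, List.prod_cons]
    rw [h4, ih h3, h1]
    group

/-- closure under edges implies closure along paths -/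
theorem path_closed {s : St} {x y : ℕ} {L : List (ℕ × ℕ)} (h : s.IsPath x y L) {F : Type} [Group F] (m : ℕ → F)
    (Sg : ℕ → F → Prop) (hS : ∀ x y ω, (x, y) ∈ L → (Sg x ω ↔ Sg y (ω * ((m x)⁻¹ * m y)))) (ω : F) :
    Sg x ω ↔ Sg y (ω * ((m x)⁻¹ * m y)) := by
  induction L generalizing x ω with
  | nil =>
    have h1 : x = y := h
    rw [h1, inv_mul_cancel, mul_one]
  | cons e L ih =>
    obtain ⟨h1, _, h3⟩ := h
    have h4 : (x, e.2) ∈ e :: L := by
      rw [← h1]
      exact List.mem_cons_self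
    rw [hS x e.2 ω h4]
    rw [ih h3 (fun x y ω hm => hS x y ω (List.mem_cons_of_mem _ hm))]
    have h5 : ω * ((m x)⁻¹ * m e.2) * ((m e.2)⁻¹ * m y) = ω * ((m x)⁻¹ * m y) := by group
    rw [h5]

/-- the word of a path -/
theorem path_lam {s : St} {x y n B : ℕ} {L : List (ℕ × ℕ)} (h : s.IsPath x y L) (lam : ℕ → ℕ → List (Fin n × Bool))
    (hB : ∀ x y, (lam x y).length ≤ B) :
    ∃ La : List (Fin n × Bool), La.length ≤ L.length * B ∧
      ∀ (G : Type) [Group G] (m g : ℕ → G) (h : Fin n → G),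
        (∀ x y, s.Edge x y → (m x)⁻¹ * m y = (g x)⁻¹ * ev h (lam x y) * g y) →
        (m x)⁻¹ * m y = (g x)⁻¹ * ev h La * g y := by
  induction L generalizing x with
  | nil =>
    have h1 : x = y := h
    refine ⟨[], by simp, ?_⟩
    intro G _ m g h _
    rw [h1, ev_nil, mul_one, inv_mul_cancel, inv_mul_cancel]
  | cons e L ih =>
    obtain ⟨h1, h2, h3⟩ := h
    obtain ⟨La, hLa, hv⟩ := ih h3
    refine ⟨lam x e.2 ++ La, ?_, ?_⟩
    · rw [List.length_append, List.length_cons]
      have := hB x e.2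
      nlinarith
    · intro G _ m g h hm
      have h4 := hm x e.2 h2
      have h5 := hv G m g h hm
      rw [ev_append]
      have h6 : (m x)⁻¹ * m y = ((m x)⁻¹ * m e.2) * ((m e.2)⁻¹ * m y) := by group
      rw [h6, h4, h5]
      group

private theorem Path_left {s : St} (hs : s.Valid) : ∀ z : ℕ, z ∈ s.D →
    ∃ x ∈ s.X, x ≤ z ∧ (∀ u, x ≤ u → u ≤ z → u ∈ s.D) ∧ ∀ u, x < u → u ≤ z → u ∉ s.X := by
  intro z
  induction z using Nat.strong_induction_on with
  | _ z ih =>
    intro hz
    by_cases hX : z ∈ s.X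
    · refine ⟨z, hX, le_rfl, ?_, ?_⟩
      · intro u h1 h2
        rwa [le_antisymm h2 h1]
      · intro u h1 h2
        omega
    · obtain ⟨u, hu, huz⟩ := hs.bdL z hz hX
      obtain ⟨x, h1, h2, h3, h4⟩ := ih u (by omega) hu
      refine ⟨x, h1, by omega, ?_, ?_⟩
      · intro v g1 g2
        rcases Nat.lt_or_ge u v with g | g
        · have : v = z := by omega
          rwa [this]
        · exact h3 v g1 g
      · intro v g1 g2
        rcases Nat.lt_or_ge u v with g | g
        · have : v = z := by omega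
          rwa [this]
        · exact h4 v g1 g

private theorem Path_right {s : St} (hs : s.Valid) : ∀ (k z : ℕ), z ∈ s.D → s.D.sup id - z ≤ k →
    ∃ y ∈ s.X, z < y ∧ (∀ u, z ≤ u → u < y → u ∈ s.D) ∧ ∀ u, z < u → u < y → u ∉ s.X := by
  intro k
  induction k with
  | zero =>
    intro z hz hk
    have h1 : z ≤ s.D.sup id := Finset.le_sup (f := id) hz
    by_cases hX : z + 1 ∈ s.X
    · refine ⟨z + 1, hX, by omega, ?_, ?_⟩
      · intro u g1 g2
        have : u = z := by omega
        rwa [this]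
      · intro u g1 g2
        omega
    · have h2 := hs.bdR z hz hX
      have h3 : z + 1 ≤ s.D.sup id := Finset.le_sup (f := id) h2
      omega
  | succ k ih =>
    intro z hz hk
    by_cases hX : z + 1 ∈ s.X
    · refine ⟨z + 1, hX, by omega, ?_, ?_⟩
      · intro u g1 g2
        have : u = z := by omega
        rwa [this]
      · intro u g1 g2
        omega
    · have h2 := hs.bdR z hz hX
      have h3 : z + 1 ≤ s.D.sup id := Finset.le_sup (f := id) h2
      obtain ⟨y, g1, g2, g3, g4⟩ := ih (z + 1) h2 (by omega)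
      refine ⟨y, g1, by omega, ?_, ?_⟩
      · intro u e1 e2
        rcases Nat.lt_or_ge z u with e | e
        · exact g3 u (by omega) e2
        · have : u = z := by omega
          rwa [this]
      · intro u e1 e2
        rcases Nat.lt_or_ge (z + 1) u with e | e
        · exact g4 u e e2
        · have : u = z + 1 := by omega
          rwa [this]

/-- the edge around the vertex `z + 1`, if it is not a mark and both adjacent units are present -/
theorem edge_around {s : St} (hs : s.Valid) {z : ℕ} (hz : z + 1 ∉ s.X) (hD : z ∈ s.D) (hD' : z + 1 ∈ s.D) :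
    ∃ x y, s.Edge x y ∧ x < z + 1 ∧ z + 1 < y := by
  obtain ⟨x, h1, h2, h3, h4⟩ := Path_left hs z hD
  obtain ⟨y, g1, g2, g3, g4⟩ := Path_right hs _ (z + 1) hD' le_rfl
  refine ⟨x, y, ⟨h1, g1, by omega, ?_, ?_⟩, by omega, g2⟩
  · intro u e1 e2
    rcases Nat.lt_or_ge z u with e | e
    · exact g3 u (by omega) e2
    · exact h3 u e1 e
  · intro u e1 e2
    rcases Nat.lt_or_ge z u with e | e
    · rcases Nat.lt_or_ge (z + 1) u with e' | e'
      · exact g4 u e' e2
      · have : u = z + 1 := by omega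
        rwa [this]
    · exact h4 u e1 e

theorem edge_right {s : St} (hs : s.Valid) {x : ℕ} (hx : x ∈ s.X) (hD : x ∈ s.D) : ∃ y, s.Edge x y := by
  obtain ⟨y, g1, g2, g3, g4⟩ := Path_right hs _ x hD le_rfl
  exact ⟨y, hx, g1, g2, g3, g4⟩

theorem edge_left {s : St} (hs : s.Valid) {u : ℕ} (hx : u + 1 ∈ s.X) (hD : u ∈ s.D) : ∃ y, s.Edge y (u + 1) := by
  obtain ⟨x, h1, h2, h3, h4⟩ := Path_left hs u hD
  exact ⟨x, h1, hx, by omega, fun v g1 g2 => h3 v g1 (by omega), fun v g1 g2 => h4 v g1 (by omega)⟩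

end PF
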