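import Pool.Agent.H1.PF.RelOk
import Pool.Agent.H1.PF.Kp
import Pool.Agent.H1.PF.Path

set_option autoImplicit false

/-!
# PF IValid: the initial state is valid (helper1)

`mem_X`: the range is automatic: `x = j * Lam + t`, `t ≤ len (S[j]) < Lam`, `j < |S|`.
`valid_st`: relations: `mem_rels`, `relOk`. The ends: `r.p` (unit `r.p ∈ D`, `mZ = tk c (pt i c) ∈ M1 i ⊆ MM`), `r.p + r.l` (`r.p + r.l - 1 ∈ D`, `mZ = c`), `r.q` and `r.q + r.l` are `r.Q 0`, `r.Q r.l` in some order, with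
`mZ = y i * tk c _`, `y i * c`, in `MM` (`M1_MM`). Classes: `kp_pair`. `bdL`: otherwise `x` is a left boundary, `mZ x ∈ M0` (`left_M0`), so `x ∈ X`. `bdR`: if `x + 1 ∉ D` then `mZ (x+1) ∈ S` (`bdR_S`), so `x + 1 ∈ X`.
`v0`: `y i ≠ 1` (`al` injective; `0 < n`), so for `h = tk (y i) 1` the position `P h - 1` is in `D` and `mZ = 1` (`P1_mem`, `mZ_P1`); `Nat.sInf_mem`.
`noiso_st`: by definition of `X`. `sgn_st`, `full_st`: from `RelOk` (`(mZ p)⁻¹ * mZ (p + j)` and `(y * a)⁻¹ * (y * b) = a⁻¹ * b`).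
-/

namespace PF

namespace Dat

variable {n : ℕ} (d : Dat n)

theorem mem_X {x : ℕ} : x ∈ d.X ↔ (x ∈ d.D ∨ ∃ u ∈ d.D, u + 1 = x) ∧ d.mZ x ∈ d.MM := by
  unfold X
  rw [Finset.mem_filter]
  constructor
  · exact fun h => h.2
  · intro h
    refine ⟨?_, h⟩
    rcases h.1 with h1 | ⟨u, hu, rfl⟩
    · exact Finset.mem_of_mem_filter _ h1
    · obtain ⟨h1, -, h3, -⟩ := D_name hu
      rw [Finset.mem_range, ← h3]
      unfold P
      have h4 := blk_lt h1
      have h5 := len_lt_Lam h1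
      have h6 : (d.blk (d.mZ (u + 1)) + 1) * d.Lam ≤ d.S.length * d.Lam :=
        Nat.mul_le_mul_right _ h4
      rw [Nat.add_mul, Nat.one_mul] at h6
      omega

private theorem IValid_v0 : ∃ x, x ∈ d.X ∧ d.mZ x = 1 := by
  have hy : d.y ⟨0, d.hn⟩ ≠ 1 := by
    intro h
    unfold y at h
    exact FreeGroup.of_ne_one _ (d.al.injective (h.trans (map_one _).symm))
  have hlen : 0 < len (d.y ⟨0, d.hn⟩) := by
    rw [Nat.pos_iff_ne_zero]
    intro h
    exact hy ((len_eq_zero _).1 h)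
  have hl : len (tk (d.y ⟨0, d.hn⟩) 1) = 1 := by
    rw [len_tk]
    omega
  have hp : d.PreS (tk (d.y ⟨0, d.hn⟩) 1) := preS_tk (preS_of_mem (d.y_mem_S _)) 1
  have h1 : tk (d.y ⟨0, d.hn⟩) 1 ≠ 1 := by
    intro h
    rw [(len_eq_zero _).2 h] at hl
    omega
  have hm : d.mZ (d.P (tk (d.y ⟨0, d.hn⟩) 1) - 1) = 1 := by
    rw [mZ_P1 hp h1, hl]
    exact tk_zero _
  refine ⟨d.P (tk (d.y ⟨0, d.hn⟩) 1) - 1, (d.mem_X).2 ⟨Or.inl (P1_mem hp h1), ?_⟩, hm⟩
  rw [hm]
  exact M0_MM (S_M0 d.one_mem_S)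

theorem valid_st : d.st.Valid := by
  have hX : ∀ i c, c ∈ d.M1 i → c ≠ 1 → ∀ k, k ≤ (d.rel i c).l → tk c (d.pt i c + k) ∈ d.M1 i →
      (d.rel i c).p + k ∈ d.X ∧ (d.rel i c).Q k ∈ d.X := by
    intro i c hc h1 k hk hM
    have ok := relOk hc h1
    have hpos := ok.hl.2
    constructor
    · refine (d.mem_X).2 ⟨?_, ?_⟩
      · rcases Nat.lt_or_ge k (d.rel i c).l with h | h
        · exact Or.inl (ok.Dp k h)
        · refine Or.inr ⟨(d.rel i c).p + (k - 1), ok.Dp (k - 1) (by omega), by omega⟩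
      · rw [ok.mp k hk]
        exact (M1_MM hM).1
    · refine (d.mem_X).2 ⟨?_, ?_⟩
      · by_cases hs : (d.rel i c).s = true
        · have hQ : (d.rel i c).Q k = (d.rel i c).q + k := by
            unfold Rel.Q
            rw [if_pos hs]
          rw [hQ]
          rcases Nat.lt_or_ge k (d.rel i c).l with h | h
          · exact Or.inl (ok.Dq k h)
          · exact Or.inr ⟨(d.rel i c).q + (k - 1), ok.Dq (k - 1) (by omega), by omega⟩
        · have hQ : (d.rel i c).Q k = (d.rel i c).q + ((d.rel i c).l - k) := by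
            unfold Rel.Q
            rw [if_neg hs]
          rw [hQ]
          rcases Nat.eq_zero_or_pos k with h | h
          · exact Or.inr ⟨(d.rel i c).q + ((d.rel i c).l - k - 1), ok.Dq _ (by omega), by omega⟩
          · exact Or.inl (ok.Dq _ (by omega))
      · rw [ok.mq k hk]
        exact (M1_MM hM).2
  have hM0 : ∀ i c, c ∈ d.M1 i → c ≠ 1 → tk c (d.pt i c + 0) ∈ d.M1 i := by
    intro i c hc h1
    exact (pt_spec hc h1).2.1
  have hMl : ∀ i c, c ∈ d.M1 i → c ≠ 1 → tk c (d.pt i c + (d.rel i c).l) = c := by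
    intro i c hc h1
    have ok := relOk hc h1
    have h2 := (pt_spec hc h1).1
    apply tk_self
    rw [ok.hl.1]
    omega
  refine ⟨?_, ?_, ?_, ?_, ?_, ?_, ?_⟩
  · intro r hr
    obtain ⟨i, c, hc, h1, rfl⟩ := mem_rels.1 hr
    exact (relOk hc h1).hl.2
  · intro r hr
    obtain ⟨i, c, hc, h1, rfl⟩ := mem_rels.1 hr
    have e0 := hX i c hc h1 0 (Nat.zero_le _) (hM0 i c hc h1)
    have el := hX i c hc h1 (d.rel i c).l le_rfl (by rw [hMl i c hc h1]; exact hc)
    show (d.rel i c).p ∈ d.X ∧ (d.rel i c).p + (d.rel i c).l ∈ d.X ∧ (d.rel i c).q ∈ d.X ∧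
      (d.rel i c).q + (d.rel i c).l ∈ d.X
    refine ⟨e0.1, el.1, ?_, ?_⟩
    · by_cases hs : (d.rel i c).s = true
      · have := e0.2
        unfold Rel.Q at this
        rw [if_pos hs] at this
        exact this
      · have := el.2
        unfold Rel.Q at this
        rw [if_neg hs, Nat.sub_self] at this
        exact this
    · by_cases hs : (d.rel i c).s = true
      · have := el.2
        unfold Rel.Q at this
        rw [if_pos hs] at this
        exact this
      · have := e0.2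
        unfold Rel.Q at this
        rw [if_neg hs, Nat.sub_zero] at this
        exact this
  · intro r hr j hj
    obtain ⟨i, c, hc, h1, rfl⟩ := mem_rels.1 hr
    exact ⟨(relOk hc h1).Dp j hj, (relOk hc h1).Dq j hj⟩
  · intro r hr
    obtain ⟨i, c, hc, h1, rfl⟩ := mem_rels.1 hr
    have ok := relOk hc h1
    constructor
    · show d.kp (d.mZ (d.rel i c).p) = d.kp (d.mZ ((d.rel i c).Q 0))
      have h2 := ok.mp 0 (Nat.zero_le _)
      rw [Nat.add_zero] at h2
      rw [h2, ok.mq 0 (Nat.zero_le _)]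
      exact d.kp_pair (hM0 i c hc h1)
    · show d.kp (d.mZ ((d.rel i c).p + (d.rel i c).l)) = d.kp (d.mZ ((d.rel i c).Q (d.rel i c).l))
      rw [ok.mp _ le_rfl, ok.mq _ le_rfl, hMl i c hc h1]
      exact d.kp_pair hc
  · intro x hx hxX
    by_contra hne
    apply hxX
    refine (d.mem_X).2 ⟨Or.inl hx, M0_MM (left_M0 hx ?_)⟩
    intro u hu h
    exact hne ⟨u, hu, h⟩
  · intro x hx hxX
    by_contra hne
    apply hxX
    exact (d.mem_X).2 ⟨Or.inr ⟨x, hx, rfl⟩, M0_MM (S_M0 (bdR_S hx hne))⟩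
  · exact (Nat.sInf_mem (d.IValid_v0)).1

theorem mZ_v0 : d.mZ d.st.v0 = 1 := by
  exact (Nat.sInf_mem (d.IValid_v0)).2

end Dat

end PF
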