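import Pool.Agent.H1.PF.RelOk
import Pool.Agent.H1.PF.Kp
import Pool.Agent.H1.PF.IValid

set_option autoImplicit false

/-!
# PF ISgn: the initial state is valid (helper1)

`mem_X`: the range is automatic: `x = j * Lam + t`, `t ≤ len (S[j]) < Lam`, `j < |S|`.
`valid_st`: relations: `mem_rels`, `relOk`. The ends: `r.p` (unit `r.p ∈ D`, `mZ = tk c (pt i c) ∈ M1 i ⊆ MM`), `r.p + r.l` (`r.p + r.l - 1 ∈ D`, `mZ = c`), `r.q` and `r.q + r.l` are `r.Q 0`, `r.Q r.l` in some order, with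
`mZ = y i * tk c _`, `y i * c`, in `MM` (`M1_MM`). Classes: `kp_pair`. `bdL`: otherwise `x` is a left boundary, `mZ x ∈ M0` (`left_M0`), so `x ∈ X`. `bdR`: if `x + 1 ∉ D` then `mZ (x+1) ∈ S` (`bdR_S`), so `x + 1 ∈ X`.
`v0`: `y i ≠ 1` (`al` injective; `0 < n`), so for `h = tk (y i) 1` the position `P h - 1` is in `D` and `mZ = 1` (`P1_mem`, `mZ_P1`); `Nat.sInf_mem`.
`noiso_st`: by definition of `X`. `sgn_st`, `full_st`: from `RelOk` (`(mZ p)⁻¹ * mZ (p + j)` and `(y * a)⁻¹ * (y * b) = a⁻¹ * b`).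
-/

namespace PF

namespace Dat

variable {n : ℕ} (d : Dat n)

theorem sgn_st : d.st.Sgn d.sg := by
  intro r hr j hj
  obtain ⟨i, c, hc, h1, rfl⟩ := mem_rels.1 (show r ∈ d.rels from hr)
  exact (relOk hc h1).sgn j hj

theorem full_st : d.st.Full d.mZ := by
  intro r hr j hj
  obtain ⟨i, c, hc, h1, rfl⟩ := mem_rels.1 (show r ∈ d.rels from hr)
  have ok := relOk hc h1
  have h0 := ok.mp 0 (Nat.zero_le _)
  rw [Nat.add_zero, Nat.add_zero] at h0
  have q0 := ok.mq 0 (Nat.zero_le _)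
  rw [Nat.add_zero] at q0
  rw [h0, ok.mp j hj, q0, ok.mq j hj]
  group

theorem noiso_st : d.st.NoIso := by
  intro x hx
  exact (d.mem_X.1 (show x ∈ d.X from hx)).1

end Dat

end PF
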