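import Pool.Agent.H1.PF.ICert
import Pool.Agent.H1.PF.IConn
import Pool.Agent.H1.PF.IChi
import Pool.Agent.H1.PF.ISgn
import Pool.Agent.H1.PF.ICount
import Pool.Agent.H1.PF.IForest

set_option autoImplicit false

/-!
# PF IThm: the initial state (helper1; assembly)
-/

namespace PF

theorem init_exists {n : ℕ} (hn : 0 < n) (al : F n ≃* F n) (w : List (Fin n × Bool))
    (hp : al (FreeGroup.mk w) ∈ Subsemigroup.closure (Set.range (FreeGroup.of : Fin n → FreeGroup (Fin n)))) :
    ∃ (s : St) (sg : ℕ → Bool) (m : ℕ → FreeGroup (Fin n)) (bl : ℕ → ℕ), Ok n sg m s ∧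
      Mac (bdT n w.length) (2 * bdT n w.length + 1) (bdT n w.length) s bl ∧
      Cert (s.toFS sg) n (3 ^ bdT n w.length + bdT n w.length) w := by
  let d : Dat n := ⟨al, w.length, hn⟩
  refine ⟨d.st, d.sg, d.mZ, fun u => u / d.Lam, ⟨d.valid_st, d.sgn_st, d.full_st, d.conn_st, d.chi_st⟩, ?_, ?_⟩
  · refine ⟨d.noiso_st, d.forest_st, d.blok_st, d.kap_st, ?_, d.V_st⟩
    have h := d.rels_length
    change d.rels.length ≤ 2 * bdT n d.N + 1
    omega
  · exact d.cert_st d.card_MM (Nat.le_succ _) hp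

end PF
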