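import Pool.Agent.H1.PF.Basic
import Pool.Agent.H1.PP.Chk

set_option autoImplicit false

/-!
# PF Init: the initial state (helper1)

`F n = FreeGroup (Fin n)` with its Cayley tree: vertices = elements, `h ≠ 1` is also the name of the edge from `h⁻` (= `h` without its last letter) to `h`.
`len g` = length of the reduced word, `tk g t` = the prefix of length `t`, `pre g h` = `g` is a prefix of `h`.

`d : Dat n`: an automorphism `al`, a number `N`, `0 < n`; `d.y i = al (x_i)`, `d.S` = the list of all `al (mk L)`, `|L| ≤ N + 1` (its first element is 1).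
* `d.PreS h`: `h` is a prefix of a member of `S` (`d.PreF` = the finite set of these `h`): the hull `H` of `S`.
* `d.blk h` = the first index `j` such that `h` is a prefix of `S[j]`. `H` is cut into blocks: the unit `h` belongs to the block `blk h`.
* position of the vertex at height `t` in the block `j`: `j * Lam + t` (`Lam` > all lengths `+ 1`). `d.el x = S[x / Lam]`, `d.mZ x = tk (el x) (x % Lam)` = the vertex at the position `x`.
  `d.P h = blk h * Lam + len h` = the position of the upper end of the unit `h`; the unit `h` has the number `P h - 1`.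
* `d.D` = the present units, `d.sg x` = the sign of the letter of the unit `x`.
* `d.M0` = `S` and the lower ends of the blocks. It contains all branch points of `H`.
* `d.B i` = all prefixes of the `t ∈ S` with `y i * t ∈ S` (the domain of the partial isometry `h ↦ y i * h` of `H`). `d.M1 i` = the `h ∈ B i` with `h ∈ M0` or `y i * h ∈ M0`.
* `d.MM` = `M0` and all `M1 i`, `y i * M1 i`. `d.X` = the positions (adjacent to present units) of the members of `MM`.
* `d.pt i c` (for `c ∈ M1 i`, `c ≠ 1`) = the largest `t < len c` with `tk c t ∈ M1 i`. `d.rel i c` = the relation which glues the segment from `tk c t` to `c` to its image under `y i`.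
* `d.prs` = the list of all pairs `(i, a)`, `a ∈ M1 i`; `d.kp h` = the class of the vertex `h`: starting from different classes for the members of `MM`, glue `a` and `y i * a` for all pairs of `prs`.
-/

namespace PF

abbrev F (n : ℕ) : Type := FreeGroup (Fin n)

def len {n : ℕ} (g : F n) : ℕ := g.toWord.length

def tk {n : ℕ} (g : F n) (t : ℕ) : F n := FreeGroup.mk (g.toWord.take t)

def pre {n : ℕ} (g h : F n) : Prop := g.toWord <+: h.toWord

structure Dat (n : ℕ) where
  al : F n ≃* F n
  N : ℕ
  hn : 0 < n

namespace Dat

variable {n : ℕ} (d : Dat n)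

def y (i : Fin n) : F n := d.al (FreeGroup.of i)

def S : List (F n) := (PPos.wordsLE n (d.N + 1)).map fun L => d.al (FreeGroup.mk L)

def PreS (h : F n) : Prop := ∃ s ∈ d.S, pre h s

open Classical in
noncomputable def PreF : Finset (F n) := d.S.toFinset.biUnion fun s => (Finset.range (len s + 1)).image (tk s)

open Classical in
noncomputable def blk (h : F n) : ℕ := d.S.findIdx fun s => decide (pre h s)

def Lam : ℕ := (d.S.map len).foldr max 0 + 2

def el (x : ℕ) : F n := d.S.getD (x / d.Lam) 1

def mZ (x : ℕ) : F n := tk (d.el x) (x % d.Lam)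

noncomputable def P (h : F n) : ℕ := d.blk h * d.Lam + len h

open Classical in
noncomputable def D : Finset ℕ := (Finset.range (d.S.length * d.Lam)).filter fun x =>
  x % d.Lam < len (d.el x) ∧ d.blk (tk (d.el x) (x % d.Lam + 1)) = x / d.Lam

def sg (x : ℕ) : Bool := ((d.el x).toWord[x % d.Lam]?.map Prod.snd).getD true

open Classical in
noncomputable def M0 : Finset (F n) := d.S.toFinset ∪ (d.D.filter fun x => ∀ u ∈ d.D, u + 1 ≠ x).image d.mZ

open Classical in
noncomputable def B (i : Fin n) : Finset (F n) := d.PreF.filter fun h => ∃ t ∈ d.S, d.y i * t ∈ d.S ∧ pre h t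

open Classical in
noncomputable def M1 (i : Fin n) : Finset (F n) := (d.B i).filter fun h => h ∈ d.M0 ∨ d.y i * h ∈ d.M0

open Classical in
noncomputable def MM : Finset (F n) := d.M0 ∪ Finset.univ.biUnion fun i => d.M1 i ∪ (d.M1 i).image (fun h => d.y i * h)

open Classical in
noncomputable def X : Finset ℕ := (Finset.range (d.S.length * d.Lam)).filter fun x =>
  (x ∈ d.D ∨ ∃ u ∈ d.D, u + 1 = x) ∧ d.mZ x ∈ d.MM

open Classical in
noncomputable def pt (i : Fin n) (c : F n) : ℕ := Nat.findGreatest (fun t => t < len c ∧ tk c t ∈ d.M1 i) (len c)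

noncomputable def rel (i : Fin n) (c : F n) : Rel :=
  if len (d.y i * tk c (d.pt i c)) < len (d.y i * c) then
    ⟨d.blk c * d.Lam + d.pt i c, d.blk (d.y i * c) * d.Lam + len (d.y i * tk c (d.pt i c)), len c - d.pt i c, true⟩
  else
    ⟨d.blk c * d.Lam + d.pt i c, d.blk (d.y i * tk c (d.pt i c)) * d.Lam + len (d.y i * c), len c - d.pt i c, false⟩

noncomputable def rels : List Rel := (List.finRange n).flatMap fun i => ((d.M1 i).erase 1).toList.map (d.rel i)

noncomputable def prs : List (Fin n × F n) := (List.finRange n).flatMap fun i => (d.M1 i).toList.map fun a => (i, a)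

/-- glue the classes of `a` and `b` -/
def mergeK {n : ℕ} (κ : F n → ℕ) (a b : F n) : F n → ℕ := fun h => if κ h = κ a then κ b else κ h

noncomputable def kp : F n → ℕ := d.prs.foldl (fun κ p => mergeK κ p.2 (d.y p.1 * p.2)) (fun h => d.MM.toList.idxOf h)

open Classical in
/-- the initial state -/
noncomputable def st : St where
  D := d.D
  X := d.X
  cl := fun x => d.kp (d.mZ x)
  rels := d.rels
  v0 := sInf {x | x ∈ d.X ∧ d.mZ x = 1}

end Dat

/-- the bound for the numbers of classes and relations and for the complexity of the initial state -/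
def bdT (n N : ℕ) : ℕ := (2 * n + 1) * (4 * (PPos.wordsLE n (N + 1)).length + 2)

end PF
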