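import Pool.Agent.H1.PF.Run

set_option autoImplicit false

/-!
# PF KapA: the complexity does not increase when a maximal run is removed (helper1)

`r` (first side `P = [p, p+l)`), the run `[c, d) ⊆ P` is covered by `P` only. `b = bl p` is the block of `P`, `fr` is a new block name,
`nbl bl b d fr u = fr` if `d ≤ u` and `bl u = b`, and `= bl u` otherwise. The new list is `N = trimR r L c d`: the sides of `L`, the part `P1 = [p, c)` of `P` and the
corresponding part `Q1` of the second side `Q` (if `p < c`), the part `P2 = [d, p + l)` and the corresponding part `Q2` of `Q` (if `d < p + l`).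

* `blok_trim`: a side `t` of `L` (or `Q`) in the block `b` does not meet `[c, d)`, hence lies in `u < c` or in `u ≥ d`, so it is inside one block of `nbl`. Sides in other blocks: clear.
  `P1` is in the block `b`, `P2` in the block `fr`.
* `kap_trim`: let `S` be a finite set of names containing `b`, `fr` and all blocks of both lists; `kap` may be computed as a sum over `S` (blocks of weight 0 contribute 0).
  Let `π ∈ {0, 1, 2}` be the number of parts. Weights: for `v ≠ b, fr`: `w' v = w v + (if bl q = v then π - 1 else 0)`; `w' b + w' fr = (w b - 1 + π) + (if bl q = b then π - 1 else 0)`.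
  (`w fr = 0`; if `bl q = b` then the parts `Q1`, `Q2` are both in `b` or both in `fr`.) Use: `(x - 2) + (y - 2) ≤ (x + y) - 2` (truncated), and if `x, y ≥ 2` then `(x - 2) + (y - 2) = (x + y) - 4`.
  If `π ≤ 1` everything is monotone. If `π = 2`: the unit `c - 1` has coverage `≥ 2`, so a side different from `P` covers it: it is in the block `b` and not to the right of `d`; together with `P1`:
  `w' b ≥ 2`; in the same way `w' fr ≥ 2`. So the contribution of `b, fr` changes from `w b - 2` to `w b + 1 (+ 1 if bl q = b) - 4`, and the contribution of `bl q ≠ b` increases by at most one.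
* `forest_trim`: `ue N` is a subfamily of `ue (r :: L)` up to order: `ue [r.cutL j]` = the first `j` members of `ue [r]`, `ue [r.cutR j]` = the last `l - j` members.
-/

namespace PF

/-- the new block map -/
def nbl (bl : ℕ → ℕ) (b d fr : ℕ) : ℕ → ℕ := fun u => if d ≤ u ∧ bl u = b then fr else bl u

private theorem KapA_int {bl : ℕ → ℕ} {b c d fr a m : ℕ} (hcd : c < d)
    (hb : ∀ u, a ≤ u → u < a + m → bl u = bl a)
    (hfree : ∀ u, c ≤ u → u < d → ¬ (a ≤ u ∧ u < a + m)) {u u' : ℕ} (h1 : a ≤ u) (h2 : u < a + m)
    (h1' : a ≤ u') (h2' : u' < a + m) : nbl bl b d fr u = nbl bl b d fr u' := by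
  have e : bl u = bl u' := (hb u h1 h2).trans (hb u' h1' h2').symm
  have hiff : d ≤ u ↔ d ≤ u' := by
    constructor
    · intro h
      by_contra h'
      rcases Nat.lt_or_ge u' c with h3 | h3
      · exact hfree c le_rfl hcd ⟨by omega, by omega⟩
      · exact hfree u' h3 (by omega) ⟨h1', h2'⟩
    · intro h
      by_contra h'
      rcases Nat.lt_or_ge u c with h3 | h3
      · exact hfree c le_rfl hcd ⟨by omega, by omega⟩
      · exact hfree u h3 (by omega) ⟨h1, h2⟩
  unfold nbl
  rw [e]
  simp only [hiff]

private theorem KapA_sides_append (A B : List Rel) : sides (A ++ B) = sides A ++ sides B := by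
  unfold sides
  exact List.flatMap_append

private theorem KapA_mem_sides {L : List Rel} {t : ℕ × ℕ} : t ∈ sides L ↔
    ∃ r ∈ L, t = (r.p, r.l) ∨ t = (r.q, r.l) := by
  unfold sides
  rw [List.mem_flatMap]
  simp only [List.mem_cons, List.not_mem_nil, or_false]

theorem blok_trim {bl : ℕ → ℕ} {r : Rel} {L : List Rel} (hb : BlOk bl (r :: L)) {c d fr : ℕ} (h1 : r.p ≤ c) (hcd : c < d)
    (h2 : d ≤ r.p + r.l) (hfree : Free1 r L c d) (hfr : ∀ t ∈ sides (r :: L), bl t.1 ≠ fr) (hl : ∀ t ∈ r :: L, 0 < t.l) :
    BlOk (nbl bl (bl r.p) d fr) (trimR r L c d) := by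
  have hP : ∀ u, r.p ≤ u → u < r.p + r.l → bl u = bl r.p := fun u h3 h4 =>
    hb (r.p, r.l) (KapA_mem_sides.mpr ⟨r, by simp, Or.inl rfl⟩) u h3 h4
  have hQ : ∀ u, r.q ≤ u → u < r.q + r.l → bl u = bl r.q := fun u h3 h4 =>
    hb (r.q, r.l) (KapA_mem_sides.mpr ⟨r, by simp, Or.inr rfl⟩) u h3 h4
  have hQf : ∀ u, c ≤ u → u < d → ¬ (r.q ≤ u ∧ u < r.q + r.l) := fun u h3 h4 => (hfree u h3 h4).1
  intro t ht u hu1 hu2
  rw [KapA_mem_sides] at ht
  obtain ⟨r', hr', ht⟩ := ht
  unfold trimR at hr'
  rw [List.mem_append, List.mem_append] at hr'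
  rcases hr' with hr' | hr' | hr'
  · split_ifs at hr' with hc
    · rw [List.mem_singleton] at hr'
      subst hr'
      rcases ht with ht | ht
      · subst ht
        simp only [Rel.cutL] at hu1 hu2 ⊢
        have e1 : bl u = bl r.p := hP u hu1 (by omega)
        unfold nbl
        rw [if_neg (by omega), if_neg (by omega)]
        exact e1
      · subst ht
        simp only [Rel.cutL] at hu1 hu2 ⊢
        refine KapA_int hcd hQ hQf ?_ ?_ ?_ ?_
        · split_ifs at hu1 <;> omega
        · split_ifs at hu2 <;> omega
        · split_ifs <;> omega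
        · split_ifs <;> omega
    · exact absurd hr' List.not_mem_nil
  · split_ifs at hr' with hc
    · rw [List.mem_singleton] at hr'
      subst hr'
      rcases ht with ht | ht
      · subst ht
        simp only [Rel.cutR] at hu1 hu2 ⊢
        have e1 : bl u = bl r.p := hP u (by omega) (by omega)
        have e2 : bl (r.p + (d - r.p)) = bl r.p := hP _ (by omega) (by omega)
        unfold nbl
        rw [if_pos ⟨by omega, e1⟩, if_pos ⟨by omega, e2⟩]
      · subst ht
        simp only [Rel.cutR] at hu1 hu2 ⊢
        refine KapA_int hcd hQ hQf ?_ ?_ ?_ ?_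
        · split_ifs at hu1 <;> omega
        · split_ifs at hu2 <;> omega
        · split_ifs <;> omega
        · split_ifs <;> omega
    · exact absurd hr' List.not_mem_nil
  · have hl0 : 0 < r'.l := hl r' (List.mem_cons_of_mem _ hr')
    rcases ht with ht | ht
    · subst ht
      simp only at hu1 hu2 ⊢
      refine KapA_int hcd (a := r'.p) (m := r'.l) ?_ ?_ hu1 hu2 le_rfl (by omega)
      · intro v h3 h4
        exact hb (r'.p, r'.l) (KapA_mem_sides.mpr ⟨r', List.mem_cons_of_mem _ hr', Or.inl rfl⟩) v h3 h4
      · intro v h3 h4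
        exact ((hfree v h3 h4).2 r' hr').1
    · subst ht
      simp only at hu1 hu2 ⊢
      refine KapA_int hcd (a := r'.q) (m := r'.l) ?_ ?_ hu1 hu2 le_rfl (by omega)
      · intro v h3 h4
        exact hb (r'.q, r'.l) (KapA_mem_sides.mpr ⟨r', List.mem_cons_of_mem _ hr', Or.inr rfl⟩) v h3 h4
      · intro v h3 h4
        exact ((hfree v h3 h4).2 r' hr').2

private theorem KapA_ue_append (A B : List Rel) : ue (A ++ B) = ue A ++ ue B := by
  unfold ue
  exact List.flatMap_append

private theorem KapA_ue_single (r : Rel) :
    ue [r] = (List.range r.l).map fun j => (r.p + j, r.U j) := by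
  unfold ue
  simp only [List.flatMap_cons, List.flatMap_nil, List.append_nil]

private theorem KapA_cutL (r : Rel) {j : ℕ} (hj : j ≤ r.l) :
    ue [r.cutL j] = (List.range j).map fun i => (r.p + i, r.U i) := by
  rw [KapA_ue_single]
  refine List.map_congr_left fun i hi => ?_
  have hi' : i < j := List.mem_range.mp hi
  simp only [Rel.cutL, Rel.U]
  refine Prod.ext rfl ?_
  split_ifs
  · rfl
  · simp only
    omega

private theorem KapA_cutR (r : Rel) {j : ℕ} (hj : j ≤ r.l) :
    ue [r.cutR j] = ((List.range (r.l - j)).map (j + ·)).map fun i => (r.p + i, r.U i) := by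
  rw [KapA_ue_single, List.map_map]
  refine List.map_congr_left fun i hi => ?_
  have hi' : i < r.l - j := List.mem_range.mp hi
  simp only [Rel.cutR, Rel.U, Function.comp]
  refine Prod.ext ?_ ?_
  · simp only
    omega
  · simp only
    split_ifs <;> omega

theorem forest_trim {r : Rel} {L : List Rel} {c d : ℕ} (h1 : r.p ≤ c) (hcd : c < d) (h2 : d ≤ r.p + r.l) (hF : Forest (ue (r :: L))) :
    Forest (ue (trimR r L c d)) := by
  have hsub : (ue (trimR r L c d)).Sublist (ue (r :: L)) := by
    have e1 : ue (r :: L) = ((List.range (d - r.p)).map fun i => (r.p + i, r.U i)) ++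
        ((((List.range (r.l - (d - r.p))).map ((d - r.p) + ·)).map fun i => (r.p + i, r.U i)) ++
          ue L) := by
      have e2 : ue (r :: L) = ue [r] ++ ue L := by
        rw [← KapA_ue_append]
        rfl
      have e3 : List.range r.l = List.range (d - r.p) ++
          (List.range (r.l - (d - r.p))).map ((d - r.p) + ·) := by
        rw [← List.range_add]
        congr 1
        omega
      rw [e2, KapA_ue_single, e3, List.map_append, List.append_assoc]
    rw [e1]
    unfold trimR
    rw [KapA_ue_append, KapA_ue_append]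
    refine List.Sublist.append ?_ (List.Sublist.append ?_ (List.Sublist.refl _))
    · split_ifs with hc
      · rw [KapA_cutL r (by omega)]
        exact List.Sublist.map _ (List.range_sublist.mpr (by omega))
      · exact List.nil_sublist _
    · split_ifs with hc
      · rw [KapA_cutR r (by omega)]
      · exact List.nil_sublist _
  intro L' hL' hne
  exact hF L' (hL'.trans hsub.subperm) hne

theorem length_trim (r : Rel) (L : List Rel) (c d : ℕ) (h1 : r.p ≤ c) (h2 : d ≤ r.p + r.l) :
    (trimR r L c d).length ≤ L.length + 2 ∧ (¬ (r.p < c ∧ d < r.p + r.l) → (trimR r L c d).length ≤ L.length + 1) := by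
  unfold trimR
  simp only [List.length_append]
  constructor
  · split_ifs <;> simp <;> omega
  · intro h
    split_ifs with h3 h4
    · exact absurd ⟨h3, h4⟩ h
    · simp
      omega
    · simp
      omega
    · simp

end PF
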