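import Pool.Agent.H1.PF.Run

set_option autoImplicit false

/-!
# PF KapM: two relations with the same first side are replaced by one (helper1)

`r : P → Q`, `r' : P → Q'`, and the units of `P` are in no other side. New list: `r.comp r' :: L` (`Q → Q'`).
* `sides (r.comp r' :: L)` is a sublist (up to order) of `sides (r :: r' :: L)` (`r'.l = r.l`), so `kap` does not increase, `BlOk` is preserved.
* `forest_merge`: let `L'` be a nonempty subfamily of `ue (r.comp r' :: L)`. Replace every member coming from `r.comp r'` (a pair `(r.U j, r'.U j)`, one for every `j < l`) by the two pairs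
  `(p + j, r.U j)`, `(p + j, r'.U j)`. This is a nonempty subfamily `L''` of `ue (r :: r' :: L)`, so some unit `x` has degree one in `L''`. It is not `p + j`: the unit `p + j` has degree 0 or 2 in `L''`
  (it is in no other side). So its degree in `L'` is the same: one.
  (`ue [r.comp r']` is a permutation of `(List.range l).map fun j => (r.U j, r'.U j)`.)
-/

namespace PF

private theorem KapM_sides {r r' : Rel} (L : List Rel) (hl : r.l = r'.l) :
    (sides (r.comp r' :: L)).Sublist (sides (r :: r' :: L)) := by
  have e1 : sides (r.comp r' :: L) = (r.q, r.l) :: (r'.q, r.l) :: sides L := rfl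
  have e2 : sides (r :: r' :: L) =
      (r.p, r.l) :: (r.q, r.l) :: (r'.p, r'.l) :: (r'.q, r'.l) :: sides L := rfl
  rw [e1, e2, hl]
  exact List.Sublist.cons _ (List.Sublist.cons_cons _ (List.Sublist.cons _
    (List.Sublist.refl _)))

theorem kap_merge (bl : ℕ → ℕ) {r r' : Rel} (L : List Rel) (hl : r.l = r'.l) : kap bl (r.comp r' :: L) ≤ kap bl (r :: r' :: L) := by
  have h := KapM_sides L hl
  unfold kap
  refine le_trans (Finset.sum_le_sum_of_subset (f := fun v => wt bl (r.comp r' :: L) v - 2)
    (t := ((sides (r :: r' :: L)).map (fun t => bl t.1)).toFinset) ?_) ?_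
  · intro v hv
    rw [List.mem_toFinset] at hv ⊢
    exact (h.map _).subset hv
  · refine Finset.sum_le_sum fun v _ => ?_
    have h2 : wt bl (r.comp r' :: L) v ≤ wt bl (r :: r' :: L) v := by
      unfold wt
      exact h.countP_le
    exact Nat.sub_le_sub_right h2 2

theorem blok_merge {bl : ℕ → ℕ} {r r' : Rel} {L : List Rel} (hl : r.l = r'.l) (hb : BlOk bl (r :: r' :: L)) : BlOk bl (r.comp r' :: L) := by
  intro t ht
  exact hb t ((KapM_sides L hl).subset ht)

private theorem KapM_deg_append (A B : List (ℕ × ℕ)) (x : ℕ) :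
    deg (A ++ B) x = deg A x + deg B x := by
  unfold deg
  rw [List.map_append, List.map_append, List.count_append, List.count_append]
  omega

private theorem KapM_deg_perm {A B : List (ℕ × ℕ)} (h : A.Perm B) (x : ℕ) :
    deg A x = deg B x := by
  unfold deg
  rw [(h.map Prod.fst).count_eq x, (h.map Prod.snd).count_eq x]

private theorem KapM_ue_cons (r : Rel) (L : List Rel) :
    ue (r :: L) = ((List.range r.l).map fun j => (r.p + j, r.U j)) ++ ue L := rfl

private theorem KapM_map {A B : Type} {L L' : List A} (h : L.Subperm L') (f : A → B) :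
    (L.map f).Subperm (L'.map f) := by
  obtain ⟨l, h1, h2⟩ := h
  exact ⟨l.map f, h1.map f, h2.map f⟩

private theorem KapM_subperm {J : List ℕ} {l : ℕ} (hJ : J.Sublist (List.range l)) {sg : ℕ → ℕ}
    (h1 : ∀ j, j < l → sg j < l) (h2 : ∀ i j, i < l → j < l → sg i = sg j → i = j) :
    (J.map sg).Subperm (List.range l) := by
  refine List.Nodup.subperm ?_ ?_
  · refine (List.Nodup.sublist hJ List.nodup_range).map_on ?_
    intro i hi j hj hij
    exact h2 i j (List.mem_range.mp (hJ.subset hi)) (List.mem_range.mp (hJ.subset hj)) hij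
  · intro x hx
    rw [List.mem_map] at hx
    obtain ⟨j, hj, hx⟩ := hx
    rw [List.mem_range, ← hx]
    exact h1 j (List.mem_range.mp (hJ.subset hj))

theorem forest_merge {r r' : Rel} {L : List Rel} (hp : r.p = r'.p) (hl : r.l = r'.l) (hfree : Free1 r L r.p (r.p + r.l))
    (hfree' : ∀ u, r.p ≤ u → u < r.p + r.l → ¬ (r'.q ≤ u ∧ u < r'.q + r'.l)) (hF : Forest (ue (r :: r' :: L))) :
    Forest (ue (r.comp r' :: L)) := by
  intro L' hL' hne
  obtain ⟨l0, hl1, hl2⟩ := hL'
  rw [KapM_ue_cons, List.sublist_append_iff] at hl2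
  obtain ⟨l1, l2, rfl, h1, h2⟩ := hl2
  rw [List.sublist_map_iff] at h1
  obtain ⟨J, hJ, rfl⟩ := h1
  change J.Sublist (List.range r.l) at hJ
  have hJl : ∀ j ∈ J, j < r.l := fun j hj => List.mem_range.mp (hJ.subset hj)
  set sg : ℕ → ℕ := fun j => if r.s then j else r.l - 1 - j with hsg
  have hs1 : ∀ j, j < r.l → sg j < r.l := by
    intro j hj
    simp only [hsg]
    split_ifs <;> omega
  have hs2 : ∀ i j, i < r.l → j < r.l → sg i = sg j → i = j := by
    intro i j hi hj hij
    simp only [hsg] at hij
    split_ifs at hij <;> omega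
  have hsub := KapM_subperm hJ hs1 hs2
  have hsub1 : ((J.map sg).map fun j => (r.p + j, r.U j)).Subperm
      ((List.range r.l).map fun j => (r.p + j, r.U j)) := KapM_map hsub _
  have hsub2 : ((J.map sg).map fun j => (r'.p + j, r'.U j)).Subperm
      ((List.range r'.l).map fun j => (r'.p + j, r'.U j)) := by
    rw [← hl]
    exact KapM_map hsub _
  have hsub3 : (((J.map sg).map fun j => (r.p + j, r.U j)) ++
      (((J.map sg).map fun j => (r'.p + j, r'.U j)) ++ l2)).Subperm (ue (r :: r' :: L)) := by
    rw [KapM_ue_cons, KapM_ue_cons]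
    exact hsub1.append (hsub2.append h2.subperm)
  have hne2 : (((J.map sg).map fun j => (r.p + j, r.U j)) ++
      (((J.map sg).map fun j => (r'.p + j, r'.U j)) ++ l2)) ≠ [] := by
    intro h0
    rw [List.append_eq_nil_iff, List.append_eq_nil_iff, List.map_eq_nil_iff,
      List.map_eq_nil_iff] at h0
    apply hne
    have h3 := hl1
    rw [h0.1, h0.2.2] at h3
    exact (List.Perm.nil_eq h3).symm
  obtain ⟨x, hx⟩ := hF _ hsub3 hne2
  refine ⟨x, ?_⟩
  rw [← KapM_deg_perm hl1, KapM_deg_append]
  rw [KapM_deg_append, KapM_deg_append] at hx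
  unfold deg at hx ⊢
  simp only [List.map_map] at hx ⊢
  have e1 : List.map (Prod.fst ∘ (fun j => (r.p + j, r.U j)) ∘ sg) J =
      List.map (Prod.fst ∘ (fun j => (r'.p + j, r'.U j)) ∘ sg) J := by
    refine List.map_congr_left fun j _ => ?_
    simp only [Function.comp, hp]
  have e2 : List.map (Prod.snd ∘ (fun j => (r.p + j, r.U j)) ∘ sg) J =
      List.map (Prod.fst ∘ fun j => ((r.comp r').p + j, (r.comp r').U j)) J := by
    refine List.map_congr_left fun j hj => ?_
    have := hJl j hj
    simp only [Function.comp, Rel.U, Rel.comp, hsg]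
    split_ifs <;> omega
  have e3 : List.map (Prod.snd ∘ (fun j => (r'.p + j, r'.U j)) ∘ sg) J =
      List.map (Prod.snd ∘ fun j => ((r.comp r').p + j, (r.comp r').U j)) J := by
    refine List.map_congr_left fun j hj => ?_
    have := hJl j hj
    simp only [Function.comp, Rel.U, Rel.comp, hsg, ← hl]
    by_cases ha : r.s = true <;> by_cases hb : r'.s = true
    · simp [ha, hb]
    · rw [Bool.not_eq_true] at hb
      simp [ha, hb]
    · rw [Bool.not_eq_true] at ha
      simp [ha, hb]
    · rw [Bool.not_eq_true] at ha hb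
      simp [ha, hb]
      omega
  rw [e1, e2, e3] at hx
  omega

end PF
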