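import Pool.Agent.H1.PF.Defs

set_option autoImplicit false

/-!
# PF Types: there are finitely many types over `Fin k` (helper1)

`FS (Fin k)` embeds into `(Fin k → Fin k → Prop)³ × (Fin k → Fin k → Fin k → Fin k → Prop) × Fin k` (all five fields), which has `(2^(k*k))³ * 2^(k^4) * k` elements
(`Fintype.card_pi`/`Fintype.card_fun`, `Fintype.card Prop = 2`; or use uncurried functions).
-/

namespace PF

/-- the target of the embedding -/
private abbrev TypesT (k : ℕ) : Type :=
  Set (Fin k × Fin k) × Set (Fin k × Fin k) × Set (Fin k × Fin k) ×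
    Set (Fin k × Fin k × Fin k × Fin k) × Fin k

/-- the embedding -/
private def typesE {k : ℕ} (f : FS (Fin k)) : TypesT k :=
  ({p | f.ed p.1 p.2}, {p | f.eqv p.1 p.2}, {p | f.pos p.1 p.2},
    {p | f.rel p.1 p.2.1 p.2.2.1 p.2.2.2}, f.v0)

private theorem typesE_inj (k : ℕ) : Function.Injective (typesE (k := k)) := by
  intro f g h
  obtain ⟨fe, fq, fp, fr, fv⟩ := f
  obtain ⟨ge, gq, gp, gr, gv⟩ := g
  unfold typesE at h
  rw [Prod.mk.injEq, Prod.mk.injEq, Prod.mk.injEq, Prod.mk.injEq] at h
  obtain ⟨h1, h2, h3, h4, h5⟩ := h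
  have e1 : fe = ge := by
    funext a b
    exact congrArg (fun s : Set (Fin k × Fin k) => (a, b) ∈ s) h1
  have e2 : fq = gq := by
    funext a b
    exact congrArg (fun s : Set (Fin k × Fin k) => (a, b) ∈ s) h2
  have e3 : fp = gp := by
    funext a b
    exact congrArg (fun s : Set (Fin k × Fin k) => (a, b) ∈ s) h3
  have e4 : fr = gr := by
    funext a b c d
    exact congrArg (fun s : Set (Fin k × Fin k × Fin k × Fin k) => (a, b, c, d) ∈ s) h4
  have e5 : fv = gv := h5
  rw [e1, e2, e3, e4, e5]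

theorem types_finite (k : ℕ) : Finite (FS (Fin k)) :=
  Finite.of_injective _ (typesE_inj k)

theorem types_card (k : ℕ) : Nat.card (FS (Fin k)) ≤ numT k := by
  classical
  refine (Nat.card_le_card_of_injective _ (typesE_inj k)).trans (le_of_eq ?_)
  rw [Nat.card_eq_fintype_card]
  unfold TypesT numT
  rw [Fintype.card_prod, Fintype.card_prod, Fintype.card_prod, Fintype.card_prod,
    Fintype.card_set, Fintype.card_set, Fintype.card_prod, Fintype.card_prod, Fintype.card_prod,
    Fintype.card_prod, Fintype.card_fin]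
  rw [pow_add]
  have e1 : 2 ^ (3 * k ^ 2) = 2 ^ (k * k) * (2 ^ (k * k) * 2 ^ (k * k)) := by
    rw [← pow_add, ← pow_add]
    congr 1
    ring
  have e2 : k ^ 4 = k * (k * (k * k)) := by ring
  rw [e1, e2]
  ring

end PF
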