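import Pool.Agent.H1.PF.Basic
import Pool.Agent.H1.PF.Types

set_option autoImplicit false

/-!
# PF Pump: shortening a sequence of types (helper1)

`exists_short`: if `b` can be reached from `a` by a relation `r` on a finite type `T` then it can be reached in at most `Nat.card T` steps: `Relation.ReflTransGen r a b` gives some number
of steps; take the least number `l` of steps; a sequence `a = t 0, ..., t l = b` of minimal length is injective (otherwise cut out the part between two equal members), so `l + 1 ≤ Nat.card T`.
`pump`: `Good c` composed `l` times gives `Good (c ^ l)` (induction, `c * (c ^ l * B)`), and `c ^ l ≤ c ^ numT k` (`1 ≤ c`, `Cert.mono`).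
-/

namespace PF

/-- `l` steps of the relation `r` -/
def stepsN {T : Type} (r : T → T → Prop) : ℕ → T → T → Prop
  | 0, a, b => a = b
  | l + 1, a, b => ∃ c, stepsN r l a c ∧ r c b

private theorem Pump_add {T : Type} (r : T → T → Prop) (i j : ℕ) :
    ∀ {a b c : T}, stepsN r i a b → stepsN r j b c → stepsN r (i + j) a c := by
  induction j with
  | zero =>
    intro a b c h1 h2
    have h3 : b = c := h2
    rw [← h3]
    exact h1
  | succ j ih =>
    intro a b c h1 h2
    obtain ⟨d, h3, h4⟩ := h2
    exact ⟨d, ih h1 h3, h4⟩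

private theorem Pump_path {T : Type} (r : T → T → Prop) (l : ℕ) :
    ∀ {a b : T}, stepsN r l a b → ∃ t : ℕ → T, t 0 = a ∧ t l = b ∧
      ∀ i j, i ≤ j → j ≤ l → stepsN r (j - i) (t i) (t j) := by
  induction l with
  | zero =>
    intro a b h
    have h1 : a = b := h
    refine ⟨fun _ => a, rfl, h1, fun i j hij hj => ?_⟩
    have h2 : j - i = 0 := by omega
    rw [h2]
    rfl
  | succ l ih =>
    intro a b h
    obtain ⟨c, h1, h2⟩ := h
    obtain ⟨t, t0, tl, ht⟩ := ih h1
    refine ⟨fun i => if i ≤ l then t i else b, by simp [t0], by simp, fun i j hij hj => ?_⟩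
    by_cases hjl : j ≤ l
    · have hil : i ≤ l := hij.trans hjl
      simp only [if_pos hjl, if_pos hil]
      exact ht i j hij hjl
    · have hj1 : j = l + 1 := by omega
      by_cases hil : i ≤ l
      · simp only [if_pos hil, if_neg hjl]
        have h3 : j - i = (l - i) + 1 := by omega
        rw [h3]
        refine ⟨c, ?_, h2⟩
        rw [← tl]
        exact ht i l hil le_rfl
      · simp only [if_neg hil, if_neg hjl]
        have h3 : j - i = 0 := by omega
        rw [h3]
        rfl

theorem exists_short {T : Type} [Finite T] (r : T → T → Prop) {a b : T} (h : Relation.ReflTransGen r a b) :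
    ∃ l, l ≤ Nat.card T ∧ stepsN r l a b := by
  classical
  have h1 : ∃ l, stepsN r l a b := by
    induction h with
    | refl => exact ⟨0, rfl⟩
    | tail _ h2 ih =>
      obtain ⟨l, hl⟩ := ih
      exact ⟨l + 1, _, hl, h2⟩
  have hspec := Nat.find_spec h1
  have hmin : ∀ m, stepsN r m a b → Nat.find h1 ≤ m := fun m hm => Nat.find_min' h1 hm
  refine ⟨Nat.find h1, ?_, hspec⟩
  set l := Nat.find h1 with hl
  obtain ⟨t, t0, tl, ht⟩ := Pump_path r l hspec
  by_contra hcon
  rw [not_le] at hcon
  have := Fintype.ofFinite T
  rw [Nat.card_eq_fintype_card] at hcon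
  obtain ⟨i, j, hij, hEq⟩ := Fintype.exists_ne_map_eq_of_card_lt (fun i : Fin l => t i) (by
    rw [Fintype.card_fin]
    exact hcon)
  have key : ∀ i j : ℕ, i < j → j < l → t i = t j → False := by
    intro i j hlt hjl heq
    have e1 := ht 0 i (Nat.zero_le _) (by omega)
    have e2 := ht j l (by omega) le_rfl
    rw [t0] at e1
    rw [tl, ← heq] at e2
    have e3 := Pump_add r _ _ e1 e2
    have e4 := hmin _ e3
    omega
  have hne : (i : ℕ) ≠ j := fun h => hij (Fin.ext h)
  rcases Nat.lt_or_gt_of_ne hne with h2 | h2
  · exact key i j h2 j.2 hEq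
  · exact key j i h2 i.2 hEq.symm

theorem pump {k c : ℕ} (hc : 1 ≤ c) {f f' : FS (Fin k)} (h : Relation.ReflTransGen (Good c) f f') : Good (c ^ numT k) f f' := by
  have := types_finite k
  obtain ⟨l, hl, hs⟩ := exists_short (Good c) h
  have h1 : ∀ l, ∀ f f' : FS (Fin k), stepsN (Good c) l f f' → Good (c ^ l) f f' := by
    intro l
    induction l with
    | zero =>
      intro f f' h
      have h2 : f = f' := h
      subst h2
      intro n B w hC
      rw [pow_zero, one_mul]
      exact hC
    | succ l ih =>
      intro f f' h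
      obtain ⟨d, h2, h3⟩ := h
      intro n B w hC
      have h4 := h3 n (c ^ l * B) w (ih f d h2 n B w hC)
      rw [pow_succ', mul_assoc]
      exact h4
  intro n B w hC
  have h2 := h1 l f f' hs n B w hC
  refine Cert.mono ?_ h2
  exact Nat.mul_le_mul_right B (Nat.pow_le_pow_right hc (hl.trans (types_card k)))

end PF
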