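import Pool.Agent.H1.PF.PushA

set_option autoImplicit false

/-!
# PF Push: certificates only depend on the combinatorial type (helper1)

`ρ` is injective on the set `X` in which everything happens.
* `→`: `cert_transfer` with `c = 1`, `T e = [(ρ e.1, ρ e.2)]`; a labelling `m'` of `f.push ρ` gives the labelling `m' ∘ ρ` of `f`. `hSur`: choose for every `i` in the image of `X` a
  preimage `σ i ∈ X` (otherwise `σ i = f.v0`); `lam' i j = lam (σ i) (σ j)`, `g' i = g (σ i)`. If `(f.push ρ).eqv i j` then `i = ρ x`, `j = ρ y` with `f.eqv x y`, `x = σ i`, `y = σ j` by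
  injectivity.
* `←`: the same with `T e = [(σ e.1, σ e.2)]`: a labelling `m'` of `f` gives the labelling `m' ∘ σ` of `f.push ρ`; `lam' x y = lam (ρ x) (ρ y)`, `g' x = g (ρ x)`.
  (`f.pos x y → f.E2 (x, y)` is a field of `Supp`.)

`tp_iff`: for a valid state with at most `M` marks `s.rk` is strictly increasing on `s.X` with values `< s.X.card ≤ M`, so `x ↦ Fin.ofNat (M+1) (s.rk x)` is injective on `s.X`;
and `toFS` is supported in `s.X` (`Edge` contains `x ∈ X`, `y ∈ X`; `Valid.pX` for the relations: `r.Q 0` and `r.Q r.l` are `r.q` and `r.q + r.l` in some order).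
-/

namespace PF

theorem supp_toFS {s : St} (h : s.Valid) (sg : ℕ → Bool) : (s.toFS sg).Supp (s.X : Set ℕ) := by
  refine ⟨h.v0X, fun x y hxy => ⟨hxy.1, hxy.2.1⟩, fun x y hxy => ⟨hxy.1, hxy.2.1⟩, ?_, ?_⟩
  · intro x y hxy
    rcases hxy with hxy | hxy
    · exact Or.inl hxy.1
    · exact Or.inr hxy.1
  · rintro a b c d ⟨r, hr, rfl, rfl, rfl, rfl⟩
    have hpX := h.pX r hr
    refine ⟨hpX.1, hpX.2.1, ?_, ?_⟩
    · show r.Q 0 ∈ s.X
      unfold Rel.Q
      split_ifs
      · exact hpX.2.2.1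
      · exact hpX.2.2.2
    · show r.Q r.l ∈ s.X
      unfold Rel.Q
      split_ifs
      · exact hpX.2.2.2
      · rw [Nat.sub_self]
        exact hpX.2.2.1

private theorem push_rk_lt {s : St} {x y : ℕ} (hx : x ∈ s.X) (hxy : x < y) : s.rk x < s.rk y := by
  unfold St.rk
  apply Finset.card_lt_card
  rw [Finset.ssubset_iff_of_subset]
  · exact ⟨x, Finset.mem_filter.mpr ⟨hx, hxy⟩, fun h => lt_irrefl _ (Finset.mem_filter.mp h).2⟩
  · intro u hu
    rw [Finset.mem_filter] at hu ⊢
    exact ⟨hu.1, hu.2.trans hxy⟩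

private theorem push_rk_lt_card {s : St} {x : ℕ} (hx : x ∈ s.X) : s.rk x < s.X.card := by
  unfold St.rk
  apply Finset.card_lt_card
  rw [Finset.ssubset_iff_of_subset (Finset.filter_subset _ _)]
  exact ⟨x, hx, fun h => lt_irrefl _ (Finset.mem_filter.mp h).2⟩

theorem tp_iff {s : St} (h : s.Valid) (sg : ℕ → Bool) {M : ℕ} (hM : s.X.card ≤ M) (n B : ℕ) (w : List (Fin n × Bool)) :
    Cert (s.toFS sg) n B w ↔ Cert (s.tp sg M) n B w := by
  refine cert_push (s.toFS sg) (fun x => Fin.ofNat (M + 1) (s.rk x)) (s.X : Set ℕ) ?_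
    (supp_toFS h sg) n B w
  intro x hx y hy hxy
  have h1 : (Fin.ofNat (M + 1) (s.rk x)).val = (Fin.ofNat (M + 1) (s.rk y)).val :=
    congrArg Fin.val hxy
  have hx1 := push_rk_lt_card hx
  have hy1 := push_rk_lt_card hy
  have h2 : s.rk x = s.rk y := by
    have e1 : (Fin.ofNat (M + 1) (s.rk x)).val = s.rk x % (M + 1) := rfl
    have e2 : (Fin.ofNat (M + 1) (s.rk y)).val = s.rk y % (M + 1) := rfl
    rw [e1, e2, Nat.mod_eq_of_lt (by omega), Nat.mod_eq_of_lt (by omega)] at h1
    exact h1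
  rcases lt_trichotomy x y with h3 | h3 | h3
  · have := push_rk_lt hx h3
    omega
  · exact h3
  · have := push_rk_lt hy h3
    omega

end PF
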