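import Pool.Agent.H1.PF.Front
import Pool.Agent.H1.PF.KapM
import Pool.Agent.H1.PF.Trim

set_option autoImplicit false

/-!
# PF MergeStep: one macroscopic step at a block of weight two without units of coverage one (helper1)

The block `v` has weight 1 or 2 and all units in its sides have coverage `≠ 1` (so `≥ 2`).
* Weight 1 is impossible: let `t` be the side (`t.2 > 0`); the unit `t.1` is covered by another side, which is in the same block by `BlOk`.
* Weight 2: sides `t, t'` (two positions of the list `sides`). Every unit of `t` is covered by a second side, which is in the block `v`, so it is `t'`; so `t ⊆ t'` and in the same way `t' ⊆ t`: `t = t'` as intervals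
  (`t.1 = t'.1`, `t.2 = t'.2`).
* `front` for `t`: `rels = r :: L`, `r.p = t.1`, `r.l = t.2`. The weight of `v` is still 2. The second side of `r` is not the other side of the block: otherwise `r.q = r.p`, contradiction to `not_same`. So the other side is in
  `sides L`; `front2`: `rels = r :: r' :: L'`, `r'.p = r.p`, `r'.l = r.l`. All other sides are in other blocks (the weight is 2), so they do not meet `[p, p + l)`: hypotheses of `merge2`.
* `merge2`, `kap_merge`, `blok_merge`, `forest_merge` give the new state with the same block map, and one relation less.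
-/

namespace PF

private theorem mergeStep_wt_cons (bl : ℕ → ℕ) (r : Rel) (L : List Rel) (v : ℕ) :
    wt bl (r :: L) v = (if bl r.p = v then 1 else 0) + (if bl r.q = v then 1 else 0) + wt bl L v := by
  have h : sides (r :: L) = (r.p, r.l) :: (r.q, r.l) :: sides L := rfl
  unfold wt
  rw [h, List.countP_cons, List.countP_cons]
  simp only [decide_eq_true_eq]
  omega

private theorem mergeStep_one {bl : ℕ → ℕ} {rels : List Rel} {v : ℕ} (h : wt bl rels v ≤ 1) {t t' : ℕ × ℕ}
    (ht : t ∈ sides rels) (hv : bl t.1 = v) (ht' : t' ∈ sides rels) (hv' : bl t'.1 = v) : t = t' := by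
  by_contra hne
  obtain ⟨A, B, hAB⟩ := List.append_of_mem ht
  unfold wt at h
  rw [hAB] at h ht'
  rw [List.countP_append, List.countP_cons] at h
  have h1 : (decide (bl t.1 = v)) = true := by simpa using hv
  rw [if_pos h1] at h
  have h2 : t' ∈ A ∨ t' ∈ B := by
    rcases List.mem_append.1 ht' with h3 | h3
    · exact Or.inl h3
    · rcases List.mem_cons.1 h3 with h4 | h4
      · exact absurd h4.symm hne
      · exact Or.inr h4
  rcases h2 with h2 | h2
  · have : 0 < A.countP (fun t => decide (bl t.1 = v)) := List.countP_pos_iff.2 ⟨t', h2, by simpa using hv'⟩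
    omega
  · have : 0 < B.countP (fun t => decide (bl t.1 = v)) := List.countP_pos_iff.2 ⟨t', h2, by simpa using hv'⟩
    omega

private theorem mergeStep_pos {bl : ℕ → ℕ} {rels : List Rel} {t : ℕ × ℕ} (ht : t ∈ sides rels) : 0 < wt bl rels (bl t.1) :=
  List.countP_pos_iff.2 ⟨t, ht, by simp⟩

private theorem mergeStep_cov {rels : List Rel} {u : ℕ} (h : 0 < cov rels u) : ∃ t ∈ sides rels, t.1 ≤ u ∧ u < t.1 + t.2 := by
  obtain ⟨t, ht, h1⟩ := List.countP_pos_iff.1 h
  exact ⟨t, ht, by simpa using h1⟩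

private theorem mergeStep_side {rels : List Rel} {t : Rel} (ht : t ∈ rels) : (t.p, t.l) ∈ sides rels ∧ (t.q, t.l) ∈ sides rels := by
  unfold sides
  constructor <;> exact List.mem_flatMap.2 ⟨t, ht, by simp⟩

theorem mergeStep {n : ℕ} {sg : ℕ → Bool} {m : ℕ → FreeGroup (Fin n)} {M V R K : ℕ} (hM : 2 * (V + R + n) + 14 ≤ M) {s : St} {bl : ℕ → ℕ}
    (hOk : Ok n sg m s) (hMac : Mac V R K s bl) {v : ℕ} (hv : 1 ≤ wt bl s.rels v) (hv2 : wt bl s.rels v ≤ 2)
    (hno : ∀ t ∈ sides s.rels, bl t.1 = v → ∀ u, t.1 ≤ u → u < t.1 + t.2 → cov s.rels u ≠ 1) :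
    ∃ s' bl', Chain M s s' ∧ Ok n sg m s' ∧ Mac V R K s' bl' ∧ s'.D.card < s.D.card := by
  have hno' : ∀ u, bl u = v → cov s.rels u ≠ 1 := by
    intro u hu h1
    obtain ⟨t, ht, h2, h3⟩ := mergeStep_cov (rels := s.rels) (u := u) (by omega)
    have h4 := hMac.blok t ht u h2 h3
    exact hno t ht (by rw [← h4]; exact hu) u h2 h3 h1
  have hXM : ∀ s' : St, Ok n sg m s' → Mac V R K s' bl → s'.X.card ≤ M := by
    intro s' h1 h2
    have := card_ok h1 ∅ (fun x hx => (h2.iso x hx).imp id Or.inl) h2.hV h2.hR (by simp)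
    omega
  obtain ⟨t, ht, htv⟩ := List.countP_pos_iff.1 (show 0 < (sides s.rels).countP (fun t => decide (bl t.1 = v)) from hv)
  have htv' : bl t.1 = v := by simpa using htv
  obtain ⟨s1, r, L, hc1, hOk1, hMac1, hD1, -, -, hr1, hrp, hrl, -, hcov1, hwt1, -⟩ := front hOk hMac (hXM s hOk hMac) ht
  have hrv : bl r.p = v := by rw [hrp]; exact htv'
  have hw1 : wt bl (r :: L) v ≤ 2 := by
    have := hwt1 bl v
    rw [hr1] at this
    omega
  have hlpos : 0 < r.l := hOk1.valid.lpos r (by rw [hr1]; simp)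
  have hF1 : Forest (ue (r :: L)) := by have := hMac1.forest; rwa [hr1] at this
  have hB1 : BlOk bl (r :: L) := by have := hMac1.blok; rwa [hr1] at this
  have hblP : ∀ u, r.p ≤ u → u < r.p + r.l → bl u = v := fun u h1 h2 =>
    (hB1 (r.p, r.l) (mergeStep_side (List.mem_cons_self)).1 u h1 h2).trans hrv
  have hblQ : ∀ u, r.q ≤ u → u < r.q + r.l → bl u = bl r.q := fun u h1 h2 =>
    hB1 (r.q, r.l) (mergeStep_side (List.mem_cons_self)).2 u h1 h2
  have hblL : ∀ t ∈ sides L, ∀ u, t.1 ≤ u → u < t.1 + t.2 → bl u = bl t.1 := fun t ht u h1 h2 =>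
    hB1 t (by
      have h : sides (r :: L) = (r.p, r.l) :: (r.q, r.l) :: sides L := rfl
      rw [h]
      exact List.mem_cons_of_mem _ (List.mem_cons_of_mem _ ht)) u h1 h2
  have hcov : ∀ u, bl u = v → (if r.p ≤ u ∧ u < r.p + r.l then 1 else 0) + (if r.q ≤ u ∧ u < r.q + r.l then 1 else 0) + cov L u ≠ 1 := by
    intro u hu
    rw [← cov_cons, ← hr1, hcov1]
    exact hno' u hu
  rw [mergeStep_wt_cons, if_pos hrv] at hw1
  -- the second side is not in the block
  have hqv : bl r.q ≠ v := by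
    intro hqv
    rw [if_pos hqv] at hw1
    have hw0 : wt bl L v = 0 := by omega
    have hL0 : ∀ u, bl u = v → cov L u = 0 := by
      intro u hu
      by_contra hne
      obtain ⟨t', ht', h1, h2⟩ := mergeStep_cov (rels := L) (u := u) (by omega)
      have h3 := mergeStep_pos (bl := bl) ht'
      rw [← hblL t' ht' u h1 h2, hu] at h3
      omega
    have h5 : ∀ u, r.p ≤ u → u < r.p + r.l → r.q ≤ u ∧ u < r.q + r.l := by
      intro u h1 h2
      have h3 := hcov u (hblP u h1 h2)
      rw [hL0 u (hblP u h1 h2), if_pos ⟨h1, h2⟩] at h3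
      by_contra h4
      rw [if_neg h4] at h3
      exact h3 rfl
    have h6 := h5 r.p le_rfl (by omega)
    have h7 := h5 (r.p + r.l - 1) (by omega) (by omega)
    exact not_same hF1 hlpos (by omega)
  rw [if_neg hqv] at hw1
  have hQ : ∀ u, bl u = v → ¬ (r.q ≤ u ∧ u < r.q + r.l) := fun u hu h => hqv ((hblQ u h.1 h.2).symm.trans hu)
  have hwL : wt bl L v ≤ 1 := by omega
  have hcL : ∀ u, r.p ≤ u → u < r.p + r.l → 0 < cov L u := by
    intro u h1 h2
    have h3 := hcov u (hblP u h1 h2)
    rw [if_pos ⟨h1, h2⟩, if_neg (hQ u (hblP u h1 h2))] at h3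
    omega
  obtain ⟨t', ht', h1, h2⟩ := mergeStep_cov (hcL r.p le_rfl (by omega))
  have ht'v : bl t'.1 = v := by rw [← hblL t' ht' r.p h1 h2]; exact hrv
  have huniq : ∀ u, r.p ≤ u → u < r.p + r.l → t'.1 ≤ u ∧ u < t'.1 + t'.2 := by
    intro u h3 h4
    obtain ⟨t2, ht2, h5, h6⟩ := mergeStep_cov (hcL u h3 h4)
    have h7 : bl t2.1 = v := by rw [← hblL t2 ht2 u h5 h6]; exact hblP u h3 h4
    have h8 := mergeStep_one hwL ht2 h7 ht' ht'v
    rw [← h8]
    exact ⟨h5, h6⟩
  have hsub : ∀ u, t'.1 ≤ u → u < t'.1 + t'.2 → r.p ≤ u ∧ u < r.p + r.l := by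
    intro u h3 h4
    have hu : bl u = v := (hblL t' ht' u h3 h4).trans ht'v
    have h5 := hcov u hu
    rw [if_neg (hQ u hu)] at h5
    have h6 : 0 < cov L u := List.countP_pos_iff.2 ⟨t', ht', by simpa using And.intro h3 h4⟩
    have h7 : cov L u ≤ 1 := by
      refine le_trans ?_ hwL
      unfold cov wt
      refine List.countP_mono_left (fun t2 ht2 h8 => ?_)
      have h9 : t2.1 ≤ u ∧ u < t2.1 + t2.2 := by simpa using h8
      have : bl t2.1 = v := by rw [← hblL t2 ht2 u h9.1 h9.2]; exact hu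
      simpa using this
    by_contra h8
    rw [if_neg h8] at h5
    omega
  have hpos' : 0 < t'.2 := by omega
  have e1 : t'.1 = r.p := by
    have := hsub t'.1 le_rfl (by omega)
    omega
  have e2 : t'.2 = r.l := by
    have h3 := hsub (t'.1 + t'.2 - 1) (by omega) (by omega)
    have h4 := huniq (r.p + r.l - 1) (by omega) (by omega)
    omega
  obtain ⟨s2, r', L', hc2, hOk2, hMac2, hD2, -, -, hr2, hrp', hrl', -, hcov2, hwt2, -⟩ :=
    front2 hOk1 hMac1 (hXM s1 hOk1 hMac1) hr1 ht'
  have hp : r.p = r'.p := by rw [hrp', e1]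
  have hl : r.l = r'.l := by rw [hrl', e2]
  have hw2 : wt bl (r :: r' :: L') v ≤ 2 := by
    have h3 := hwt2 bl v
    have h4 := hwt1 bl v
    rw [hr2] at h3
    omega
  rw [mergeStep_wt_cons, mergeStep_wt_cons, if_pos hrv, if_neg hqv, if_pos (by rw [← hp]; exact hrv)] at hw2
  have hq'v : bl r'.q ≠ v := by
    intro h3
    rw [if_pos h3] at hw2
    omega
  rw [if_neg hq'v] at hw2
  have hwL' : wt bl L' v = 0 := by omega
  have hB2 : BlOk bl (r :: r' :: L') := by have := hMac2.blok; rwa [hr2] at this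
  have hF2 : Forest (ue (r :: r' :: L')) := by have := hMac2.forest; rwa [hr2] at this
  have hfree' : ∀ u, r.p ≤ u → u < r.p + r.l → ¬ (r'.q ≤ u ∧ u < r'.q + r'.l) := by
    intro u h3 h4 h5
    have h6 := hB2 (r'.q, r'.l) (mergeStep_side (List.mem_cons_of_mem _ List.mem_cons_self)).2 u h5.1 h5.2
    exact hq'v (h6.symm.trans (hblP u h3 h4))
  have hfree : Free1 r L' r.p (r.p + r.l) := by
    intro u h3 h4
    refine ⟨hQ u (hblP u h3 h4), fun t2 ht2 => ?_⟩
    have hs2 := mergeStep_side ht2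
    have hs3 := mergeStep_side (List.mem_cons_of_mem r (List.mem_cons_of_mem r' ht2))
    constructor
    · intro h5
      have h6 := hB2 _ hs3.1 u h5.1 h5.2
      have h7 := mergeStep_pos (bl := bl) hs2.1
      rw [← h6, hblP u h3 h4] at h7
      omega
    · intro h5
      have h6 := hB2 _ hs3.2 u h5.1 h5.2
      have h7 := mergeStep_pos (bl := bl) hs2.2
      rw [← h6, hblP u h3 h4] at h7
      omega
  obtain ⟨s3, hc3, hOk3, hiso3, hV3, hD3, hr3⟩ := merge2 hM hOk2 hMac2.iso hr2 hp hl hfree hfree' hMac2.hV hMac2.hR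
  refine ⟨s3, bl, (hc1.trans hc2).trans hc3, hOk3, ⟨hiso3, ?_, ?_, ?_, ?_, hV3.trans hMac2.hV⟩, ?_⟩
  · rw [hr3]
    exact forest_merge hp hl hfree hfree' hF2
  · rw [hr3]
    exact blok_merge hl hB2
  · rw [hr3]
    refine (kap_merge bl L' hl).trans ?_
    have := hMac2.kap
    rwa [hr2] at this
  · rw [hr3]
    have := hMac2.hR
    rw [hr2] at this
    simp only [List.length_cons] at this ⊢
    omega
  · rw [hD3, ← hD1, ← hD2]
    refine Finset.card_lt_card (Finset.filter_ssubset.2 ⟨r.p, ?_, ?_⟩)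
    · have := hOk2.valid.pD r (by rw [hr2]; simp) 0 hlpos
      simpa using this.1
    · push Not
      exact ⟨le_rfl, by omega⟩

end PF
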