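import Pool.Agent.H1.PF.CutStep
import Pool.Agent.H1.PF.MergeStep

set_option autoImplicit false

/-!
# PF Reduce: the reduction (helper1)

* `macroStep`: if some block `v` has weight 1 or 2: if some side of this block contains a unit `u` of coverage one then `cutStep` (`bl u = v` by `BlOk`), otherwise `mergeStep`.
  If all blocks have weight 0 or `≥ 3`: `2 * length = ∑ wt ≤ ∑ 3 * (wt - 2) = 3 * kap ≤ 3 * K` (`sum_wt`), so `2 * (length + 1) ≤ 3 * K + 2 ≤ 2 * R` and `length < R`; `cov_one` gives a unit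
  of coverage one; `cutStep`.
* `reduce`: induction on `|D|`.
-/

namespace PF

theorem macroStep {n : ℕ} {sg : ℕ → Bool} {m : ℕ → FreeGroup (Fin n)} {M V R K : ℕ} (hM : 2 * (V + R + n) + 14 ≤ M) (hRK : 3 * K + 2 ≤ 2 * R)
    {s : St} {bl : ℕ → ℕ} (hOk : Ok n sg m s) (hMac : Mac V R K s bl) (hne : s.rels ≠ []) :
    ∃ s' bl', Chain M s s' ∧ Ok n sg m s' ∧ Mac V R K s' bl' ∧ s'.D.card < s.D.card := by
  classical
  by_cases h : ∃ v, 1 ≤ wt bl s.rels v ∧ wt bl s.rels v ≤ 2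
  · obtain ⟨v, hv1, hv2⟩ := h
    by_cases h' : ∃ t ∈ sides s.rels, bl t.1 = v ∧ ∃ u, t.1 ≤ u ∧ u < t.1 + t.2 ∧ cov s.rels u = 1
    · obtain ⟨t, ht, htv, u, hu1, hu2, hu⟩ := h'
      have h3 : bl u = v := by rw [hMac.blok t ht u hu1 hu2, htv]
      exact cutStep hM hOk hMac hu (Or.inr (by rw [h3]; exact hv2))
    · exact mergeStep hM hOk hMac hv1 hv2 (fun t ht htv u hu1 hu2 hu => h' ⟨t, ht, htv, u, hu1, hu2, hu⟩)
  · have h1 : ∀ v, wt bl s.rels v ≤ 3 * (wt bl s.rels v - 2) := by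
      intro v
      by_contra hc
      exact h ⟨v, by omega, by omega⟩
    have h2 := sum_wt bl s.rels
    have h3 : ∑ v ∈ ((sides s.rels).map (fun t => bl t.1)).toFinset, wt bl s.rels v ≤ 3 * kap bl s.rels := by
      unfold kap
      rw [Finset.mul_sum]
      exact Finset.sum_le_sum (fun v _ => h1 v)
    have h4 := hMac.kap
    obtain ⟨u, hu⟩ := cov_one hMac.forest hne hOk.valid.lpos
    exact cutStep hM hOk hMac hu (Or.inl (by omega))

theorem reduce {n : ℕ} {sg : ℕ → Bool} {m : ℕ → FreeGroup (Fin n)} {M V R K : ℕ} (hM : 2 * (V + R + n) + 14 ≤ M) (hRK : 3 * K + 2 ≤ 2 * R)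
    {s : St} {bl : ℕ → ℕ} (hOk : Ok n sg m s) (hMac : Mac V R K s bl) :
    ∃ s' bl', Chain M s s' ∧ Ok n sg m s' ∧ Mac V R K s' bl' ∧ s'.rels = [] := by
  have key : ∀ N : ℕ, ∀ (s : St) (bl : ℕ → ℕ), s.D.card ≤ N → Ok n sg m s → Mac V R K s bl →
      ∃ s' bl', Chain M s s' ∧ Ok n sg m s' ∧ Mac V R K s' bl' ∧ s'.rels = [] := by
    intro N
    induction N with
    | zero =>
      intro s bl hN hOk hMac
      by_cases hne : s.rels = []
      · exact ⟨s, bl, Relation.ReflTransGen.refl, hOk, hMac, hne⟩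
      · obtain ⟨s1, bl1, _, _, _, h4⟩ := macroStep hM hRK hOk hMac hne
        omega
    | succ N ih =>
      intro s bl hN hOk hMac
      by_cases hne : s.rels = []
      · exact ⟨s, bl, Relation.ReflTransGen.refl, hOk, hMac, hne⟩
      · obtain ⟨s1, bl1, h1, h2, h3, h4⟩ := macroStep hM hRK hOk hMac hne
        obtain ⟨s2, bl2, h5, h6, h7, h8⟩ := ih s1 bl1 (by omega) h2 h3
        exact ⟨s2, bl2, Relation.ReflTransGen.trans h1 h5, h6, h7, h8⟩
  exact key _ s bl le_rfl hOk hMac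

end PF
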