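import Pool.Agent.H1.PF.RoseA

set_option autoImplicit false

/-!
# PF Rose: the end of the reduction (helper1)

* `ctr_all`: induction on `s.E`: if there is an edge between different classes apply `ctr_ok`, `ctr_cert`.
* `rose_one`: all edges are loops. Let `K` be the subgroup of `FreeGroup (Fin n)` generated by the values `(m x)⁻¹ * m y` of the edges. Apply `Conn` to `Sg x ω := s.cl x = s.cl s.v0 ∧ ω ∈ K`. So all marks have the class
  of `v0` and `K = ⊤`. Hence `V = 1`, `E ≤ n` (`Chi`), and `FreeGroup (Fin n)` is generated by the values of the `E` edges.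
* `gen_card`: if `k` elements generate `FreeGroup (Fin n)` then `n ≤ k`: map to `Multiplicative (Fin n → ℤ)` (or to `Fin n → ZMod 2`, which has `2^n` elements, while `k` elements generate at most `2^k` elements).
* `rose`: so `E = n`; choose a bijection `e` from `Fin n` to `X ∩ D` (the left ends of the edges, `edge_right`). Define `a u : FreeGroup (Fin n)` for `u ∈ X ∩ D`, `u = e i`: if all units of the edge starting at `u`
  are negative then `a u = (of i)⁻¹`, otherwise `a u = of i`. Let `m u` = the product of the `a v`, `v ∈ X ∩ D`, `v < u`, in increasing order (recursion: `m 0 = 1`, `m (u+1) = m u * (if u ∈ X ∩ D then a u else 1)`).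
  Then the value of every edge `(x, y)` is `a x` (no mark in `(x, y)`). `m` is a labelling (no relations). The certificate gives `W, W0, lam, g`; all marks have the class of `v0`, so `g = 1` on all marks:
  `a x = ev (fun i => val m (W i)) (lam x y)` for every edge. The word `aw i` of `val m (W i)`: the concatenation of the words of length one for the pairs of `W i` (an edge or a reversed edge): length `(W i).length ≤ B`;
  `b i = lam x y` or `invRev (lam x y)` (`x = e i`), length `≤ B`. Every positive pair of `W0` has the value `of i` for some `i` (an edge with all units positive: `a x = of i` because an edge has at least one unit;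
  a reversed edge with all units negative: `(a x)⁻¹ = of i`), so `val m W0` is a product of generators.
-/

namespace PF

private theorem rose_val {n : ℕ} {A : Type} (m : A → FreeGroup (Fin n)) (pw : A × A → List (Fin n × Bool))
    (L : List (A × A)) (h : ∀ e ∈ L, (m e.1)⁻¹ * m e.2 = FreeGroup.mk (pw e)) :
    val m L = FreeGroup.mk (L.flatMap pw) := by
  induction L with
  | nil => rfl
  | cons e L ih =>
    have h1 := ih fun e he => h e (List.mem_cons_of_mem _ he)
    unfold val at h1 ⊢
    rw [List.map_cons, List.prod_cons, List.flatMap_cons, h1, h e List.mem_cons_self,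
      FreeGroup.mul_mk]

private theorem rose_len {A C : Type} (pw : A → List C) (L : List A) (h : ∀ e ∈ L, (pw e).length ≤ 1) :
    (L.flatMap pw).length ≤ L.length := by
  induction L with
  | nil => simp
  | cons e L ih =>
    have h1 := ih fun e he => h e (List.mem_cons_of_mem _ he)
    have h2 := h e List.mem_cons_self
    rw [List.flatMap_cons, List.length_append, List.length_cons]
    omega

private theorem rose_gen {n : ℕ} {A : Type} (m : A → FreeGroup (Fin n)) (L : List (A × A))
    (h : ∀ e ∈ L, ∃ i, (m e.1)⁻¹ * m e.2 = FreeGroup.of i) :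
    ∃ L' : List (Fin n), val m L = (L'.map FreeGroup.of).prod := by
  induction L with
  | nil => exact ⟨[], rfl⟩
  | cons e L ih =>
    obtain ⟨L', h1⟩ := ih fun e he => h e (List.mem_cons_of_mem _ he)
    obtain ⟨i, hi⟩ := h e List.mem_cons_self
    refine ⟨i :: L', ?_⟩
    unfold val at h1 ⊢
    rw [List.map_cons, List.prod_cons, List.map_cons, List.prod_cons, h1, hi]

theorem rose {n : ℕ} {sg : ℕ → Bool} {m : ℕ → FreeGroup (Fin n)} {s : St} (h : Ok n sg m s) (hr : s.rels = [])
    (hl : ∀ x y, s.Edge x y → s.cl x = s.cl y) {B : ℕ} {w : List (Fin n × Bool)} (hC : Cert (s.toFS sg) n B w) :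
    ∃ a b : Fin n → List (Fin n × Bool), (∀ i, (a i).length ≤ B) ∧ (∀ i, (b i).length ≤ B) ∧
      (∀ i, ev (fun k => FreeGroup.mk (a k)) (b i) = FreeGroup.of i) ∧
      ∃ L : List (Fin n), ev (fun k => FreeGroup.mk (a k)) w = (L.map FreeGroup.of).prod := by
  classical
  obtain ⟨hE, hcl⟩ := rose_one h hr hl
  have hcard : (s.X ∩ s.D).card = n := hE
  let ε := Finset.equivFinOfCardEq hcard
  let neg : ℕ → Prop := fun u => ∃ y, s.Edge u y ∧ ∀ t, u ≤ t → t < y → sg t = false
  let aw : ℕ → List (Fin n × Bool) := fun u =>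
    if hu : u ∈ s.X ∩ s.D then [(ε ⟨u, hu⟩, decide (¬ neg u))] else []
  let μ : ℕ → FreeGroup (Fin n) := fun u => Nat.rec 1 (fun u r => r * FreeGroup.mk (aw u)) u
  have hμ : ∀ u, μ (u + 1) = μ u * FreeGroup.mk (aw u) := fun u => rfl
  have haw1 : ∀ u, (aw u).length ≤ 1 := by
    intro u
    simp only [aw]
    split_ifs <;> simp
  have hmem : ∀ {x y : ℕ}, s.Edge x y → x ∈ s.X ∩ s.D := by
    intro x y he
    exact Finset.mem_inter.2 ⟨he.1, he.2.2.2.1 x le_rfl he.2.2.1⟩
  have hval : ∀ {x y : ℕ}, s.Edge x y → (μ x)⁻¹ * μ y = FreeGroup.mk (aw x) := by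
    intro x y he
    have h1 : ∀ k, x + 1 + k ≤ y → μ (x + 1 + k) = μ x * FreeGroup.mk (aw x) := by
      intro k
      induction k with
      | zero => intro _; exact hμ x
      | succ k ih =>
        intro hk
        have h2 : aw (x + 1 + k) = [] := by
          simp only [aw]
          rw [dif_neg]
          intro h3
          exact he.2.2.2.2 (x + 1 + k) (by omega) (by omega) (Finset.mem_inter.1 h3).1
        rw [← add_assoc, hμ, ih (by omega), h2]
        exact mul_one _
    have h2 := h1 (y - (x + 1)) (by have := he.2.2.1; omega)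
    rw [show x + 1 + (y - (x + 1)) = y by have := he.2.2.1; omega] at h2
    rw [h2, inv_mul_cancel_left]
  have hLab : (s.toFS sg).Lab μ := by
    intro a b c d hrel
    obtain ⟨r, hr', _⟩ := hrel
    rw [hr] at hr'
    exact absurd hr' List.not_mem_nil
  obtain ⟨W, ⟨hW1, hW2, lam, hlam, hS⟩, W0, hW0, hEq⟩ := hC
  obtain ⟨g, hg1, hg2, hg3⟩ := hS _ μ hLab
  have hg : ∀ x ∈ s.X, g x = 1 := by
    intro x hx
    rw [hg1 x s.v0 ⟨hx, h.valid.v0X, hcl x hx⟩]
    exact hg2
  have hed : ∀ {x y : ℕ}, s.Edge x y →
      ev (fun i => val μ (W i)) (lam x y) = FreeGroup.mk (aw x) := by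
    intro x y he
    have h1 := hg3 x y he
    rw [hval he, hg x he.1, hg y he.2.1, inv_one, one_mul, mul_one] at h1
    exact h1.symm
  let pw : ℕ × ℕ → List (Fin n × Bool) := fun e =>
    if s.Edge e.1 e.2 then aw e.1 else FreeGroup.invRev (aw e.2)
  have hpw : ∀ e : ℕ × ℕ, (s.toFS sg).E2 e → (μ e.1)⁻¹ * μ e.2 = FreeGroup.mk (pw e) := by
    intro e he
    simp only [pw]
    by_cases h1 : s.Edge e.1 e.2
    · rw [if_pos h1]
      exact hval h1
    · rw [if_neg h1]
      have h2 : s.Edge e.2 e.1 := he.resolve_left h1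
      have h3 := hval h2
      rw [← FreeGroup.inv_mk, ← h3, mul_inv_rev, inv_inv]
  have hpw1 : ∀ e, (pw e).length ≤ 1 := by
    intro e
    simp only [pw]
    split_ifs
    · exact haw1 _
    · rw [FreeGroup.invRev_length]
      exact haw1 _
  have hWa : (fun k => FreeGroup.mk ((W k).flatMap pw)) = fun i => val μ (W i) := by
    funext k
    exact (rose_val μ pw (W k) fun e he => hpw e (hW2 k e he)).symm
  have hY : ∀ i : Fin n, ∃ y, s.Edge (ε.symm i : ℕ) y := fun i =>
    edge_right h.valid (Finset.mem_inter.1 (ε.symm i).2).1 (Finset.mem_inter.1 (ε.symm i).2).2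
  choose Y hY using hY
  refine ⟨fun k => (W k).flatMap pw, fun i => if neg (ε.symm i : ℕ) then
    FreeGroup.invRev (lam (ε.symm i : ℕ) (Y i)) else lam (ε.symm i : ℕ) (Y i), ?_, ?_, ?_, ?_⟩
  · intro i
    exact (rose_len pw (W i) fun e _ => hpw1 e).trans (hW1 i)
  · intro i
    beta_reduce
    split_ifs
    · rw [FreeGroup.invRev_length]
      exact hlam _ _
    · exact hlam _ _
  · intro i
    rw [hWa]
    have h1 := hed (hY i)
    have h2 : aw (ε.symm i : ℕ) = [(i, decide (¬ neg (ε.symm i : ℕ)))] := by
      simp only [aw]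
      rw [dif_pos (ε.symm i).2]
      simp
    rw [h2] at h1
    beta_reduce
    by_cases h3 : neg (ε.symm i : ℕ)
    · rw [if_pos h3, ev_invRev, h1, FreeGroup.inv_mk]
      simp [h3, FreeGroup.invRev, FreeGroup.of]
    · rw [if_neg h3, h1]
      simp [h3, FreeGroup.of]
  · rw [hWa, hEq _ μ hLab]
    refine rose_gen μ W0 fun e he => ?_
    rcases hW0 e he with ⟨h1, h2⟩ | ⟨h1, h2⟩
    · refine ⟨ε ⟨e.1, hmem h1⟩, ?_⟩
      rw [hval h1]
      have h3 : ¬ neg e.1 := by
        rintro ⟨y, h4, h5⟩
        have h6 := h5 e.1 le_rfl h4.2.2.1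
        rw [h2 e.1 le_rfl h1.2.2.1] at h6
        exact absurd h6 (by simp)
      simp only [aw]
      rw [dif_pos (hmem h1)]
      simp [h3, FreeGroup.of]
    · refine ⟨ε ⟨e.2, hmem h1⟩, ?_⟩
      have h4 := hval h1
      have h3 : neg e.2 := ⟨e.1, h1, h2⟩
      have h5 : (μ e.1)⁻¹ * μ e.2 = (FreeGroup.mk (aw e.2))⁻¹ := by
        rw [← h4, mul_inv_rev, inv_inv]
      rw [h5]
      simp only [aw]
      rw [dif_pos (hmem h1), FreeGroup.inv_mk]
      simp [h3, FreeGroup.invRev, FreeGroup.of]

end PF
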