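import Pool.Agent.H1.PF.IThm
import Pool.Agent.H1.PF.Reduce
import Pool.Agent.H1.PF.Push
import Pool.Agent.H1.PF.Pump
import Pool.Agent.H1.PF.Rose
import Pool.Agent.H1.PF.Hopf
import Pool.Agent.H1.PF.CritP
import Pool.Agent.H1.PF.Bound

set_option autoImplicit false

/-!
# PF Main: potential positivity is decidable (helper1; assembly)
-/

namespace PF

theorem chain_good {n : ℕ} {sg : ℕ → Bool} {m : ℕ → FreeGroup (Fin n)} {M : ℕ} {s t : St} (h : Ok n sg m s) (hc : Chain M s t) :
    Relation.ReflTransGen (Good (4 * M + 2)) (s.tp sg M) (t.tp sg M) := by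
  induction hc with
  | refl => exact Relation.ReflTransGen.refl
  | @tail t u h1 h2 ih =>
    refine ih.tail ?_
    have hOk : Ok n sg m t := ok_chain h h1
    intro k B w hC
    have hC' := (tp_iff hOk.valid sg h2.1 k B w).mpr hC
    have hu := cert_move hOk h2.2.2 h2.1 hC'
    exact (tp_iff (ok_move hOk h2.2.2).valid sg h2.2.1 k _ w).mp hu

theorem crit_of_pos {n : ℕ} (w : List (Fin n × Bool))
    (h : ∃ α : FreeGroup (Fin n) ≃* FreeGroup (Fin n), α (FreeGroup.mk w) ∈
      Subsemigroup.closure (Set.range (FreeGroup.of : Fin n → FreeGroup (Fin n)))) : Crit n (bdF n w.length) w := by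
  obtain ⟨al, hp⟩ := h
  rcases Nat.eq_zero_or_pos n with rfl | hn
  · exfalso
    have h1 := (closure_pos hp).1
    exact h1 (Subsingleton.elim _ _)
  obtain ⟨s, sg, m, bl, hOk, hMac, hC⟩ := init_exists hn al w hp
  set T := bdT n w.length with hT
  obtain ⟨s', bl', hch, hOk', hMac', hr⟩ := reduce (M := bdM n w.length) (le_refl _) (by omega) hOk hMac
  have hcs : s.X.card ≤ bdM n w.length := by
    have := card_ok hOk ∅ (fun x hx => (hMac.iso x hx).imp id Or.inl) hMac.hV hMac.hR (by simp)
    unfold bdM; omega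
  have hcs' : s'.X.card ≤ bdM n w.length := by
    have := card_ok hOk' ∅ (fun x hx => (hMac'.iso x hx).imp id Or.inl) hMac'.hV hMac'.hR (by simp)
    unfold bdM; omega
  have hg := pump (by omega) (chain_good hOk hch)
  have hC1 := (tp_iff hOk.valid sg hcs n _ w).mp hC
  have hC2 := (tp_iff hOk'.valid sg hcs' n _ w).mpr (hg n _ w hC1)
  obtain ⟨s2, m2, hOk2, hr2, hl2, hC3⟩ := ctr_all hOk' hr hC2
  obtain ⟨a, b, ha, hb, hab, L, hL⟩ := rose hOk2 hr2 hl2 hC3
  have hE : s'.E ≤ bdM n w.length := le_trans (Finset.card_le_card Finset.inter_subset_left) hcs'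
  have hbd : 3 ^ s'.E * ((4 * bdM n w.length + 2) ^ numT (bdM n w.length + 1) * (3 ^ T + T)) ≤ bdF n w.length := by
    unfold bdF
    exact Nat.mul_le_mul_right _ (Nat.pow_le_pow_right (by norm_num) hE)
  refine ⟨a, b, fun i => (ha i).trans hbd, fun i => (hb i).trans hbd, hab, L, ?_, hL⟩
  rintro rfl
  obtain ⟨α, hα⟩ := hopf a b hab
  have h1 : FreeGroup.mk w = 1 := by
    apply α.injective
    rw [hα, hL, map_one]
    simp
  have h2 := (closure_pos hp).1
  exact h2 (by rw [h1, map_one])

theorem crit_iff {n : ℕ} (w : List (Fin n × Bool)) : Crit n (bdF n w.length) w ↔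
    ∃ α : FreeGroup (Fin n) ≃* FreeGroup (Fin n), α (FreeGroup.mk w) ∈
      Subsemigroup.closure (Set.range (FreeGroup.of : Fin n → FreeGroup (Fin n))) :=
  ⟨crit_sound, crit_of_pos w⟩

theorem main : ∀ n : ℕ, ComputablePred (fun w : List (Fin n × Bool) =>
    ∃ α : FreeGroup (Fin n) ≃* FreeGroup (Fin n), α (FreeGroup.mk w) ∈
      Subsemigroup.closure (Set.range (FreeGroup.of : Fin n → FreeGroup (Fin n)))) := by
  intro n
  have h := crit_computable n (bdF n) (primrec_bdF n)
  have he : (fun w : List (Fin n × Bool) => Crit n (bdF n w.length) w) = (fun w : List (Fin n × Bool) =>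
    ∃ α : FreeGroup (Fin n) ≃* FreeGroup (Fin n), α (FreeGroup.mk w) ∈
      Subsemigroup.closure (Set.range (FreeGroup.of : Fin n → FreeGroup (Fin n)))) := by
    funext w
    exact propext (crit_iff w)
  rw [← he]
  exact h

end PF
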