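import Pool.Agent.H1.PF.Path

set_option autoImplicit false

/-!
# PF OkD: deleting an edge and its relation preserves `Ok` (helper1)

`[p, p + l)` contains no mark except `p`; `p, p + l` are marks; the units of `[p, p + l)` are covered by the first side of `r` only. The new `D` is `D \ [p, p + l)`.
The edges of the new state are the edges of `s` except `(p, p + l)` (an edge of `s` which contains a unit of `[p, p+l)` is `(p, p+l)`).

* `Valid`: the sides of the relations of `L` do not meet `[p, p+l)`. `bdL`: if `x ∈ D'` is not a mark, then its left neighbour `u` is in `D`; if `u ∈ [p, p+l)` then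
  `x = p + l` is a mark, contradiction. `bdR` in the same way (`x + 1 = p` is a mark).
* `Conn`: let `Sg` be closed for the new state. It is closed under the edge `(p, p+l)`: let `Q0 = r.Q 0`, `Q1 = r.Q l`; `cl p = cl Q0`, `cl (p+l) = cl Q1` (`Valid.cl0`),
  all units between `r.q` and `r.q + r.l` are present in the new state, so there is a path (`exists_path`, `path_closed`) between `Q0` and `Q1` (in one of the two directions),
  and `(m p)⁻¹ m (p+l) = (m Q0)⁻¹ m Q1` by `Full` for `j = l`.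
* `Chi`: `X ∩ D' = (X ∩ D) \ {p}`, and there is one relation less.
-/

namespace PF

theorem ok_del {n : ℕ} {sg : ℕ → Bool} {m : ℕ → FreeGroup (Fin n)} {s : St} (h : Ok n sg m s) {r : Rel} {L : List Rel}
    (hs : s.rels = r :: L) (hm : ∀ u, r.p < u → u < r.p + r.l → u ∉ s.X) (hq : Free1 r L r.p (r.p + r.l)) :
    Ok n sg m ⟨s.D.filter (fun u => ¬ (r.p ≤ u ∧ u < r.p + r.l)), s.X, s.cl, L, s.v0⟩ := by
  obtain ⟨hv, hsg, hf, hc, hx⟩ := h
  have hr : r ∈ s.rels := by rw [hs]; exact List.mem_cons_self ..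
  have hL : ∀ t ∈ L, t ∈ s.rels := fun t ht => by rw [hs]; exact List.mem_cons_of_mem _ ht
  have hl := hv.lpos r hr
  obtain ⟨hpX, hplX, hqX, hqlX⟩ := hv.pX r hr
  set s' : St := ⟨s.D.filter (fun u => ¬ (r.p ≤ u ∧ u < r.p + r.l)), s.X, s.cl, L, s.v0⟩ with hs'
  have hD' : ∀ u, u ∈ s'.D ↔ u ∈ s.D ∧ ¬ (r.p ≤ u ∧ u < r.p + r.l) := fun u => by
    rw [hs']
    exact Finset.mem_filter
  have hv' : s'.Valid := by
    refine ⟨fun t ht => hv.lpos t (hL t ht), fun t ht => hv.pX t (hL t ht), ?_,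
      fun t ht => hv.cl0 t (hL t ht), ?_, ?_, hv.v0X⟩
    · intro t ht j hj
      have h1 := hv.pD t (hL t ht) j hj
      refine ⟨(hD' _).2 ⟨h1.1, fun h2 => ?_⟩, (hD' _).2 ⟨h1.2, fun h2 => ?_⟩⟩
      · exact ((hq _ h2.1 h2.2).2 t ht).1 ⟨by omega, by omega⟩
      · exact ((hq _ h2.1 h2.2).2 t ht).2 ⟨by omega, by omega⟩
    · intro x hxD hxX
      obtain ⟨h1, h2⟩ := (hD' x).1 hxD
      obtain ⟨u, hu, hux⟩ := hv.bdL x h1 hxX
      refine ⟨u, (hD' u).2 ⟨hu, fun h3 => ?_⟩, hux⟩
      have : x = r.p + r.l := by omega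
      exact hxX (this ▸ hplX)
    · intro x hxD hxX
      obtain ⟨h1, h2⟩ := (hD' x).1 hxD
      refine (hD' _).2 ⟨hv.bdR x h1 hxX, fun h3 => ?_⟩
      have : x + 1 = r.p := by omega
      exact hxX (this ▸ hpX)
  refine ⟨hv', fun t ht => hsg t (hL t ht), fun t ht => hf t (hL t ht), ?_, ?_⟩
  · intro Sg h0 hcl hed
    refine hc Sg h0 hcl ?_
    intro x y ω hxy
    by_cases hxy' : s'.Edge x y
    · exact hed x y ω hxy'
    -- the edge is the deleted one
    obtain ⟨hxX, hyX, hlt, hD, hno⟩ := hxy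
    have h1 : ∃ u, x ≤ u ∧ u < y ∧ r.p ≤ u ∧ u < r.p + r.l := by
      by_contra hcon
      push Not at hcon
      refine hxy' ⟨hxX, hyX, hlt, fun u hu hu' => (hD' u).2 ⟨hD u hu hu', fun h2 => ?_⟩, hno⟩
      exact absurd h2.2 (not_lt.2 (hcon u hu hu' h2.1))
    obtain ⟨u, hu1, hu2, hu3, hu4⟩ := h1
    have hxp : r.p ≤ x := by
      by_contra hcon
      exact hno r.p (by omega) (by omega) hpX
    have hxe : x = r.p := by
      by_contra hcon
      exact hm x (by omega) (by omega) hxX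
    have hye : y = r.p + r.l := by
      rcases lt_trichotomy y (r.p + r.l) with h2 | h2 | h2
      · exact absurd hyX (hm y (by omega) h2)
      · exact h2
      · exact absurd hplX (hno _ (by omega) h2)
    subst hxe
    subst hye
    have hcl0 := hv.cl0 r hr
    have hQX : r.Q 0 ∈ s.X ∧ r.Q r.l ∈ s.X := by
      unfold Rel.Q
      by_cases h2 : r.s = true
      · rw [if_pos h2, if_pos h2]
        exact ⟨by simpa using hqX, hqlX⟩
      · rw [if_neg h2, if_neg h2]
        exact ⟨by simpa using hqlX, by simpa using hqX⟩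
    have e1 : ∀ ω, Sg r.p ω ↔ Sg (r.Q 0) ω := fun ω =>
      ⟨hcl _ _ ω hpX hQX.1 hcl0.1, hcl _ _ ω hQX.1 hpX hcl0.1.symm⟩
    have e2 : ∀ ω, Sg (r.p + r.l) ω ↔ Sg (r.Q r.l) ω := fun ω =>
      ⟨hcl _ _ ω hplX hQX.2 hcl0.2, hcl _ _ ω hQX.2 hplX hcl0.2.symm⟩
    rw [e1, e2, hf r hr r.l le_rfl]
    obtain ⟨P, hP, -, -, hPe⟩ := exists_path (s := s') (x := r.q) (y := r.q + r.l) hqX hqlX
      (by omega) (fun u hu hu' => (hD' u).2 ⟨by
        have h2 := (hv.pD r hr (u - r.q) (by omega)).2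
        rwa [show r.q + (u - r.q) = u by omega] at h2, fun h2 =>
          (hq u h2.1 h2.2).1 ⟨hu, hu'⟩⟩)
    have hpc : ∀ ω, Sg r.q ω ↔ Sg (r.q + r.l) (ω * ((m r.q)⁻¹ * m (r.q + r.l))) := fun ω =>
      path_closed hP m Sg (fun a b ω hab => hed a b ω (hPe (a, b) hab).1) ω
    by_cases h2 : r.s = true
    · have f1 : r.Q 0 = r.q := by
        unfold Rel.Q
        rw [if_pos h2, add_zero]
      have f2 : r.Q r.l = r.q + r.l := by
        unfold Rel.Q
        rw [if_pos h2]
      rw [f1, f2]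
      exact hpc ω
    · have f1 : r.Q 0 = r.q + r.l := by
        unfold Rel.Q
        rw [if_neg h2, Nat.sub_zero]
      have f2 : r.Q r.l = r.q := by
        unfold Rel.Q
        rw [if_neg h2, Nat.sub_self, add_zero]
      rw [f1, f2, hpc]
      have f3 : ω * ((m (r.q + r.l))⁻¹ * m r.q) * ((m r.q)⁻¹ * m (r.q + r.l)) = ω := by group
      rw [f3]
  · unfold St.Chi at hx ⊢
    have h1 : s'.E + 1 ≤ s.E := by
      unfold St.E
      have hpD : r.p ∈ s.D := by
        have := (hv.pD r hr 0 hl).1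
        rwa [add_zero] at this
      have h2 : s'.X ∩ s'.D ⊆ (s.X ∩ s.D).erase r.p := by
        intro u hu
        rw [Finset.mem_inter, hD'] at hu
        rw [Finset.mem_erase, Finset.mem_inter]
        refine ⟨?_, hu.1, hu.2.1⟩
        rintro rfl
        exact hu.2.2 ⟨le_rfl, by omega⟩
      have h3 := Finset.card_le_card h2
      have h4 : r.p ∈ s.X ∩ s.D := Finset.mem_inter.2 ⟨hpX, hpD⟩
      have h5 := Finset.card_erase_add_one h4
      omega
    have h2 : s.rels.length = L.length + 1 := by rw [hs]; rfl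
    have h3 : s'.V = s.V := rfl
    have h4 : s'.rels = L := rfl
    rw [h3, h4]
    omega

end PF
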