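import Pool.Agent.H1.PF.Path

set_option autoImplicit false

/-!
# PF OkE: the other moves preserve `Ok` (helper1)

* `comp`: `r : P → Q`, `r' : P → Q'`. If `r.s = true` then `(r.comp r').Q i = r'.Q i`, `(r.comp r').U i = r'.U i`. If `r.s = false` then
  `(r.comp r').Q i = r'.Q (l - i)` (`i ≤ l`) and `(r.comp r').U i = r'.U (l - 1 - i)` (`i < l`); the vertex `r.q + i` is `r.Q (l - i)`, the unit `r.q + i` is
  `r.U (l - 1 - i)`. Everything follows from the equations for `r` and `r'` (for `Full`: divide the equations for `l - i` and `l`).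
* `flip`: the same with `r.flip.Q i = r.p + i` (`r.s = true`) or `r.p + (l - i)`.
* `perm`: membership in the list of relations is all that matters (and the length of the list).
* `drop`: the ends of relations are not isolated (`lpos`, `pD`), edges are between non-isolated marks, so relations and edges do not change.
  `Conn`: let `Sg'` be closed for the new state; apply `Conn` of `s` to `Sg x ω := if x = x0 then Sg' x1 ω else Sg' x ω`.
  `Chi`: `E` does not change (`x0 ∉ D`), `V` does not change (`x1` has the same class).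
-/

namespace PF

private def OkE_G {n : ℕ} (sg : ℕ → Bool) (m : ℕ → FreeGroup (Fin n)) (s : St) (r : Rel) : Prop :=
  0 < r.l ∧ (r.p ∈ s.X ∧ r.p + r.l ∈ s.X ∧ r.q ∈ s.X ∧ r.q + r.l ∈ s.X) ∧
    (∀ j, j < r.l → r.p + j ∈ s.D ∧ r.q + j ∈ s.D) ∧
    (s.cl r.p = s.cl (r.Q 0) ∧ s.cl (r.p + r.l) = s.cl (r.Q r.l)) ∧
    (∀ j, j < r.l → (sg (r.U j) = sg (r.p + j) ↔ r.s = true)) ∧
    ∀ j, j ≤ r.l → (m r.p)⁻¹ * m (r.p + j) = (m (r.Q 0))⁻¹ * m (r.Q j)

private theorem OkE_of {n : ℕ} {sg : ℕ → Bool} {m : ℕ → FreeGroup (Fin n)} {s : St}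
    (h : Ok n sg m s) {r : Rel} (hr : r ∈ s.rels) : OkE_G sg m s r :=
  ⟨h.valid.lpos r hr, h.valid.pX r hr, h.valid.pD r hr, h.valid.cl0 r hr, h.sgn r hr, h.full r hr⟩

private theorem OkE_mk {n : ℕ} {sg : ℕ → Bool} {m : ℕ → FreeGroup (Fin n)} {s : St}
    (h : Ok n sg m s) {L : List Rel} (hlen : L.length = s.rels.length)
    (hL : ∀ r ∈ L, OkE_G sg m s r) : Ok n sg m ⟨s.D, s.X, s.cl, L, s.v0⟩ where
  valid := ⟨fun r hr => (hL r hr).1, fun r hr => (hL r hr).2.1, fun r hr => (hL r hr).2.2.1,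
    fun r hr => (hL r hr).2.2.2.1, h.valid.bdL, h.valid.bdR, h.valid.v0X⟩
  sgn := fun r hr => (hL r hr).2.2.2.2.1
  full := fun r hr => (hL r hr).2.2.2.2.2
  conn := h.conn
  chi := by
    have h1 : s.E + 1 ≤ s.V + s.rels.length + n := h.chi
    show s.E + 1 ≤ s.V + L.length + n
    rw [hlen]
    exact h1

private theorem OkE_grp {G : Type} [Group G] {a b c a' b' c' : G} (h1 : a⁻¹ * b = a'⁻¹ * b')
    (h2 : a⁻¹ * c = a'⁻¹ * c') : b⁻¹ * c = b'⁻¹ * c' := by
  have : b⁻¹ * c = (a⁻¹ * b)⁻¹ * (a⁻¹ * c) := by group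
  rw [this, h1, h2]
  group

private theorem OkE_flipG {n : ℕ} {sg : ℕ → Bool} {m : ℕ → FreeGroup (Fin n)} {s : St} {r : Rel}
    (h : OkE_G sg m s r) : OkE_G sg m s r.flip := by
  obtain ⟨p, q, l, b⟩ := r
  obtain ⟨h0, hX, hD, hc, hs, hf⟩ := h
  cases b
  · simp only [Rel.Q, Rel.U, Rel.flip, OkE_G, Bool.false_eq_true, if_false, iff_false,
      Nat.sub_zero, Nat.sub_self, Nat.add_zero] at *
    refine ⟨h0, ⟨hX.2.2.1, hX.2.2.2, hX.1, hX.2.1⟩, fun j hj => ⟨(hD j hj).2, (hD j hj).1⟩,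
      ⟨hc.2.symm, hc.1.symm⟩, fun j hj e => ?_, fun j hj => ?_⟩
    · have h1 := hs (l - 1 - j) (by omega)
      rw [show l - 1 - (l - 1 - j) = j by omega] at h1
      exact h1 e.symm
    · have h1 := hf l le_rfl
      have h2 := hf (l - j) (by omega)
      rw [Nat.sub_self, Nat.add_zero] at h1
      rw [show l - (l - j) = j by omega] at h2
      exact (OkE_grp h1 h2).symm
  · simp only [Rel.Q, Rel.U, Rel.flip, OkE_G, if_true, iff_true, Nat.add_zero] at *
    exact ⟨h0, ⟨hX.2.2.1, hX.2.2.2, hX.1, hX.2.1⟩, fun j hj => ⟨(hD j hj).2, (hD j hj).1⟩,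
      ⟨hc.1.symm, hc.2.symm⟩, fun j hj => (hs j hj).symm, fun j hj => (hf j hj).symm⟩

private theorem OkE_compG {n : ℕ} {sg : ℕ → Bool} {m : ℕ → FreeGroup (Fin n)} {s : St} {r r' : Rel}
    (h : OkE_G sg m s r) (h' : OkE_G sg m s r') (hp : r.p = r'.p) (hl : r.l = r'.l) :
    OkE_G sg m s (r.comp r') := by
  obtain ⟨p, q, l, b⟩ := r
  obtain ⟨p', q', l', b'⟩ := r'
  simp only at hp hl
  subst hp
  subst hl
  obtain ⟨h0, hX, hD, hc, hs, hf⟩ := h
  obtain ⟨h0', hX', hD', hc', hs', hf'⟩ := h'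
  cases b <;> cases b'
  · simp only [Rel.Q, Rel.U, Rel.comp, OkE_G, Bool.false_eq_true, if_false, if_true, iff_false,
      Nat.sub_zero, Nat.sub_self, Nat.add_zero, beq_self_eq_true, iff_true] at *
    refine ⟨h0, ⟨hX.2.2.1, hX.2.2.2, hX'.2.2.1, hX'.2.2.2⟩,
      fun j hj => ⟨(hD j hj).2, (hD' j hj).2⟩, ⟨hc.2.symm.trans hc'.2, hc.1.symm.trans hc'.1⟩,
      fun j hj => ?_, fun j hj => ?_⟩
    · have h1 := hs (l - 1 - j) (by omega)
      have h2 := hs' (l - 1 - j) (by omega)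
      rw [show l - 1 - (l - 1 - j) = j by omega] at h1 h2
      revert h1 h2
      cases sg (q + j) <;> cases sg (q' + j) <;> cases sg (p + (l - 1 - j)) <;> simp
    · have h1 := hf l le_rfl
      have h2 := hf (l - j) (by omega)
      have h1' := hf' l le_rfl
      have h2' := hf' (l - j) (by omega)
      rw [Nat.sub_self, Nat.add_zero] at h1 h1'
      rw [show l - (l - j) = j by omega] at h2 h2'
      exact (OkE_grp h1 h2).symm.trans (OkE_grp h1' h2')
  · simp only [Rel.Q, Rel.U, Rel.comp, OkE_G, Bool.false_eq_true, if_false, if_true, iff_false,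
      Nat.sub_zero, Nat.sub_self, Nat.add_zero, iff_true, Bool.false_beq, Bool.not_true] at *
    refine ⟨h0, ⟨hX.2.2.1, hX.2.2.2, hX'.2.2.1, hX'.2.2.2⟩,
      fun j hj => ⟨(hD j hj).2, (hD' j hj).2⟩, ⟨hc.2.symm.trans hc'.2, hc.1.symm.trans hc'.1⟩,
      fun j hj => ?_, fun j hj => ?_⟩
    · have h1 := hs (l - 1 - j) (by omega)
      have h2 := hs' (l - 1 - j) (by omega)
      rw [show l - 1 - (l - 1 - j) = j by omega] at h1
      rw [h2]
      exact fun e => h1 e.symm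
    · have h1 := hf l le_rfl
      have h2 := hf (l - j) (by omega)
      have h1' := hf' l le_rfl
      have h2' := hf' (l - j) (by omega)
      rw [Nat.sub_self, Nat.add_zero] at h1
      rw [show l - (l - j) = j by omega] at h2
      exact (OkE_grp h1 h2).symm.trans (OkE_grp h1' h2')
  · simp only [Rel.Q, Rel.U, Rel.comp, OkE_G, Bool.false_eq_true, if_false, if_true, iff_false,
      Nat.sub_zero, Nat.sub_self, Nat.add_zero, iff_true, Bool.true_beq] at *
    refine ⟨h0, ⟨hX.2.2.1, hX.2.2.2, hX'.2.2.1, hX'.2.2.2⟩,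
      fun j hj => ⟨(hD j hj).2, (hD' j hj).2⟩, ⟨hc.1.symm.trans hc'.1, hc.2.symm.trans hc'.2⟩,
      fun j hj => ?_, fun j hj => (hf j hj).symm.trans (hf' j hj)⟩
    rw [hs j hj]
    exact hs' j hj
  · simp only [Rel.Q, Rel.U, Rel.comp, OkE_G, if_true, Nat.add_zero, iff_true,
      beq_self_eq_true] at *
    refine ⟨h0, ⟨hX.2.2.1, hX.2.2.2, hX'.2.2.1, hX'.2.2.2⟩,
      fun j hj => ⟨(hD j hj).2, (hD' j hj).2⟩, ⟨hc.1.symm.trans hc'.1, hc.2.symm.trans hc'.2⟩,
      fun j hj => ?_, fun j hj => (hf j hj).symm.trans (hf' j hj)⟩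
    rw [hs j hj]
    exact hs' j hj

theorem ok_comp {n : ℕ} {sg : ℕ → Bool} {m : ℕ → FreeGroup (Fin n)} {s : St} (h : Ok n sg m s) {r r' : Rel} {L : List Rel}
    (hs : s.rels = r :: r' :: L) (hp : r.p = r'.p) (hl : r.l = r'.l) :
    Ok n sg m ⟨s.D, s.X, s.cl, r :: r.comp r' :: L, s.v0⟩ := by
  refine OkE_mk h (by rw [hs]; rfl) fun t ht => ?_
  rcases List.mem_cons.1 ht with rfl | ht
  · exact OkE_of h (by rw [hs]; exact List.mem_cons_self)
  rcases List.mem_cons.1 ht with rfl | ht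
  · exact OkE_compG (OkE_of h (by rw [hs]; exact List.mem_cons_self))
      (OkE_of h (by rw [hs]; exact List.mem_cons_of_mem _ List.mem_cons_self)) hp hl
  · exact OkE_of h (by rw [hs]; exact List.mem_cons_of_mem _ (List.mem_cons_of_mem _ ht))

theorem ok_flip {n : ℕ} {sg : ℕ → Bool} {m : ℕ → FreeGroup (Fin n)} {s : St} (h : Ok n sg m s) {r : Rel} {L : List Rel}
    (hs : s.rels = r :: L) : Ok n sg m ⟨s.D, s.X, s.cl, r.flip :: L, s.v0⟩ := by
  refine OkE_mk h (by rw [hs]; rfl) fun t ht => ?_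
  rcases List.mem_cons.1 ht with rfl | ht
  · exact OkE_flipG (OkE_of h (by rw [hs]; exact List.mem_cons_self))
  · exact OkE_of h (by rw [hs]; exact List.mem_cons_of_mem _ ht)

theorem ok_perm {n : ℕ} {sg : ℕ → Bool} {m : ℕ → FreeGroup (Fin n)} {s : St} (h : Ok n sg m s) {L : List Rel}
    (hs : s.rels.Perm L) : Ok n sg m ⟨s.D, s.X, s.cl, L, s.v0⟩ := by
  exact OkE_mk h hs.length_eq.symm fun _ ht => OkE_of h (hs.mem_iff.2 ht)

end PF
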