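import Pool.Agent.H1.PF.Path

set_option autoImplicit false

/-!
# PF OkF: the other moves preserve `Ok` (helper1)

* `comp`: `r : P → Q`, `r' : P → Q'`. If `r.s = true` then `(r.comp r').Q i = r'.Q i`, `(r.comp r').U i = r'.U i`. If `r.s = false` then
  `(r.comp r').Q i = r'.Q (l - i)` (`i ≤ l`) and `(r.comp r').U i = r'.U (l - 1 - i)` (`i < l`); the vertex `r.q + i` is `r.Q (l - i)`, the unit `r.q + i` is
  `r.U (l - 1 - i)`. Everything follows from the equations for `r` and `r'` (for `Full`: divide the equations for `l - i` and `l`).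
* `flip`: the same with `r.flip.Q i = r.p + i` (`r.s = true`) or `r.p + (l - i)`.
* `perm`: membership in the list of relations is all that matters (and the length of the list).
* `drop`: the ends of relations are not isolated (`lpos`, `pD`), edges are between non-isolated marks, so relations and edges do not change.
  `Conn`: let `Sg'` be closed for the new state; apply `Conn` of `s` to `Sg x ω := if x = x0 then Sg' x1 ω else Sg' x ω`.
  `Chi`: `E` does not change (`x0 ∉ D`), `V` does not change (`x1` has the same class).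
-/

namespace PF

private theorem okF_edge {s : St} {x0 : ℕ} (h0D : x0 ∉ s.D) (h0D' : ∀ u ∈ s.D, u + 1 ≠ x0)
    (v : ℕ) (x y : ℕ) :
    St.Edge ⟨s.D, s.X.erase x0, s.cl, s.rels, v⟩ x y ↔ s.Edge x y := by
  unfold St.Edge
  simp only [Finset.mem_erase]
  constructor
  · rintro ⟨⟨h1, h2⟩, ⟨h3, h4⟩, h5, h6, h7⟩
    refine ⟨h2, h4, h5, h6, fun u hu hu' hX => ?_⟩
    refine h7 u hu hu' ⟨?_, hX⟩
    rintro rfl
    exact h0D (h6 u hu.le hu')
  · rintro ⟨h1, h2, h3, h4, h5⟩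
    refine ⟨⟨?_, h1⟩, ⟨?_, h2⟩, h3, h4, fun u hu hu' hX => h5 u hu hu' hX.2⟩
    · rintro rfl
      exact h0D (h4 x le_rfl h3)
    · rintro rfl
      refine h0D' (y - 1) (h4 (y - 1) (by omega) (by omega)) (by omega)

private theorem okF_edge_ne {s : St} {x0 : ℕ} (h0D : x0 ∉ s.D) (h0D' : ∀ u ∈ s.D, u + 1 ≠ x0)
    {x y : ℕ} (h : s.Edge x y) : x ≠ x0 ∧ y ≠ x0 := by
  obtain ⟨h1, h2, h3, h4, h5⟩ := h
  constructor
  · rintro rfl
    exact h0D (h4 x le_rfl h3)
  · rintro rfl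
    refine h0D' (y - 1) (h4 (y - 1) (by omega) (by omega)) (by omega)

private theorem okF_image {s : St} {x0 x1 : ℕ} (h1 : x1 ∈ s.X) (hne : x1 ≠ x0)
    (hcl : s.cl x1 = s.cl x0) : (s.X.erase x0).image s.cl = s.X.image s.cl := by
  ext c
  simp only [Finset.mem_image, Finset.mem_erase]
  constructor
  · rintro ⟨x, ⟨_, hx⟩, rfl⟩
    exact ⟨x, hx, rfl⟩
  · rintro ⟨x, hx, rfl⟩
    by_cases h : x = x0
    · exact ⟨x1, ⟨hne, h1⟩, by rw [hcl, h]⟩
    · exact ⟨x, ⟨h, hx⟩, rfl⟩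

theorem ok_drop {n : ℕ} {sg : ℕ → Bool} {m : ℕ → FreeGroup (Fin n)} {s : St} (h : Ok n sg m s) {x0 x1 : ℕ}
    (h0 : x0 ∈ s.X) (h0D : x0 ∉ s.D) (h0D' : ∀ u ∈ s.D, u + 1 ≠ x0) (h1 : x1 ∈ s.X) (hne : x1 ≠ x0) (hcl : s.cl x1 = s.cl x0) :
    Ok n sg m ⟨s.D, s.X.erase x0, s.cl, s.rels, if s.v0 = x0 then x1 else s.v0⟩ := by
  obtain ⟨hv, hsg, hf, hc, hchi⟩ := h
  have hnD : ∀ x ∈ s.D, x ≠ x0 := by
    rintro x hx rfl
    exact h0D hx
  refine ⟨⟨hv.lpos, ?_, hv.pD, hv.cl0, ?_, ?_, ?_⟩, hsg, hf, ?_, ?_⟩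
  · intro r hr
    obtain ⟨k1, k2, k3, k4⟩ := hv.pX r hr
    have hl := hv.lpos r hr
    have d0 := hv.pD r hr 0 hl
    have d1 := hv.pD r hr (r.l - 1) (by omega)
    simp only [Finset.mem_erase]
    refine ⟨⟨hnD _ (by simpa using d0.1), k1⟩, ⟨?_, k2⟩, ⟨hnD _ (by simpa using d0.2), k3⟩, ⟨?_, k4⟩⟩
    · intro he
      exact h0D' _ d1.1 (by omega)
    · intro he
      exact h0D' _ d1.2 (by omega)
  · intro x hx hx'
    simp only [Finset.mem_erase, not_and] at hx'
    exact hv.bdL x hx (hx' (hnD x hx))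
  · intro x hx hx'
    simp only [Finset.mem_erase, not_and] at hx'
    exact hv.bdR x hx (hx' (h0D' x hx))
  · simp only [Finset.mem_erase]
    by_cases h2 : s.v0 = x0
    · rw [if_pos h2]
      exact ⟨hne, h1⟩
    · rw [if_neg h2]
      exact ⟨h2, hv.v0X⟩
  · intro Sg' a1 a2 a3 x hx ω
    simp only [Finset.mem_erase] at hx
    have key : ∀ x ∈ s.X, ∀ ω, (if x = x0 then Sg' x1 ω else Sg' x ω) := by
      refine hc (fun x ω => if x = x0 then Sg' x1 ω else Sg' x ω) ?_ ?_ ?_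
      · simp only at a1 ⊢
        by_cases h2 : s.v0 = x0
        · rw [if_pos h2] at a1 ⊢
          exact a1
        · rw [if_neg h2] at a1 ⊢
          exact a1
      · intro x y ω hx hy hxy hS
        simp only [Finset.mem_erase] at a2
        by_cases h2 : x = x0
        · rw [if_pos h2] at hS
          by_cases h3 : y = x0
          · rw [if_pos h3]
            exact hS
          · rw [if_neg h3]
            exact a2 x1 y ω ⟨hne, h1⟩ ⟨h3, hy⟩ (by rw [hcl, ← h2, hxy]) hS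
        · rw [if_neg h2] at hS
          by_cases h3 : y = x0
          · rw [if_pos h3]
            exact a2 x x1 ω ⟨h2, hx⟩ ⟨hne, h1⟩ (by rw [hcl, ← h3, hxy]) hS
          · rw [if_neg h3]
            exact a2 x y ω ⟨h2, hx⟩ ⟨h3, hy⟩ hxy hS
      · intro x y ω he
        obtain ⟨h2, h3⟩ := okF_edge_ne h0D h0D' he
        rw [if_neg h2, if_neg h3]
        exact a3 x y ω ((okF_edge h0D h0D' _ x y).2 he)
    have h3 := key x hx.2 ω
    rwa [if_neg hx.1] at h3
  · unfold St.Chi St.E St.V at hchi ⊢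
    simp only
    rw [okF_image h1 hne hcl]
    have h3 : s.X.erase x0 ∩ s.D = s.X ∩ s.D := by
      ext c
      simp only [Finset.mem_inter, Finset.mem_erase]
      constructor
      · rintro ⟨⟨_, k1⟩, k2⟩
        exact ⟨k1, k2⟩
      · rintro ⟨k1, k2⟩
        exact ⟨⟨hnD c k2, k1⟩, k2⟩
    rw [h3]
    exact hchi

theorem V_drop {s : St} {x0 x1 : ℕ} (h1 : x1 ∈ s.X) (hne : x1 ≠ x0) (hcl : s.cl x1 = s.cl x0) (rels : List Rel) (v : ℕ) :
    St.V ⟨s.D, s.X.erase x0, s.cl, rels, v⟩ = s.V := by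
  unfold St.V
  simp only
  rw [okF_image h1 hne hcl]

end PF
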