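import Pool.Agent.H1.PF.OkA
import Pool.Agent.H1.PF.OkC
import Pool.Agent.H1.PF.OkD
import Pool.Agent.H1.PF.OkE
import Pool.Agent.H1.PF.OkF
import Pool.Agent.H1.PF.CertA
import Pool.Agent.H1.PF.CertC
import Pool.Agent.H1.PF.CertD
import Pool.Agent.H1.PF.CertE
import Pool.Agent.H1.PF.CertF

set_option autoImplicit false

/-!
# PF Mv: elementary moves preserve `Ok` and transfer certificates (helper1; assembly)
-/

namespace PF

theorem ok_move {n : ℕ} {sg : ℕ → Bool} {m : ℕ → FreeGroup (Fin n)} {s t : St} (h : Ok n sg m s) (hm : Move s t) : Ok n sg m t := by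
  cases hm with
  | addMark z k hz hD hD' hk => exact ok_addMark h hz hD hD' hk
  | cut r L j hs hj hj' h1 h2 => exact ok_cut h hs hj hj' h1 h2
  | del r L hs hm hq => exact ok_del h hs hm hq
  | comp r r' L hs hp hl => exact ok_comp h hs hp hl
  | flip r L hs => exact ok_flip h hs
  | perm L hs => exact ok_perm h hs
  | drop x0 x1 h0 h0D h0D' h1 hne hcl => exact ok_drop h h0 h0D h0D' h1 hne hcl

theorem cert_move {n : ℕ} {sg : ℕ → Bool} {m : ℕ → FreeGroup (Fin n)} {s t : St} (h : Ok n sg m s) (hm : Move s t) {M : ℕ}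
    (hM : s.X.card ≤ M) {k B : ℕ} {w : List (Fin k × Bool)} (hC : Cert (s.toFS sg) k B w) : Cert (t.toFS sg) k ((4 * M + 2) * B) w := by
  cases hm with
  | addMark z k hz hD hD' hk => exact cert_addMark h.valid hz hD hD' hk hC
  | cut r L j hs hj hj' h1 h2 => exact cert_cut h.valid hM hs hj hj' h1 h2 hC
  | del r L hs hm hq => exact cert_del h.valid h.sgn hM hs hm hq hC
  | comp r r' L hs hp hl => exact cert_comp hs hp hl hC
  | flip r L hs => exact cert_flip hs hC
  | perm L hs => exact cert_perm hs hC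
  | drop x0 x1 h0 h0D h0D' h1 hne hcl => exact cert_drop h.valid h0 h0D h0D' h1 hne hcl hC

theorem ok_chain {n : ℕ} {sg : ℕ → Bool} {m : ℕ → FreeGroup (Fin n)} {M : ℕ} {s t : St} (h : Ok n sg m s) (hc : Chain M s t) : Ok n sg m t := by
  induction hc with
  | refl => exact h
  | tail _ h2 ih => exact ok_move ih h2.2.2

end PF
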