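import Pool.Agent.H1.PF.Path

set_option autoImplicit false

/-!
# PF OkA: adding a mark inside an edge preserves `Ok` (helper1)

`z + 1 ∉ X`, the units `z, z + 1` are present, `k` is a new class. By `edge_around` there is an edge `(x, y)` of `s` with `x < z + 1 < y`.
The edges of the new state are the edges of `s` except `(x, y)`, and `(x, z+1)`, `(z+1, y)`.

* `Valid`: the marks only increase; the old marks keep their classes (`z + 1 ∉ X`, all ends of relations and `v0` are in `X`). `bdL`, `bdR` are weaker.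
* `Sgn`, `Full`: the relations do not change.
* `Conn`: let `Sg` be closed for the new state. It is closed for `s`: for two old marks of the same old class this is clear; for an old edge which is
  still an edge clear; for `(x, y)`: go through `z + 1` (`ω * (m x)⁻¹ m (z+1) * (m (z+1))⁻¹ m y`). So `Sg` contains `(x', ω)` for all old marks `x'`, and
  then `(z + 1, ω)` because of the edge `(x, z + 1)`.
* `Chi`: `E` increases by one (`z + 1 ∈ D`), `V` increases by one (`k` is new).
-/

namespace PF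

/-- the number of classes (helper lemma) -/
private theorem OkA_V {s : St} {z k : ℕ} (hz : z + 1 ∉ s.X) (hk : k ∉ s.X.image s.cl) :
    St.V ⟨s.D, insert (z + 1) s.X, fun u => if u = z + 1 then k else s.cl u, s.rels, s.v0⟩ = s.V + 1 := by
  show ((insert (z + 1) s.X).image (fun u => if u = z + 1 then k else s.cl u)).card =
    (s.X.image s.cl).card + 1
  rw [Finset.image_insert, if_pos rfl]
  have e : s.X.image (fun u => if u = z + 1 then k else s.cl u) = s.X.image s.cl := by
    refine Finset.image_congr fun u hu => ?_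
    have hu' : u ∈ s.X := hu
    have : u ≠ z + 1 := fun h => hz (h ▸ hu')
    show (if u = z + 1 then k else s.cl u) = s.cl u
    rw [if_neg this]
  rw [e, Finset.card_insert_of_notMem hk]

private theorem OkA_edge {s : St} {z k : ℕ} {a b : ℕ} (h : s.Edge a b) (hab : ¬ (a < z + 1 ∧ z + 1 < b)) :
    St.Edge ⟨s.D, insert (z + 1) s.X, fun u => if u = z + 1 then k else s.cl u, s.rels, s.v0⟩ a b := by
  obtain ⟨h1, h2, h3, h4, h5⟩ := h
  refine ⟨Finset.mem_insert_of_mem h1, Finset.mem_insert_of_mem h2, h3, h4, fun u hu hu' hX => ?_⟩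
  have hX' : u ∈ insert (z + 1) s.X := hX
  rcases Finset.mem_insert.1 hX' with h6 | h6
  · exact hab ⟨by omega, by omega⟩
  · exact h5 u hu hu' h6

private theorem OkA_edge2 {s : St} {z k : ℕ} {a b : ℕ} (h : s.Edge a b) (ha : a < z + 1) (hb : z + 1 < b) :
    St.Edge ⟨s.D, insert (z + 1) s.X, fun u => if u = z + 1 then k else s.cl u, s.rels, s.v0⟩ a (z + 1) ∧
    St.Edge ⟨s.D, insert (z + 1) s.X, fun u => if u = z + 1 then k else s.cl u, s.rels, s.v0⟩ (z + 1) b := by
  obtain ⟨h1, h2, h3, h4, h5⟩ := h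
  refine ⟨⟨Finset.mem_insert_of_mem h1, Finset.mem_insert_self _ _, ha,
    fun u hu hu' => h4 u hu (by omega), fun u hu hu' hX => ?_⟩,
    ⟨Finset.mem_insert_self _ _, Finset.mem_insert_of_mem h2, hb,
    fun u hu hu' => h4 u (by omega) hu', fun u hu hu' hX => ?_⟩⟩
  · have hX' : u ∈ insert (z + 1) s.X := hX
    rcases Finset.mem_insert.1 hX' with h6 | h6
    · omega
    · exact h5 u hu (by omega) h6
  · have hX' : u ∈ insert (z + 1) s.X := hX
    rcases Finset.mem_insert.1 hX' with h6 | h6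
    · omega
    · exact h5 u (by omega) hu' h6

private theorem OkA_valid {s : St} (h : s.Valid) {z k : ℕ} (hz : z + 1 ∉ s.X) :
    St.Valid ⟨s.D, insert (z + 1) s.X, fun u => if u = z + 1 then k else s.cl u, s.rels, s.v0⟩ := by
  have hcl : ∀ u ∈ s.X, (if u = z + 1 then k else s.cl u) = s.cl u := by
    intro u hu
    have : u ≠ z + 1 := fun h => hz (h ▸ hu)
    rw [if_neg this]
  have hQ : ∀ r ∈ s.rels, r.Q 0 ∈ s.X ∧ r.Q r.l ∈ s.X := by
    intro r hr
    obtain ⟨h1, h2, h3, h4⟩ := h.pX r hr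
    unfold Rel.Q
    split_ifs
    · exact ⟨h3, h4⟩
    · rw [Nat.sub_zero, Nat.sub_self]
      exact ⟨h4, h3⟩
  constructor
  · exact h.lpos
  · intro r hr
    obtain ⟨h1, h2, h3, h4⟩ := h.pX r hr
    exact ⟨Finset.mem_insert_of_mem h1, Finset.mem_insert_of_mem h2, Finset.mem_insert_of_mem h3,
      Finset.mem_insert_of_mem h4⟩
  · exact h.pD
  · intro r hr
    obtain ⟨h1, h2, h3, h4⟩ := h.pX r hr
    obtain ⟨h5, h6⟩ := hQ r hr
    obtain ⟨h7, h8⟩ := h.cl0 r hr
    constructor
    · show (if r.p = z + 1 then k else s.cl r.p) = (if r.Q 0 = z + 1 then k else s.cl (r.Q 0))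
      rw [hcl _ h1, hcl _ h5, h7]
    · show (if r.p + r.l = z + 1 then k else s.cl (r.p + r.l)) =
        (if r.Q r.l = z + 1 then k else s.cl (r.Q r.l))
      rw [hcl _ h2, hcl _ h6, h8]
  · intro x hx hx'
    exact h.bdL x hx fun h' => hx' (Finset.mem_insert_of_mem h')
  · intro x hx hx'
    exact h.bdR x hx fun h' => hx' (Finset.mem_insert_of_mem h')
  · exact Finset.mem_insert_of_mem h.v0X

theorem ok_addMark {n : ℕ} {sg : ℕ → Bool} {m : ℕ → FreeGroup (Fin n)} {s : St} (h : Ok n sg m s) {z k : ℕ}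
    (hz : z + 1 ∉ s.X) (hD : z ∈ s.D) (hD' : z + 1 ∈ s.D) (hk : k ∉ s.X.image s.cl) :
    Ok n sg m ⟨s.D, insert (z + 1) s.X, fun u => if u = z + 1 then k else s.cl u, s.rels, s.v0⟩ := by
  have hcl : ∀ u ∈ s.X, (if u = z + 1 then k else s.cl u) = s.cl u := by
    intro u hu
    have : u ≠ z + 1 := fun h => hz (h ▸ hu)
    rw [if_neg this]
  refine ⟨OkA_valid h.valid hz, h.sgn, h.full, ?_, ?_⟩
  · intro Sg h0 h1 h2
    have h3 : ∀ x ∈ s.X, ∀ ω, Sg x ω := by
      refine h.conn Sg h0 ?_ ?_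
      · intro x y ω hx hy hxy
        refine h1 x y ω (Finset.mem_insert_of_mem hx) (Finset.mem_insert_of_mem hy) ?_
        show (if x = z + 1 then k else s.cl x) = (if y = z + 1 then k else s.cl y)
        rw [hcl x hx, hcl y hy, hxy]
      · intro x y ω hxy
        by_cases hc : x < z + 1 ∧ z + 1 < y
        · obtain ⟨e1, e2⟩ := OkA_edge2 (k := k) hxy hc.1 hc.2
          rw [h2 x (z + 1) ω e1, h2 (z + 1) y _ e2]
          have e : ω * ((m x)⁻¹ * m (z + 1)) * ((m (z + 1))⁻¹ * m y) = ω * ((m x)⁻¹ * m y) := by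
            group
          rw [e]
        · exact h2 x y ω (OkA_edge hxy hc)
    intro x hx ω
    have hx' : x ∈ insert (z + 1) s.X := hx
    rcases Finset.mem_insert.1 hx' with h4 | h4
    · obtain ⟨a, b, hab, ha, hb⟩ := edge_around h.valid hz hD hD'
      obtain ⟨e1, -⟩ := OkA_edge2 (k := k) hab ha hb
      have h5 := (h2 a (z + 1) (ω * ((m a)⁻¹ * m (z + 1))⁻¹) e1).1 (h3 a hab.1 _)
      have e : ω * ((m a)⁻¹ * m (z + 1))⁻¹ * ((m a)⁻¹ * m (z + 1)) = ω := by group
      rw [e] at h5
      rw [h4]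
      exact h5
    · exact h3 x h4 ω
  · have hE : St.E ⟨s.D, insert (z + 1) s.X, fun u => if u = z + 1 then k else s.cl u, s.rels, s.v0⟩ =
        s.E + 1 := by
      show ((insert (z + 1) s.X) ∩ s.D).card = (s.X ∩ s.D).card + 1
      rw [Finset.insert_inter_of_mem hD', Finset.card_insert_of_notMem]
      intro h'
      exact hz (Finset.mem_inter.1 h').1
    have hc := h.chi
    unfold St.Chi at hc ⊢
    rw [hE, OkA_V hz hk]
    show s.E + 1 + 1 ≤ s.V + 1 + s.rels.length + n
    omega

/-- the number of classes -/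
theorem V_addMark {s : St} {z k : ℕ} (hz : z + 1 ∉ s.X) (hk : k ∉ s.X.image s.cl) :
    St.V ⟨s.D, insert (z + 1) s.X, fun u => if u = z + 1 then k else s.cl u, s.rels, s.v0⟩ = s.V + 1 :=
  OkA_V hz hk

end PF
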