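import Pool.Agent.H1.PF.Tr

set_option autoImplicit false

/-!
# PF PushA: certificates only depend on the combinatorial type (helper1)

`ρ` is injective on the set `X` in which everything happens.
* `→`: `cert_transfer` with `c = 1`, `T e = [(ρ e.1, ρ e.2)]`; a labelling `m'` of `f.push ρ` gives the labelling `m' ∘ ρ` of `f`. `hSur`: choose for every `i` in the image of `X` a
  preimage `σ i ∈ X` (otherwise `σ i = f.v0`); `lam' i j = lam (σ i) (σ j)`, `g' i = g (σ i)`. If `(f.push ρ).eqv i j` then `i = ρ x`, `j = ρ y` with `f.eqv x y`, `x = σ i`, `y = σ j` by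
  injectivity.
* `←`: the same with `T e = [(σ e.1, σ e.2)]`: a labelling `m'` of `f` gives the labelling `m' ∘ σ` of `f.push ρ`; `lam' x y = lam (ρ x) (ρ y)`, `g' x = g (ρ x)`.
  (`f.pos x y → f.E2 (x, y)` is a field of `Supp`.)

`tp_iff`: for a valid state with at most `M` marks `s.rk` is strictly increasing on `s.X` with values `< s.X.card ≤ M`, so `x ↦ Fin.ofNat (M+1) (s.rk x)` is injective on `s.X`;
and `toFS` is supported in `s.X` (`Edge` contains `x ∈ X`, `y ∈ X`; `Valid.pX` for the relations: `r.Q 0` and `r.Q r.l` are `r.q` and `r.q + r.l` in some order).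
-/

namespace PF

private theorem PushA_forward {A C : Type} (f : FS A) (ρ : A → C) (X : Set A) (hs : f.Supp X) (n B : ℕ)
    (w : List (Fin n × Bool)) (σ : C → A) (hσ : ∀ x ∈ X, σ (ρ x) = x) (h : Cert f n B w) :
    Cert (f.push ρ) n B w := by
  have key : Cert (f.push ρ) n (1 * B) w := by
    refine cert_transfer (f := f) (f' := f.push ρ) (c := 1) (fun e => [(ρ e.1, ρ e.2)])
      hs.pos (fun e _ => le_refl _) ?_ ?_ ?_ ?_ h
    · intro e he e' he'
      rw [List.mem_singleton] at he'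
      subst he'
      rcases he with he | he
      · exact Or.inl ⟨e.1, e.2, he, rfl, rfl⟩
      · exact Or.inr ⟨e.2, e.1, he, rfl, rfl⟩
    · intro e he e' he'
      rw [List.mem_singleton] at he'
      subst he'
      exact ⟨e.1, e.2, he, rfl, rfl⟩
    · intro G _ m' hm'
      refine ⟨fun x => m' (ρ x), fun a b c d hr => hm' _ _ _ _ ⟨a, b, c, d, hr, rfl, rfl, rfl, rfl⟩, fun e _ => ?_⟩
      rw [val_singleton]
    · intro lam hlam
      refine ⟨fun i j => lam (σ i) (σ j), fun i j => ?_, ?_⟩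
      · rw [one_mul]
        exact hlam _ _
      · intro G _ m' m h g hm' hm he hq h0 hg
        refine ⟨fun i => g (σ i), ?_, ?_, ?_⟩
        · rintro i j ⟨x, y, hxy, rfl, rfl⟩
          obtain ⟨hx, hy⟩ := hs.eqv x y hxy
          show g (σ (ρ x)) = g (σ (ρ y))
          rw [hσ x hx, hσ y hy]
          exact hq x y hxy
        · show g (σ (ρ f.v0)) = 1
          rw [hσ _ hs.v0]
          exact h0
        · rintro i j ⟨x, y, hxy, rfl, rfl⟩
          obtain ⟨hx, hy⟩ := hs.ed x y hxy
          have h1 := he (x, y) (Or.inl hxy)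
          rw [val_singleton] at h1
          show (m' (ρ x))⁻¹ * m' (ρ y) = (g (σ (ρ x)))⁻¹ * ev h (lam (σ (ρ x)) (σ (ρ y))) * g (σ (ρ y))
          rw [hσ x hx, hσ y hy, ← hg x y hxy]
          exact h1.symm
  rwa [one_mul] at key

private theorem PushA_backward {A C : Type} (f : FS A) (ρ : A → C) (X : Set A) (hs : f.Supp X) (n B : ℕ)
    (w : List (Fin n × Bool)) (σ : C → A) (hσ : ∀ x ∈ X, σ (ρ x) = x) (h : Cert (f.push ρ) n B w) :
    Cert f n B w := by
  have hpX : ∀ x y, f.pos x y → x ∈ X ∧ y ∈ X := by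
    intro x y hp
    rcases hs.pos x y hp with h1 | h1
    · exact hs.ed x y h1
    · exact (hs.ed y x h1).symm
  have key : Cert f n (1 * B) w := by
    refine cert_transfer (f := f.push ρ) (f' := f) (c := 1) (fun e => [(σ e.1, σ e.2)])
      ?_ (fun e _ => le_refl _) ?_ ?_ ?_ ?_ h
    · rintro i j ⟨x, y, hxy, rfl, rfl⟩
      rcases hs.pos x y hxy with h1 | h1
      · exact Or.inl ⟨x, y, h1, rfl, rfl⟩
      · exact Or.inr ⟨y, x, h1, rfl, rfl⟩
    · rintro ⟨i, j⟩ he e' he'
      rw [List.mem_singleton] at he'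
      subst he'
      rcases he with ⟨x, y, hxy, hi, hj⟩ | ⟨x, y, hxy, hj, hi⟩
      · obtain ⟨hx, hy⟩ := hs.ed x y hxy
        subst hi hj
        left
        show f.ed (σ (ρ x)) (σ (ρ y))
        rw [hσ x hx, hσ y hy]
        exact hxy
      · obtain ⟨hx, hy⟩ := hs.ed x y hxy
        subst hi hj
        right
        show f.ed (σ (ρ x)) (σ (ρ y))
        rw [hσ x hx, hσ y hy]
        exact hxy
    · rintro ⟨i, j⟩ ⟨x, y, hxy, hi, hj⟩ e' he'
      rw [List.mem_singleton] at he'
      subst he'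
      obtain ⟨hx, hy⟩ := hpX x y hxy
      subst hi hj
      show f.pos (σ (ρ x)) (σ (ρ y))
      rw [hσ x hx, hσ y hy]
      exact hxy
    · intro G _ m' hm'
      refine ⟨fun i => m' (σ i), ?_, fun e _ => ?_⟩
      · rintro i j k l ⟨a, b, c, d, hr, rfl, rfl, rfl, rfl⟩
        obtain ⟨ha, hb, hc, hd⟩ := hs.rel a b c d hr
        show (m' (σ (ρ a)))⁻¹ * m' (σ (ρ b)) = (m' (σ (ρ c)))⁻¹ * m' (σ (ρ d))
        rw [hσ a ha, hσ b hb, hσ c hc, hσ d hd]
        exact hm' a b c d hr
      · rw [val_singleton]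
    · intro lam hlam
      refine ⟨fun x y => lam (ρ x) (ρ y), fun x y => ?_, ?_⟩
      · rw [one_mul]
        exact hlam _ _
      · intro G _ m' m h g hm' hm he hq h0 hg
        refine ⟨fun x => g (ρ x), ?_, h0, ?_⟩
        · intro x y hxy
          exact hq _ _ ⟨x, y, hxy, rfl, rfl⟩
        · intro x y hxy
          obtain ⟨hx, hy⟩ := hs.ed x y hxy
          have h2 : (f.push ρ).ed (ρ x) (ρ y) := ⟨x, y, hxy, rfl, rfl⟩
          have h1 := he (ρ x, ρ y) (Or.inl h2)
          rw [val_singleton] at h1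
          have h3 := hg _ _ h2
          simp only at h1
          rw [hσ x hx, hσ y hy] at h1
          rw [← h1]
          exact h3
  rwa [one_mul] at key

theorem cert_push {A C : Type} (f : FS A) (ρ : A → C) (X : Set A) (hinj : Set.InjOn ρ X) (hs : f.Supp X) (n B : ℕ)
    (w : List (Fin n × Bool)) : Cert f n B w ↔ Cert (f.push ρ) n B w := by
  classical
  have hex : ∀ i : C, ∃ x : A, (∀ y ∈ X, ρ y = i → x = y) := by
    intro i
    by_cases h : ∃ y ∈ X, ρ y = i
    · obtain ⟨y, hy, hyi⟩ := h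
      exact ⟨y, fun z hz hzi => hinj hy hz (hyi.trans hzi.symm)⟩
    · exact ⟨f.v0, fun z hz hzi => absurd ⟨z, hz, hzi⟩ h⟩
  choose σ hσ using hex
  have hσ' : ∀ x ∈ X, σ (ρ x) = x := fun x hx => hσ (ρ x) x hx rfl
  exact ⟨PushA_forward f ρ X hs n B w σ hσ', PushA_backward f ρ X hs n B w σ hσ'⟩

end PF
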