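import Pool.Agent.H1.PF.Bands

set_option autoImplicit false

/-!
# PF RelDir: segments without points of `M0` (helper1)

* `seg_pos`: `h` is in the hull, `t0 < len h`, and the proper prefixes of `h` longer than `t0` are not in `M0`. By `blk_pred` (downward induction on `k`, for `tk h (k+1)`, `tk (tk h (k+1)) k = tk h k`) all `tk h k`, `t0 < k ≤ len h`, have the same
  `blk = blk h`; so `P (tk h k) = blk h * Lam + k`, `mZ_P`, `P1_mem`, and `mZ_P1` for `k = t0 + 1` gives `mZ (blk h * Lam + t0) = tk h t0`. The quotients: `P1_div`.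
* `dir`: `c ∈ M1 i`, `v k = y i * tk c (pt i c + k)`, `0 ≤ k ≤ l = len c - pt i c`. For `0 < k < l`: `tk c (pt i c + k) ∈ B i`, not in `M1 i` (`pt_spec`), so `v k ∉ M0` (`not_M1`). By `step` the lengths of `v k` and `v (k+1)` differ by one.
  Two consecutive steps have the same direction: up, down is impossible by `nopeak`; down, up at `k`: `v (k-1)` and `v (k+1)` are two different elements of the hull (`B_pre`) of length `len (v k) + 1` with the prefix `v k`, so `v k ∈ M0` by `branch`,
  contradiction (`v (k-1) ≠ v (k+1)` because `tk c (t-1) ≠ tk c (t+1)`). So all steps have the direction of the first one.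
-/

namespace PF

namespace Dat

variable {n : ℕ} {d : Dat n}

private theorem RelDir_blk {h : F n} (hp : d.PreS h) {t0 : ℕ} (hno : ∀ t, t0 < t → t < len h → tk h t ∉ d.M0) :
    ∀ j k, k + j = len h → t0 < k → d.blk (tk h k) = d.blk h := by
  intro j
  induction j with
  | zero =>
    intro k hk _
    rw [tk_self (by omega)]
  | succ j ih =>
    intro k hk ht
    have h1 := ih (k + 1) (by omega) (by omega)
    have hl : len (tk h (k + 1)) = k + 1 := by rw [len_tk]; omega
    have h2 : tk h (k + 1) ≠ 1 := by
      intro h0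
      rw [← len_eq_zero, hl] at h0
      omega
    have h3 : tk (tk h (k + 1)) (len (tk h (k + 1)) - 1) = tk h k := by
      rw [hl, tk_tk]
      congr 1
      omega
    have h4 := blk_pred (preS_tk hp (k + 1)) h2 (by rw [h3]; exact hno k ht (by omega))
    rw [h3] at h4
    rw [h4.2.1, h1]

theorem seg_pos {h : F n} (hp : d.PreS h) {t0 : ℕ} (ht : t0 < len h) (hno : ∀ t, t0 < t → t < len h → tk h t ∉ d.M0) :
    (∀ k, k ≤ len h - t0 → d.mZ (d.blk h * d.Lam + t0 + k) = tk h (t0 + k)) ∧
    (∀ k, k < len h - t0 → d.blk h * d.Lam + t0 + k ∈ d.D ∧ (d.blk h * d.Lam + t0 + k) / d.Lam = d.blk h) := by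
  have hb : ∀ k, t0 < k → k ≤ len h → d.blk (tk h k) = d.blk h := by
    intro k h1 h2
    exact RelDir_blk hp hno (len h - k) k (by omega) h1
  have hl : ∀ k, k ≤ len h → len (tk h k) = k := by
    intro k h1
    rw [len_tk]; omega
  have hP : ∀ k, t0 < k → k ≤ len h → d.P (tk h k) = d.blk h * d.Lam + k := by
    intro k h1 h2
    unfold P
    rw [hb k h1 h2, hl k h2]
  have hne : ∀ k, 0 < k → k ≤ len h → tk h k ≠ 1 := by
    intro k h1 h2 h0
    rw [← len_eq_zero, hl k h2] at h0
    omega
  constructor
  · intro k hk
    rcases Nat.eq_zero_or_pos k with rfl | hk0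
    · have h1 := mZ_P1 (preS_tk hp (t0 + 1)) (hne (t0 + 1) (by omega) (by omega))
      rw [hP (t0 + 1) (by omega) (by omega), hl (t0 + 1) (by omega), tk_tk] at h1
      have h2 : d.blk h * d.Lam + (t0 + 1) - 1 = d.blk h * d.Lam + t0 + 0 := by omega
      have h3 : min (t0 + 1 - 1) (t0 + 1) = t0 + 0 := by omega
      rw [h2, h3] at h1
      exact h1
    · have h1 := mZ_P (preS_tk hp (t0 + k))
      rw [hP (t0 + k) (by omega) (by omega)] at h1
      rw [add_assoc]
      exact h1
  · intro k hk
    have hk1 := hne (t0 + k + 1) (by omega) (by omega)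
    have h1 := P1_mem (preS_tk hp (t0 + k + 1)) hk1
    have h2 := (P1_div (preS_tk hp (t0 + k + 1)) hk1).2.1
    rw [hb (t0 + k + 1) (by omega) (by omega)] at h2
    rw [hP (t0 + k + 1) (by omega) (by omega)] at h1 h2
    have h3 : d.blk h * d.Lam + (t0 + k + 1) - 1 = d.blk h * d.Lam + t0 + k := by omega
    rw [h3] at h1 h2
    exact ⟨h1, h2⟩

/-- the image of a segment is monotone -/
theorem dir {i : Fin n} {c : F n} (hc : c ∈ d.M1 i) (h1 : c ≠ 1) :
    (∀ k, k ≤ len c - d.pt i c → len (d.y i * tk c (d.pt i c + k)) = len (d.y i * tk c (d.pt i c)) + k ∧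
      pre (d.y i * tk c (d.pt i c + k)) (d.y i * c)) ∨
    (∀ k, k ≤ len c - d.pt i c → len (d.y i * tk c (d.pt i c + k)) + k = len (d.y i * tk c (d.pt i c)) ∧
      pre (d.y i * tk c (d.pt i c + k)) (d.y i * tk c (d.pt i c))) := by
  obtain ⟨hpt, -, hno⟩ := pt_spec hc h1
  set t0 := d.pt i c with ht0
  set l := len c - t0 with hl
  have hcl : len c = t0 + l := by omega
  have hstep := fun t ht => step (d.y i) c t ht
  -- directions propagate
  have hup : ∀ k, k + 2 ≤ l → len (d.y i * tk c (t0 + k)) < len (d.y i * tk c (t0 + (k + 1))) →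
      len (d.y i * tk c (t0 + (k + 1))) < len (d.y i * tk c (t0 + (k + 2))) := by
    intro k hk hlt
    by_contra hcon
    have h2 := nopeak (d.y i) c (t0 + k) (by omega)
    apply h2
    have e1 : t0 + (k + 1) = t0 + k + 1 := by omega
    have e2 : t0 + (k + 2) = t0 + k + 2 := by omega
    rw [e1] at hlt hcon
    rw [e2] at hcon
    refine ⟨hlt, ?_⟩
    have h3 := hstep (t0 + k + 1) (by omega)
    have e3 : t0 + k + 1 + 1 = t0 + k + 2 := by omega
    rw [e3] at h3
    rcases h3 with h3 | h3
    · omega
    · omega
  have hdown : ∀ k, k + 2 ≤ l → len (d.y i * tk c (t0 + (k + 1))) < len (d.y i * tk c (t0 + k)) →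
      len (d.y i * tk c (t0 + (k + 2))) < len (d.y i * tk c (t0 + (k + 1))) := by
    intro k hk hlt
    by_contra hcon
    have e1 : t0 + (k + 1) = t0 + k + 1 := by omega
    have e2 : t0 + (k + 2) = t0 + k + 2 := by omega
    rw [e1] at hlt hcon
    rw [e2] at hcon
    have h3 := hstep (t0 + k) (by omega)
    have h4 := hstep (t0 + k + 1) (by omega)
    have e3 : t0 + k + 1 + 1 = t0 + k + 2 := by omega
    rw [e3] at h4
    rcases h3 with h3 | h3
    · omega
    rcases h4 with h4 | h4
    swap
    · omega
    have hB : ∀ t, tk c t ∈ d.B i := fun t => B_tk (M1_B hc) t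
    have hne : d.y i * tk c (t0 + k) ≠ d.y i * tk c (t0 + k + 2) := by
      intro h0
      have h5 := mul_left_cancel h0
      have h6 : len (tk c (t0 + k)) = len (tk c (t0 + k + 2)) := by rw [h5]
      rw [len_tk, len_tk] at h6
      omega
    have hp1 : tk (d.y i * tk c (t0 + k)) (len (d.y i * tk c (t0 + k + 1))) = d.y i * tk c (t0 + k + 1) :=
      (pre_iff _ _).mp h3.2
    have hp2 : tk (d.y i * tk c (t0 + k + 2)) (len (d.y i * tk c (t0 + k + 1))) = d.y i * tk c (t0 + k + 1) :=
      (pre_iff _ _).mp h4.2
    have hbr := branch (B_pre (hB (t0 + k))).2 (B_pre (hB (t0 + k + 2))).2 hne h3.1 h4.1 (hp1.trans hp2.symm)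
    rw [hp1] at hbr
    exact (not_M1 (hB (t0 + k + 1)) (hno (t0 + k + 1) (by omega) (by omega))).2 hbr
  have hcc : tk c (t0 + l) = c := tk_self (by omega)
  by_cases hfirst : len (d.y i * tk c (t0 + 0)) < len (d.y i * tk c (t0 + 1))
  · left
    have hall : ∀ k, k < l → len (d.y i * tk c (t0 + k)) < len (d.y i * tk c (t0 + (k + 1))) := by
      intro k
      induction k with
      | zero => intro _; exact hfirst
      | succ k ih =>
        intro hk
        exact hup k (by omega) (ih (by omega))
    have hlen : ∀ k, k ≤ l → len (d.y i * tk c (t0 + k)) = len (d.y i * tk c t0) + k := by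
      intro k
      induction k with
      | zero => intro _; rfl
      | succ k ih =>
        intro hk
        have h2 := ih (by omega)
        have h3 := hall k (by omega)
        have h4 := hstep (t0 + k) (by omega)
        have e1 : t0 + (k + 1) = t0 + k + 1 := by omega
        rw [e1] at h3 ⊢
        rcases h4 with h4 | h4
        · omega
        · omega
    have hpre : ∀ j k, k + j = l → pre (d.y i * tk c (t0 + k)) (d.y i * c) := by
      intro j
      induction j with
      | zero =>
        intro k hk
        have : k = l := by omega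
        rw [this, hcc]
        exact pre_rfl _
      | succ j ih =>
        intro k hk
        have h2 := ih (k + 1) (by omega)
        have h3 := hall k (by omega)
        have h4 := hstep (t0 + k) (by omega)
        have e1 : t0 + (k + 1) = t0 + k + 1 := by omega
        rw [e1] at h3 h2
        rcases h4 with h4 | h4
        · exact pre_trans h4.2 h2
        · omega
    intro k hk
    exact ⟨hlen k hk, hpre (l - k) k (by omega)⟩
  · right
    have hfirst' : len (d.y i * tk c (t0 + 1)) < len (d.y i * tk c (t0 + 0)) := by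
      have h2 := hstep t0 (by omega)
      simp only [add_zero] at hfirst ⊢
      rcases h2 with h2 | h2
      · omega
      · omega
    have hall : ∀ k, k < l → len (d.y i * tk c (t0 + (k + 1))) < len (d.y i * tk c (t0 + k)) := by
      intro k
      induction k with
      | zero => intro _; exact hfirst'
      | succ k ih =>
        intro hk
        exact hdown k (by omega) (ih (by omega))
    intro k
    induction k with
    | zero => intro _; exact ⟨rfl, pre_rfl _⟩
    | succ k ih =>
      intro hk
      obtain ⟨h2, h2'⟩ := ih (by omega)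
      have h3 := hall k (by omega)
      have h4 := hstep (t0 + k) (by omega)
      have e1 : t0 + (k + 1) = t0 + k + 1 := by omega
      rw [e1] at h3 ⊢
      rcases h4 with h4 | h4
      · omega
      · exact ⟨by omega, pre_trans h4.2 h2'⟩

end Dat

end PF
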