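import Pool.Agent.H1.PF.RelDir

set_option autoImplicit false

/-!
# PF RelOk: the geometry of one relation (helper1)

`c ∈ M1 i`, `c ≠ 1`, `t0 = pt i c`, `l = len c - t0 > 0`, `h k = tk c (t0 + k)` and `v k = y i * h k` for `0 ≤ k ≤ l`. For `0 < k < l`: `h k ∈ B i`, `h k ∉ M1 i`, so `h k ∉ M0`, `v k ∉ M0` (`pt_spec`, `not_M1`).
* Use `seg_pos` for `h = c`, `t0 = pt i c` (first side), for `h = y i * c`, `t0 = len (v 0)` (second side, up) and for `h = v 0 = y i * tk c (pt i c)`, `t0 = len (v l) = len (y i * c)` (second side, down), and `dir`; `v k = tk (y i * c) (len (v 0) + k)` or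
  `v k = tk (v 0) (len (v 0) - k)` (`pre_iff`). In detail:
* First side: by `blk_pred` (for `h k`, `2 ≤ k ≤ l`: its predecessor `h (k-1)` is not in `M0`) all `h k`, `1 ≤ k ≤ l`, have the same `blk`, namely `blk c`. So `P (h k) = blk c * Lam + t0 + k = r.p + k`: `mZ (r.p + k) = h k` for `k ≥ 1`
  (`mZ_P`), and `mZ r.p = h 0` (`mZ_P1` for `h 1`); the unit `r.p + k` is `P (h (k+1)) - 1 ∈ D`.
* The lengths of `v k`: by `step` they change by `± 1`. If the steps `k` and `k + 1` have different directions (`0 < k < l`): up, down is impossible by `nopeak`; down, up: `v (k-1)` and `v (k+1)` are two successors of `v k`, different because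
  `h (k-1) ≠ h (k+1)`, so `v k ∈ M0` by `branch`, contradiction. So all steps are up, or all steps are down.
* Up (`len (v 0) < len (v l)`): `len (v k) = len (v 0) + k`; by `blk_pred` all `v k`, `1 ≤ k`, have the same `blk = blk (y i * c)`, `P (v k) = r.q + k`, `r.s = true`.
* Down: `len (v k) = len (v 0) - k`; the unit between `v (k+1)` and `v k` has the name `v k`; `v k` for `k < l` has the predecessor `v (k+1)`, so all `v k`, `k < l`, have the same `blk = blk (v 0)`, `P (v k) = blk (v 0) * Lam + len (v l) + (l - k)`,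
  which is `r.Q k`; for `k = l`: `mZ r.q = v l` by `mZ_P1` for `v (l-1)`. `r.s = false`.
* Signs: `sg_D`, `letter_up`, `letter_down`.
* All units of a side have the same quotient by `Lam`.
-/

namespace PF

namespace Dat

variable {n : ℕ} {d : Dat n}

structure RelOk (d : Dat n) (i : Fin n) (c : F n) (r : Rel) : Prop where
  hl : r.l = len c - d.pt i c ∧ 0 < r.l
  mp : ∀ k, k ≤ r.l → d.mZ (r.p + k) = tk c (d.pt i c + k)
  mq : ∀ k, k ≤ r.l → d.mZ (r.Q k) = d.y i * tk c (d.pt i c + k)
  Dp : ∀ k, k < r.l → r.p + k ∈ d.D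
  Dq : ∀ k, k < r.l → r.q + k ∈ d.D
  sgn : ∀ k, k < r.l → (d.sg (r.U k) = d.sg (r.p + k) ↔ r.s = true)
  bp : ∀ k, k < r.l → (r.p + k) / d.Lam = r.p / d.Lam
  bq : ∀ k, k < r.l → (r.q + k) / d.Lam = r.q / d.Lam

theorem RelOk_getElem {c : F n} {t : ℕ} {a : Fin n × Bool} (h : (tk c (t + 1)).toWord[t]? = some a) :
    c.toWord[t]? = some a := by
  rw [toWord_tk, List.getElem?_take] at h
  rwa [if_pos (Nat.lt_succ_self t)] at h

theorem relOk {i : Fin n} {c : F n} (hc : c ∈ d.M1 i) (h1 : c ≠ 1) : RelOk d i c (d.rel i c) := by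
  obtain ⟨hpt, hptM, hptN⟩ := pt_spec hc h1
  have hcB := M1_B hc
  have hcP : d.PreS c := (B_pre hcB).1
  have hyP : d.PreS (d.y i * c) := (B_pre hcB).2
  set t0 := d.pt i c with ht0
  have hno : ∀ t, t0 < t → t < len c → tk c t ∉ d.M0 ∧ d.y i * tk c t ∉ d.M0 := fun t h2 h3 =>
    not_M1 (B_tk hcB t) (hptN t h2 h3)
  have hl0 : 0 < len c - t0 := by omega
  have hcl : tk c (t0 + (len c - t0)) = c := tk_self (by omega)
  obtain ⟨a1, a2⟩ := seg_pos hcP hpt (fun t h2 h3 => (hno t h2 h3).1)
  have hp : (d.rel i c).p = d.blk c * d.Lam + t0 := by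
    unfold rel
    split_ifs <;> rfl
  have hl : (d.rel i c).l = len c - t0 := by
    unfold rel
    split_ifs <;> rfl
  -- the letters of the first side
  have hlet : ∀ k, k < len c - t0 → ∃ a : Fin n × Bool, c.toWord[t0 + k]? = some a ∧ d.sg (d.blk c * d.Lam + t0 + k) = a.2 := by
    intro k hk
    obtain ⟨a, ha, hs⟩ := sg_D (a2 k hk).1
    refine ⟨a, ?_, hs⟩
    have e1 : d.mZ (d.blk c * d.Lam + t0 + k + 1) = tk c (t0 + k + 1) := a1 (k + 1) (by omega)
    have e2 : len (d.mZ (d.blk c * d.Lam + t0 + k)) = t0 + k := by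
      rw [a1 k (by omega), len_tk]
      omega
    rw [e1, e2] at ha
    exact RelOk_getElem ha
  rcases dir hc h1 with hdir | hdir
  · -- up
    rw [← ht0] at hdir
    have hlast := (hdir (len c - t0) le_rfl).1
    rw [hcl] at hlast
    have hlt : len (d.y i * tk c t0) < len (d.y i * c) := by omega
    have hq : (d.rel i c).q = d.blk (d.y i * c) * d.Lam + len (d.y i * tk c t0) := by
      unfold rel
      rw [if_pos hlt]
    have hs : (d.rel i c).s = true := by
      unfold rel
      rw [if_pos hlt]
    have hv : ∀ k, k ≤ len c - t0 → tk (d.y i * c) (len (d.y i * tk c t0) + k) = d.y i * tk c (t0 + k) := by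
      intro k hk
      obtain ⟨h3, h4⟩ := hdir k hk
      rw [← h3]
      exact (pre_iff _ _).mp h4
    obtain ⟨b1, b2⟩ := seg_pos hyP hlt (fun t h2 h3 => by
      have h4 := hv (t - len (d.y i * tk c t0)) (by omega)
      have h5 : len (d.y i * tk c t0) + (t - len (d.y i * tk c t0)) = t := by omega
      rw [h5] at h4
      rw [h4]
      exact (hno _ (by omega) (by omega)).2)
    have hlen : len (d.y i * c) - len (d.y i * tk c t0) = len c - t0 := by omega
    rw [hlen] at b1 b2
    refine ⟨⟨hl, by rw [hl]; exact hl0⟩, ?_, ?_, ?_, ?_, ?_, ?_, ?_⟩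
    · intro k hk
      rw [hl] at hk
      rw [hp]
      exact a1 k hk
    · intro k hk
      rw [hl] at hk
      unfold Rel.Q
      rw [hs, if_pos rfl, hq, b1 k hk]
      exact hv k hk
    · intro k hk
      rw [hl] at hk
      rw [hp]
      exact (a2 k hk).1
    · intro k hk
      rw [hl] at hk
      rw [hq]
      exact (b2 k hk).1
    · intro k hk
      rw [hl] at hk
      rw [hs]
      refine ⟨fun _ => rfl, fun _ => ?_⟩
      unfold Rel.U
      rw [hs, if_pos rfl, hq, hp]
      obtain ⟨a, ha, hsa⟩ := hlet k hk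
      obtain ⟨a', ha', hsa'⟩ := sg_D (b2 k hk).1
      have e1 : d.mZ (d.blk (d.y i * c) * d.Lam + len (d.y i * tk c t0) + k + 1) = d.y i * tk c (t0 + k + 1) := by
        have e := b1 (k + 1) (by omega)
        rw [← add_assoc] at e
        rw [e]
        exact hv (k + 1) (by omega)
      have e2 : d.mZ (d.blk (d.y i * c) * d.Lam + len (d.y i * tk c t0) + k) = d.y i * tk c (t0 + k) := by
        rw [b1 k (by omega)]
        exact hv k (by omega)
      rw [e1, e2] at ha'
      have hup := letter_up (d.y i) c (t0 + k) a ha (by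
        have h3 := (hdir k (by omega)).1
        have h4 := (hdir (k + 1) (by omega)).1
        rw [← add_assoc] at h4
        omega)
      rw [hup] at ha'
      have haa : a = a' := Option.some.inj ha'
      rw [hsa, hsa', haa]
    · intro k hk
      rw [hl] at hk
      rw [hp, (a2 k hk).2]
      exact ((a2 0 hl0).2).symm
    · intro k hk
      rw [hl] at hk
      rw [hq, (b2 k hk).2]
      exact ((b2 0 hl0).2).symm
  · -- down
    rw [← ht0] at hdir
    have hlast := (hdir (len c - t0) le_rfl).1
    rw [hcl] at hlast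
    have hlt : len (d.y i * c) < len (d.y i * tk c t0) := by omega
    have hq : (d.rel i c).q = d.blk (d.y i * tk c t0) * d.Lam + len (d.y i * c) := by
      unfold rel
      rw [if_neg (not_lt.mpr hlt.le)]
    have hs : (d.rel i c).s = false := by
      unfold rel
      rw [if_neg (not_lt.mpr hlt.le)]
    have hvP : d.PreS (d.y i * tk c t0) := (B_pre (B_tk hcB t0)).2
    have hv : ∀ k, k ≤ len c - t0 → tk (d.y i * tk c t0) (len (d.y i * tk c t0) - k) = d.y i * tk c (t0 + k) := by
      intro k hk
      obtain ⟨h3, h4⟩ := hdir k hk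
      have h5 : len (d.y i * tk c t0) - k = len (d.y i * tk c (t0 + k)) := by omega
      rw [h5]
      exact (pre_iff _ _).mp h4
    obtain ⟨b1, b2⟩ := seg_pos hvP hlt (fun t h2 h3 => by
      have h4 := hv (len (d.y i * tk c t0) - t) (by omega)
      have h5 : len (d.y i * tk c t0) - (len (d.y i * tk c t0) - t) = t := by omega
      rw [h5] at h4
      rw [h4]
      exact (hno _ (by omega) (by omega)).2)
    have hlen : len (d.y i * tk c t0) - len (d.y i * c) = len c - t0 := by omega
    rw [hlen] at b1 b2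
    have b1' : ∀ k, k ≤ len c - t0 →
        d.mZ (d.blk (d.y i * tk c t0) * d.Lam + len (d.y i * c) + (len c - t0 - k)) = d.y i * tk c (t0 + k) := by
      intro k hk
      rw [b1 (len c - t0 - k) (by omega)]
      have h5 : len (d.y i * c) + (len c - t0 - k) = len (d.y i * tk c t0) - k := by omega
      rw [h5]
      exact hv k hk
    refine ⟨⟨hl, by rw [hl]; exact hl0⟩, ?_, ?_, ?_, ?_, ?_, ?_, ?_⟩
    · intro k hk
      rw [hl] at hk
      rw [hp]
      exact a1 k hk
    · intro k hk
      rw [hl] at hk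
      unfold Rel.Q
      rw [hs, if_neg (by decide), hq, hl]
      exact b1' k hk
    · intro k hk
      rw [hl] at hk
      rw [hp]
      exact (a2 k hk).1
    · intro k hk
      rw [hl] at hk
      rw [hq]
      exact (b2 k hk).1
    · intro k hk
      rw [hl] at hk
      rw [hs]
      refine ⟨fun h => ?_, fun h => absurd h (by decide)⟩
      exfalso
      revert h
      unfold Rel.U
      rw [hs, if_neg (by decide), hq, hp, hl]
      obtain ⟨a, ha, hsa⟩ := hlet k hk
      obtain ⟨a', ha', hsa'⟩ := sg_D (b2 (len c - t0 - 1 - k) (by omega)).1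
      have e1 : d.mZ (d.blk (d.y i * tk c t0) * d.Lam + len (d.y i * c) + (len c - t0 - 1 - k) + 1) = d.y i * tk c (t0 + k) := by
        have e := b1' k (by omega)
        have h5 : d.blk (d.y i * tk c t0) * d.Lam + len (d.y i * c) + (len c - t0 - 1 - k) + 1 =
          d.blk (d.y i * tk c t0) * d.Lam + len (d.y i * c) + (len c - t0 - k) := by omega
        rw [h5]
        exact e
      have e2 : d.mZ (d.blk (d.y i * tk c t0) * d.Lam + len (d.y i * c) + (len c - t0 - 1 - k)) = d.y i * tk c (t0 + k + 1) := by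
        have e := b1' (k + 1) (by omega)
        have h5 : len c - t0 - (k + 1) = len c - t0 - 1 - k := by omega
        rw [h5] at e
        exact e
      rw [e1, e2] at ha'
      have hdn := letter_down (d.y i) c (t0 + k) a ha (by
        have h3 := (hdir k (by omega)).1
        have h4 := (hdir (k + 1) (by omega)).1
        rw [← add_assoc t0] at h4
        omega)
      rw [hdn] at ha'
      have haa : (a.1, !a.2) = a' := Option.some.inj ha'
      rw [hsa, hsa', ← haa]
      cases a.2 <;> simp
    · intro k hk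
      rw [hl] at hk
      rw [hp, (a2 k hk).2]
      exact ((a2 0 hl0).2).symm
    · intro k hk
      rw [hl] at hk
      rw [hq, (b2 k hk).2]
      exact ((b2 0 hl0).2).symm

/-- the members of the list of relations -/
theorem mem_rels {r : Rel} : r ∈ d.rels ↔ ∃ i c, c ∈ d.M1 i ∧ c ≠ 1 ∧ r = d.rel i c := by
  unfold rels
  rw [List.mem_flatMap]
  constructor
  · rintro ⟨i, _, hr⟩
    rw [List.mem_map] at hr
    obtain ⟨c, hc, rfl⟩ := hr
    rw [Finset.mem_toList, Finset.mem_erase] at hc
    exact ⟨i, c, hc.2, hc.1, rfl⟩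
  · rintro ⟨i, c, h1, h2, rfl⟩
    refine ⟨i, List.mem_finRange i, ?_⟩
    rw [List.mem_map]
    exact ⟨c, by rw [Finset.mem_toList, Finset.mem_erase]; exact ⟨h2, h1⟩, rfl⟩

end Dat

end PF
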