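import Pool.Agent.H1.PF.CtrCert

set_option autoImplicit false

/-!
# PF RoseA: the end of the reduction (helper1)

* `ctr_all`: induction on `s.E`: if there is an edge between different classes apply `ctr_ok`, `ctr_cert`.
* `rose_one`: all edges are loops. Let `K` be the subgroup of `FreeGroup (Fin n)` generated by the values `(m x)⁻¹ * m y` of the edges. Apply `Conn` to `Sg x ω := s.cl x = s.cl s.v0 ∧ ω ∈ K`. So all marks have the class
  of `v0` and `K = ⊤`. Hence `V = 1`, `E ≤ n` (`Chi`), and `FreeGroup (Fin n)` is generated by the values of the `E` edges.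
* `gen_card`: if `k` elements generate `FreeGroup (Fin n)` then `n ≤ k`: map to `Multiplicative (Fin n → ℤ)` (or to `Fin n → ZMod 2`, which has `2^n` elements, while `k` elements generate at most `2^k` elements).
* `rose`: so `E = n`; choose a bijection `e` from `Fin n` to `X ∩ D` (the left ends of the edges, `edge_right`). Define `a u : FreeGroup (Fin n)` for `u ∈ X ∩ D`, `u = e i`: if all units of the edge starting at `u`
  are negative then `a u = (of i)⁻¹`, otherwise `a u = of i`. Let `m u` = the product of the `a v`, `v ∈ X ∩ D`, `v < u`, in increasing order (recursion: `m 0 = 1`, `m (u+1) = m u * (if u ∈ X ∩ D then a u else 1)`).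
  Then the value of every edge `(x, y)` is `a x` (no mark in `(x, y)`). `m` is a labelling (no relations). The certificate gives `W, W0, lam, g`; all marks have the class of `v0`, so `g = 1` on all marks:
  `a x = ev (fun i => val m (W i)) (lam x y)` for every edge. The word `aw i` of `val m (W i)`: the concatenation of the words of length one for the pairs of `W i` (an edge or a reversed edge): length `(W i).length ≤ B`;
  `b i = lam x y` or `invRev (lam x y)` (`x = e i`), length `≤ B`. Every positive pair of `W0` has the value `of i` for some `i` (an edge with all units positive: `a x = of i` because an edge has at least one unit;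
  a reversed edge with all units negative: `(a x)⁻¹ = of i`), so `val m W0` is a product of generators.
-/

namespace PF

theorem ctr_all {n : ℕ} {sg : ℕ → Bool} {m : ℕ → FreeGroup (Fin n)} {s : St} (h : Ok n sg m s) (hr : s.rels = []) {B : ℕ} {w : List (Fin n × Bool)}
    (hC : Cert (s.toFS sg) n B w) :
    ∃ s' m', Ok n sg m' s' ∧ s'.rels = [] ∧ (∀ x y, s'.Edge x y → s'.cl x = s'.cl y) ∧ Cert (s'.toFS sg) n (3 ^ s.E * B) w := by
  induction hk : s.E generalizing s m B with
  | zero =>
    by_cases hall : ∀ x y, s.Edge x y → s.cl x = s.cl y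
    · exact ⟨s, m, h, hr, hall, by simpa using hC⟩
    · push Not at hall
      obtain ⟨x, y, he, hne⟩ := hall
      have := (ctr_ok h hr he hne).2
      omega
  | succ k ih =>
    by_cases hall : ∀ x y, s.Edge x y → s.cl x = s.cl y
    · refine ⟨s, m, h, hr, hall, hC.mono ?_⟩
      exact Nat.le_mul_of_pos_left B (by positivity)
    · push Not at hall
      obtain ⟨x, y, he, hne⟩ := hall
      obtain ⟨⟨m', hok⟩, hE⟩ := ctr_ok h hr he hne
      have hC' := ctr_cert h.valid hr he hne hC
      obtain ⟨s', m'', h1, h2, h3, h4⟩ := ih hok rfl hC' (by omega)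
      refine ⟨s', m'', h1, h2, h3, ?_⟩
      have e : 3 ^ (k + 1) * B = 3 ^ k * (3 * B) := by ring
      rw [e]
      exact h4

theorem gen_card {n : ℕ} (A : Finset (FreeGroup (Fin n))) (h : Subgroup.closure (A : Set (FreeGroup (Fin n))) = ⊤) : n ≤ A.card := by
  classical
  set φ : FreeGroup (Fin n) →* Multiplicative (Fin n → ℚ) :=
    FreeGroup.lift fun i => Multiplicative.ofAdd (Pi.single i (1 : ℚ)) with hφ
  set S : Finset (Fin n → ℚ) := A.image fun g => Multiplicative.toAdd (φ g) with hS
  have hmem : ∀ g : FreeGroup (Fin n), Multiplicative.toAdd (φ g) ∈ Submodule.span ℚ (S : Set (Fin n → ℚ)) := by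
    intro g
    have hg : g ∈ Subgroup.closure (A : Set (FreeGroup (Fin n))) := by rw [h]; trivial
    induction hg using Subgroup.closure_induction with
    | mem x hx =>
      apply Submodule.subset_span
      simp only [hS, Finset.coe_image]
      exact Set.mem_image_of_mem _ hx
    | one => simp
    | mul x y _ _ hx hy =>
      rw [map_mul, toAdd_mul]
      exact Submodule.add_mem _ hx hy
    | inv x _ hx =>
      rw [map_inv, toAdd_inv]
      exact Submodule.neg_mem _ hx
  have htop : Submodule.span ℚ (S : Set (Fin n → ℚ)) = ⊤ := by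
    rw [eq_top_iff, ← (Pi.basisFun ℚ (Fin n)).span_eq, Submodule.span_le]
    rintro _ ⟨i, rfl⟩
    have := hmem (FreeGroup.of i)
    simpa [hφ] using this
  have h1 : Module.finrank ℚ (Submodule.span ℚ (S : Set (Fin n → ℚ))) ≤ S.card :=
    finrank_span_finset_le_card S
  rw [htop, finrank_top, Module.finrank_fin_fun] at h1
  exact h1.trans Finset.card_image_le

theorem rose_one {n : ℕ} {sg : ℕ → Bool} {m : ℕ → FreeGroup (Fin n)} {s : St} (h : Ok n sg m s) (hr : s.rels = [])
    (hl : ∀ x y, s.Edge x y → s.cl x = s.cl y) : s.E = n ∧ ∀ x ∈ s.X, s.cl x = s.cl s.v0 := by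
  classical
  set K : Subgroup (FreeGroup (Fin n)) :=
    Subgroup.closure {g | ∃ x y, s.Edge x y ∧ g = (m x)⁻¹ * m y} with hK
  have hall : ∀ x ∈ s.X, ∀ ω : FreeGroup (Fin n), s.cl x = s.cl s.v0 ∧ ω ∈ K := by
    apply h.conn (fun x ω => s.cl x = s.cl s.v0 ∧ ω ∈ K)
    · exact ⟨rfl, K.one_mem⟩
    · rintro x y ω _ _ hxy ⟨h1, h2⟩
      exact ⟨hxy ▸ h1, h2⟩
    · intro x y ω he
      have hk : (m x)⁻¹ * m y ∈ K := Subgroup.subset_closure ⟨x, y, he, rfl⟩
      show (s.cl x = s.cl s.v0 ∧ ω ∈ K) ↔ (s.cl y = s.cl s.v0 ∧ ω * ((m x)⁻¹ * m y) ∈ K)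
      rw [hl x y he, Subgroup.mul_mem_cancel_right K hk]
  have hcl : ∀ x ∈ s.X, s.cl x = s.cl s.v0 := fun x hx => (hall x hx 1).1
  refine ⟨?_, hcl⟩
  have hV : s.V = 1 := by
    unfold St.V
    have : s.X.image s.cl = {s.cl s.v0} := by
      ext a
      simp only [Finset.mem_image, Finset.mem_singleton]
      constructor
      · rintro ⟨x, hx, rfl⟩
        exact hcl x hx
      · rintro rfl
        exact ⟨s.v0, h.valid.v0X, rfl⟩
    rw [this, Finset.card_singleton]
  have hchi := h.chi
  unfold St.Chi at hchi
  rw [hV, hr, List.length_nil] at hchi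
  have hright : ∀ x ∈ s.X ∩ s.D, ∃ y, s.Edge x y := by
    intro x hx
    rw [Finset.mem_inter] at hx
    exact edge_right h.valid hx.1 hx.2
  choose! R hR using hright
  set A : Finset (FreeGroup (Fin n)) := (s.X ∩ s.D).image fun x => (m x)⁻¹ * m (R x) with hA
  have hgen : Subgroup.closure (A : Set (FreeGroup (Fin n))) = ⊤ := by
    rw [eq_top_iff]
    intro ω _
    have hω : ω ∈ K := (hall s.v0 h.valid.v0X ω).2
    have hle : K ≤ Subgroup.closure (A : Set (FreeGroup (Fin n))) := by
      rw [hK, Subgroup.closure_le]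
      rintro g ⟨x, y, he, rfl⟩
      apply Subgroup.subset_closure
      have hx : x ∈ s.X ∩ s.D := Finset.mem_inter.mpr ⟨he.1, he.2.2.2.1 x le_rfl he.2.2.1⟩
      have hy : R x = y := edge_unique_right (hR x hx) he
      simp only [hA, Finset.coe_image]
      exact ⟨x, hx, by simp only [hy]⟩
    exact hle hω
  have h1 := gen_card A hgen
  have h2 : A.card ≤ (s.X ∩ s.D).card := Finset.card_image_le
  unfold St.E at hchi ⊢
  omega

end PF
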