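import Pool.Agent.H1.PF.Cov

set_option autoImplicit false

/-!
# PF Run: maximal runs of coverage one (helper1)

`u` is a unit of the first side of `r` with `cov (r :: L) u = 1`. Let `c` be the least number `≥ p` such that all units of `[c, u]` have coverage one, and `d` the largest number `≤ p + l` such that all
units of `[u, d)` have coverage one. If `p < c` then the unit `c - 1` of the first side of `r` has coverage `≥ 2`.

`mark_left`: if `cov (c - 1) ≥ 2`, `cov c = 1` and both units are in the first side of `r`, then some other side `t` covers `c - 1` and not `c`, so `t.1 + t.2 = c`.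
In the same way for `d`: some other side starts at `d`.
-/

namespace PF

private theorem run_sides_cons (r : Rel) (L : List Rel) :
    sides (r :: L) = (r.p, r.l) :: (r.q, r.l) :: sides L := rfl

private theorem run_cov_def (L : List Rel) (u : ℕ) :
    cov L u = (sides L).countP (fun t => decide (t.1 ≤ u ∧ u < t.1 + t.2)) := rfl

theorem cov_cons (r : Rel) (L : List Rel) (u : ℕ) :
    cov (r :: L) u = (if r.p ≤ u ∧ u < r.p + r.l then 1 else 0) + (if r.q ≤ u ∧ u < r.q + r.l then 1 else 0) + cov L u := by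
  rw [run_cov_def, run_cov_def, run_sides_cons, List.countP_cons, List.countP_cons]
  simp only [decide_eq_true_eq]
  omega

theorem cov_eq_zero {L : List Rel} {u : ℕ} (h : cov L u = 0) :
    ∀ t ∈ L, ¬ (t.p ≤ u ∧ u < t.p + t.l) ∧ ¬ (t.q ≤ u ∧ u < t.q + t.l) := by
  intro t ht
  rw [run_cov_def, List.countP_eq_zero] at h
  simp only [decide_eq_true_eq] at h
  refine ⟨h (t.p, t.l) ?_, h (t.q, t.l) ?_⟩
  · exact List.mem_flatMap.2 ⟨t, ht, by simp⟩
  · exact List.mem_flatMap.2 ⟨t, ht, by simp⟩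

private theorem run_one_le {r : Rel} {L : List Rel} {u : ℕ} (h1 : r.p ≤ u) (h2 : u < r.p + r.l) :
    1 ≤ cov (r :: L) u := by
  rw [cov_cons, if_pos ⟨h1, h2⟩]
  omega

private theorem run_left {r : Rel} {L : List Rel} (k : ℕ) : r.p + k < r.p + r.l →
    cov (r :: L) (r.p + k) = 1 → ∃ c, r.p ≤ c ∧ c ≤ r.p + k ∧
      (∀ v, c ≤ v → v ≤ r.p + k → cov (r :: L) v = 1) ∧ (r.p < c → 2 ≤ cov (r :: L) (c - 1)) := by
  induction k with
  | zero =>
    intro _ h
    refine ⟨r.p, le_rfl, le_rfl, fun v h1 h2 => ?_, fun h => absurd h (lt_irrefl _)⟩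
    rw [le_antisymm h2 h1]
    exact h
  | succ k ih =>
    intro hk h
    by_cases h1 : cov (r :: L) (r.p + k) = 1
    · obtain ⟨c, hc1, hc2, hc3, hc4⟩ := ih (by omega) h1
      refine ⟨c, hc1, by omega, fun v hv hv' => ?_, hc4⟩
      rcases Nat.lt_or_ge (r.p + k) v with h2 | h2
      · have : v = r.p + (k + 1) := by omega
        rw [this]
        exact h
      · exact hc3 v hv h2
    · refine ⟨r.p + (k + 1), by omega, le_rfl, fun v hv hv' => ?_, fun _ => ?_⟩
      · rw [le_antisymm hv' hv]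
        exact h
      · have h2 := run_one_le (L := L) (show r.p ≤ r.p + k by omega)
          (show r.p + k < r.p + r.l by omega)
        rw [show r.p + (k + 1) - 1 = r.p + k by omega]
        omega

private theorem run_right {r : Rel} {L : List Rel} (k : ℕ) : ∀ u, r.p ≤ u → u + 1 + k = r.p + r.l →
    cov (r :: L) u = 1 → ∃ d, u < d ∧ d ≤ r.p + r.l ∧
      (∀ v, u ≤ v → v < d → cov (r :: L) v = 1) ∧ (d < r.p + r.l → 2 ≤ cov (r :: L) d) := by
  induction k with
  | zero =>
    intro u _ hu h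
    refine ⟨r.p + r.l, by omega, le_rfl, fun v h1 h2 => ?_, fun h => absurd h (lt_irrefl _)⟩
    have : v = u := by omega
    rw [this]
    exact h
  | succ k ih =>
    intro u hpu hu h
    by_cases h1 : cov (r :: L) (u + 1) = 1
    · obtain ⟨d, hd1, hd2, hd3, hd4⟩ := ih (u + 1) (by omega) (by omega) h1
      refine ⟨d, by omega, hd2, fun v hv hv' => ?_, hd4⟩
      rcases Nat.eq_or_lt_of_le hv with h2 | h2
      · rw [← h2]
        exact h
      · exact hd3 v h2 hv'
    · refine ⟨u + 1, by omega, by omega, fun v hv hv' => ?_, fun _ => ?_⟩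
      · have : v = u := by omega
        rw [this]
        exact h
      · have h2 := run_one_le (L := L) (show r.p ≤ u + 1 by omega)
          (show u + 1 < r.p + r.l by omega)
        omega

theorem exists_run {r : Rel} {L : List Rel} {u : ℕ} (h1 : r.p ≤ u) (h2 : u < r.p + r.l) (hu : cov (r :: L) u = 1) :
    ∃ c d, r.p ≤ c ∧ c ≤ u ∧ u < d ∧ d ≤ r.p + r.l ∧ (∀ v, c ≤ v → v < d → cov (r :: L) v = 1) ∧
      (r.p < c → 2 ≤ cov (r :: L) (c - 1)) ∧ (d < r.p + r.l → 2 ≤ cov (r :: L) d) := by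
  obtain ⟨c, hc1, hc2, hc3, hc4⟩ := run_left (r := r) (L := L) (u - r.p) (by omega)
    (by rwa [show r.p + (u - r.p) = u by omega])
  obtain ⟨d, hd1, hd2, hd3, hd4⟩ := run_right (r := r) (L := L) (r.p + r.l - (u + 1)) u h1
    (by omega) hu
  rw [show r.p + (u - r.p) = u by omega] at hc2 hc3
  refine ⟨c, d, hc1, hc2, hd1, hd2, fun v hv hv' => ?_, hc4, hd4⟩
  rcases le_total v u with h3 | h3
  · exact hc3 v hv h3
  · exact hd3 v h3 hv'

theorem run_free {r : Rel} {L : List Rel} {c d : ℕ} (h1 : r.p ≤ c) (h2 : d ≤ r.p + r.l) (h : ∀ v, c ≤ v → v < d → cov (r :: L) v = 1) :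
    Free1 r L c d := by
  intro v hv hv'
  have h3 := h v hv hv'
  rw [cov_cons, if_pos ⟨h1.trans hv, hv'.trans_le h2⟩] at h3
  have h4 : ¬ (r.q ≤ v ∧ v < r.q + r.l) := by
    intro h5
    rw [if_pos h5] at h3
    omega
  rw [if_neg h4] at h3
  exact ⟨h4, cov_eq_zero (by omega)⟩

/-- another side ends at `c` -/
private theorem run_endL {r : Rel} {L : List Rel} {c : ℕ} (h1 : r.p < c) (h2 : c < r.p + r.l)
    (hc : 2 ≤ cov (r :: L) (c - 1)) (hc' : cov (r :: L) c = 1) :
    ∃ t ∈ (r.q, r.l) :: sides L, t.1 ≤ c - 1 ∧ c - 1 < t.1 + t.2 ∧ t.1 + t.2 = c := by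
  rw [run_cov_def, run_sides_cons, List.countP_cons_of_pos (by simp; omega)] at hc hc'
  have h3 : 0 < List.countP (fun t : ℕ × ℕ => decide (t.1 ≤ c - 1 ∧ c - 1 < t.1 + t.2))
      ((r.q, r.l) :: sides L) := by omega
  have h4 : List.countP (fun t : ℕ × ℕ => decide (t.1 ≤ c ∧ c < t.1 + t.2))
      ((r.q, r.l) :: sides L) = 0 := by omega
  obtain ⟨t, ht, ht'⟩ := List.countP_pos_iff.1 h3
  have h5 := List.countP_eq_zero.1 h4 t ht
  simp only [decide_eq_true_eq] at ht' h5
  exact ⟨t, ht, ht'.1, ht'.2, by omega⟩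

/-- another side begins at `d` -/
private theorem run_endR {r : Rel} {L : List Rel} {d : ℕ} (h1 : r.p < d) (h2 : d < r.p + r.l)
    (hd : 2 ≤ cov (r :: L) d) (hd' : cov (r :: L) (d - 1) = 1) :
    ∃ t ∈ (r.q, r.l) :: sides L, t.1 ≤ d ∧ d < t.1 + t.2 ∧ t.1 = d := by
  rw [run_cov_def, run_sides_cons, List.countP_cons_of_pos (by simp; omega)] at hd hd'
  have h3 : 0 < List.countP (fun t : ℕ × ℕ => decide (t.1 ≤ d ∧ d < t.1 + t.2))
      ((r.q, r.l) :: sides L) := by omega
  have h4 : List.countP (fun t : ℕ × ℕ => decide (t.1 ≤ d - 1 ∧ d - 1 < t.1 + t.2))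
      ((r.q, r.l) :: sides L) = 0 := by omega
  obtain ⟨t, ht, ht'⟩ := List.countP_pos_iff.1 h3
  have h5 := List.countP_eq_zero.1 h4 t ht
  simp only [decide_eq_true_eq] at ht' h5
  exact ⟨t, ht, ht'.1, ht'.2, by omega⟩

private theorem run_side_mark {s : St} (hs : s.Valid) {t : ℕ × ℕ} (ht : t ∈ sides s.rels) :
    t.1 ∈ s.X ∧ t.1 + t.2 ∈ s.X := by
  obtain ⟨r, hr, ht'⟩ := List.mem_flatMap.1 ht
  obtain ⟨h1, h2, h3, h4⟩ := hs.pX r hr
  simp only [List.mem_cons, List.not_mem_nil, or_false] at ht'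
  rcases ht' with rfl | rfl
  · exact ⟨h1, h2⟩
  · exact ⟨h3, h4⟩

/-- the ends of a maximal run are marks -/
theorem run_marks {s : St} (hs : s.Valid) {r : Rel} {L : List Rel} (hr : s.rels = r :: L) {c d : ℕ} (h1 : r.p ≤ c) (hcd : c < d)
    (h2 : d ≤ r.p + r.l) (h : ∀ v, c ≤ v → v < d → cov (r :: L) v = 1)
    (hc : r.p < c → 2 ≤ cov (r :: L) (c - 1)) (hd : d < r.p + r.l → 2 ≤ cov (r :: L) d) : c ∈ s.X ∧ d ∈ s.X := by
  have hr' : r ∈ s.rels := by rw [hr]; exact List.mem_cons_self ..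
  obtain ⟨k1, k2, -, -⟩ := hs.pX r hr'
  constructor
  · rcases Nat.eq_or_lt_of_le h1 with h3 | h3
    · rw [← h3]
      exact k1
    · obtain ⟨t, ht, -, -, ht'⟩ := run_endL (L := L) h3 (by omega) (hc h3) (h c le_rfl hcd)
      rw [← ht']
      exact (run_side_mark hs (by rw [hr, run_sides_cons]; exact List.mem_cons_of_mem _ ht)).2
  · rcases Nat.eq_or_lt_of_le h2 with h3 | h3
    · rw [h3]
      exact k2
    · obtain ⟨t, ht, -, -, ht'⟩ := run_endR (L := L) (by omega) h3 (hd h3)
        (h (d - 1) (by omega) (by omega))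
      rw [← ht']
      exact (run_side_mark hs (by rw [hr, run_sides_cons]; exact List.mem_cons_of_mem _ ht)).1

/-- in a block of weight `≤ 2` a maximal run contains the beginning or the end of the side -/
theorem run_low {bl : ℕ → ℕ} {r : Rel} {L : List Rel} (hb : BlOk bl (r :: L)) {c d : ℕ} (hcd : c < d)
    (h : ∀ v, c ≤ v → v < d → cov (r :: L) v = 1) (hc : r.p < c ∧ 2 ≤ cov (r :: L) (c - 1))
    (hd : d < r.p + r.l ∧ 2 ≤ cov (r :: L) d) : 3 ≤ wt bl (r :: L) (bl r.p) := by
  obtain ⟨t, ht, ht1, ht2, ht3⟩ := run_endL (L := L) hc.1 (by omega) hc.2 (h c le_rfl hcd)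
  obtain ⟨t', ht', ht1', ht2', ht3'⟩ := run_endR (L := L) (by omega) hd.1 hd.2
    (h (d - 1) (by omega) (by omega))
  have hne : t ≠ t' := by
    rintro rfl
    omega
  have hr0 : ((r.p, r.l) : ℕ × ℕ) ∈ sides (r :: L) := by
    rw [run_sides_cons]
    exact List.mem_cons_self ..
  have b1 : bl t.1 = bl r.p := by
    have e1 := hb t (by rw [run_sides_cons]; exact List.mem_cons_of_mem _ ht) (c - 1) ht1 ht2
    have e2 := hb _ hr0 (c - 1) (by simp only; omega) (by simp only; omega)
    rw [← e1, e2]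
  have b2 : bl t'.1 = bl r.p := by
    have e1 := hb t' (by rw [run_sides_cons]; exact List.mem_cons_of_mem _ ht') d ht1' ht2'
    have e2 := hb _ hr0 d (by simp only; omega) (by simp only; omega)
    rw [← e1, e2]
  have h3 : wt bl (r :: L) (bl r.p) = ((r.p, r.l) :: (r.q, r.l) :: sides L).countP
      (fun t => decide (bl t.1 = bl r.p)) := rfl
  rw [h3, List.countP_cons_of_pos (by simp)]
  have h4 : 2 ≤ ((r.q, r.l) :: sides L).countP (fun t => decide (bl t.1 = bl r.p)) := by
    rw [List.countP_eq_length_filter]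
    have h5 : ({t, t'} : Finset (ℕ × ℕ)) ⊆
        (((r.q, r.l) :: sides L).filter (fun t => decide (bl t.1 = bl r.p))).toFinset := by
      intro x hx
      rw [Finset.mem_insert, Finset.mem_singleton] at hx
      rw [List.mem_toFinset, List.mem_filter, decide_eq_true_eq]
      rcases hx with rfl | rfl
      · exact ⟨ht, b1⟩
      · exact ⟨ht', b2⟩
    have h6 := (Finset.card_le_card h5).trans (List.toFinset_card_le _)
    rwa [Finset.card_pair hne] at h6
  omega

end PF
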