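import Pool.Agent.H1.PF.Init

set_option autoImplicit false

/-!
# PF TreeA: prefixes of reduced words (helper1)

`tk g t` has the word `g.toWord.take t` (a prefix of a reduced word is reduced). Useful: `Pool.Agent.H1.PP.Word` (`PPos.toWord_mk_of_isReduced`, `PPos.red_of_sub`), `FreeGroup.isReduced_toWord`,
`FreeGroup.mk_toWord`, `List.prefix_iff_eq_take`, `List.prefix_of_prefix_length_le`.
`closure_pos`: by induction a positive element is `mk (L.map fun i => (i, true))` with `L ≠ []`, and this word is reduced.
-/


namespace PF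

variable {n : ℕ}

theorem toWord_tk (g : F n) (t : ℕ) : (tk g t).toWord = g.toWord.take t :=
  PPos.toWord_mk_of_isReduced (PPos.red_of_sub FreeGroup.isReduced_toWord (List.take_prefix _ _).isInfix)

theorem len_tk (g : F n) (t : ℕ) : len (tk g t) = min t (len g) := by
  unfold len
  rw [toWord_tk, List.length_take]

theorem tk_zero (g : F n) : tk g 0 = 1 := by
  unfold tk
  rw [List.take_zero]
  rfl

theorem tk_self {g : F n} {t : ℕ} (h : len g ≤ t) : tk g t = g := by
  unfold tk
  rw [List.take_of_length_le h, FreeGroup.mk_toWord]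

theorem tk_tk (g : F n) (s t : ℕ) : tk (tk g s) t = tk g (min t s) := by
  show FreeGroup.mk ((tk g s).toWord.take t) = FreeGroup.mk (g.toWord.take (min t s))
  rw [toWord_tk, List.take_take]

theorem len_eq_zero (g : F n) : len g = 0 ↔ g = 1 := by
  unfold len
  rw [List.length_eq_zero_iff, FreeGroup.toWord_eq_nil_iff]

theorem pre_iff (g h : F n) : pre g h ↔ tk h (len g) = g := by
  unfold pre
  rw [List.prefix_iff_eq_take]
  constructor
  · intro hh
    apply FreeGroup.toWord_injective
    rw [toWord_tk]
    exact hh.symm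
  · intro hh
    have h1 := congrArg FreeGroup.toWord hh
    rw [toWord_tk] at h1
    exact h1.symm

theorem pre_tk (g : F n) (t : ℕ) : pre (tk g t) g := by
  unfold pre
  rw [toWord_tk]
  exact List.take_prefix _ _

theorem pre_rfl (g : F n) : pre g g := List.prefix_rfl

theorem pre_trans {a b c : F n} (h : pre a b) (h' : pre b c) : pre a c := List.IsPrefix.trans h h'

theorem pre_len {a b : F n} (h : pre a b) : len a ≤ len b := List.IsPrefix.length_le h

theorem pre_of_pre {a b h : F n} (ha : pre a h) (hb : pre b h) (hl : len a ≤ len b) : pre a b :=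
  List.prefix_of_prefix_length_le ha hb hl

theorem pre_eq {a b h : F n} (ha : pre a h) (hb : pre b h) (hl : len a = len b) : a = b := by
  rw [← (pre_iff a h).1 ha, ← (pre_iff b h).1 hb, hl]

/-- positive elements have positive reduced words -/
theorem closure_pos {g : F n} (h : g ∈ Subsemigroup.closure (Set.range (FreeGroup.of : Fin n → FreeGroup (Fin n)))) :
    g ≠ 1 ∧ ∀ a ∈ g.toWord, a.2 = true := by
  have hL : ∃ L : List (Fin n), L ≠ [] ∧ g = FreeGroup.mk (L.map fun i => (i, true)) := by
    induction h using Subsemigroup.closure_induction with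
    | mem x hx =>
      obtain ⟨i, rfl⟩ := hx
      exact ⟨[i], by simp, rfl⟩
    | mul x y _ _ hx hy =>
      obtain ⟨L, hL, rfl⟩ := hx
      obtain ⟨L', _, rfl⟩ := hy
      refine ⟨L ++ L', by simp [hL], ?_⟩
      rw [List.map_append, FreeGroup.mul_mk]
  obtain ⟨L, hL0, hL⟩ := hL
  have hred : FreeGroup.IsReduced (L.map fun i => (i, true)) := by
    unfold FreeGroup.IsReduced
    apply List.Pairwise.isChain
    rw [List.pairwise_map]
    exact List.pairwise_of_forall fun _ _ _ => rfl
  have hw : g.toWord = L.map fun i => (i, true) := by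
    rw [hL]
    exact PPos.toWord_mk_of_isReduced hred
  constructor
  · intro h1
    rw [← FreeGroup.toWord_eq_nil_iff, hw, List.map_eq_nil_iff] at h1
    exact hL0 h1
  · intro a ha
    rw [hw] at ha
    obtain ⟨i, _, rfl⟩ := List.mem_map.1 ha
    rfl

end PF
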