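import Pool.Agent.H1.PF.TrimOne

set_option autoImplicit false

/-!
# PF TrimL: remove a run of a side (helper1)

* `trimLeft`: induction on `d - p`. Let `c1` be the least number `> p` such that `c1 ∈ X` or `r.Q (c1 - p) ∈ X`; `c1 ≤ d` because `d ∈ X`. `trimOne` removes `[p, c1)`.
  If `c1 = d` we are done. If `c1 < d` apply the induction hypothesis to the new state with `r' = r.cutR (c1 - p)` (`r'.p = c1`, `r'.p + r'.l = p + l`; `Free1 r' L c1 d` because the second side of
  `r'` is inside the second side of `r`), `d` is still a mark; `(r.cutR i).cutR j = r.cutR (i + j)`.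
* `trimRun`: if `c = p` this is `trimLeft`. If `p < c`: add the mark `r.Q (c - p)` if it is not a mark (`Move.addMark`), `Move.cut` at `j = c - p`, `Move.perm` to the list
  `r.cutR j :: r.cutL j :: L`, and `trimLeft` (with `R + 1`) for `r.cutR j` and the list `r.cutL j :: L`. (`Free1`: the first side of `r.cutL j` is `[p, c)`, the second one is inside the second side
  of `r`.) At the end `Move.perm` to the order of `trimR`. The number of classes: as in `trimOne`.
* `merge2`: `Move.comp`, then `Move.perm` is not needed: `trimRun` for `r`, `c = p`, `d = p + l` and the list `r.comp r' :: L` (`trimR r (r.comp r' :: L) p (p + l) = r.comp r' :: L`).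

All states in the chain have at most `M` marks by `card_ok`.
-/

namespace PF

theorem trimL_cutR (r : Rel) (i j : ℕ) : (r.cutR i).cutR j = r.cutR (i + j) := by
  unfold Rel.cutR
  by_cases hs : r.s = true
  · simp only [hs, if_true]
    congr 1 <;> omega
  · simp only [Bool.not_eq_true] at hs
    simp only [hs, Bool.false_eq_true, if_false]
    congr 1 <;> omega

theorem trimLeft {n : ℕ} {sg : ℕ → Bool} {m : ℕ → FreeGroup (Fin n)} {M V R : ℕ} (hM : 2 * (V + R + n) + 10 ≤ M) {s : St}
    (hOk : Ok n sg m s) (hiso : s.NoIso) {r : Rel} {L : List Rel} (hs : s.rels = r :: L) {d : ℕ} (h1 : r.p < d) (h2 : d ≤ r.p + r.l)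
    (hd : d ∈ s.X) (hfree : Free1 r L r.p d) (hV : s.V ≤ V) (hR : s.rels.length ≤ R) :
    ∃ s', Chain M s s' ∧ Ok n sg m s' ∧ s'.NoIso ∧ s'.V ≤ s.V ∧ s'.D = s.D.filter (fun u => ¬ (r.p ≤ u ∧ u < d)) ∧
      s'.rels = (if d < r.p + r.l then [r.cutR (d - r.p)] else []) ++ L := by
  obtain ⟨k, hk⟩ : ∃ k, k = d - r.p := ⟨_, rfl⟩
  induction k using Nat.strong_induction_on generalizing s r with
  | _ k ih =>
    have hex : ∃ c, r.p < c ∧ (c ∈ s.X ∨ r.Q (c - r.p) ∈ s.X) := ⟨d, h1, Or.inl hd⟩
    classical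
    obtain ⟨c1, hc1, hcd, hcmin⟩ : ∃ c1, (r.p < c1 ∧ (c1 ∈ s.X ∨ r.Q (c1 - r.p) ∈ s.X)) ∧ c1 ≤ d ∧
        ∀ u, u < c1 → ¬ (r.p < u ∧ (u ∈ s.X ∨ r.Q (u - r.p) ∈ s.X)) :=
      ⟨Nat.find hex, Nat.find_spec hex, Nat.find_min' hex ⟨h1, Or.inl hd⟩, fun u hu => Nat.find_min hex hu⟩
    obtain ⟨t, a1, a2, a3, a4, a5, a6, a7⟩ := trimOne hM hOk hiso hs hc1.1 (hcd.trans h2)
      (fun u hu1 hu2 => ⟨fun h => hcmin u hu2 ⟨hu1, Or.inl h⟩, fun h => hcmin u hu2 ⟨hu1, Or.inr h⟩⟩) hc1.2
      (fun u hu1 hu2 => hfree u hu1 (by omega)) hV hR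
    rcases Nat.lt_or_ge c1 d with hlt | hge
    · have hlt' : c1 < r.p + r.l := by omega
      rw [if_pos hlt'] at a6
      have a6' : t.rels = r.cutR (c1 - r.p) :: L := a6
      have hRp : (r.cutR (c1 - r.p)).p = c1 := by
        show r.p + (c1 - r.p) = c1
        omega
      have hRl : (r.cutR (c1 - r.p)).l = r.l - (c1 - r.p) := rfl
      have hRq : (r.cutR (c1 - r.p)).q = if r.s then r.q + (c1 - r.p) else r.q := rfl
      have hlen : t.rels.length ≤ R := by
        rw [a6']
        rw [hs] at hR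
        simpa using hR
      obtain ⟨t', b1, b2, b3, b4, b5, b6⟩ := ih (d - c1) (by omega) a2 a3 a6' (by rw [hRp]; exact hlt)
        (by rw [hRp, hRl]; omega) (a7 d hd (by omega) (by omega)) (by
          intro u hu1 hu2
          rw [hRp] at hu1
          obtain ⟨g1, g2⟩ := hfree u (by omega) hu2
          refine ⟨?_, g2⟩
          rw [hRq, hRl]
          split <;> omega) (a4.trans hV) hlen (by rw [hRp])
      refine ⟨t', a1.trans b1, b2, b3, b4.trans a4, ?_, ?_⟩
      · rw [b5, a5, hRp, Finset.filter_filter]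
        refine Finset.filter_congr fun u _ => ?_
        have := hc1.1
        omega
      · rw [b6, trimL_cutR, hRp, hRl]
        have e1 : c1 - r.p + (d - c1) = d - r.p := by omega
        have e2 : c1 + (r.l - (c1 - r.p)) = r.p + r.l := by omega
        rw [e1, e2]
    · have hc : c1 = d := by omega
      rw [hc] at a5 a6
      exact ⟨t, a1, a2, a3, a4, a5, a6⟩

end PF
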