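import Pool.Agent.H1.PF.Mv
import Pool.Agent.H1.PF.Card

set_option autoImplicit false

/-!
# PF TrimOne: remove the first piece of a side (helper1)

`r = ⟨p, q, l, s⟩`, `p < c1 ≤ p + l`; there is no mark in `(p, c1)` and no mark in its image under `r`; `c1` or its image `z = r.Q (c1 - p)` is a mark; the units of `[p, c1)` are
covered by the first side of `r` only (`Free1`).

1. If `c1 = p + l`: both `c1` and `z = r.Q l` are marks (`Valid.pX`). If `c1 < p + l` and one of `c1, z` is not a mark: add it (`Move.addMark`, with a class `k` larger than all classes;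
   the two units around it are present: for `c1` the units `c1 - 1, c1` of `[p, p + l)`, for `z` two units of `[q, q + l)`). There is still no mark in `(p, c1)`: `z` is not in `(p, c1)`, because
   `z` is in `(q, q + l)` and the units of `[p, c1)` are not in `[q, q + l)`.
2. If `c1 < p + l`: `Move.cut` with `j = c1 - p`. Now the relations are `r.cutL j :: r.cutR j :: L`.
   (If `c1 = p + l` then `r` itself plays the role of `r.cutL l`: `r.cutL l = r`, and there is no `cutR`.)
3. `Move.del` for `r.cutL j` (`Free1 (r.cutL j) (r.cutR j :: L) p c1` follows from the hypothesis `Free1 r L p c1` and from `p + j = c1`: the sides of `cutL`, `cutR` are inside the sides of `r`).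
4. Drop `p` if it is isolated now: `x1 = r.Q 0` is a mark of the same class which is not isolated (it is an end of the interval `[q', q' + j)` of the second side of `r.cutL j`, whose units are still
   present), so `x1 ≠ p`. Then drop `c1` if it is isolated, with `x1 = r.Q j`. No other mark has become isolated.

`V`: step 1 adds one class, and step 2 glues it (`V_addMark`, `V_cut`; if a mark was added then its class is new, so the classes of `c1` and `z` are different and step 2 decreases `V` by one).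
So `V` of the result is `≤ s.V`, all intermediate states have `V ≤ V + 1`, at most `R + 1` relations, and at most two isolated marks (`p`, `c1`, only after step 3), so by
`card_ok` (with `V + 1`, `R + 1`) they have at most `2 * (V + R + n + 2) + 2 ≤ M` marks. `Ok` is preserved by all moves (`ok_move`).
-/

namespace PF

/-- the mark `x` is not isolated -/
def trimOne_NI (s : St) (x : ℕ) : Prop := x ∈ s.D ∨ ∃ u ∈ s.D, u + 1 = x

theorem trimOne_single {M : ℕ} {s t : St} (hs : s.X.card ≤ M) (ht : t.X.card ≤ M) (h : Move s t) : Chain M s t :=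
  Relation.ReflTransGen.single ⟨hs, ht, h⟩

/-- drop an isolated mark -/
theorem trimOne_drop {n : ℕ} {sg : ℕ → Bool} {m : ℕ → FreeGroup (Fin n)} {M : ℕ} {s : St} (hOk : Ok n sg m s) (hM : s.X.card ≤ M)
    (x0 x1 : ℕ) (h1 : x1 ∈ s.X) (hn1 : trimOne_NI s x1) (hcl : s.cl x1 = s.cl x0) :
    ∃ s', Chain M s s' ∧ Ok n sg m s' ∧ s'.V = s.V ∧ s'.D = s.D ∧ s'.rels = s.rels ∧ s'.cl = s.cl ∧ s'.X.card ≤ M ∧
      (∀ x ∈ s'.X, x ∈ s.X) ∧ (∀ x ∈ s.X, x ≠ x0 → x ∈ s'.X) ∧ (∀ x ∈ s.X, trimOne_NI s x → x ∈ s'.X) ∧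
      (x0 ∈ s'.X → trimOne_NI s x0) := by
  by_cases h : x0 ∈ s.X ∧ ¬ trimOne_NI s x0
  · obtain ⟨h0, hn0⟩ := h
    have h0D : x0 ∉ s.D := fun hh => hn0 (Or.inl hh)
    have h0D' : ∀ u ∈ s.D, u + 1 ≠ x0 := fun u hu he => hn0 (Or.inr ⟨u, hu, he⟩)
    have hne : x1 ≠ x0 := by
      intro he
      rw [he] at hn1
      exact hn0 hn1
    have hmv := Move.drop s x0 x1 h0 h0D h0D' h1 hne hcl
    have hcard : (s.X.erase x0).card ≤ M := (Finset.card_le_card (Finset.erase_subset _ _)).trans hM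
    refine ⟨_, trimOne_single hM hcard hmv, ok_move hOk hmv, V_drop h1 hne hcl _ _, rfl, rfl, rfl, hcard, ?_, ?_, ?_, ?_⟩
    · intro x hx
      exact Finset.mem_of_mem_erase hx
    · intro x hx hx0
      exact Finset.mem_erase.2 ⟨hx0, hx⟩
    · intro x hx hnx
      refine Finset.mem_erase.2 ⟨?_, hx⟩
      intro he
      rw [he] at hnx
      exact hn0 hnx
    · intro hx
      exact absurd rfl (Finset.mem_erase.1 hx).1
  · refine ⟨s, Relation.ReflTransGen.refl, hOk, rfl, rfl, rfl, rfl, hM, fun x hx => hx, fun x hx _ => hx, fun x hx _ => hx, ?_⟩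
    intro hx
    by_contra hcon
    exact h ⟨hx, hcon⟩

/-- delete the first relation together with its first side -/
theorem trimOne_del {n : ℕ} {sg : ℕ → Bool} {m : ℕ → FreeGroup (Fin n)} {M : ℕ} {s : St} (hOk : Ok n sg m s) (hiso : s.NoIso)
    (hM : s.X.card ≤ M) {r : Rel} {L : List Rel} (hs : s.rels = r :: L) (hm : ∀ u, r.p < u → u < r.p + r.l → u ∉ s.X)
    (hq : Free1 r L r.p (r.p + r.l)) :
    ∃ s', Chain M s s' ∧ Ok n sg m s' ∧ s'.NoIso ∧ s'.V = s.V ∧ s'.D = s.D.filter (fun u => ¬ (r.p ≤ u ∧ u < r.p + r.l)) ∧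
      s'.rels = L ∧ ∀ x ∈ s.X, x ≠ r.p → x ≠ r.p + r.l → x ∈ s'.X := by
  have hr : r ∈ s.rels := by rw [hs]; exact List.mem_cons_self
  have hlpos := hOk.valid.lpos r hr
  obtain ⟨hp1, hp2, hq1, hq2⟩ := hOk.valid.pX r hr
  obtain ⟨hcl0, hcl1⟩ := hOk.valid.cl0 r hr
  have hmv := Move.del s r L hs hm hq
  obtain ⟨t, ht⟩ : ∃ t : St, t = ⟨s.D.filter (fun u => ¬ (r.p ≤ u ∧ u < r.p + r.l)), s.X, s.cl, L, s.v0⟩ := ⟨_, rfl⟩
  rw [← ht] at hmv
  have htX : t.X = s.X := by rw [ht]
  have htD : t.D = s.D.filter (fun u => ¬ (r.p ≤ u ∧ u < r.p + r.l)) := by rw [ht]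
  have htcl : t.cl = s.cl := by rw [ht]
  have htr : t.rels = L := by rw [ht]
  have htV : t.V = s.V := by rw [ht]; rfl
  have hOkt := ok_move hOk hmv
  have hMt : t.X.card ≤ M := by rw [htX]; exact hM
  have hch1 : Chain M s t := trimOne_single hM hMt hmv
  -- marks different from the ends are not isolated
  have hni : ∀ x ∈ s.X, x ≠ r.p → x ≠ r.p + r.l → trimOne_NI t x := by
    intro x hx hxp hxl
    unfold trimOne_NI
    rw [htD]
    rcases hiso x hx with h | ⟨u, hu, hux⟩
    · left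
      refine Finset.mem_filter.2 ⟨h, fun hh => ?_⟩
      exact hm x (by omega) hh.2 hx
    · right
      refine ⟨u, Finset.mem_filter.2 ⟨hu, fun hh => ?_⟩, hux⟩
      exact hm x (by omega) (by omega) hx
  have hqD : ∀ j, j < r.l → r.q + j ∈ t.D := by
    intro j hj
    rw [htD]
    refine Finset.mem_filter.2 ⟨(hOk.valid.pD r hr j hj).2, fun hh => ?_⟩
    exact (hq _ hh.1 hh.2).1 ⟨by omega, by omega⟩
  have hq0 : trimOne_NI t r.q := Or.inl (by simpa using hqD 0 hlpos)
  have hql : trimOne_NI t (r.q + r.l) := Or.inr ⟨r.q + (r.l - 1), hqD _ (by omega), by omega⟩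
  have hQ0 : r.Q 0 ∈ t.X ∧ trimOne_NI t (r.Q 0) := by
    rw [htX]
    unfold Rel.Q
    by_cases hsr : r.s = true
    · rw [if_pos hsr]
      exact ⟨hq1, hq0⟩
    · rw [if_neg hsr]
      exact ⟨hq2, hql⟩
  have hQl : r.Q r.l ∈ t.X ∧ trimOne_NI t (r.Q r.l) := by
    rw [htX]
    unfold Rel.Q
    by_cases hsr : r.s = true
    · rw [if_pos hsr]
      exact ⟨hq2, hql⟩
    · rw [if_neg hsr, Nat.sub_self]
      exact ⟨hq1, hq0⟩
  obtain ⟨t1, hch2, hOk1, hV1, hD1, hr1, hcl1', hM1, hX1, hX1', hX1'', hx1⟩ := trimOne_drop hOkt hMt r.p (r.Q 0) hQ0.1 hQ0.2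
    (by rw [htcl]; exact hcl0.symm)
  have hNI1 : ∀ x, trimOne_NI t1 x ↔ trimOne_NI t x := by
    intro x
    unfold trimOne_NI
    rw [hD1]
  obtain ⟨t2, hch3, hOk2, hV2, hD2, hr2, -, hM2, hX2, hX2', -, hx2⟩ := trimOne_drop hOk1 hM1 (r.p + r.l) (r.Q r.l)
    (hX1'' _ hQl.1 hQl.2) ((hNI1 _).2 hQl.2) (by rw [hcl1', htcl]; exact hcl1.symm)
  have hNI2 : ∀ x, trimOne_NI t2 x ↔ trimOne_NI t x := by
    intro x
    unfold trimOne_NI
    rw [hD2, hD1]
  refine ⟨t2, (hch1.trans hch2).trans hch3, hOk2, ?_, by rw [hV2, hV1, htV], by rw [hD2, hD1, htD], by rw [hr2, hr1, htr], ?_⟩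
  · intro x hx
    have hxt : trimOne_NI t2 x := by
      rw [hNI2]
      by_cases hxl : x = r.p + r.l
      · rw [hxl] at hx ⊢
        exact (hNI1 _).1 (hx2 hx)
      · by_cases hxp : x = r.p
        · rw [hxp] at hx ⊢
          exact hx1 (hX2 _ hx)
        · exact hni x (by rw [← htX]; exact hX1 _ (hX2 _ hx)) hxp hxl
    exact hxt
  · intro x hx hxp hxl
    exact hX2' _ (hX1' _ (by rw [htX]; exact hx) hxp) hxl

/-- add a mark, if necessary -/
theorem trimOne_add {n : ℕ} {sg : ℕ → Bool} {m : ℕ → FreeGroup (Fin n)} {M V R : ℕ} (hM : 2 * (V + R + n) + 10 ≤ M) {s : St}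
    (hOk : Ok n sg m s) (hiso : s.NoIso) (hV : s.V ≤ V) (hR : s.rels.length ≤ R) {y y' : ℕ} (hy0 : 0 < y) (hy1 : y - 1 ∈ s.D)
    (hy2 : y ∈ s.D) (hy' : y' ∈ s.X) :
    ∃ s', Chain M s s' ∧ Ok n sg m s' ∧ s'.NoIso ∧ s'.D = s.D ∧ s'.rels = s.rels ∧ s'.X.card ≤ M ∧ y ∈ s'.X ∧
      (∀ x ∈ s.X, x ∈ s'.X) ∧ (∀ x ∈ s'.X, x ∈ s.X ∨ x = y) ∧
      (s'.V = s.V ∨ (s'.V = s.V + 1 ∧ s'.cl y ≠ s'.cl y')) := by
  have hcard : s.X.card ≤ M := by
    have h1 := card_ok hOk ∅ (fun x hx => by
      rcases hiso x hx with h | h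
      · exact Or.inl h
      · exact Or.inr (Or.inl h)) hV hR (by simp)
    omega
  by_cases hy : y ∈ s.X
  · exact ⟨s, Relation.ReflTransGen.refl, hOk, hiso, rfl, rfl, hcard, hy, fun x hx => hx, fun x hx => Or.inl hx, Or.inl rfl⟩
  · obtain ⟨z, hz⟩ : ∃ z, y = z + 1 := ⟨y - 1, by omega⟩
    subst hz
    obtain ⟨k, hk⟩ := Infinite.exists_notMem_finset (s.X.image s.cl)
    have hzD : z ∈ s.D := by simpa using hy1
    have hmv := Move.addMark s z k hy hzD hy2 hk
    have hOk' := ok_move hOk hmv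
    have hVV := V_addMark hy hk
    obtain ⟨t, ht⟩ : ∃ t : St, t = ⟨s.D, insert (z + 1) s.X, fun u => if u = z + 1 then k else s.cl u, s.rels, s.v0⟩ := ⟨_, rfl⟩
    rw [← ht] at hmv hOk' hVV
    have htX : t.X = insert (z + 1) s.X := by rw [ht]
    have htD : t.D = s.D := by rw [ht]
    have htr : t.rels = s.rels := by rw [ht]
    have htcl : ∀ u, t.cl u = if u = z + 1 then k else s.cl u := by rw [ht]; exact fun _ => rfl
    have hiso' : t.NoIso := by
      intro x hx
      rw [htD]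
      rw [htX, Finset.mem_insert] at hx
      rcases hx with hx | hx
      · rw [hx]
        exact Or.inl hy2
      · exact hiso x hx
    have hcard' : t.X.card ≤ M := by
      have h1 := card_ok hOk' ∅ (fun x hx => by
        rcases hiso' x hx with h | h
        · exact Or.inl h
        · exact Or.inr (Or.inl h)) (V := V + 1) (R := R) (by omega) (by rw [htr]; exact hR) (by simp)
      omega
    refine ⟨t, trimOne_single hcard hcard' hmv, hOk', hiso', htD, htr, hcard', ?_, ?_, ?_, Or.inr ⟨hVV, ?_⟩⟩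
    · rw [htX]
      exact Finset.mem_insert_self _ _
    · intro x hx
      rw [htX]
      exact Finset.mem_insert_of_mem hx
    · intro x hx
      rw [htX, Finset.mem_insert] at hx
      exact hx.symm
    · have hne : y' ≠ z + 1 := by
        intro h
        rw [h] at hy'
        exact hy hy'
      rw [htcl, htcl, if_pos rfl, if_neg hne]
      intro h
      rw [h] at hk
      exact hk (Finset.mem_image_of_mem _ hy')

theorem trimOne {n : ℕ} {sg : ℕ → Bool} {m : ℕ → FreeGroup (Fin n)} {M V R : ℕ} (hM : 2 * (V + R + n) + 10 ≤ M) {s : St}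
    (hOk : Ok n sg m s) (hiso : s.NoIso) {r : Rel} {L : List Rel} (hs : s.rels = r :: L) {c1 : ℕ} (h1 : r.p < c1) (h2 : c1 ≤ r.p + r.l)
    (hno : ∀ u, r.p < u → u < c1 → u ∉ s.X ∧ r.Q (u - r.p) ∉ s.X) (hex : c1 ∈ s.X ∨ r.Q (c1 - r.p) ∈ s.X)
    (hfree : Free1 r L r.p c1) (hV : s.V ≤ V) (hR : s.rels.length ≤ R) :
    ∃ s', Chain M s s' ∧ Ok n sg m s' ∧ s'.NoIso ∧ s'.V ≤ s.V ∧ s'.D = s.D.filter (fun u => ¬ (r.p ≤ u ∧ u < c1)) ∧
      s'.rels = (if c1 < r.p + r.l then [r.cutR (c1 - r.p)] else []) ++ L ∧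
      ∀ x ∈ s.X, x ≠ r.p → x ≠ c1 → x ∈ s'.X := by
  have hr : r ∈ s.rels := by rw [hs]; exact List.mem_cons_self
  have hlpos := hOk.valid.lpos r hr
  obtain ⟨hp1, hp2, hq1, hq2⟩ := hOk.valid.pX r hr
  have hcard : s.X.card ≤ M := by
    have h1 := card_ok hOk ∅ (fun x hx => by
      rcases hiso x hx with h | h
      · exact Or.inl h
      · exact Or.inr (Or.inl h)) hV hR (by simp)
    omega
  rcases Nat.lt_or_ge c1 (r.p + r.l) with hlt | hge
  · obtain ⟨j, hj⟩ : ∃ j, c1 = r.p + j := ⟨c1 - r.p, by omega⟩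
    have hj0 : 0 < j := by omega
    have hjl : j < r.l := by omega
    have hcj : c1 - r.p = j := by omega
    rw [hcj] at hex
    have hpD := hOk.valid.pD r hr
    have hQj : r.Q j = r.q + (if r.s then j else r.l - j) := by
      unfold Rel.Q
      split <;> rfl
    have hQ0 : 0 < r.Q j := by
      rw [hQj]
      split <;> omega
    have hQ1 : r.Q j - 1 ∈ s.D := by
      rw [hQj]
      split
      · rw [show r.q + j - 1 = r.q + (j - 1) by omega]
        exact (hpD _ (by omega)).2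
      · rw [show r.q + (r.l - j) - 1 = r.q + (r.l - j - 1) by omega]
        exact (hpD _ (by omega)).2
    have hQ2 : r.Q j ∈ s.D := by
      rw [hQj]
      split
      · exact (hpD _ hjl).2
      · exact (hpD _ (by omega)).2
    have hc1 : c1 - 1 ∈ s.D := by
      rw [show c1 - 1 = r.p + (j - 1) by omega]
      exact (hpD _ (by omega)).1
    have hc2 : c1 ∈ s.D := by
      rw [hj]
      exact (hpD _ hjl).1
    have hQin : r.q ≤ r.Q j ∧ r.Q j < r.q + r.l := by
      rw [hQj]
      split <;> omega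
    -- the state with both marks
    obtain ⟨t, hch, hOkt, hisot, htD, htr, htc, hc1t, hQt, htX, htX', htV⟩ : ∃ t : St, Chain M s t ∧ Ok n sg m t ∧ t.NoIso ∧
        t.D = s.D ∧ t.rels = s.rels ∧ t.X.card ≤ M ∧ c1 ∈ t.X ∧ r.Q j ∈ t.X ∧ (∀ x ∈ s.X, x ∈ t.X) ∧
        (∀ x ∈ t.X, x ∈ s.X ∨ x = c1 ∨ x = r.Q j) ∧ (t.V = s.V ∨ (t.V = s.V + 1 ∧ t.cl c1 ≠ t.cl (r.Q j))) := by
      rcases hex with hex | hex
      · obtain ⟨t, a1, a2, a3, a4, a5, a6, a7, a8, a9, a10⟩ := trimOne_add hM hOk hiso hV hR hQ0 hQ1 hQ2 hex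
        refine ⟨t, a1, a2, a3, a4, a5, a6, a8 _ hex, a7, a8, fun x hx => (a9 x hx).imp id Or.inr, ?_⟩
        exact a10.imp id fun h => ⟨h.1, h.2.symm⟩
      · obtain ⟨t, a1, a2, a3, a4, a5, a6, a7, a8, a9, a10⟩ := trimOne_add hM hOk hiso hV hR (by omega) hc1 hc2 hex
        exact ⟨t, a1, a2, a3, a4, a5, a6, a7, a8 _ hex, a8, fun x hx => (a9 x hx).imp id Or.inl, a10⟩
    have htr' : t.rels = r :: L := by rw [htr, hs]
    have hmv := Move.cut t r L j htr' hj0 hjl (by rw [← hj]; exact hc1t) hQt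
    obtain ⟨b, hb⟩ : ∃ b : St, b = ⟨t.D, t.X, mergeCl t.cl (r.p + j) (r.Q j), r.cutL j :: r.cutR j :: L, t.v0⟩ := ⟨_, rfl⟩
    have hVV := V_cut t t.D (r.cutL j :: r.cutR j :: L) t.v0 (r.p + j) (r.Q j) (by rw [← hj]; exact hc1t) hQt
    rw [← hb] at hmv hVV
    have hOkb := ok_move hOkt hmv
    have hbX : b.X = t.X := by rw [hb]
    have hbD : b.D = s.D := by rw [hb]; exact htD
    have hbr : b.rels = r.cutL j :: r.cutR j :: L := by rw [hb]
    have hbc : b.X.card ≤ M := by rw [hbX]; exact htc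
    have hisob : b.NoIso := by
      intro x hx
      rw [hbD, ← htD]
      rw [hbX] at hx
      exact hisot x hx
    have hbV : b.V ≤ s.V := by
      rcases htV with h | ⟨h, h'⟩
      · exact hVV.2.1.trans h.le
      · rw [hj] at h'
        have := hVV.2.2 h'
        omega
    have hLp : (r.cutL j).p = r.p := rfl
    have hLl : (r.cutL j).l = j := rfl
    have hLq : (r.cutL j).q = if r.s then r.q else r.q + (r.l - j) := rfl
    have hRp : (r.cutR j).p = r.p + j := rfl
    have hRl : (r.cutR j).l = r.l - j := rfl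
    have hRq : (r.cutR j).q = if r.s then r.q + j else r.q := rfl
    obtain ⟨s', k1, k2, k3, k4, k5, k6, k7⟩ := trimOne_del hOkb hisob hbc hbr (by
      intro u hu1 hu2 hu
      rw [hLp] at hu1
      rw [hLp, hLl] at hu2
      rw [hbX] at hu
      rcases htX' u hu with h | h | h
      · exact (hno u hu1 (by omega)).1 h
      · omega
      · exact (hfree u (by omega) (by omega)).1 (by rw [h]; exact hQin)) (by
      intro u hu1 hu2
      rw [hLp] at hu1
      rw [hLp, hLl] at hu2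
      obtain ⟨g1, g2⟩ := hfree u hu1 (by omega)
      refine ⟨?_, ?_⟩
      · rw [hLq, hLl]
        split <;> omega
      · intro x hx
        rcases List.mem_cons.1 hx with hx | hx
        · rw [hx, hRp, hRl, hRq]
          refine ⟨by omega, ?_⟩
          split <;> omega
        · exact g2 x hx)
    refine ⟨s', (hch.trans (trimOne_single htc hbc hmv)).trans k1, k2, k3, by omega, ?_, ?_, ?_⟩
    · rw [k5, hbD, hLp, hLl, hj]
    · rw [k6, if_pos hlt, hcj]
      rfl
    · intro x hx hxp hxc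
      refine k7 x (by rw [hbX]; exact htX x hx) ?_ ?_
      · rw [hLp]
        exact hxp
      · rw [hLp, hLl, ← hj]
        exact hxc
  · have hc : c1 = r.p + r.l := by omega
    obtain ⟨s', k1, k2, k3, k4, k5, k6, k7⟩ := trimOne_del hOk hiso hcard hs (fun u hu1 hu2 => (hno u hu1 (by omega)).1)
      (by rw [← hc]; exact hfree)
    refine ⟨s', k1, k2, k3, by omega, by rw [k5, hc], ?_, ?_⟩
    · rw [k6, if_neg (by omega)]
      rfl
    · intro x hx hxp hxc
      exact k7 x hx hxp (by rw [← hc]; exact hxc)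

end PF
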