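import Pool.Agent.H1.PF.Main

set_option autoImplicit false

/-!
# PF Unif: the bound is primitive recursive in both variables (helper1)
-/

namespace PF

private theorem unif_pow : Primrec₂ (fun x m : ℕ => x ^ m) := by
  refine Primrec.of_eq (f := fun q : ℕ × ℕ => Nat.rec (motive := fun _ => ℕ) 1
    (fun _ r => r * q.1) q.2) ?_ ?_
  · have h2 : Primrec₂ (fun (q : ℕ × ℕ) (t : ℕ × ℕ) => t.2 * q.1) :=
      Primrec.nat_mul.comp (Primrec.snd.comp Primrec.snd) (Primrec.fst.comp Primrec.fst)
    exact Primrec.nat_rec' Primrec.snd (Primrec.const 1) h2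
  · rintro ⟨x, m⟩
    induction m with
    | zero => rfl
    | succ m ih =>
      change Nat.rec (motive := fun _ => ℕ) 1 (fun _ r => r * x) m * x = x ^ (m + 1)
      rw [pow_succ]
      exact congrArg (fun t => t * x) ih

private theorem unif_len (n k : ℕ) : (PPos.wordsLE n (k + 1)).length = 1 + (PPos.wordsLE n k).length * (2 * n) := by
  have h : ((List.finRange n).flatMap (fun i => [(i, true), (i, false)])).length = 2 * n := by
    rw [List.length_flatMap]
    simp [mul_comm]
  conv_lhs => unfold PPos.wordsLE
  rw [List.length_cons, List.length_flatMap]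
  have h2 : (PPos.wordsLE n k).map (fun l => (((List.finRange n).flatMap (fun i => [(i, true), (i, false)])).map (fun a => a :: l)).length) =
      (PPos.wordsLE n k).map (fun _ => 2 * n) := by
    refine List.map_congr_left (fun l _ => ?_)
    rw [List.length_map, h]
  rw [h2, List.map_const', List.sum_replicate, smul_eq_mul]
  omega

private theorem unif_words : Primrec₂ (fun n k : ℕ => (PPos.wordsLE n k).length) := by
  refine Primrec.of_eq (f := fun q : ℕ × ℕ => Nat.rec (motive := fun _ => ℕ) 1
    (fun _ r => 1 + r * (2 * q.1)) q.2) ?_ ?_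
  · have h2 : Primrec₂ (fun (q : ℕ × ℕ) (t : ℕ × ℕ) => 1 + t.2 * (2 * q.1)) :=
      Primrec.nat_add.comp (Primrec.const 1) (Primrec.nat_mul.comp (Primrec.snd.comp Primrec.snd)
        (Primrec.nat_mul.comp (Primrec.const 2) (Primrec.fst.comp Primrec.fst)))
    exact Primrec.nat_rec' Primrec.snd (Primrec.const 1) h2
  · rintro ⟨n, k⟩
    induction k with
    | zero => rfl
    | succ k ih =>
      have ih' : Nat.rec (motive := fun _ => ℕ) 1 (fun _ r => 1 + r * (2 * n)) k = (PPos.wordsLE n k).length := ih
      change 1 + Nat.rec (motive := fun _ => ℕ) 1 (fun _ r => 1 + r * (2 * n)) k * (2 * n) = (PPos.wordsLE n (k + 1)).length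
      rw [unif_len, ih']

private theorem unif_bdT : Primrec₂ bdT := by
  unfold bdT
  have h : Primrec₂ (fun n N : ℕ => (PPos.wordsLE n (N + 1)).length) :=
    unif_words.comp Primrec.fst (Primrec.succ.comp Primrec.snd)
  exact Primrec.nat_mul.comp
    (Primrec.nat_add.comp (Primrec.nat_mul.comp (Primrec.const 2) Primrec.fst) (Primrec.const 1))
    (Primrec.nat_add.comp (Primrec.nat_mul.comp (Primrec.const 4) h) (Primrec.const 2))

private theorem unif_bdM : Primrec₂ bdM := by
  unfold bdM
  have h : Primrec (fun q : ℕ × ℕ => bdT q.1 q.2) := unif_bdT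
  exact Primrec.nat_add.comp (Primrec.nat_mul.comp (Primrec.const 2) (Primrec.nat_add.comp
    (Primrec.nat_add.comp h (Primrec.nat_add.comp (Primrec.nat_mul.comp
      (Primrec.const 2) h) (Primrec.const 1))) Primrec.fst)) (Primrec.const 14)

private theorem unif_numT : Primrec numT := by
  unfold numT
  exact Primrec.nat_mul.comp (unif_pow.comp (Primrec.const _) (Primrec.nat_add.comp
    (Primrec.nat_mul.comp (Primrec.const _) (unif_pow.comp Primrec.id (Primrec.const _)))
    (unif_pow.comp Primrec.id (Primrec.const _)))) Primrec.id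

theorem primrec2_bdF : Primrec₂ bdF := by
  unfold bdF
  have hT : Primrec (fun q : ℕ × ℕ => bdT q.1 q.2) := unif_bdT
  have hM : Primrec (fun q : ℕ × ℕ => bdM q.1 q.2) := unif_bdM
  exact Primrec.nat_mul.comp (unif_pow.comp (Primrec.const 3) hM)
    (Primrec.nat_mul.comp (unif_pow.comp (Primrec.nat_add.comp (Primrec.nat_mul.comp
      (Primrec.const 4) hM) (Primrec.const 2))
      (unif_numT.comp (Primrec.nat_add.comp hM (Primrec.const 1))))
      (Primrec.nat_add.comp (unif_pow.comp (Primrec.const 3) hT) hT))

private theorem unif_toWord {α : Type} [DecidableEq α] (L : List (α × Bool)) : (FreeGroup.mk L).toWord.length ≤ L.length := by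
  rw [FreeGroup.toWord_mk]
  exact FreeGroup.Red.length_le FreeGroup.reduce.red

/-- potentially positive words are made positive by automorphisms of bounded size -/
theorem bounded {n : ℕ} (w : List (Fin n × Bool)) (α : FreeGroup (Fin n) ≃* FreeGroup (Fin n))
    (h : α (FreeGroup.mk w) ∈ Subsemigroup.closure (Set.range (FreeGroup.of : Fin n → FreeGroup (Fin n)))) :
    ∃ β : FreeGroup (Fin n) ≃* FreeGroup (Fin n),
      β (FreeGroup.mk w) ∈ Subsemigroup.closure (Set.range (FreeGroup.of : Fin n → FreeGroup (Fin n))) ∧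
      ∀ i, (β (FreeGroup.of i)).toWord.length ≤ bdF n w.length ∧
        (β.symm (FreeGroup.of i)).toWord.length ≤ bdF n w.length := by
  obtain ⟨a, b, ha, hb, hab, L, hL, hw⟩ := crit_of_pos w ⟨α, h⟩
  obtain ⟨β, hβ⟩ := hopf a b hab
  have hpos : β (FreeGroup.mk w) ∈ Subsemigroup.closure (Set.range (FreeGroup.of : Fin n → FreeGroup (Fin n))) := by
    rw [hβ, hw]
    clear hw
    induction L with
    | nil => exact absurd rfl hL
    | cons x L ih =>
      rw [List.map_cons, List.prod_cons]
      rcases eq_or_ne L [] with rfl | hL'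
      · rw [List.map_nil, List.prod_nil, mul_one]
        exact Subsemigroup.subset_closure ⟨x, rfl⟩
      · exact mul_mem (Subsemigroup.subset_closure ⟨x, rfl⟩) (ih hL')
  refine ⟨β, hpos, fun i => ⟨?_, ?_⟩⟩
  · have h1 : β (FreeGroup.of i) = FreeGroup.mk (a i) := by
      have h2 := hβ [(i, true)]
      have h3 : FreeGroup.mk [(i, true)] = FreeGroup.of i := rfl
      rw [h3] at h2
      rw [h2]
      change FreeGroup.lift _ (FreeGroup.of i) = _
      rw [FreeGroup.lift_apply_of]
    rw [h1]
    exact (unif_toWord _).trans (ha i)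
  · have h1 : β.symm (FreeGroup.of i) = FreeGroup.mk (b i) := by
      rw [MulEquiv.symm_apply_eq, hβ, hab]
    rw [h1]
    exact (unif_toWord _).trans (hb i)

end PF
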